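import Pool.Agent.Work.MP_3615d2_al.WInt
import Pool.Agent.Work.MP_3615d2_al.OpenCell

/-!
MP_3615d2_al, block Co: the integral of locally constant functions with compact support on
rectangular matrices, with values in a complex vector space, and its behaviour under
`x ↦ a⁻¹ x d`.
-/

open MeasureTheory Measure Filter Topology Matrix
open scoped NNReal ENNReal Pointwise

set_option linter.unusedSectionVars false

namespace SpW

section mat

variable {E : Type} [Field E] {p q : ℕ}

/-- The map `x ↦ a x d` on rectangular matrices. -/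
def mulBothJ (a : GL (Fin p) E) (d : GL (Fin q) E) :
    (Fin p → Fin q → E) ≃ₗ[E] (Fin p → Fin q → E) where
  toFun x := (a : Matrix (Fin p) (Fin p) E) * Matrix.of x * (d : Matrix (Fin q) (Fin q) E)
  map_add' x y := by
    show (a : Matrix (Fin p) (Fin p) E) * (Matrix.of x + Matrix.of y) *
        (d : Matrix (Fin q) (Fin q) E) = _
    rw [Matrix.mul_add, Matrix.add_mul]
    rfl
  map_smul' c x := by
    show (a : Matrix (Fin p) (Fin p) E) * (c • Matrix.of x) *
        (d : Matrix (Fin q) (Fin q) E) = _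
    rw [Matrix.mul_smul, Matrix.smul_mul]
    rfl
  invFun x := ((a⁻¹ : GL (Fin p) E) : Matrix (Fin p) (Fin p) E) * Matrix.of x *
    ((d⁻¹ : GL (Fin q) E) : Matrix (Fin q) (Fin q) E)
  left_inv x := by
    show ((a⁻¹ : GL (Fin p) E) : Matrix (Fin p) (Fin p) E) *
      ((a : Matrix (Fin p) (Fin p) E) * Matrix.of x * (d : Matrix (Fin q) (Fin q) E)) *
      ((d⁻¹ : GL (Fin q) E) : Matrix (Fin q) (Fin q) E) = Matrix.of x
    have ha : ((a⁻¹ : GL (Fin p) E) : Matrix (Fin p) (Fin p) E) * (a : Matrix (Fin p) (Fin p) E) =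
        1 := by rw [← Units.val_mul, inv_mul_cancel, Units.val_one]
    have hd : (d : Matrix (Fin q) (Fin q) E) * ((d⁻¹ : GL (Fin q) E) : Matrix (Fin q) (Fin q) E) =
        1 := by rw [← Units.val_mul, mul_inv_cancel, Units.val_one]
    rw [← Matrix.mul_assoc, ← Matrix.mul_assoc, ha, Matrix.one_mul, Matrix.mul_assoc, hd,
      Matrix.mul_one]
  right_inv x := by
    show (a : Matrix (Fin p) (Fin p) E) *
      (((a⁻¹ : GL (Fin p) E) : Matrix (Fin p) (Fin p) E) * Matrix.of x *
        ((d⁻¹ : GL (Fin q) E) : Matrix (Fin q) (Fin q) E)) * (d : Matrix (Fin q) (Fin q) E) =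
      Matrix.of x
    have ha : (a : Matrix (Fin p) (Fin p) E) * ((a⁻¹ : GL (Fin p) E) : Matrix (Fin p) (Fin p) E) =
        1 := by rw [← Units.val_mul, mul_inv_cancel, Units.val_one]
    have hd : ((d⁻¹ : GL (Fin q) E) : Matrix (Fin q) (Fin q) E) * (d : Matrix (Fin q) (Fin q) E) =
        1 := by rw [← Units.val_mul, inv_mul_cancel, Units.val_one]
    rw [← Matrix.mul_assoc, ← Matrix.mul_assoc, ha, Matrix.one_mul, Matrix.mul_assoc, hd,
      Matrix.mul_one]

theorem det_mulBothJ_right (d : GL (Fin q) E) :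
    LinearMap.det ((mulBothJ (1 : GL (Fin p) E) d :
      (Fin p → Fin q → E) ≃ₗ[E] (Fin p → Fin q → E)) :
      (Fin p → Fin q → E) →ₗ[E] (Fin p → Fin q → E)) =
      (d : Matrix (Fin q) (Fin q) E).det ^ p := by
  have h1 : ((mulBothJ (1 : GL (Fin p) E) d : (Fin p → Fin q → E) ≃ₗ[E] (Fin p → Fin q → E)) :
      (Fin p → Fin q → E) →ₗ[E] (Fin p → Fin q → E)) =
      LinearMap.pi (fun i => (Matrix.toLin' (d : Matrix (Fin q) (Fin q) E).transpose).comp
        (LinearMap.proj i)) := by
    apply LinearMap.ext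
    intro x
    funext i j
    show (((1 : GL (Fin p) E) : Matrix (Fin p) (Fin p) E) * Matrix.of x *
      (d : Matrix (Fin q) (Fin q) E)) i j = ((d : Matrix (Fin q) (Fin q) E).transpose.mulVec (x i)) j
    rw [Units.val_one, Matrix.one_mul, Matrix.mulVec_transpose]
    rfl
  rw [h1, LinearMap.det_pi, Finset.prod_const, Finset.card_univ, Fintype.card_fin,
    LinearMap.det_toLin', Matrix.det_transpose]

/-- The transposition as a linear equivalence. -/
def trLJ (p q : ℕ) (E : Type) [Field E] : (Fin q → Fin p → E) ≃ₗ[E] (Fin p → Fin q → E) where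
  toFun x i j := x j i
  map_add' _ _ := rfl
  map_smul' _ _ := rfl
  invFun x i j := x j i
  left_inv _ := rfl
  right_inv _ := rfl

theorem det_mulBothJ_left (a : GL (Fin p) E) :
    LinearMap.det ((mulBothJ a (1 : GL (Fin q) E) :
      (Fin p → Fin q → E) ≃ₗ[E] (Fin p → Fin q → E)) :
      (Fin p → Fin q → E) →ₗ[E] (Fin p → Fin q → E)) =
      (a : Matrix (Fin p) (Fin p) E).det ^ q := by
  have h1 : ((mulBothJ a (1 : GL (Fin q) E) : (Fin p → Fin q → E) ≃ₗ[E] (Fin p → Fin q → E)) :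
      (Fin p → Fin q → E) →ₗ[E] (Fin p → Fin q → E)) =
      (trLJ p q E).toLinearMap.comp ((LinearMap.pi
        (fun i => (Matrix.toLin' (a : Matrix (Fin p) (Fin p) E)).comp
        (LinearMap.proj i))).comp (trLJ p q E).symm.toLinearMap) := by
    apply LinearMap.ext
    intro x
    funext i j
    show ((a : Matrix (Fin p) (Fin p) E) * Matrix.of x *
      ((1 : GL (Fin q) E) : Matrix (Fin q) (Fin q) E)) i j =
      ((a : Matrix (Fin p) (Fin p) E).mulVec (fun k => x k j)) i
    rw [Units.val_one, Matrix.mul_one]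
    rfl
  rw [h1]
  have h2 := LinearMap.det_conj (LinearMap.pi
        (fun i : Fin q => (Matrix.toLin' (a : Matrix (Fin p) (Fin p) E)).comp
        (LinearMap.proj i))) (trLJ p q E)
  rw [h2, LinearMap.det_pi, Finset.prod_const, Finset.card_univ, Fintype.card_fin,
    LinearMap.det_toLin']

theorem det_mulBothJ (a : GL (Fin p) E) (d : GL (Fin q) E) :
    LinearMap.det ((mulBothJ a d : (Fin p → Fin q → E) ≃ₗ[E] (Fin p → Fin q → E)) :
      (Fin p → Fin q → E) →ₗ[E] (Fin p → Fin q → E)) =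
      (a : Matrix (Fin p) (Fin p) E).det ^ q * (d : Matrix (Fin q) (Fin q) E).det ^ p := by
  have h1 : ((mulBothJ a d : (Fin p → Fin q → E) ≃ₗ[E] (Fin p → Fin q → E)) :
      (Fin p → Fin q → E) →ₗ[E] (Fin p → Fin q → E)) =
      ((mulBothJ a (1 : GL (Fin q) E) : (Fin p → Fin q → E) ≃ₗ[E] (Fin p → Fin q → E)) :
      (Fin p → Fin q → E) →ₗ[E] (Fin p → Fin q → E)) *
      ((mulBothJ (1 : GL (Fin p) E) d : (Fin p → Fin q → E) ≃ₗ[E] (Fin p → Fin q → E)) :
      (Fin p → Fin q → E) →ₗ[E] (Fin p → Fin q → E)) := by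
    apply LinearMap.ext
    intro x
    show (a : Matrix (Fin p) (Fin p) E) * Matrix.of x * (d : Matrix (Fin q) (Fin q) E) =
      (a : Matrix (Fin p) (Fin p) E) * (((1 : GL (Fin p) E) : Matrix (Fin p) (Fin p) E) *
        Matrix.of x * (d : Matrix (Fin q) (Fin q) E)) *
          ((1 : GL (Fin q) E) : Matrix (Fin q) (Fin q) E)
    rw [Units.val_one, Units.val_one, Matrix.one_mul, Matrix.mul_one, Matrix.mul_assoc]
  rw [h1, map_mul, det_mulBothJ_left, det_mulBothJ_right]

end mat

section lattice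

variable {E : Type} [NontriviallyNormedField E] [IsUltrametricDist E] {p q : ℕ}

/-- The lattice of rectangular matrices with entries of norm at most `R`. -/
def latRJ (E : Type) [NontriviallyNormedField E] [IsUltrametricDist E] (p q : ℕ) (R : ℝ)
    (hR : 0 ≤ R) : AddSubgroup (Matrix (Fin p) (Fin q) E) where
  carrier := {x | ∀ i j, ‖x i j‖ ≤ R}
  add_mem' := by
    intro a b ha hb i j
    exact (IsUltrametricDist.norm_add_le_max _ _).trans (max_le (ha i j) (hb i j))
  zero_mem' := fun i j => by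
    show ‖(0 : E)‖ ≤ R
    rwa [norm_zero]
  neg_mem' := by
    intro a ha i j
    show ‖-a i j‖ ≤ R
    rw [norm_neg]
    exact ha i j

theorem latRJ_eq (R : ℝ) (hR : 0 ≤ R) : (latRJ E p q R hR : Set (Matrix (Fin p) (Fin q) E)) =
    Set.pi Set.univ fun _ : Fin p => Set.pi Set.univ fun _ : Fin q => Metric.closedBall (0 : E) R := by
  apply Set.ext
  intro x
  have h : x ∈ (Set.pi Set.univ fun _ : Fin p => Set.pi Set.univ fun _ : Fin q =>
      Metric.closedBall (0 : E) R) ↔ ∀ i j, ‖x i j‖ ≤ R := by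
    constructor
    · intro h i j
      have := h i (Set.mem_univ _) j (Set.mem_univ _)
      rwa [Metric.mem_closedBall, dist_zero_right] at this
    · intro h i _ j _
      rw [Metric.mem_closedBall, dist_zero_right]
      exact h i j
  exact h.symm

theorem latRJ_isCompact [ProperSpace E] (R : ℝ) (hR : 0 ≤ R) :
    IsCompact (latRJ E p q R hR : Set (Matrix (Fin p) (Fin q) E)) := by
  have h1 : IsCompact (Set.pi Set.univ fun _ : Fin p =>
      Set.pi Set.univ fun _ : Fin q => Metric.closedBall (0 : E) R) :=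
    isCompact_univ_pi fun _ => isCompact_univ_pi fun _ => isCompact_closedBall _ _
  rw [latRJ_eq]
  exact h1

theorem latRJ_isOpen {R : ℝ} (hR : 0 < R) :
    IsOpen (latRJ E p q R hR.le : Set (Matrix (Fin p) (Fin q) E)) := by
  have h1 : IsOpen (Set.pi Set.univ fun _ : Fin p =>
      Set.pi Set.univ fun _ : Fin q => Metric.closedBall (0 : E) R) :=
    isOpen_set_pi Set.finite_univ fun _ _ => isOpen_set_pi Set.finite_univ fun _ _ =>
      IsUltrametricDist.isOpen_closedBall _ hR.ne'
  rw [latRJ_eq]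
  exact h1

end lattice

section mint

variable {E : Type} [NontriviallyNormedField E] [ProperSpace E] {p q : ℕ}
  {W : Type} [AddCommGroup W] [Module ℂ W]

/-- The Haar measure of a set of rectangular matrices. -/
noncomputable def mvolJ (U : Set (Matrix (Fin p) (Fin q) E)) : ℝ :=
  letI : MeasurableSpace (Fin p → Fin q → E) := borel _
  haveI : BorelSpace (Fin p → Fin q → E) := ⟨rfl⟩
  (addHaar : Measure (Fin p → Fin q → E)).real U

/-- The integral over the rectangular matrices of locally constant compactly supported functions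
with values in `W`. -/
noncomputable def mintJ (E : Type) [NontriviallyNormedField E] [ProperSpace E] (p q : ℕ)
    (W : Type) [AddCommGroup W] [Module ℂ W] : Sch (Matrix (Fin p) (Fin q) E) W →ₗ[ℂ] W :=
  letI : MeasurableSpace (Fin p → Fin q → E) := borel _
  haveI : BorelSpace (Fin p → Fin q → E) := ⟨rfl⟩
  schIL (Fin p → Fin q → E) W addHaar

theorem mvolJ_pos_aux {U : Set (Fin p → Fin q → E)} (hU : IsOpen U) (hU' : IsCompact U)
    (hne : U.Nonempty) : 0 < mvolJ U := by
  let _ : MeasurableSpace (Fin p → Fin q → E) := borel _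
  have : BorelSpace (Fin p → Fin q → E) := ⟨rfl⟩
  have h1 : (addHaar : Measure (Fin p → Fin q → E)) U ≠ 0 := (IsOpen.measure_pos _ hU hne).ne'
  have h2 : (addHaar : Measure (Fin p → Fin q → E)) U ≠ ∞ := (IsCompact.measure_lt_top hU').ne
  exact ENNReal.toReal_pos h1 h2

theorem mvolJ_pos {U : Set (Matrix (Fin p) (Fin q) E)} (hU : IsOpen U) (hU' : IsCompact U)
    (hne : U.Nonempty) : 0 < mvolJ U :=
  mvolJ_pos_aux (p := p) (q := q) hU hU' hne

theorem mintJ_translate_aux (f g : Sch (Fin p → Fin q → E) W) (y : Fin p → Fin q → E)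
    (h : ∀ x, g.1 x = f.1 (x + y)) : mintJ E p q W g = mintJ E p q W f := by
  let _ : MeasurableSpace (Fin p → Fin q → E) := borel _
  have : BorelSpace (Fin p → Fin q → E) := ⟨rfl⟩
  exact schI_translate addHaar f g y h

/-- Translation invariance. -/
theorem mintJ_translate (f g : Sch (Matrix (Fin p) (Fin q) E) W) (y : Matrix (Fin p) (Fin q) E)
    (h : ∀ x, g.1 x = f.1 (x + y)) : mintJ E p q W g = mintJ E p q W f :=
  mintJ_translate_aux f g y h

theorem mintJ_indicator_aux (f : Sch (Fin p → Fin q → E) W)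
    {U : Set (Fin p → Fin q → E)} (hU : IsOpen U) {w : W}
    (h1 : ∀ x ∈ U, f.1 x = w) (h2 : ∀ x, x ∉ U → f.1 x = 0) :
    mintJ E p q W f = ((mvolJ U : ℝ) : ℂ) • w := by
  let _ : MeasurableSpace (Fin p → Fin q → E) := borel _
  have : BorelSpace (Fin p → Fin q → E) := ⟨rfl⟩
  exact schI_indicator_const addHaar f hU h1 h2

/-- The integral of `1_U w`. -/
theorem mintJ_indicator (f : Sch (Matrix (Fin p) (Fin q) E) W)
    {U : Set (Matrix (Fin p) (Fin q) E)} (hU : IsOpen U) {w : W}
    (h1 : ∀ x ∈ U, f.1 x = w) (h2 : ∀ x, x ∉ U → f.1 x = 0) :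
    mintJ E p q W f = ((mvolJ U : ℝ) : ℂ) • w :=
  mintJ_indicator_aux f hU h1 h2

theorem mintJ_map_aux {W' : Type} [AddCommGroup W'] [Module ℂ W'] (A : W →ₗ[ℂ] W')
    (f : Sch (Fin p → Fin q → E) W) :
    mintJ E p q W' (schMap A f) = A (mintJ E p q W f) := by
  let _ : MeasurableSpace (Fin p → Fin q → E) := borel _
  have : BorelSpace (Fin p → Fin q → E) := ⟨rfl⟩
  exact (schI_map addHaar A f).symm

theorem mintJ_map {W' : Type} [AddCommGroup W'] [Module ℂ W'] (A : W →ₗ[ℂ] W')
    (f : Sch (Matrix (Fin p) (Fin q) E) W) :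
    mintJ E p q W' (schMap A f) = A (mintJ E p q W f) :=
  mintJ_map_aux A f

/-- The functional characterisation of the integral. -/
theorem mintJ_congr_map {W' : Type} [AddCommGroup W'] [Module ℂ W']
    (f : Sch (Matrix (Fin p) (Fin q) E) W)
    (g : Sch (Matrix (Fin p) (Fin q) E) W') (A : W →ₗ[ℂ] W') (h : ∀ x, g.1 x = A (f.1 x)) :
    mintJ E p q W' g = A (mintJ E p q W f) := by
  rw [← mintJ_map A f]
  congr 1
  exact Subtype.ext (funext h)

/-- The integral of a function with values in a subspace. -/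
theorem mintJ_mem (f : Sch (Matrix (Fin p) (Fin q) E) W) (W₁ : Submodule ℂ W)
    (h : ∀ x, f.1 x ∈ W₁) : mintJ E p q W f ∈ W₁ := by
  have h1 := mintJ_map W₁.mkQ f
  have h2 : schMap W₁.mkQ f = 0 := by
    apply Subtype.ext
    funext x
    exact (Submodule.Quotient.mk_eq_zero W₁).2 (h x)
  rw [h2, map_zero] at h1
  exact (Submodule.Quotient.mk_eq_zero W₁).1 h1.symm

/-- A locally constant function with compact support with given integral. -/
theorem exists_mintJ [IsUltrametricDist E] (w : W) :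
    ∃ φ : Sch (Matrix (Fin p) (Fin q) E) W, mintJ E p q W φ = w ∧
      ∀ W₁ : Submodule ℂ W, w ∈ W₁ → ∀ x, φ.1 x ∈ W₁ := by
  classical
  have hC := latRJ_isCompact (E := E) (p := p) (q := q) 1 zero_lt_one.le
  have hCo := latRJ_isOpen (E := E) (p := p) (q := q) zero_lt_one
  have hCc := (latRJ E p q 1 zero_lt_one.le).isClosed_of_isOpen hCo
  have hv : 0 < mvolJ (latRJ E p q 1 zero_lt_one.le : Set (Matrix (Fin p) (Fin q) E)) :=
    mvolJ_pos hCo hC ⟨0, zero_mem _⟩
  set c := mvolJ (latRJ E p q 1 zero_lt_one.le : Set (Matrix (Fin p) (Fin q) E)) with hc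
  let w' : W := ((c : ℝ) : ℂ)⁻¹ • w
  let φ : Matrix (Fin p) (Fin q) E → W := fun x =>
    if x ∈ latRJ E p q 1 zero_lt_one.le then w' else 0
  have hφ : IsLocallyConstant φ := by
    rw [IsLocallyConstant.iff_eventually_eq]
    intro x
    by_cases hx : x ∈ latRJ E p q 1 zero_lt_one.le
    · filter_upwards [hCo.mem_nhds hx] with y hy
      show (if y ∈ latRJ E p q 1 zero_lt_one.le then w' else 0) =
        if x ∈ latRJ E p q 1 zero_lt_one.le then w' else 0
      have hy' : y ∈ latRJ E p q 1 zero_lt_one.le := hy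
      rw [if_pos hx, if_pos hy']
    · filter_upwards [hCc.isOpen_compl.mem_nhds hx] with y hy
      show (if y ∈ latRJ E p q 1 zero_lt_one.le then w' else 0) =
        if x ∈ latRJ E p q 1 zero_lt_one.le then w' else 0
      have hy' : y ∉ latRJ E p q 1 zero_lt_one.le := hy
      rw [if_neg hx, if_neg hy']
  refine ⟨⟨φ, hφ, _, hC, fun x hx => if_neg hx⟩, ?_, fun W₁ hw x => ?_⟩
  · have h1 := mintJ_indicator (⟨φ, hφ, _, hC, fun x hx => if_neg hx⟩ :
      Sch (Matrix (Fin p) (Fin q) E) W) hCo (w := w') (fun x hx => if_pos hx)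
      (fun x hx => if_neg hx)
    rw [h1, ← hc, smul_smul, mul_inv_cancel₀ (by exact_mod_cast hv.ne'), one_smul]
  · show (if x ∈ latRJ E p q 1 zero_lt_one.le then w' else 0) ∈ W₁
    split_ifs
    · exact W₁.smul_mem _ hw
    · exact W₁.zero_mem

variable [MeasurableSpace E] [BorelSpace E]

theorem md_det_eq' {n : ℕ} (a : GL (Fin n) E) :
    ((md (a : Matrix (Fin n) (Fin n) E).det : ℝ≥0) : ℝ) = ad a := by
  unfold ad absE
  rw [← Matrix.GeneralLinearGroup.val_det_apply, md_units]

omit [MeasurableSpace E] [BorelSpace E] in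
theorem mintJ_mul_aux (f g : Sch (Fin p → Fin q → E) W) (T : (Fin p → Fin q → E) ≃ₗ[E]
    (Fin p → Fin q → E)) (h : ∀ x, g.1 x = f.1 (T x)) :
    mintJ E p q W g = ((((md (LinearMap.det (T : (Fin p → Fin q → E) →ₗ[E]
      (Fin p → Fin q → E))) : ℝ≥0) : ℝ) : ℂ))⁻¹ • mintJ E p q W f := by
  let _ : MeasurableSpace (Fin p → Fin q → E) := borel _
  have : BorelSpace (Fin p → Fin q → E) := ⟨rfl⟩
  exact schI_linearEquiv addHaar T f g h

/-- The modulus of `x ↦ a⁻¹ x d`. -/
theorem mintJ_mul (f g : Sch (Matrix (Fin p) (Fin q) E) W) (a : GL (Fin p) E) (d : GL (Fin q) E)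
    (h : ∀ x : Matrix (Fin p) (Fin q) E, g.1 x =
      f.1 (((a⁻¹ : GL (Fin p) E) : Matrix (Fin p) (Fin p) E) * x *
        (d : Matrix (Fin q) (Fin q) E))) :
    mintJ E p q W g = ((ad a ^ (q : ℝ) * ad d ^ (-(p : ℝ)) : ℝ) : ℂ) • mintJ E p q W f := by
  have h1 := mintJ_mul_aux (p := p) (q := q) f g (mulBothJ a⁻¹ d) h
  have h2 : (((md (LinearMap.det ((mulBothJ a⁻¹ d :
      (Fin p → Fin q → E) ≃ₗ[E] (Fin p → Fin q → E)) :
      (Fin p → Fin q → E) →ₗ[E] (Fin p → Fin q → E))) : ℝ≥0) : ℝ) : ℂ)⁻¹ =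
      ((ad a ^ (q : ℝ) * ad d ^ (-(p : ℝ)) : ℝ) : ℂ) := by
    rw [det_mulBothJ, md_mul, md_pow, md_pow, NNReal.coe_mul, NNReal.coe_pow, NNReal.coe_pow,
      md_det_eq', md_det_eq', ← Complex.ofReal_inv]
    congr 1
    have h3 : ad a⁻¹ = (ad a)⁻¹ := by
      refine eq_inv_of_mul_eq_one_left ?_
      rw [← ad_mul, inv_mul_cancel, ad_one]
    rw [h3, Real.rpow_neg (ad_pos d).le, Real.rpow_natCast, Real.rpow_natCast, mul_inv, inv_pow,
      inv_inv]
  rw [h2] at h1
  exact h1

end mint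

end SpW
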