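import Pool.Agent.Work.MP_3615d2_al.Co.IndAB
import Pool.Agent.Work.MP_3615d2_al.Co.IntJ

/-!
MP_3615d2_al, block Co: the open cell `P_{a,b} w N_{b,a}` of `GL_N(E)`, `a + b = N`, and the
functions of `IndJ h ρ` supported on it.
-/

open Matrix Filter Topology

set_option linter.unusedSectionVars false

namespace SpW

section alg

variable {E : Type} [Field E] {a b N : ℕ} (h : a + b = N) (h' : b + a = N)

/-- The block matrix with row blocks `(a, b)` and column blocks `(b, a)`. -/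
def bmX (A : Matrix (Fin a) (Fin b) E) (B : Matrix (Fin a) (Fin a) E)
    (C : Matrix (Fin b) (Fin b) E) (D : Matrix (Fin b) (Fin a) E) : Matrix (Fin N) (Fin N) E :=
  (Matrix.fromBlocks A B C D).submatrix (sJ h).symm (sJ h').symm

/-- the lower left block of size `b × b` -/
def xL (g : Matrix (Fin N) (Fin N) E) : Matrix (Fin b) (Fin b) E :=
  fun i j => g (sJ h (Sum.inr i)) (sJ h' (Sum.inl j))

/-- the lower right block of size `b × a` -/
def xR (g : Matrix (Fin N) (Fin N) E) : Matrix (Fin b) (Fin a) E :=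
  fun i j => g (sJ h (Sum.inr i)) (sJ h' (Sum.inr j))

theorem xL_bmX (A : Matrix (Fin a) (Fin b) E) (B : Matrix (Fin a) (Fin a) E)
    (C : Matrix (Fin b) (Fin b) E) (D : Matrix (Fin b) (Fin a) E) :
    xL h h' (bmX h h' A B C D) = C := by
  ext i j
  simp [xL, bmX]

theorem xR_bmX (A : Matrix (Fin a) (Fin b) E) (B : Matrix (Fin a) (Fin a) E)
    (C : Matrix (Fin b) (Fin b) E) (D : Matrix (Fin b) (Fin a) E) :
    xR h h' (bmX h h' A B C D) = D := by
  ext i j
  simp [xR, bmX]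

theorem exists_bmX (g : Matrix (Fin N) (Fin N) E) :
    ∃ (A : Matrix (Fin a) (Fin b) E) (B : Matrix (Fin a) (Fin a) E),
      g = bmX h h' A B (xL h h' g) (xR h h' g) := by
  refine ⟨fun i j => g (sJ h (Sum.inl i)) (sJ h' (Sum.inl j)),
    fun i j => g (sJ h (Sum.inl i)) (sJ h' (Sum.inr j)), ?_⟩
  ext i j
  obtain ⟨i, rfl⟩ := (sJ h).surjective i
  obtain ⟨j, rfl⟩ := (sJ h').surjective j
  rcases i with i | i <;> rcases j with j | j <;> simp [bmX, xL, xR]

theorem bmJ_mul_bmX (P : Matrix (Fin a) (Fin a) E) (Y : Matrix (Fin a) (Fin b) E)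
    (R : Matrix (Fin b) (Fin a) E) (Q : Matrix (Fin b) (Fin b) E)
    (A : Matrix (Fin a) (Fin b) E) (B : Matrix (Fin a) (Fin a) E)
    (C : Matrix (Fin b) (Fin b) E) (D : Matrix (Fin b) (Fin a) E) :
    bmJ h P Y R Q * bmX h h' A B C D =
      bmX h h' (P * A + Y * C) (P * B + Y * D) (R * A + Q * C) (R * B + Q * D) := by
  unfold bmJ bmX
  rw [Matrix.reindex_apply, Matrix.submatrix_mul_equiv, Matrix.fromBlocks_multiply]

theorem bmX_mul_bmJ (A : Matrix (Fin a) (Fin b) E) (B : Matrix (Fin a) (Fin a) E)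
    (C : Matrix (Fin b) (Fin b) E) (D : Matrix (Fin b) (Fin a) E)
    (P : Matrix (Fin b) (Fin b) E) (Y : Matrix (Fin b) (Fin a) E)
    (R : Matrix (Fin a) (Fin b) E) (Q : Matrix (Fin a) (Fin a) E) :
    bmX h h' A B C D * bmJ h' P Y R Q =
      bmX h h' (A * P + B * R) (A * Y + B * Q) (C * P + D * R) (C * Y + D * Q) := by
  unfold bmJ bmX
  rw [Matrix.reindex_apply, Matrix.submatrix_mul_equiv, Matrix.fromBlocks_multiply]

theorem bmX_mul_bmX (A : Matrix (Fin a) (Fin b) E) (B : Matrix (Fin a) (Fin a) E)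
    (C : Matrix (Fin b) (Fin b) E) (D : Matrix (Fin b) (Fin a) E)
    (A' : Matrix (Fin b) (Fin a) E) (B' : Matrix (Fin b) (Fin b) E)
    (C' : Matrix (Fin a) (Fin a) E) (D' : Matrix (Fin a) (Fin b) E) :
    bmX h h' A B C D * bmX h' h A' B' C' D' =
      bmJ h (A * A' + B * C') (A * B' + B * D') (C * A' + D * C') (C * B' + D * D') := by
  unfold bmJ bmX
  rw [Matrix.reindex_apply, Matrix.submatrix_mul_equiv, Matrix.fromBlocks_multiply]

theorem xL_pelJ_mul (p : GL (Fin a) E) (q : GL (Fin b) E) (y : Matrix (Fin a) (Fin b) E)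
    (g : Matrix (Fin N) (Fin N) E) :
    xL h h' ((pelJ h p q y : Matrix (Fin N) (Fin N) E) * g) =
      (q : Matrix (Fin b) (Fin b) E) * xL h h' g := by
  obtain ⟨A, B, h0⟩ := exists_bmX h h' g
  have h1 : (pelJ h p q y : Matrix (Fin N) (Fin N) E) * g =
      bmJ h p y 0 q * bmX h h' A B (xL h h' g) (xR h h' g) := by
    rw [← h0]
    rfl
  rw [h1, bmJ_mul_bmX, xL_bmX, Matrix.zero_mul, zero_add]

theorem xR_pelJ_mul (p : GL (Fin a) E) (q : GL (Fin b) E) (y : Matrix (Fin a) (Fin b) E)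
    (g : Matrix (Fin N) (Fin N) E) :
    xR h h' ((pelJ h p q y : Matrix (Fin N) (Fin N) E) * g) =
      (q : Matrix (Fin b) (Fin b) E) * xR h h' g := by
  obtain ⟨A, B, h0⟩ := exists_bmX h h' g
  have h1 : (pelJ h p q y : Matrix (Fin N) (Fin N) E) * g =
      bmJ h p y 0 q * bmX h h' A B (xL h h' g) (xR h h' g) := by
    rw [← h0]
    rfl
  rw [h1, bmJ_mul_bmX, xR_bmX, Matrix.zero_mul, zero_add]

theorem xL_mul_pelJ (q : GL (Fin b) E) (p : GL (Fin a) E) (y : Matrix (Fin b) (Fin a) E)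
    (g : Matrix (Fin N) (Fin N) E) :
    xL h h' (g * (pelJ h' q p y : Matrix (Fin N) (Fin N) E)) =
      xL h h' g * (q : Matrix (Fin b) (Fin b) E) := by
  obtain ⟨A, B, h0⟩ := exists_bmX h h' g
  have h1 : g * (pelJ h' q p y : Matrix (Fin N) (Fin N) E) =
      bmX h h' A B (xL h h' g) (xR h h' g) * bmJ h' q y 0 p := by
    rw [← h0]
    rfl
  rw [h1, bmX_mul_bmJ, xL_bmX, Matrix.mul_zero, add_zero]

theorem xR_mul_pelJ (q : GL (Fin b) E) (p : GL (Fin a) E) (y : Matrix (Fin b) (Fin a) E)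
    (g : Matrix (Fin N) (Fin N) E) :
    xR h h' (g * (pelJ h' q p y : Matrix (Fin N) (Fin N) E)) =
      xL h h' g * y + xR h h' g * (p : Matrix (Fin a) (Fin a) E) := by
  obtain ⟨A, B, h0⟩ := exists_bmX h h' g
  have h1 : g * (pelJ h' q p y : Matrix (Fin N) (Fin N) E) =
      bmX h h' A B (xL h h' g) (xR h h' g) * bmJ h' q y 0 p := by
    rw [← h0]
    rfl
  rw [h1, bmX_mul_bmJ, xR_bmX]

/-- The coordinate on the open cell. -/
noncomputable def cellXX (g : Matrix (Fin N) (Fin N) E) : Matrix (Fin b) (Fin a) E :=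
  (xL h h' g)⁻¹ * xR h h' g

/-- The permutation `(0 1; 1 0)`, rows `(a, b)`, columns `(b, a)`. -/
def welX : GL (Fin N) E where
  val := bmX h h' 0 1 1 0
  inv := bmX h' h 0 1 1 0
  val_inv := by
    rw [bmX_mul_bmX, ← bmJ_one h]
    congr 1 <;> simp
  inv_val := by
    rw [bmX_mul_bmX, ← bmJ_one h']
    congr 1 <;> simp

/-- The points `w (1 x; 0 1)` of the open cell. -/
def wuX (x : Matrix (Fin b) (Fin a) E) : GL (Fin N) E := welX h h' * pelJ h' 1 1 x

theorem wuX_val (x : Matrix (Fin b) (Fin a) E) :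
    (wuX h h' x : Matrix (Fin N) (Fin N) E) = bmX h h' 0 1 1 x := by
  show bmX h h' 0 1 1 0 * bmJ h' 1 x 0 1 = bmX h h' 0 1 1 x
  rw [bmX_mul_bmJ]
  congr 1 <;> simp

theorem xL_wuX (x : Matrix (Fin b) (Fin a) E) :
    xL h h' (wuX h h' x : Matrix (Fin N) (Fin N) E) = 1 := by
  rw [wuX_val, xL_bmX]

theorem xR_wuX (x : Matrix (Fin b) (Fin a) E) :
    xR h h' (wuX h h' x : Matrix (Fin N) (Fin N) E) = x := by
  rw [wuX_val, xR_bmX]

theorem cellXX_wuX (x : Matrix (Fin b) (Fin a) E) :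
    cellXX h h' (wuX h h' x : Matrix (Fin N) (Fin N) E) = x := by
  rw [cellXX, xL_wuX, xR_wuX, inv_one, Matrix.one_mul]

theorem wuX_mul_unip (x y : Matrix (Fin b) (Fin a) E) :
    wuX h h' x * pelJ h' 1 1 y = wuX h h' (x + y) := by
  rw [wuX, wuX, mul_assoc, pelJ_mul]
  congr 2 <;> simp [add_comm]

theorem cellXX_pelJ_mul (p : GL (Fin a) E) (q : GL (Fin b) E) (y : Matrix (Fin a) (Fin b) E)
    (g : Matrix (Fin N) (Fin N) E) :
    cellXX h h' ((pelJ h p q y : Matrix (Fin N) (Fin N) E) * g) = cellXX h h' g := by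
  rw [cellXX, cellXX, xL_pelJ_mul, xR_pelJ_mul, Matrix.mul_inv_rev, Matrix.mul_assoc]
  congr 1
  rw [← Matrix.mul_assoc, Matrix.nonsing_inv_mul _ (Matrix.isUnits_det_units q), Matrix.one_mul]

/-- Membership in the open cell. -/
def InCellX (g : GL (Fin N) E) : Prop :=
  IsUnit (xL h h' (g : Matrix (Fin N) (Fin N) E)).det

theorem inCellX_wuX (x : Matrix (Fin b) (Fin a) E) : InCellX h h' (wuX h h' x) := by
  rw [InCellX, xL_wuX, Matrix.det_one]
  exact isUnit_one

theorem inCellX_pelJ_mul {p : GL (Fin a) E} {q : GL (Fin b) E} {y : Matrix (Fin a) (Fin b) E}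
    {g : GL (Fin N) E} : InCellX h h' (pelJ h p q y * g) ↔ InCellX h h' g := by
  rw [InCellX, InCellX, Units.val_mul, xL_pelJ_mul, Matrix.det_mul]
  exact (Matrix.isUnits_det_units q).mul_left_iff

theorem inCellX_mul_pelJ {q : GL (Fin b) E} {p : GL (Fin a) E} {y : Matrix (Fin b) (Fin a) E}
    {g : GL (Fin N) E} : InCellX h h' (g * pelJ h' q p y) ↔ InCellX h h' g := by
  rw [InCellX, InCellX, Units.val_mul, xL_mul_pelJ, Matrix.det_mul]
  exact (Matrix.isUnits_det_units q).mul_right_iff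

theorem wuX_inv (x : Matrix (Fin b) (Fin a) E) :
    (((wuX h h' x)⁻¹ : GL (Fin N) E) : Matrix (Fin N) (Fin N) E) = bmX h' h (-x) 1 1 0 := by
  have h1 : bmX h' h (-x) 1 1 0 * (wuX h h' x : Matrix (Fin N) (Fin N) E) = 1 := by
    rw [wuX_val, bmX_mul_bmX, ← bmJ_one h']
    congr 1 <;> simp
  have h2 : (wuX h h' x : Matrix (Fin N) (Fin N) E) *
      (((wuX h h' x)⁻¹ : GL (Fin N) E) : Matrix (Fin N) (Fin N) E) = 1 := by
    rw [← Units.val_mul, mul_inv_cancel, Units.val_one]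
  calc (((wuX h h' x)⁻¹ : GL (Fin N) E) : Matrix (Fin N) (Fin N) E)
      = (bmX h' h (-x) 1 1 0 * (wuX h h' x : Matrix (Fin N) (Fin N) E)) *
        (((wuX h h' x)⁻¹ : GL (Fin N) E) : Matrix (Fin N) (Fin N) E) := by
          rw [h1, one_mul]
    _ = _ := by rw [mul_assoc, h2, mul_one]

/-- Decomposition of the elements of the open cell. -/
theorem cellX_decomp {g : GL (Fin N) E} (hg : InCellX h h' g) :
    ∃ p q y, g = pelJ h p q y * wuX h h' (cellXX h h' (g : Matrix (Fin N) (Fin N) E)) := by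
  obtain ⟨A, B, h0⟩ := exists_bmX h h' (g : Matrix (Fin N) (Fin N) E)
  set x := cellXX h h' (g : Matrix (Fin N) (Fin N) E) with hx
  have h1 : lowLJ h ((g * (wuX h h' x)⁻¹ : GL (Fin N) E) : Matrix (Fin N) (Fin N) E) = 0 := by
    rw [Units.val_mul, wuX_inv]
    conv_lhs => rw [h0]
    rw [bmX_mul_bmX, lowLJ_bmJ, Matrix.mul_one, Matrix.mul_neg, hx, cellXX, ← Matrix.mul_assoc,
      Matrix.mul_nonsing_inv _ hg, Matrix.one_mul, neg_add_cancel]
  obtain ⟨p, q, y, h2⟩ := (exists_pelJ_iff h _).2 h1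
  exact ⟨p, q, y, by rw [← h2, inv_mul_cancel_right]⟩

theorem pelJ_mul_wuX_inj {p p' : GL (Fin a) E} {q q' : GL (Fin b) E}
    {y y' : Matrix (Fin a) (Fin b) E} {x x' : Matrix (Fin b) (Fin a) E}
    (e : pelJ h p q y * wuX h h' x = pelJ h p' q' y' * wuX h h' x') :
    p = p' ∧ q = q' ∧ y = y' ∧ x = x' := by
  have h1 : x = x' := by
    have h2 : cellXX h h' ((pelJ h p q y * wuX h h' x : GL (Fin N) E) :
        Matrix (Fin N) (Fin N) E) =
        cellXX h h' ((pelJ h p' q' y' * wuX h h' x' : GL (Fin N) E) :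
          Matrix (Fin N) (Fin N) E) := by rw [e]
    rwa [Units.val_mul, Units.val_mul, cellXX_pelJ_mul, cellXX_pelJ_mul, cellXX_wuX,
      cellXX_wuX] at h2
  subst h1
  obtain ⟨h3, h4, h5⟩ := pelJ_injective h (mul_right_cancel e)
  exact ⟨h3, h4, h5, rfl⟩

theorem welX_mul_pelJ (q : GL (Fin b) E) (p : GL (Fin a) E) :
    welX h h' * pelJ h' q p 0 = pelJ h p q 0 * welX h h' := by
  apply Units.ext
  show bmX h h' 0 1 1 0 * bmJ h' (q : Matrix (Fin b) (Fin b) E) 0 0
      (p : Matrix (Fin a) (Fin a) E) =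
    bmJ h (p : Matrix (Fin a) (Fin a) E) 0 0 (q : Matrix (Fin b) (Fin b) E) * bmX h h' 0 1 1 0
  rw [bmX_mul_bmJ, bmJ_mul_bmX]
  congr 1 <;> simp

theorem wuX_mul_pelJ (x : Matrix (Fin b) (Fin a) E) (q : GL (Fin b) E) (p : GL (Fin a) E)
    (y : Matrix (Fin b) (Fin a) E) :
    wuX h h' x * pelJ h' q p y = pelJ h p q 0 *
      wuX h h' (((q⁻¹ : GL (Fin b) E) : Matrix (Fin b) (Fin b) E) *
      (y + x * (p : Matrix (Fin a) (Fin a) E))) := by
  have h1 : pelJ h' 1 1 x * pelJ h' q p y = pelJ h' q p 0 *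
      pelJ h' 1 1 (((q⁻¹ : GL (Fin b) E) : Matrix (Fin b) (Fin b) E) *
        (y + x * (p : Matrix (Fin a) (Fin a) E))) := by
    rw [pelJ_mul, pelJ_mul]
    congr 1
    · rw [one_mul, mul_one]
    · rw [one_mul, mul_one]
    · rw [← Matrix.mul_assoc, ← Units.val_mul, mul_inv_cancel, Units.val_one, Matrix.one_mul,
        Matrix.one_mul, Matrix.zero_mul, add_zero]
  rw [wuX, mul_assoc, h1, ← mul_assoc, welX_mul_pelJ, mul_assoc]
  rfl

end alg

section top

variable {E : Type} [NontriviallyNormedField E] {a b N : ℕ} (h : a + b = N) (h' : b + a = N)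
  {W : Type} [AddCommGroup W] [Module ℂ W] {ρ : (GL (Fin a) E × GL (Fin b) E) →* Module.End ℂ W}

theorem continuous_xL : Continuous fun g : GL (Fin N) E =>
    xL h h' (g : Matrix (Fin N) (Fin N) E) :=
  continuous_matrix fun _ _ => continuous_gl_entry _ _

theorem continuous_xR : Continuous fun g : GL (Fin N) E =>
    xR h h' (g : Matrix (Fin N) (Fin N) E) :=
  continuous_matrix fun _ _ => continuous_gl_entry _ _

theorem isOpen_inCellX : IsOpen {g : GL (Fin N) E | InCellX h h' g} := by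
  have h0 : {g : GL (Fin N) E | InCellX h h' g} = {g : GL (Fin N) E |
      (xL h h' (g : Matrix (Fin N) (Fin N) E)).det ≠ 0} := by
    ext g
    exact isUnit_iff_ne_zero
  rw [h0]
  exact isOpen_ne_fun (continuous_xL h h').matrix_det continuous_const

theorem continuousOn_cellXX : ContinuousOn (fun g : GL (Fin N) E =>
    cellXX h h' (g : Matrix (Fin N) (Fin N) E)) {g | InCellX h h' g} := by
  have h0 : (fun g : GL (Fin N) E => cellXX h h' (g : Matrix (Fin N) (Fin N) E)) =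
      fun g : GL (Fin N) E => ((xL h h' (g : Matrix (Fin N) (Fin N) E)).det)⁻¹ •
        ((xL h h' (g : Matrix (Fin N) (Fin N) E)).adjugate *
          xR h h' (g : Matrix (Fin N) (Fin N) E)) := by
    funext g
    rw [cellXX, Matrix.inv_def, Ring.inverse_eq_inv', Matrix.smul_mul]
  rw [h0]
  refine ContinuousOn.smul (ContinuousOn.inv₀ (continuous_xL h h').matrix_det.continuousOn
    fun g hg => ?_) ?_
  · exact isUnit_iff_ne_zero.1 hg
  · exact ((continuous_xL h h').matrix_adjugate.matrix_mul (continuous_xR h h')).continuousOn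

theorem continuous_pelJ_one : Continuous fun x : Matrix (Fin a) (Fin b) E =>
    (pelJ h 1 1 x : GL (Fin N) E) := by
  rw [Units.continuous_iff]
  constructor
  · show Continuous fun x : Matrix (Fin a) (Fin b) E => bmJ h 1 x 0 1
    exact (continuous_const.matrix_fromBlocks continuous_id continuous_const
      continuous_const).matrix_reindex _ _
  · show Continuous fun x : Matrix (Fin a) (Fin b) E => bmJ h _ _ 0 _
    refine Continuous.matrix_reindex (continuous_const.matrix_fromBlocks ?_ continuous_const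
      continuous_const) _ _
    exact ((continuous_const.matrix_mul continuous_id).matrix_mul continuous_const).neg

theorem continuous_wuX : Continuous fun x : Matrix (Fin b) (Fin a) E =>
    (wuX h h' x : GL (Fin N) E) := continuous_const.mul (continuous_pelJ_one h')

/-- The functions of `IndJ h ρ` supported on the open cell. -/
def cellSubJ (ρ : (GL (Fin a) E × GL (Fin b) E) →* Module.End ℂ W) :
    Submodule ℂ (IndJ h ρ) where
  carrier := {f | ∀ g, (f : GL (Fin N) E → W) g ≠ 0 → InCellX h h' g}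
  add_mem' := by
    intro f f' hf hf' g hg
    by_contra h0
    have h1 : (f : GL (Fin N) E → W) g = 0 := by
      by_contra h1
      exact h0 (hf g h1)
    have h2 : (f' : GL (Fin N) E → W) g = 0 := by
      by_contra h2
      exact h0 (hf' g h2)
    exact hg (by
      show (f : GL (Fin N) E → W) g + (f' : GL (Fin N) E → W) g = 0
      rw [h1, h2, add_zero])
  zero_mem' := fun g hg => absurd rfl hg
  smul_mem' := by
    intro c f hf g hg
    refine hf g fun h0 => hg ?_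
    show c • (f : GL (Fin N) E → W) g = 0
    rw [h0, smul_zero]

theorem mem_cellSubJ {f : IndJ h ρ} : f ∈ cellSubJ h h' ρ ↔
    ∀ g, (f : GL (Fin N) E → W) g ≠ 0 → InCellX h h' g := Iff.rfl

theorem indActJ_cellSubJ (q : GL (Fin b) E) (p : GL (Fin a) E) (y : Matrix (Fin b) (Fin a) E)
    {f : IndJ h ρ} (hf : f ∈ cellSubJ h h' ρ) :
    indActJ h ρ (pelJ h' q p y) f ∈ cellSubJ h h' ρ :=
  fun _ hg => (inCellX_mul_pelJ h h').1 (hf _ hg)

/-- Elements of `P` near `1` have blocks near `1`. -/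
theorem pelJ_small [IsUltrametricDist E] (hρ : IsSmoothRep ρ) (w : W) :
    ∃ U ∈ 𝓝 (1 : GL (Fin N) E), ∀ p q y, pelJ h p q y ∈ U → ρ (p, q) w = w := by
  have h1 : ∀ᶠ g in 𝓝 (1 : PSJ h E), tauJ h ρ g w = w := tauJ_smooth hρ w
  rw [nhds_subtype_eq_comap, Filter.eventually_comap] at h1
  refine ⟨_, h1, fun p q y hp => ?_⟩
  have h2 := hp ⟨pelJ h p q y, p, q, y, rfl⟩ rfl
  rwa [tauJ_pelJ ρ ⟨pelJ h p q y, p, q, y, rfl⟩ rfl] at h2

/-- Restriction to the open cell. -/
def cellResJ (ρ : (GL (Fin a) E × GL (Fin b) E) →* Module.End ℂ W) :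
    IndJ h ρ →ₗ[ℂ] (Matrix (Fin b) (Fin a) E → W) where
  toFun f := fun x => (f : GL (Fin N) E → W) (wuX h h' x)
  map_add' _ _ := rfl
  map_smul' _ _ := rfl

theorem cellResJ_apply (f : IndJ h ρ) (x : Matrix (Fin b) (Fin a) E) :
    cellResJ h h' ρ f x = (f : GL (Fin N) E → W) (wuX h h' x) := rfl

theorem cellResJ_act (q : GL (Fin b) E) (p : GL (Fin a) E) (y : Matrix (Fin b) (Fin a) E)
    (f : IndJ h ρ) (x : Matrix (Fin b) (Fin a) E) :
    cellResJ h h' ρ (indActJ h ρ (pelJ h' q p y) f) x =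
      ρ (p, q) (cellResJ h h' ρ f (((q⁻¹ : GL (Fin b) E) : Matrix (Fin b) (Fin b) E) *
        (y + x * (p : Matrix (Fin a) (Fin a) E)))) := by
  rw [cellResJ_apply, indActJ_apply, wuX_mul_pelJ, f.2.1]
  rfl

theorem cellResJ_inj {f : IndJ h ρ} (hf : f ∈ cellSubJ h h' ρ) (h0 : cellResJ h h' ρ f = 0) :
    f = 0 := by
  apply Subtype.ext
  funext g
  show (f : GL (Fin N) E → W) g = 0
  by_contra hg
  obtain ⟨p, q, y, h1⟩ := cellX_decomp h h' (hf g hg)
  apply hg
  rw [h1, f.2.1]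
  have h2 := congrFun h0 (cellXX h h' (g : Matrix (Fin N) (Fin N) E))
  rw [cellResJ_apply] at h2
  rw [h2]
  exact map_zero _

/-- The restriction of a function supported on the open cell has compact support. -/
theorem cellResJ_mem [IsUltrametricDist E] [ProperSpace E] {f : IndJ h ρ}
    (hf : f ∈ cellSubJ h h' ρ) :
    cellResJ h h' ρ f ∈ Sch (Matrix (Fin b) (Fin a) E) W := by
  refine ⟨(indJ_isLocallyConstant h f).comp_continuous (continuous_wuX h h'), ?_⟩
  let D : Set (GL (Fin N) E) := (glK (Fin N) E 1 zero_lt_one.le le_rfl :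
    Set (GL (Fin N) E)) ∩ {g | (f : GL (Fin N) E → W) g ≠ 0}
  have hD : IsCompact D := by
    refine (glK_isCompact zero_lt_one le_rfl).inter_right ?_
    have h1 : IsOpen {g | (f : GL (Fin N) E → W) g = 0} :=
      (indJ_isLocallyConstant h f).isOpen_fiber 0
    exact h1.isClosed_compl
  refine ⟨_, hD.image_of_continuousOn ((continuousOn_cellXX h h').mono fun g hg => hf g hg.2),
    fun x hx => ?_⟩
  by_contra hne
  apply hx
  obtain ⟨p, q, y, k, hk, h0⟩ := iwasawaJ h (wuX h h' x : GL (Fin N) E)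
  refine ⟨k, ⟨hk, fun h1 => hne ?_⟩, ?_⟩
  · rw [cellResJ_apply, h0, f.2.1, h1]
    exact map_zero _
  · have h1 := cellXX_wuX h h' x
    rw [h0, Units.val_mul, cellXX_pelJ_mul] at h1
    exact h1

end top

section surj

variable {E : Type} [NontriviallyNormedField E] {a b N : ℕ} (h : a + b = N) (h' : b + a = N)
  {W : Type} [AddCommGroup W] [Module ℂ W] {ρ : (GL (Fin a) E × GL (Fin b) E) →* Module.End ℂ W}

open Classical in
/-- The function on `GL_N` supported on the open cell with given restriction. -/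
noncomputable def cellFunJ (ρ : (GL (Fin a) E × GL (Fin b) E) →* Module.End ℂ W)
    (φ : Matrix (Fin b) (Fin a) E → W) (g : GL (Fin N) E) : W :=
  if hg : InCellX h h' g then
    ρ ((cellX_decomp h h' hg).choose, (cellX_decomp h h' hg).choose_spec.choose)
    (φ (cellXX h h' (g : Matrix (Fin N) (Fin N) E))) else 0

theorem cellFunJ_of_not {φ : Matrix (Fin b) (Fin a) E → W} {g : GL (Fin N) E}
    (hg : ¬ InCellX h h' g) : cellFunJ h h' ρ φ g = 0 := by
  rw [cellFunJ, dif_neg hg]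

theorem cellFunJ_apply (φ : Matrix (Fin b) (Fin a) E → W) (p : GL (Fin a) E) (q : GL (Fin b) E)
    (y : Matrix (Fin a) (Fin b) E) (x : Matrix (Fin b) (Fin a) E) :
    cellFunJ h h' ρ φ (pelJ h p q y * wuX h h' x) = ρ (p, q) (φ x) := by
  have h0 : InCellX h h' (pelJ h p q y * wuX h h' x) :=
    (inCellX_pelJ_mul h h').2 (inCellX_wuX h h' x)
  rw [cellFunJ, dif_pos h0]
  have h1 := (cellX_decomp h h' h0).choose_spec.choose_spec.choose_spec
  obtain ⟨h2, h3, h4, h5⟩ := pelJ_mul_wuX_inj h h' h1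
  have key : ∀ (p' : GL (Fin a) E) (q' : GL (Fin b) E) (x' : Matrix (Fin b) (Fin a) E),
      p = p' → q = q' → x = x' → ρ (p', q') (φ x') = ρ (p, q) (φ x) := by
    rintro _ _ _ rfl rfl rfl
    rfl
  exact key _ _ _ h2 h3 h5

theorem cellFunJ_wuX (φ : Matrix (Fin b) (Fin a) E → W) (x : Matrix (Fin b) (Fin a) E) :
    cellFunJ h h' ρ φ (wuX h h' x) = φ x := by
  have h0 := cellFunJ_apply h h' (ρ := ρ) φ 1 1 0 x
  rw [pelJ_one, one_mul] at h0
  rw [h0]
  have h1 : ρ ((1 : GL (Fin a) E), (1 : GL (Fin b) E)) = 1 := map_one ρ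
  rw [h1]
  rfl

theorem cellFunJ_pelJ (φ : Matrix (Fin b) (Fin a) E → W) (p : GL (Fin a) E) (q : GL (Fin b) E)
    (y : Matrix (Fin a) (Fin b) E) (g : GL (Fin N) E) :
    cellFunJ h h' ρ φ (pelJ h p q y * g) = ρ (p, q) (cellFunJ h h' ρ φ g) := by
  by_cases h0 : InCellX h h' g
  · obtain ⟨p', q', y', h1⟩ := cellX_decomp h h' h0
    rw [h1, ← mul_assoc, pelJ_mul, cellFunJ_apply, cellFunJ_apply]
    have h2 : ρ (p * p', q * q') = ρ (p, q) * ρ (p', q') := by
      rw [← map_mul]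
      rfl
    rw [h2]
    rfl
  · rw [cellFunJ_of_not h h' h0,
      cellFunJ_of_not h h' (fun h1 => h0 ((inCellX_pelJ_mul h h').1 h1)), map_zero]

theorem cellFunJ_near [IsUltrametricDist E] (hρ : IsSmoothRep ρ)
    {φ : Matrix (Fin b) (Fin a) E → W} (hφ : IsLocallyConstant φ) (x : Matrix (Fin b) (Fin a) E) :
    ∀ᶠ p : GL (Fin N) E × Matrix (Fin b) (Fin a) E in 𝓝 (1, x),
      cellFunJ h h' ρ φ (wuX h h' p.2 * p.1) = cellFunJ h h' ρ φ (wuX h h' p.2) := by
  obtain ⟨U, hU, hUρ⟩ := pelJ_small h hρ (φ x)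
  filter_upwards [cell_near_aux (continuous_wuX h h') (isOpen_inCellX h h')
    (continuousOn_cellXX h h') (inCellX_wuX h h') (cellXX_wuX h h') hφ x hU] with p hp
  obtain ⟨h1, h2, h3, h4⟩ := hp
  obtain ⟨p', q', y', h5⟩ := cellX_decomp h h' h1
  have h6 : pelJ h p' q' y' ∈ U := by
    have h7 : wuX h h' p.2 * p.1 * (wuX h h' (cellXX h h' ((wuX h h' p.2 * p.1 :
        GL (Fin N) E) : Matrix (Fin N) (Fin N) E)))⁻¹ = pelJ h p' q' y' := by
      rw [mul_inv_eq_iff_eq_mul]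
      exact h5
    rw [← h7]
    exact h4
  have h8 : cellFunJ h h' ρ φ (wuX h h' p.2 * p.1) =
      ρ (p', q') (φ (cellXX h h' ((wuX h h' p.2 * p.1 :
      GL (Fin N) E) : Matrix (Fin N) (Fin N) E))) := by
    conv_lhs => rw [h5]
    rw [cellFunJ_apply]
  rw [h8, h2, hUρ p' q' y' h6, cellFunJ_wuX, h3]

/-- Every locally constant compactly supported function is the restriction of a function of
`IndJ h ρ` supported on the open cell; its values stay in every stable subspace which contains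
the values of the given function. -/
theorem exists_cellResJ [IsUltrametricDist E] (hρ : IsSmoothRep ρ)
    {φ : Matrix (Fin b) (Fin a) E → W} (hφ : φ ∈ Sch (Matrix (Fin b) (Fin a) E) W) :
    ∃ f ∈ cellSubJ h h' ρ, cellResJ h h' ρ f = φ ∧
      ∀ W₁ : Submodule ℂ W, (∀ p q, ∀ w ∈ W₁, ρ (p, q) w ∈ W₁) → (∀ x, φ x ∈ W₁) →
        ∀ g, (f : GL (Fin N) E → W) g ∈ W₁ := by
  obtain ⟨hφ1, S, hS, hφS⟩ := hφ
  have h1 : ∀ᶠ k : GL (Fin N) E in 𝓝 1, ∀ x ∈ S,
      cellFunJ h h' ρ φ (wuX h h' x * k) = cellFunJ h h' ρ φ (wuX h h' x) :=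
    hS.eventually_forall_of_forall_eventually fun x _ => cellFunJ_near h h' hρ hφ1 x
  have h2 : ∀ᶠ k : GL (Fin N) E in 𝓝 1, ∀ x ∈ S,
      cellFunJ h h' ρ φ (wuX h h' x * k⁻¹) = cellFunJ h h' ρ φ (wuX h h' x) := by
    have h3 : Tendsto (fun k : GL (Fin N) E => k⁻¹) (𝓝 1) (𝓝 1) := by
      have := (continuous_inv (G := GL (Fin N) E)).tendsto 1
      rwa [inv_one] at this
    exact h3.eventually h1
  -- a point where the function is not zero
  have h3 : ∀ g, cellFunJ h h' ρ φ g ≠ 0 → ∃ p q y, ∃ x ∈ S, g = pelJ h p q y * wuX h h' x := by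
    intro g hg
    have h4 : InCellX h h' g := by
      by_contra h4
      exact hg (cellFunJ_of_not h h' h4)
    obtain ⟨p, q, y, h5⟩ := cellX_decomp h h' h4
    refine ⟨p, q, y, _, ?_, h5⟩
    by_contra h6
    apply hg
    rw [h5, cellFunJ_apply, hφS _ h6, map_zero]
  refine ⟨⟨cellFunJ h h' ρ φ, fun p q y g => cellFunJ_pelJ h h' φ p q y g, ?_⟩, ?_, ?_, ?_⟩
  · filter_upwards [h1, h2] with k hk hk' g
    by_cases h4 : cellFunJ h h' ρ φ g = 0
    · rw [h4]
      by_contra h5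
      obtain ⟨p, q, y, x, hx, h6⟩ := h3 _ h5
      have h7 : g = pelJ h p q y * (wuX h h' x * k⁻¹) := by
        rw [← mul_assoc, ← h6, mul_inv_cancel_right]
      rw [h7, cellFunJ_pelJ, hk' x hx, ← cellFunJ_pelJ, ← h6] at h4
      exact h5 h4
    · obtain ⟨p, q, y, x, hx, h6⟩ := h3 _ h4
      rw [h6, mul_assoc, cellFunJ_pelJ, hk x hx, ← cellFunJ_pelJ]
  · intro g hg
    by_contra h4
    exact hg (cellFunJ_of_not h h' h4)
  · funext x
    exact cellFunJ_wuX h h' φ x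
  · intro W₁ hW₁ hφW g
    show cellFunJ h h' ρ φ g ∈ W₁
    by_cases h4 : InCellX h h' g
    · rw [cellFunJ, dif_pos h4]
      exact hW₁ _ _ _ (hφW _)
    · rw [cellFunJ_of_not h h' h4]
      exact W₁.zero_mem

end surj

/-! ### The integral over the open cell -/

section integral

variable {E : Type} [NontriviallyNormedField E] [IsUltrametricDist E] [ProperSpace E]
  {a b N : ℕ} (h : a + b = N) (h' : b + a = N)
  {W : Type} [AddCommGroup W] [Module ℂ W]

/-- The restriction to the open cell as an element of `Sch`. -/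
def cellSchJ (ρ : (GL (Fin a) E × GL (Fin b) E) →* Module.End ℂ W) :
    cellSubJ h h' ρ →ₗ[ℂ] Sch (Matrix (Fin b) (Fin a) E) W where
  toFun f := ⟨cellResJ h h' ρ f, cellResJ_mem h h' f.2⟩
  map_add' _ _ := rfl
  map_smul' _ _ := rfl

/-- The integral over the open cell. -/
noncomputable def xiJ (ρ : (GL (Fin a) E × GL (Fin b) E) →* Module.End ℂ W) :
    cellSubJ h h' ρ →ₗ[ℂ] W := (mintJ E b a W).comp (cellSchJ h h' ρ)

variable {ρ : (GL (Fin a) E × GL (Fin b) E) →* Module.End ℂ W}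

theorem sch_mulBothJ_mem {φ : Matrix (Fin b) (Fin a) E → W}
    (hφ : φ ∈ Sch (Matrix (Fin b) (Fin a) E) W) (q : GL (Fin b) E) (p : GL (Fin a) E) :
    (fun x : Matrix (Fin b) (Fin a) E => φ (((q⁻¹ : GL (Fin b) E) : Matrix (Fin b) (Fin b) E) * x *
      (p : Matrix (Fin a) (Fin a) E))) ∈ Sch (Matrix (Fin b) (Fin a) E) W := by
  obtain ⟨h1, K, hK, h2⟩ := hφ
  have hc : ∀ (A : Matrix (Fin b) (Fin b) E) (B : Matrix (Fin a) (Fin a) E),
      Continuous fun x : Matrix (Fin b) (Fin a) E => A * x * B := fun A B =>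
    (continuous_const.matrix_mul continuous_id).matrix_mul continuous_const
  refine ⟨h1.comp_continuous (hc _ _), (fun x : Matrix (Fin b) (Fin a) E =>
    (q : Matrix (Fin b) (Fin b) E) * x * ((p⁻¹ : GL (Fin a) E) : Matrix (Fin a) (Fin a) E)) '' K,
    hK.image (hc _ _), fun x hx => h2 _ fun h0 => hx ⟨_, h0, ?_⟩⟩
  show (q : Matrix (Fin b) (Fin b) E) * (((q⁻¹ : GL (Fin b) E) : Matrix (Fin b) (Fin b) E) * x *
    (p : Matrix (Fin a) (Fin a) E)) * ((p⁻¹ : GL (Fin a) E) : Matrix (Fin a) (Fin a) E) = x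
  rw [← Matrix.mul_assoc, ← Matrix.mul_assoc, ← Units.val_mul, mul_inv_cancel, Units.val_one,
    Matrix.one_mul, Matrix.mul_assoc, ← Units.val_mul, mul_inv_cancel, Units.val_one,
    Matrix.mul_one]

/-- The values of the integral over the open cell. -/
theorem xiJ_mem (f : cellSubJ h h' ρ) (W₁ : Submodule ℂ W)
    (hf : ∀ g, ((f : IndJ h ρ) : GL (Fin N) E → W) g ∈ W₁) : xiJ h h' ρ f ∈ W₁ :=
  mintJ_mem _ W₁ fun _ => hf _

/-- The integral over the open cell is onto, on every stable subspace. -/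
theorem exists_xiJ (hρ : IsSmoothRep ρ) (w : W) :
    ∃ f : cellSubJ h h' ρ, xiJ h h' ρ f = w ∧
      ∀ W₁ : Submodule ℂ W, (∀ p q, ∀ w ∈ W₁, ρ (p, q) w ∈ W₁) → w ∈ W₁ →
        ∀ g, ((f : IndJ h ρ) : GL (Fin N) E → W) g ∈ W₁ := by
  obtain ⟨φ, hφ, hφ'⟩ := exists_mintJ (E := E) (p := b) (q := a) w
  obtain ⟨f, hf, h1, h2⟩ := exists_cellResJ h h' hρ φ.2
  refine ⟨⟨f, hf⟩, ?_, fun W₁ hW₁ hw g => h2 W₁ hW₁ (hφ' W₁ hw) g⟩
  show mintJ E b a W (cellSchJ h h' ρ ⟨f, hf⟩) = w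
  rw [← hφ]
  congr 1
  exact Subtype.ext h1

variable [MeasurableSpace E] [BorelSpace E]

/-- Equivariance of the integral over the open cell. -/
theorem xiJ_act (f : cellSubJ h h' ρ) (q : GL (Fin b) E) (p : GL (Fin a) E)
    (y : Matrix (Fin b) (Fin a) E) :
    xiJ h h' ρ ⟨indActJ h ρ (pelJ h' q p y) f, indActJ_cellSubJ h h' q p y f.2⟩ =
      ((ad q ^ (a : ℝ) * ad p ^ (-(b : ℝ)) : ℝ) : ℂ) • ρ (p, q) (xiJ h h' ρ f) := by
  let ψ₁ : Sch (Matrix (Fin b) (Fin a) E) W := ⟨_, sch_mulBothJ_mem (cellResJ_mem h h' f.2) q p⟩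
  let ψ₂ : Sch (Matrix (Fin b) (Fin a) E) W := ⟨_, sch_translate_mem ψ₁.2
    (y * ((p⁻¹ : GL (Fin a) E) : Matrix (Fin a) (Fin a) E))⟩
  have h1 : mintJ E b a W ψ₁ = ((ad q ^ (a : ℝ) * ad p ^ (-(b : ℝ)) : ℝ) : ℂ) •
      mintJ E b a W (cellSchJ h h' ρ f) := mintJ_mul _ _ q p fun x => rfl
  have h2 : mintJ E b a W ψ₂ = mintJ E b a W ψ₁ := mintJ_translate _ _ _ fun x => rfl
  have h3 : mintJ E b a W (cellSchJ h h' ρ ⟨indActJ h ρ (pelJ h' q p y) f,
      indActJ_cellSubJ h h' q p y f.2⟩) = ρ (p, q) (mintJ E b a W ψ₂) := by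
    refine mintJ_congr_map _ _ _ fun x => ?_
    show cellResJ h h' ρ (indActJ h ρ (pelJ h' q p y) f) x = ρ (p, q) (cellResJ h h' ρ f
      (((q⁻¹ : GL (Fin b) E) : Matrix (Fin b) (Fin b) E) *
        (x + y * ((p⁻¹ : GL (Fin a) E) : Matrix (Fin a) (Fin a) E)) *
          (p : Matrix (Fin a) (Fin a) E)))
    rw [cellResJ_act]
    congr 2
    rw [Matrix.mul_assoc, Matrix.add_mul, Matrix.mul_assoc y, ← Units.val_mul, inv_mul_cancel,
      Units.val_one, Matrix.mul_one, add_comm]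
  show mintJ E b a W (cellSchJ h h' ρ ⟨indActJ h ρ (pelJ h' q p y) f,
      indActJ_cellSubJ h h' q p y f.2⟩) = _
  rw [h3, h2, h1, map_smul]
  rfl

end integral

end SpW
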