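import Pool.Agent.Work.MP_3615d2_al.P1.DefsQ

/-!
MP_3615d2_al, block Co: the twisted outer tensor product `oten`: coinvariants for the unipotent
subgroups of one of the two factors.
-/

open Filter Topology Matrix
open scoped TensorProduct NNReal

set_option linter.unusedSectionVars false

namespace SpW

section otenT

variable {E : Type} [NontriviallyNormedField E] [IsUltrametricDist E] [ProperSpace E]
  [MeasurableSpace E] [BorelSpace E] {a b : ℕ} {V₁ V₂ : Type} [AddCommGroup V₁] [Module ℂ V₁]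
  [AddCommGroup V₂] [Module ℂ V₂]

theorem oten_smooth {π₁ : GL (Fin a) E →* Module.End ℂ V₁} {π₂ : GL (Fin b) E →* Module.End ℂ V₂}
    (h₁ : IsSmoothRep π₁) (h₂ : IsSmoothRep π₂) (s t : ℝ) : IsSmoothRep (oten s t π₁ π₂) :=
  oten_smoothQ h₁ h₂ s t

omit [IsUltrametricDist E] in
theorem cvN_oten_up (s t : ℝ) {π₁ : GL (Fin a) E →* Module.End ℂ V₁}
    {π₂ : GL (Fin b) E →* Module.End ℂ V₂} {r : ℕ} {x : V₁} (hx : x ∈ cvN π₁ (Nk a r E) ⊤)
    (y : V₂) : x ⊗ₜ[ℂ] y ∈ cvN (oten s t π₁ π₂) ((Nk a r E).prod ⊥) ⊤ := by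
  unfold cvN at hx
  induction hx using Submodule.span_induction with
  | mem x hx =>
    obtain ⟨u, hu, v, -, rfl⟩ := hx
    refine Submodule.subset_span ⟨(u, 1), ⟨hu, Subgroup.mem_bot.2 rfl⟩, v ⊗ₜ[ℂ] y, trivial, ?_⟩
    rw [oten_tmul, Nk_ad hu, ad_one, Real.one_rpow, Real.one_rpow, mul_one, Complex.ofReal_one,
      one_smul, map_one, Module.End.one_apply, TensorProduct.sub_tmul]
  | zero =>
    rw [TensorProduct.zero_tmul]
    exact Submodule.zero_mem _
  | add x x' _ _ ha hb =>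
    rw [TensorProduct.add_tmul]
    exact Submodule.add_mem _ ha hb
  | smul c x _ ha =>
    rw [← TensorProduct.smul_tmul']
    exact Submodule.smul_mem _ c ha

omit [IsUltrametricDist E] in
theorem cvN_oten_low (s t : ℝ) {π₁ : GL (Fin a) E →* Module.End ℂ V₁}
    {π₂ : GL (Fin b) E →* Module.End ℂ V₂} {r : ℕ} {y : V₂} (hy : y ∈ cvN π₂ (Nk b r E) ⊤)
    (x : V₁) : x ⊗ₜ[ℂ] y ∈ cvN (oten s t π₁ π₂)
      ((⊥ : Subgroup (GL (Fin a) E)).prod (Nk b r E)) ⊤ := by
  unfold cvN at hy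
  induction hy using Submodule.span_induction with
  | mem y hy =>
    obtain ⟨u, hu, v, -, rfl⟩ := hy
    refine Submodule.subset_span ⟨(1, u), ⟨Subgroup.mem_bot.2 rfl, hu⟩, x ⊗ₜ[ℂ] v, trivial, ?_⟩
    rw [oten_tmul, Nk_ad hu, ad_one, Real.one_rpow, Real.one_rpow, mul_one, Complex.ofReal_one,
      one_smul, map_one, Module.End.one_apply, TensorProduct.tmul_sub]
  | zero =>
    rw [TensorProduct.tmul_zero]
    exact Submodule.zero_mem _
  | add y y' _ _ ha hb =>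
    rw [TensorProduct.tmul_add]
    exact Submodule.add_mem _ ha hb
  | smul c y _ ha =>
    rw [TensorProduct.tmul_smul]
    exact Submodule.smul_mem _ c ha

omit [IsUltrametricDist E] in
theorem cvN_oten_up_top (s t : ℝ) {π₁ : GL (Fin a) E →* Module.End ℂ V₁}
    (π₂ : GL (Fin b) E →* Module.End ℂ V₂) {r : ℕ} (hx : cvN π₁ (Nk a r E) ⊤ = ⊤) :
    cvN (oten s t π₁ π₂) ((Nk a r E).prod ⊥) ⊤ = ⊤ := by
  rw [eq_top_iff]
  rintro w -
  induction w using TensorProduct.induction_on with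
  | zero => exact Submodule.zero_mem _
  | tmul x y => exact cvN_oten_up s t (by rw [hx]; trivial) y
  | add x y ha hb => exact Submodule.add_mem _ ha hb

omit [IsUltrametricDist E] in
theorem cvN_oten_low_top (s t : ℝ) (π₁ : GL (Fin a) E →* Module.End ℂ V₁)
    {π₂ : GL (Fin b) E →* Module.End ℂ V₂} {r : ℕ} (hy : cvN π₂ (Nk b r E) ⊤ = ⊤) :
    cvN (oten s t π₁ π₂) ((⊥ : Subgroup (GL (Fin a) E)).prod (Nk b r E)) ⊤ = ⊤ := by
  rw [eq_top_iff]
  rintro w -
  induction w using TensorProduct.induction_on with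
  | zero => exact Submodule.zero_mem _
  | tmul x y => exact cvN_oten_low s t (by rw [hy]; trivial) x
  | add x y ha hb => exact Submodule.add_mem _ ha hb

omit [IsUltrametricDist E] in
/-- an eigenvalue modulo the coinvariant relations of the upper factor -/
theorem oten_eig_up (s t : ℝ) {π₁ : GL (Fin a) E →* Module.End ℂ V₁}
    {π₂ : GL (Fin b) E →* Module.End ℂ V₂} {r : ℕ} {p : GL (Fin a) E} {q : GL (Fin b) E}
    {c₁ c₂ : ℂ} (h₁ : ∀ v, π₁ p v - c₁ • v ∈ cvN π₁ (Nk a r E) ⊤) (h₂ : ∀ v, π₂ q v = c₂ • v)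
    (w : V₁ ⊗[ℂ] V₂) : oten s t π₁ π₂ (p, q) w -
      ((((ad p ^ s * ad q ^ t : ℝ) : ℂ) * (c₁ * c₂)) • w) ∈
        cvN (oten s t π₁ π₂) ((Nk a r E).prod ⊥) ⊤ := by
  induction w using TensorProduct.induction_on with
  | zero =>
    rw [map_zero, smul_zero, sub_zero]
    exact Submodule.zero_mem _
  | tmul x y =>
    rw [oten_tmul, h₂, mul_smul, ← smul_sub]
    refine Submodule.smul_mem _ _ ?_
    have e : (π₁ p x) ⊗ₜ[ℂ] (c₂ • y) - (c₁ * c₂) • (x ⊗ₜ[ℂ] y) =
        c₂ • ((π₁ p x - c₁ • x) ⊗ₜ[ℂ] y) := by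
      rw [TensorProduct.tmul_smul, TensorProduct.sub_tmul, smul_sub, ← TensorProduct.smul_tmul',
        smul_smul, mul_comm c₁ c₂]
    rw [e]
    exact Submodule.smul_mem _ _ (cvN_oten_up s t (h₁ x) y)
  | add x y ha hb =>
    rw [map_add, smul_add, add_sub_add_comm]
    exact Submodule.add_mem _ ha hb

end otenT

end SpW
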