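import Pool.Agent.Work.MP_3615d2_al.Co.StratC
import Pool.Agent.Work.MP_3615d2_al.Co.JacT

/-!
MP_3615d2_al, block Co: the coinvariants of `Σ = IndJ (|det a|^{m/2} δ(a) ⊗ |det d|^{1-m} κ(d))`
on `GL_{3m}`, for `δ` with coinvariants only for `N_m` and `κ` cuspidal.
-/

open Filter Topology Matrix Polynomial
open scoped TensorProduct

set_option linter.unusedSectionVars false

namespace SpW

section closedOne

variable {E : Type} [NontriviallyNormedField E] [IsUltrametricDist E] [ProperSpace E]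
  {a b N : ℕ} (h : a + b = N) {W : Type} [AddCommGroup W] [Module ℂ W]

/-- the closed stratum `g R_k ⊆ Y` with one eigenvalue -/
theorem closed_eig_up {ρ : (GL (Fin a) E × GL (Fin b) E) →* Module.End ℂ W}
    (hρ : IsSmoothRep ρ) {k : ℕ} (hk : k ≤ a) (z : Eˣ) (c : ℂ)
    (hc : ∀ w, ρ (dgl (fun i : Fin a => if i.1 < k then z else 1), 1) w - c • w ∈
      cvN ρ ((Nk a k E).prod ⊥) ⊤) (f : IndJ h ρ) :
    ∃ f₀ : IndJ h ρ, indActJ h ρ (dgl (fun i : Fin N => if i.1 < k then z else 1)) f - c • f - f₀ ∈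
        cvN (indActJ h ρ) (Nk N k E) ⊤ ∧
      ∀ g, (f₀ : GL (Fin N) E → W) g ≠ 0 → 1 ≤ rkJ h k g := by
  classical
  have htau : tauJ h ρ ⟨dgl (fun i : Fin N => if i.1 < k then z else 1), dgl_mem_PSJ h _⟩ =
      ρ (dgl (fun i : Fin a => if i.1 < k then z else 1), 1) := by
    rw [tauJ_pelJ ρ _ (dgl_eq_pelJ h _)]
    have e1 : (dgl (fun i : Fin a => if (sJ h (Sum.inl i) : Fin N).1 < k then z else 1) :
        GL (Fin a) E) = dgl (fun i : Fin a => if i.1 < k then z else 1) := by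
      congr 1
    have e2 : (dgl (fun i : Fin b => if (sJ h (Sum.inr i) : Fin N).1 < k then z else 1) :
        GL (Fin b) E) = 1 := by
      have e3 : (fun i : Fin b => if (sJ h (Sum.inr i) : Fin N).1 < k then z else 1) =
          (1 : Fin b → Eˣ) := by
        funext i
        rw [sJ_inr]
        have : ¬ (a + i.1 < k) := by omega
        simp [this]
      rw [e3, map_one]
    rw [e1, e2]
  have hP' : ∀ w, aeval (tauJ h ρ ⟨dgl (fun i : Fin N => if i.1 < k then z else 1),
      dgl_mem_PSJ h _⟩) (X - C c : ℂ[X]) w ∈ Submodule.span ℂ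
        (rel (tauJ h ρ) (Nk N k E : Set (GL (Fin N) E)) Set.univ 1) := by
    intro w
    rw [htau, map_sub, aeval_X, aeval_C]
    exact cvN_le_rel_up h (hc w)
  obtain ⟨f₁, h1, h2⟩ := strataJ_value h ρ hρ (k := k) (j := 0)
    (aeval (indActJ h ρ (dgl (fun i : Fin N => if i.1 < k then z else 1))) (X - C c : ℂ[X]) f)
    (fun g _ => Nat.zero_le _) (by
      intro g hg
      obtain ⟨p, q, hq, rfl⟩ := exists_closed_up h (by omega : k ≤ N) hg
      exact closed_value h z (X - C c : ℂ[X]) hP' f p hq)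
  refine ⟨f₁, ?_, fun g hg => (h2 g hg).1⟩
  have e : aeval (indActJ h ρ (dgl (fun i : Fin N => if i.1 < k then z else 1)))
      (X - C c : ℂ[X]) f =
      indActJ h ρ (dgl (fun i : Fin N => if i.1 < k then z else 1)) f - c • f := by
    rw [map_sub, aeval_X, aeval_C]
    rfl
  rwa [e] at h1

/-- the coinvariants are stable under the central element -/
theorem cvN_zeta_stab {ρ : (GL (Fin a) E × GL (Fin b) E) →* Module.End ℂ W} {k : ℕ} (z : Eˣ)
    {f : IndJ h ρ} (hf : f ∈ cvN (indActJ h ρ) (Nk N k E) ⊤) :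
    indActJ h ρ (dgl (fun i : Fin N => if i.1 < k then z else 1)) f ∈
      cvN (indActJ h ρ) (Nk N k E) ⊤ := by
  refine cvN_stab _ (fun n hn => ?_) (fun _ _ => Submodule.mem_top) f hf
  have h2 : (1 - prj E {i : Fin N | i.1 < k}) *
      (((dgl (fun i : Fin N => if i.1 < k then z else 1))⁻¹ : GL (Fin N) E) :
        Matrix (Fin N) (Fin N) E) * prj E {i : Fin N | i.1 < k} = 0 := by
    rw [dgl_zeta_inv_val, mul_add, mul_one, add_mul, sub_mul, one_mul, Matrix.mul_smul,
      Matrix.smul_mul, sub_mul, one_mul, prj_idem]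
    simp
  have h3 := conj_mem_Nk (E := E) hn h2
  rwa [inv_inv] at h3

/-- zero rank for `k = a` means membership in the parabolic subgroup -/
theorem exists_pelJ_of_rkJ {g : GL (Fin N) E} (hg : rkJ h a g = 0) : ∃ p q y, g = pelJ h p q y := by
  rw [exists_pelJ_iff]
  have h0 : Module.finrank E (LinearMap.range
      (lowKJ h a (g : Matrix (Fin N) (Fin N) E)).mulVecLin) = 0 := hg
  rw [Submodule.finrank_eq_zero, LinearMap.range_eq_bot] at h0
  have h1 : lowKJ h a (g : Matrix (Fin N) (Fin N) E) = 0 := by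
    ext i j
    have h2 := congrFun (LinearMap.congr_fun h0 (Pi.single j (1 : E))) i
    rw [Matrix.mulVecLin_apply, Matrix.mulVec_single_one] at h2
    exact h2
  ext i j
  exact congrFun (congrFun h1 i) ⟨sJ h (Sum.inl j), by
    show (sJ h (Sum.inl j) : Fin N).1 < a
    rw [sJ_inl]
    exact j.2⟩

end closedOne

section sig

variable {E : Type} [NontriviallyNormedField E] [IsUltrametricDist E] [ProperSpace E]
  [MeasurableSpace E] [BorelSpace E] {m : ℕ} (h : 2 * m + m = 3 * m)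
  {A V : Type} [AddCommGroup A] [Module ℂ A] [AddCommGroup V] [Module ℂ V]
  {δ : GL (Fin (2 * m)) E →* Module.End ℂ A} {κ : GL (Fin m) E →* Module.End ℂ V}

omit [IsUltrametricDist E] in
/-- `N_k` for the trivial values of `k` -/
theorem Nk_zero_eq (n : ℕ) : Nk n 0 E = ⊥ := by
  rw [eq_bot_iff]
  intro u hu
  rw [Subgroup.mem_bot]
  apply Units.ext
  ext i j
  exact hu i j (by omega)

/-- (J1) no coinvariants for `k ≠ m, 2m` -/
theorem sigJ_other (s t : ℝ) (hδ : IsSmoothRep δ) (hκ : IsSmoothRep κ) (hκc : IsCusp κ)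
    (hD1 : ∀ k, 0 < k → k < 2 * m → k ≠ m → cvN δ (Nk (2 * m) k E) ⊤ = ⊤)
    {k : ℕ} (hk0 : 0 < k) (hk : k < 3 * m) (hkm : k ≠ m) (hk2 : k ≠ 2 * m) :
    cvN (indActJ h (oten s t δ κ)) (Nk (3 * m) k E) ⊤ = ⊤ := by
  refine indJ_coinv_top h _ (oten_smooth hδ hκ s t) hk.le (fun j r hr hra hjb => ?_)
  by_cases hj : 0 < j ∧ j < m
  · exact Or.inr (cvN_oten_low_top s t δ (hκc j hj.1 hj.2))
  · left
    refine cvN_oten_up_top s t κ (hD1 r ?_ ?_ ?_)
    · omega
    · omega
    · omega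

end sig

end SpW
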