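import Pool.Agent.Work.MP_3615d2_al.Coinv

/-!
MP_3615d2_al, block Co: extension of `N`-invariant eigenfunctionals (note 6706, EXTRA).

`π` a smooth representation, `N` an increasing union of compact subgroups, `ζ` normalises `N`,
`A` stable under `N` and `ζ`, `ξ : A → W` invariant under `N` with `ξ ∘ ζ = β ξ`. If `p(ζ) V` lies
in `A + V(N)` and `p(β) ≠ 0` then `ξ` extends to `V`; the extension has all the equivariance of
`ξ` and respects subrepresentations.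
-/

open Filter Topology Polynomial

namespace SpW

section

variable {G V W : Type} [Group G] [AddCommGroup V] [Module ℂ V] [AddCommGroup W] [Module ℂ W]
  {π : G →* Module.End ℂ V} {N : Subgroup G} {ζ : G}

/-- A subspace stable under an operator is stable under the polynomials of the operator. -/
theorem aeval_mem_of_stable {A : Submodule ℂ V} {T : Module.End ℂ V} (hA : ∀ v ∈ A, T v ∈ A)
    (p : ℂ[X]) : ∀ v ∈ A, aeval T p v ∈ A := by
  induction p using Polynomial.induction_on' with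
  | add p q hp hq =>
    intro v hv
    rw [map_add]
    exact A.add_mem (hp v hv) (hq v hv)
  | monomial n c =>
    intro v hv
    rw [aeval_monomial, Module.End.mul_apply, Module.algebraMap_end_apply]
    refine A.smul_mem c ?_
    induction n with
    | zero => simpa using hv
    | succ n ih =>
      rw [pow_succ', Module.End.mul_apply]
      exact hA _ ih

/-- Congruence modulo a stable subspace passes to polynomials. -/
theorem aeval_congr_of_stable {C : Submodule ℂ V} {T : Module.End ℂ V} (hT : ∀ v ∈ C, T v ∈ C)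
    {R : Module.End ℂ V} (h : ∀ v, T (R v) - R (T v) ∈ C) (p : ℂ[X]) :
    ∀ v, aeval T p (R v) - R (aeval T p v) ∈ C := by
  induction p using Polynomial.induction_on' with
  | add p q hp hq =>
    intro v
    rw [map_add, LinearMap.add_apply, LinearMap.add_apply, map_add, add_sub_add_comm]
    exact C.add_mem (hp v) (hq v)
  | monomial n c =>
    intro v
    rw [aeval_monomial, Module.End.mul_apply, Module.End.mul_apply, Module.algebraMap_end_apply,
      Module.algebraMap_end_apply, map_smul, ← smul_sub]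
    refine C.smul_mem c ?_
    induction n with
    | zero => simp
    | succ n ih =>
      rw [pow_succ', Module.End.mul_apply, Module.End.mul_apply]
      have h1 := C.add_mem (hT _ ih) (h ((T ^ n) v))
      rwa [map_sub, sub_add_sub_cancel] at h1

/-- The value of a polynomial on an eigenfunctional. -/
theorem map_aeval_eigen {A : Submodule ℂ V} {T : Module.End ℂ V} (hA : ∀ v ∈ A, T v ∈ A)
    {ξ : V →ₗ[ℂ] W} {β : ℂ} (h : ∀ v ∈ A, ξ (T v) = β • ξ v) (p : ℂ[X]) :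
    ∀ v ∈ A, ξ (aeval T p v) = p.eval β • ξ v := by
  induction p using Polynomial.induction_on' with
  | add p q hp hq =>
    intro v hv
    rw [map_add, LinearMap.add_apply, map_add, hp v hv, hq v hv, eval_add, add_smul]
  | monomial n c =>
    intro v hv
    rw [aeval_monomial, Module.End.mul_apply, Module.algebraMap_end_apply, map_smul,
      eval_monomial, mul_smul]
    congr 1
    have h1 : ∀ n : ℕ, (T ^ n) v ∈ A ∧ ξ ((T ^ n) v) = β ^ n • ξ v := by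
      intro n
      induction n with
      | zero => exact ⟨by simpa using hv, by simp⟩
      | succ n ih =>
        rw [pow_succ', Module.End.mul_apply]
        exact ⟨hA _ ih.1, by rw [h _ ih.1, ih.2, smul_smul, ← pow_succ']⟩
    exact (h1 n).2

variable [TopologicalSpace G] [IsTopologicalGroup G]

/-- **Extension of eigenfunctionals.** -/
theorem exists_ext_eigen (hπ : IsSmoothRep π)
    (hN : ∃ C : ℕ → Subgroup G, Monotone C ∧ (∀ i, IsCompact (C i : Set G)) ∧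
      ∀ n, n ∈ N ↔ ∃ i, n ∈ C i)
    (hζ : ∀ n ∈ N, ζ * n * ζ⁻¹ ∈ N) {A : Submodule ℂ V}
    (hAN : ∀ n ∈ N, ∀ v ∈ A, π n v ∈ A) (hAζ : ∀ v ∈ A, π ζ v ∈ A)
    (ξ : A →ₗ[ℂ] W) (hξN : ∀ n (hn : n ∈ N) (v : A), ξ ⟨π n v, hAN n hn v v.2⟩ = ξ v) {β : ℂ}
    (hξζ : ∀ v : A, ξ ⟨π ζ v, hAζ v v.2⟩ = β • ξ v) {p : ℂ[X]} (hβ : p.eval β ≠ 0)
    (hp : ∀ v, ∃ a ∈ A, aeval (π ζ) p v - a ∈ cvN π N ⊤) :
    ∃ ξ' : V →ₗ[ℂ] W, (∀ v : A, ξ' v = ξ v) ∧ (∀ n ∈ N, ∀ v, ξ' (π n v) = ξ' v) ∧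
      (∀ v, ξ' (π ζ v) = β • ξ' v) ∧
      (∀ (g : G) (T : Module.End ℂ W), (∀ n ∈ N, g * n * g⁻¹ ∈ N) → ζ * g * ζ⁻¹ * g⁻¹ ∈ N →
        (hAg : ∀ v ∈ A, π g v ∈ A) → (∀ v : A, ξ ⟨π g v, hAg v v.2⟩ = T (ξ v)) →
        ∀ v, ξ' (π g v) = T (ξ' v)) ∧
      (∀ (B : Submodule ℂ V) (W₁ : Submodule ℂ W), (∀ n ∈ N, ∀ v ∈ B, π n v ∈ B) →
        (∀ v ∈ B, π ζ v ∈ B) → (∀ v : A, (v : V) ∈ B → ξ v ∈ W₁) → ∀ v ∈ B, ξ' v ∈ W₁) := by
  classical
  set C := cvN π N ⊤ with hC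
  have hCζ : ∀ v ∈ C, π ζ v ∈ C := cvN_stab ζ hζ fun v _ => Submodule.mem_top
  -- exactness
  have hex : A ⊓ C = cvN π N A := cvN_exact hπ hN le_top hAN fun _ _ _ _ => Submodule.mem_top
  obtain ⟨ξ₁, hξ₁⟩ := LinearMap.exists_extend ξ
  have hξ₁A : ∀ v : A, ξ₁ v = ξ v := fun v => LinearMap.congr_fun hξ₁ v
  have hkill : ∀ v ∈ cvN π N A, ξ₁ v = 0 := by
    intro v hv
    refine Submodule.span_induction (p := fun x _ => ξ₁ x = 0) ?_ (map_zero ξ₁) ?_ ?_ hv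
    · rintro x ⟨n, hn, w, hw, rfl⟩
      rw [map_sub, hξ₁A ⟨π n w, hAN n hn w hw⟩, hξ₁A ⟨w, hw⟩, hξN n hn ⟨w, hw⟩, sub_self]
    · intro x y _ _ hx hy
      rw [map_add, hx, hy, add_zero]
    · intro c x _ hx
      rw [map_smul, hx, smul_zero]
  -- the functional on `A + V(N)`
  have hle : A ⊓ C ≤ LinearMap.ker (ξ₁ ∘ₗ LinearMap.id) := by
    rw [hex]
    intro v hv
    exact hkill v hv
  obtain ⟨ξ₂, hξ₂A, hξ₂C⟩ : ∃ ξ₂ : V →ₗ[ℂ] W, (∀ v ∈ A, ξ₂ v = ξ₁ v) ∧ ∀ v ∈ C, ξ₂ v = 0 := by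
    -- extend the map `A → V / C → W`
    let q := C.mkQ
    have h1 : ∀ a : A, q a = 0 → ξ₁ a = 0 := by
      intro a ha
      have h2 : (a : V) ∈ C := (Submodule.Quotient.mk_eq_zero C).1 ha
      exact hle ⟨a.2, h2⟩
    let j : A →ₗ[ℂ] (V ⧸ C) := q.domRestrict A
    have h2 : LinearMap.ker j ≤ LinearMap.ker (ξ₁.domRestrict A) := fun a ha => h1 a ha
    obtain ⟨g, hg⟩ := LinearMap.exists_extend
      ((LinearMap.ker j).liftQ (ξ₁.domRestrict A) h2 ∘ₗ j.quotKerEquivRange.symm.toLinearMap)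
    refine ⟨g ∘ₗ q, fun v hv => ?_, fun v hv => ?_⟩
    · have h3 := LinearMap.congr_fun hg ⟨j ⟨v, hv⟩, ⟨⟨v, hv⟩, rfl⟩⟩
      have h4 : j.quotKerEquivRange.symm ⟨j ⟨v, hv⟩, ⟨⟨v, hv⟩, rfl⟩⟩ =
          (LinearMap.ker j).mkQ ⟨v, hv⟩ := by
        rw [LinearEquiv.symm_apply_eq]
        exact Subtype.ext (LinearMap.quotKerEquivRange_apply_mk j ⟨v, hv⟩).symm
      have h5 : ((LinearMap.ker j).liftQ (ξ₁.domRestrict A) h2 ∘ₗ
          j.quotKerEquivRange.symm.toLinearMap) ⟨j ⟨v, hv⟩, ⟨⟨v, hv⟩, rfl⟩⟩ = ξ₁ v := by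
        rw [LinearMap.comp_apply]
        have h6 : j.quotKerEquivRange.symm.toLinearMap ⟨j ⟨v, hv⟩, ⟨⟨v, hv⟩, rfl⟩⟩ =
          (LinearMap.ker j).mkQ ⟨v, hv⟩ := h4
        rw [h6]
        rfl
      rw [h5] at h3
      exact h3
    · have h3 : q v = 0 := (Submodule.Quotient.mk_eq_zero C).2 hv
      rw [LinearMap.comp_apply, h3, map_zero]
  have hξ₂ : ∀ v : A, ξ₂ v = ξ v := fun v => by rw [hξ₂A v v.2, hξ₁A]
  let P := aeval (π ζ) p
  let ξ' : V →ₗ[ℂ] W := (p.eval β)⁻¹ • (ξ₂ ∘ₗ P)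
  have hξ'def : ∀ v, ξ' v = (p.eval β)⁻¹ • ξ₂ (P v) := fun v => rfl
  -- the value of `ξ'`
  have hval : ∀ v, ∀ a : A, P v - a ∈ C → ξ' v = (p.eval β)⁻¹ • ξ a := by
    intro v a h
    rw [hξ'def]
    congr 1
    have h1 := hξ₂C _ h
    rw [map_sub, sub_eq_zero] at h1
    rw [h1, hξ₂]
  have hgen : ∀ (g : G) (T : Module.End ℂ W), (∀ n ∈ N, g * n * g⁻¹ ∈ N) →
      ζ * g * ζ⁻¹ * g⁻¹ ∈ N →
        (hAg : ∀ v ∈ A, π g v ∈ A) → (∀ v : A, ξ ⟨π g v, hAg v v.2⟩ = T (ξ v)) →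
        ∀ v, ξ' (π g v) = T (ξ' v) := by
    intro g T hgN hgζ hAg hgT v
    have hCg : ∀ v ∈ C, π g v ∈ C := cvN_stab g hgN fun v _ => Submodule.mem_top
    obtain ⟨a, ha, h1⟩ := hp v
    have h2 : ∀ v, π ζ (π g v) - π g (π ζ v) ∈ C := by
      intro v
      have h3 : π ζ (π g v) = π (ζ * g * ζ⁻¹ * g⁻¹) (π g (π ζ v)) := by
        rw [← Module.End.mul_apply, ← map_mul, ← Module.End.mul_apply, ← map_mul,
          ← Module.End.mul_apply, ← map_mul]
        congr 2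
        group
      rw [h3]
      exact Submodule.subset_span ⟨_, hgζ, _, Submodule.mem_top, rfl⟩
    have h3 := aeval_congr_of_stable hCζ h2 p v
    have h4 : P (π g v) - π g a ∈ C := by
      have h5 := C.add_mem h3 (hCg _ h1)
      rw [map_sub, sub_add_sub_cancel] at h5
      exact h5
    rw [hval (π g v) ⟨π g a, hAg a ha⟩ h4, hgT ⟨a, ha⟩, hval v ⟨a, ha⟩ h1, map_smul]
  refine ⟨ξ', fun v => ?_, fun n hn v => ?_, fun v => ?_, hgen, ?_⟩
  · have h1 : P v ∈ A := aeval_mem_of_stable hAζ p v v.2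
    have h2 := hval v ⟨P v, h1⟩ (by rw [sub_self]; exact C.zero_mem)
    have h3 : ∀ w ∈ A, ξ₂ (π ζ w) = β • ξ₂ w := by
      intro w hw
      rw [hξ₂ ⟨π ζ w, hAζ w hw⟩, hξ₂ ⟨w, hw⟩]
      exact hξζ ⟨w, hw⟩
    have h4 := map_aeval_eigen hAζ h3 p v v.2
    rw [hξ'def]
    show (p.eval β)⁻¹ • ξ₂ (aeval (π ζ) p v) = ξ v
    rw [h4, smul_smul, inv_mul_cancel₀ hβ, one_smul, hξ₂]
  · have h1 := hgen n 1 (fun n' hn' => N.mul_mem (N.mul_mem hn hn') (N.inv_mem hn))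
      (N.mul_mem (hζ n hn) (N.inv_mem hn)) (hAN n hn) (fun v => hξN n hn v) v
    exact h1
  · have h1 := hgen ζ (β • 1) hζ (by
      have : ζ * ζ * ζ⁻¹ * ζ⁻¹ = 1 := by group
      rw [this]
      exact N.one_mem) hAζ (fun v => hξζ v) v
    exact h1
  · intro B W₁ hBN hBζ hBW v hv
    -- `p(ζ) v = a + n` with `a ∈ A ∩ B`
    have hPB : P v ∈ B := aeval_mem_of_stable hBζ p v hv
    obtain ⟨a, ha, h1⟩ := hp v
    -- exactness for `A ⊔ B`
    have hAB : (A ⊔ B) ⊓ C = cvN π N (A ⊔ B) :=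
      cvN_exact hπ hN le_top (fun n hn w hw => by
        obtain ⟨x, hx, y, hy, rfl⟩ := Submodule.mem_sup.1 hw
        rw [map_add]
        exact Submodule.add_mem_sup (hAN n hn x hx) (hBN n hn y hy))
        fun _ _ _ _ => Submodule.mem_top
    have h2 : P v - a ∈ cvN π N (A ⊔ B) := by
      rw [← hAB]
      exact ⟨(A ⊔ B).sub_mem (Submodule.mem_sup_right hPB) (Submodule.mem_sup_left ha), h1⟩
    rw [cvN_sup] at h2
    obtain ⟨x, hx, y, hy, h3⟩ := Submodule.mem_sup.1 h2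
    have hxA : x ∈ A := by
      refine Submodule.span_le.2 ?_ hx
      rintro _ ⟨n, hn, w, hw, rfl⟩
      exact A.sub_mem (hAN n hn w hw) hw
    have hyB : y ∈ B := by
      refine Submodule.span_le.2 ?_ hy
      rintro _ ⟨n, hn, w, hw, rfl⟩
      exact B.sub_mem (hBN n hn w hw) hw
    have hyC : y ∈ C := cvN_mono le_top hy
    have h4 : P v - (a + x) = y := by
      rw [← sub_sub, ← h3]
      abel
    have h5 : a + x ∈ B := by
      have h6 : a + x = P v - y := by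
        rw [← h4]
        abel
      rw [h6]
      exact B.sub_mem hPB hyB
    rw [hval v ⟨a + x, A.add_mem ha hxA⟩ (by
      show P v - (a + x) ∈ C
      rw [h4]
      exact hyC)]
    exact W₁.smul_mem _ (hBW ⟨a + x, A.add_mem ha hxA⟩ h5)

end

end SpW
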