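import Pool.Agent.Work.MP_3615d2_al.Co.CellJ
import Pool.Agent.Work.MP_3615d2_al.Co.ExtFun

/-!
MP_3615d2_al, block Co: the intertwining operator `M : IndJ h ρ → IndJ h' ρ'`, `h : a + b = N`,
`h' : b + a = N`, `ρ'(q, p) = |det q|^a |det p|^{-b} ρ(p, q)`: the Frobenius adjoint of the
extension of the integral over the open cell `P_{a,b} w N_{b,a}` (notes 6688, 6706, 6708).
-/

open Matrix Filter Topology Polynomial

set_option linter.unusedSectionVars false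

namespace SpW

section swap

variable {E : Type} [NontriviallyNormedField E] [IsUltrametricDist E] [ProperSpace E]
  [MeasurableSpace E] [BorelSpace E]
  {a b N : ℕ} (h : a + b = N) (h' : b + a = N)
  {W : Type} [AddCommGroup W] [Module ℂ W]

/-- `ρ'(q, p) = |det q|^a |det p|^{-b} ρ(p, q)`. -/
noncomputable def swJ {a b : ℕ} (ρ : (GL (Fin a) E × GL (Fin b) E) →* Module.End ℂ W) :
    (GL (Fin b) E × GL (Fin a) E) →* Module.End ℂ W where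
  toFun r := ((ad r.1 ^ (a : ℝ) * ad r.2 ^ (-(b : ℝ)) : ℝ) : ℂ) • ρ (r.2, r.1)
  map_one' := by
    have h1 : ρ ((1 : GL (Fin a) E), (1 : GL (Fin b) E)) = 1 := map_one ρ
    show ((ad (1 : GL (Fin b) E) ^ (a : ℝ) * ad (1 : GL (Fin a) E) ^ (-(b : ℝ)) : ℝ) : ℂ) •
      ρ ((1 : GL (Fin a) E), (1 : GL (Fin b) E)) = 1
    rw [h1, ad_one, ad_one, Real.one_rpow, Real.one_rpow, mul_one, Complex.ofReal_one, one_smul]
  map_mul' r s := by
    have h1 : ρ (r.2 * s.2, r.1 * s.1) = ρ (r.2, r.1) * ρ (s.2, s.1) := by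
      rw [← map_mul]
      rfl
    show ((ad (r.1 * s.1) ^ (a : ℝ) * ad (r.2 * s.2) ^ (-(b : ℝ)) : ℝ) : ℂ) •
      ρ (r.2 * s.2, r.1 * s.1) = (((ad r.1 ^ (a : ℝ) * ad r.2 ^ (-(b : ℝ)) : ℝ) : ℂ) •
        ρ (r.2, r.1)) * (((ad s.1 ^ (a : ℝ) * ad s.2 ^ (-(b : ℝ)) : ℝ) : ℂ) • ρ (s.2, s.1))
    rw [h1, smul_mul_smul_comm, ad_mul, ad_mul, Real.mul_rpow (ad_pos _).le (ad_pos _).le,
      Real.mul_rpow (ad_pos _).le (ad_pos _).le]
    congr 1
    push_cast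
    ring

omit [IsUltrametricDist E] in
theorem swJ_apply {a b : ℕ} (ρ : (GL (Fin a) E × GL (Fin b) E) →* Module.End ℂ W)
    (q : GL (Fin b) E) (p : GL (Fin a) E) (w : W) :
    swJ ρ (q, p) w = ((ad q ^ (a : ℝ) * ad p ^ (-(b : ℝ)) : ℝ) : ℂ) • ρ (p, q) w := rfl

/-- The functions with values in a subspace. -/
def valSub {ρ : (GL (Fin a) E × GL (Fin b) E) →* Module.End ℂ W} (W₁ : Submodule ℂ W) :
    Submodule ℂ (IndJ h ρ) where
  carrier := {f | ∀ g, (f : GL (Fin N) E → W) g ∈ W₁}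
  add_mem' hf hf' g := W₁.add_mem (hf g) (hf' g)
  zero_mem' _ := W₁.zero_mem
  smul_mem' c _ hf g := W₁.smul_mem c (hf g)

omit [MeasurableSpace E] [BorelSpace E] in
theorem valSub_act {ρ : (GL (Fin a) E × GL (Fin b) E) →* Module.End ℂ W} {W₁ : Submodule ℂ W}
    (g : GL (Fin N) E) {f : IndJ h ρ} (hf : f ∈ valSub h W₁) : indActJ h ρ g f ∈ valSub h W₁ :=
  fun x => hf (x * g)

omit [IsUltrametricDist E] [ProperSpace E] [MeasurableSpace E] [BorelSpace E] in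
theorem exists_pelJ_one {q : GL (Fin b) E} {p : GL (Fin a) E} (hq : q = 1) (hp : p = 1)
    (y : Matrix (Fin b) (Fin a) E) : ∃ x, pelJ h' q p y = pelJ h' 1 1 x := by
  subst hq hp
  exact ⟨y, rfl⟩

omit [MeasurableSpace E] [BorelSpace E] in
/-- the commutator of `ζ = diag(z, 1)` and an element of the parabolic subgroup -/
theorem zeta_comm_mem (z : Eˣ) (q : GL (Fin b) E) (p : GL (Fin a) E)
    (y : Matrix (Fin b) (Fin a) E) :
    pelJ h' (Matrix.GeneralLinearGroup.scalar (Fin b) z) 1 0 * pelJ h' q p y *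
      (pelJ h' (Matrix.GeneralLinearGroup.scalar (Fin b) z) 1 0)⁻¹ * (pelJ h' q p y)⁻¹ ∈
        Nk N b E := by
  rw [mem_Nk_J h']
  have hz : Matrix.GeneralLinearGroup.scalar (Fin b) z * q *
      (Matrix.GeneralLinearGroup.scalar (Fin b) z)⁻¹ * q⁻¹ = 1 := by
    rw [scalZ_central _ ⟨z, rfl⟩ q]
    group
  rw [pelJ_inv, pelJ_inv, pelJ_mul, pelJ_mul, pelJ_mul]
  exact exists_pelJ_one h' hz (by group) _

omit [MeasurableSpace E] [BorelSpace E] in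
theorem pelJ_conj_mem (q : GL (Fin b) E) (p : GL (Fin a) E) (y : Matrix (Fin b) (Fin a) E) :
    ∀ n ∈ Nk N b E, pelJ h' q p y * n * (pelJ h' q p y)⁻¹ ∈ Nk N b E := by
  intro n hn
  obtain ⟨x, rfl⟩ := (mem_Nk_J h' n).1 hn
  rw [mem_Nk_J h', pelJ_inv, pelJ_mul, pelJ_mul]
  exact exists_pelJ_one h' (by group) (by group) _

/-- **The intertwining operator** (Frobenius adjoint of the integral over the open cell). -/
theorem exists_swapJ {ρ : (GL (Fin a) E × GL (Fin b) E) →* Module.End ℂ W}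
    (hρ : IsSmoothRep ρ) {ρ' : (GL (Fin b) E × GL (Fin a) E) →* Module.End ℂ W}
    (hρ' : ∀ q p w, ρ' (q, p) w = ((ad q ^ (a : ℝ) * ad p ^ (-(b : ℝ)) : ℝ) : ℂ) • ρ (p, q) w)
    {z : Eˣ} {c : ℂ} (hc : ∀ w, ρ (1, Matrix.GeneralLinearGroup.scalar (Fin b) z) w = c • w)
    {P : ℂ[X]} (hβ : P.eval
      (((ad (Matrix.GeneralLinearGroup.scalar (Fin b) z : GL (Fin b) E) ^ (a : ℝ) : ℝ) : ℂ) * c) ≠ 0)
    (hP : ∀ f : IndJ h ρ, ∃ f₀ ∈ cellSubJ h h' ρ,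
      aeval (indActJ h ρ (pelJ h' (Matrix.GeneralLinearGroup.scalar (Fin b) z) 1 0)) P f - f₀ ∈
        cvN (indActJ h ρ) (Nk N b E) ⊤) :
    ∃ M : IndJ h ρ →ₗ[ℂ] IndJ h' ρ',
      (∀ g f, M (indActJ h ρ g f) = indActJ h' ρ' g (M f)) ∧
      (∀ f : cellSubJ h h' ρ, ((M f : IndJ h' ρ') : GL (Fin N) E → W) 1 = xiJ h h' ρ f) ∧
      (∀ (W₁ : Submodule ℂ W), ∀ f ∈ valSub h W₁, M f ∈ valSub h' W₁) ∧
      (∀ w, ∃ f ∈ cellSubJ h h' ρ, ((M f : IndJ h' ρ') : GL (Fin N) E → W) 1 = w ∧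
        ∀ W₁ : Submodule ℂ W, (∀ p q, ∀ w ∈ W₁, ρ (p, q) w ∈ W₁) → w ∈ W₁ → f ∈ valSub h W₁) := by
  set ζ : GL (Fin N) E := pelJ h' (Matrix.GeneralLinearGroup.scalar (Fin b) z) 1 0 with hζ
  have hone : ∀ w, ((ad (1 : GL (Fin b) E) ^ (a : ℝ) * ad (1 : GL (Fin a) E) ^ (-(b : ℝ)) : ℝ) : ℂ) •
      ρ ((1 : GL (Fin a) E), (1 : GL (Fin b) E)) w = w := by
    intro w
    have h1 : ρ ((1 : GL (Fin a) E), (1 : GL (Fin b) E)) = 1 := map_one ρ
    rw [h1, ad_one, ad_one, Real.one_rpow, Real.one_rpow, mul_one, Complex.ofReal_one, one_smul]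
    rfl
  obtain ⟨ξ, hξ1, -, -, hξ4, hξ5⟩ := exists_ext_eigen (π := indActJ h ρ) (N := Nk N b E) (ζ := ζ)
    (indJ_smooth h ρ) (Nk_union N b) (pelJ_conj_mem h' _ _ _) (A := cellSubJ h h' ρ)
    (fun n hn f hf => by
      obtain ⟨y, rfl⟩ := (mem_Nk_J h' n).1 hn
      exact indActJ_cellSubJ h h' _ _ _ hf)
    (fun f hf => indActJ_cellSubJ h h' _ _ _ hf) (xiJ h h' ρ)
    (fun n hn f => by
      obtain ⟨y, hy⟩ := (mem_Nk_J h' n).1 hn
      subst hy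
      exact (xiJ_act h h' f 1 1 y).trans (hone _))
    (β := ((ad (Matrix.GeneralLinearGroup.scalar (Fin b) z : GL (Fin b) E) ^ (a : ℝ) : ℝ) : ℂ) * c)
    (fun f => by
      refine (xiJ_act h h' f _ 1 0).trans ?_
      rw [hc, ad_one, Real.one_rpow, mul_one, smul_smul]) hβ hP
  have hact : ∀ q p y f, ξ (indActJ h ρ (pelJ h' q p y) f) = ρ' (q, p) (ξ f) := by
    intro q p y f
    have h1 := hξ4 (pelJ h' q p y)
      (((ad q ^ (a : ℝ) * ad p ^ (-(b : ℝ)) : ℝ) : ℂ) • ρ (p, q))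
      (pelJ_conj_mem h' q p y) (zeta_comm_mem h' z q p y)
      (fun f hf => indActJ_cellSubJ h h' q p y hf)
      (fun f => xiJ_act h h' f q p y) f
    rw [h1, hρ']
    rfl
  obtain ⟨M, hM1, hM2, hM3⟩ := exists_frobJ h' ρ' (indActJ h ρ) (indJ_smooth h ρ) ξ hact
  refine ⟨M, hM1, fun f => ?_, fun W₁ f hf g => ?_, fun w => ?_⟩
  · rw [hM2, hξ1]
  · rw [hM3]
    refine hξ5 (valSub h W₁) W₁ (fun n _ f hf => valSub_act h n hf)
      (fun f hf => valSub_act h ζ hf) (fun f hf => xiJ_mem h h' f W₁ hf) _ (valSub_act h g hf)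
  · obtain ⟨f, h1, h2⟩ := exists_xiJ h h' hρ w
    refine ⟨f, f.2, ?_, fun W₁ hW₁ hw => h2 W₁ hW₁ hw⟩
    rw [hM2, hξ1, h1]

end swap

end SpW
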