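import Pool.Agent.Work.MP_3615d2_al.Co.StratC
import Pool.Agent.Work.MP_3615d2_al.Co.Swap

/-!
MP_3615d2_al, block Co: the hypothesis on the polynomial in `exists_swapJ`: a polynomial of the
central element maps `IndJ h ρ` into the sum of the open cell and the coinvariant relations.
-/

open Filter Topology Matrix Polynomial

set_option linter.unusedSectionVars false

namespace SpW

section hp

variable {E : Type} [NontriviallyNormedField E] [IsUltrametricDist E] [ProperSpace E]
  {a b N : ℕ} (h : a + b = N) (h' : b + a = N) {W : Type} [AddCommGroup W] [Module ℂ W]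

/-- maximal rank means membership in the open cell -/
theorem inCellX_of_rkJ {g : GL (Fin N) E} (hg : b ≤ rkJ h b g) : InCellX h h' g := by
  classical
  have hbN : b ≤ N := by omega
  let e : Fin b ≃ {j : Fin N // j.1 < b} :=
    { toFun := fun j => ⟨sJ h' (Sum.inl j), by
        rw [sJ_inl]
        exact j.2⟩
      invFun := fun j => ⟨j.1.1, j.2⟩
      left_inv := fun j => Fin.ext (sJ_inl h' j)
      right_inv := fun j => Subtype.ext (Fin.ext (sJ_inl h' _)) }
  have h1 : xL h h' (g : Matrix (Fin N) (Fin N) E) =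
      (lowKJ h b (g : Matrix (Fin N) (Fin N) E)).submatrix (Equiv.refl _) e := rfl
  have h2 : (xL h h' (g : Matrix (Fin N) (Fin N) E)).rank = b := by
    rw [h1, Matrix.rank_submatrix]
    exact le_antisymm (rkJ_le h b g) hg
  rw [InCellX, isUnit_iff_ne_zero]
  intro h3
  obtain ⟨v, hv, hv2⟩ := Matrix.exists_mulVec_eq_zero_iff.2 h3
  have h4 := finrank_ker_add_rank (xL h h' (g : Matrix (Fin N) (Fin N) E))
  rw [h2, Fintype.card_fin] at h4
  have h5 : Module.finrank E (LinearMap.ker
      (xL h h' (g : Matrix (Fin N) (Fin N) E)).mulVecLin) = 0 := by omega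
  rw [Submodule.finrank_eq_zero] at h5
  have h6 : v ∈ LinearMap.ker (xL h h' (g : Matrix (Fin N) (Fin N) E)).mulVecLin := hv2
  rw [h5] at h6
  exact hv ((Submodule.mem_bot E).1 h6)

/-- the central element in the two forms -/
theorem pelJ_scalar_eq_dgl (z : Eˣ) :
    (pelJ h' (Matrix.GeneralLinearGroup.scalar (Fin b) z) 1 0 : GL (Fin N) E) =
      dgl (fun i : Fin N => if i.1 < b then z else 1) := by
  rw [dgl_eq_pelJ h']
  have e1 : Matrix.GeneralLinearGroup.scalar (Fin b) z =
      dgl (fun i : Fin b => if (sJ h' (Sum.inl i) : Fin N).1 < b then z else 1) := by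
    apply Units.ext
    ext i j
    rw [dgl_val, Matrix.diagonal_apply]
    simp [sJ_inl, Matrix.diagonal_apply]
  have e2 : (1 : GL (Fin a) E) =
      dgl (fun i : Fin a => if (sJ h' (Sum.inr i) : Fin N).1 < b then z else 1) := by
    apply Units.ext
    ext i j
    rw [dgl_val, Matrix.diagonal_apply]
    simp [sJ_inr, Matrix.one_apply]
  rw [← e1, ← e2]

/-- **the hypothesis `hP` of `exists_swapJ`** -/
theorem swap_hP {ρ : (GL (Fin a) E × GL (Fin b) E) →* Module.End ℂ W} (hρ : IsSmoothRep ρ)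
    (ha : 0 < a) (hab : a ≤ b)
    (hup : ∀ r, 0 < r → r < a → cvN ρ ((Nk a r E).prod ⊥) ⊤ = ⊤) (z : Eˣ) (P : ℂ[X])
    (hP : ∀ w, aeval (ρ (Matrix.GeneralLinearGroup.scalar (Fin a) z,
      dgl (fun i : Fin b => if i.1 < b - a then z else 1))) P w ∈
        cvN ρ ((⊥ : Subgroup (GL (Fin a) E)).prod (Nk b (b - a) E)) ⊤) (f : IndJ h ρ) :
    ∃ f₀ ∈ cellSubJ h h' ρ,
      aeval (indActJ h ρ (pelJ h' (Matrix.GeneralLinearGroup.scalar (Fin b) z) 1 0)) P f - f₀ ∈
        cvN (indActJ h ρ) (Nk N b E) ⊤ := by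
  classical
  rw [pelJ_scalar_eq_dgl h']
  set F := aeval (indActJ h ρ (dgl (fun i : Fin N => if i.1 < b then z else 1))) P f with hF
  have hbN : b ≤ N := by omega
  have hrk : ∀ g : GL (Fin N) E, b - a ≤ rkJ h b g := by
    intro g
    have := le_add_rkJ h hbN g
    omega
  -- the central element of the Levi subgroup
  have htau : tauJ h ρ ⟨dgl (fun i : Fin N => if i.1 < b then z else 1), dgl_mem_PSJ h _⟩ =
      ρ (Matrix.GeneralLinearGroup.scalar (Fin a) z,
        dgl (fun i : Fin b => if i.1 < b - a then z else 1)) := by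
    rw [tauJ_pelJ ρ _ (dgl_eq_pelJ h _)]
    congr 2
    · apply Units.ext
      ext i j
      rw [dgl_val, Matrix.diagonal_apply]
      have : i.1 < b := by omega
      simp [sJ_inl, Matrix.diagonal_apply, this]
    · congr 1
      funext i
      rw [sJ_inr]
      have : (a + i.1 < b) ↔ (i.1 < b - a) := by omega
      simp [this]
  have hP' : ∀ w, aeval (tauJ h ρ ⟨dgl (fun i : Fin N => if i.1 < b then z else 1),
      dgl_mem_PSJ h _⟩) P w ∈ Submodule.span ℂ
        (rel (tauJ h ρ) (Nk N b E : Set (GL (Fin N) E)) Set.univ 1) := by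
    intro w
    rw [htau]
    exact cvN_le_rel_low h (by omega) (hP w)
  obtain ⟨f₁, h1, h2⟩ := strataJ_value h ρ hρ (k := b) (j := b - a) F (fun g _ => hrk g) (by
    intro g hg
    obtain ⟨p, q, hq, rfl⟩ := exists_closed_low h (by omega : a + (b - a) = b) hg
    exact closed_value h z P hP' f p hq)
  obtain ⟨f₂, h3, h4⟩ := indJ_strata_kill h ρ hρ (k := b) (j₀ := b - a + 1) (j₁ := b) hbN
    (by omega) (fun j r hj0 hj1 hr _ _ => Or.inl (hup r (by omega) (by omega))) f₁
    (fun g hg => (h2 g hg).1)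
  refine ⟨f₂, fun g hg => inCellX_of_rkJ h h' (h4 g hg).1, ?_⟩
  have : F - f₂ = (F - f₁) + (f₁ - f₂) := by abel
  rw [this]
  exact Submodule.add_mem _ h1 h3

end hp

end SpW
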