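import Pool.Agent.Work.MP_3615d2_al.Co.CommTop
import Pool.Agent.Work.MP_3615d2_al.Co.Swap
import Pool.Agent.Work.MP_3615d2_al.Co.SwapHP
import Pool.Agent.Work.MP_3615d2_al.Co.JacD
import Pool.Agent.Work.MP_3615d2_al.Co.JacT
import Pool.Agent.Work.MP_3615d2_al.P1.DefsQ

/-!
MP_3615d2_al, (COMM) (notes 6688, 6706, 6707, 6734): the intertwining operator
`κν × I → I × κν` is onto over the subrepresentation `D` of `I`.
-/

open Filter Topology Polynomial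
open scoped TensorProduct

set_option linter.unusedSectionVars false

namespace SpW

section abs

variable {E : Type} [NontriviallyNormedField E] [IsUltrametricDist E] [ProperSpace E]
  [MeasurableSpace E] [BorelSpace E] {m : ℕ} {A D V : Type} [AddCommGroup A] [Module ℂ A]
  [AddCommGroup D] [Module ℂ D] [AddCommGroup V] [Module ℂ V]

/-- the inducing representations of the two orders agree up to the flip -/
theorem comm_swJ {κ : GL (Fin m) E →* Module.End ℂ V} {α : GL (Fin (2 * m)) E →* Module.End ℂ A}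
    (p : GL (Fin (2 * m)) E × GL (Fin m) E) (w : V ⊗[ℂ] A) :
    (TensorProduct.comm ℂ V A) (swJ (oten ((m : ℝ) + 1) (-((m : ℝ) / 2)) κ α) p w) =
      oten ((m : ℝ) / 2) (-((m : ℝ) - 1)) α κ p ((TensorProduct.comm ℂ V A) w) := by
  obtain ⟨q, p⟩ := p
  induction w using TensorProduct.induction_on with
  | zero => simp only [map_zero]
  | tmul v a =>
    rw [swJ_apply, oten_tmul, TensorProduct.comm_tmul, oten_tmul, map_smul, map_smul,
      TensorProduct.comm_tmul, smul_smul]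
    congr 1
    rw [← Complex.ofReal_mul]
    congr 1
    have h1 : ad q ^ (m : ℝ) * ad q ^ (-((m : ℝ) / 2)) = ad q ^ ((m : ℝ) / 2) := by
      rw [← Real.rpow_add (ad_pos q)]
      congr 1
      ring
    have h2 : ad p ^ (-((2 * m : ℕ) : ℝ)) * ad p ^ ((m : ℝ) + 1) = ad p ^ (-((m : ℝ) - 1)) := by
      rw [← Real.rpow_add (ad_pos p)]
      congr 1
      push_cast
      ring
    calc ad q ^ (m : ℝ) * ad p ^ (-((2 * m : ℕ) : ℝ)) *
          (ad p ^ ((m : ℝ) + 1) * ad q ^ (-((m : ℝ) / 2)))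
        = (ad q ^ (m : ℝ) * ad q ^ (-((m : ℝ) / 2))) *
            (ad p ^ (-((2 * m : ℕ) : ℝ)) * ad p ^ ((m : ℝ) + 1)) := by ring
      _ = _ := by rw [h1, h2]
  | add x y hx hy => rw [map_add, map_add, map_add, map_add, hx, hy]

/-- both factors act by scalars -/
theorem oten_scal {a b : ℕ} {V₁ V₂ : Type} [AddCommGroup V₁] [Module ℂ V₁] [AddCommGroup V₂]
    [Module ℂ V₂] (s t : ℝ) {π₁ : GL (Fin a) E →* Module.End ℂ V₁}
    {π₂ : GL (Fin b) E →* Module.End ℂ V₂} {p : GL (Fin a) E} {q : GL (Fin b) E} {c₁ c₂ : ℂ}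
    (h₁ : ∀ v, π₁ p v = c₁ • v) (h₂ : ∀ v, π₂ q v = c₂ • v) (w : V₁ ⊗[ℂ] V₂) :
    oten s t π₁ π₂ (p, q) w = (((ad p ^ s * ad q ^ t : ℝ) : ℂ) * (c₁ * c₂)) • w := by
  induction w using TensorProduct.induction_on with
  | zero => rw [map_zero, smul_zero]
  | tmul x y =>
    rw [oten_tmul, h₁, h₂, TensorProduct.smul_tmul_smul, smul_smul]
  | add x y hx hy => rw [map_add, smul_add, hx, hy]

/-- functoriality of the twisted outer tensor product in the second factor -/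
theorem oten_mapR {a b : ℕ} {V₁ V₂ V₃ : Type} [AddCommGroup V₁] [Module ℂ V₁]
    [AddCommGroup V₂] [Module ℂ V₂] [AddCommGroup V₃] [Module ℂ V₃] (s t : ℝ)
    (π₁ : GL (Fin a) E →* Module.End ℂ V₁) {π₂ : GL (Fin b) E →* Module.End ℂ V₂}
    {π₃ : GL (Fin b) E →* Module.End ℂ V₃} {j : V₃ →ₗ[ℂ] V₂} (hj : ∀ g x, j (π₃ g x) = π₂ g (j x))
    (p : GL (Fin a) E × GL (Fin b) E) (w : V₁ ⊗[ℂ] V₃) :
    TensorProduct.map (LinearMap.id (M := V₁) (R := ℂ)) j (oten s t π₁ π₃ p w) =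
      oten s t π₁ π₂ p (TensorProduct.map (LinearMap.id (M := V₁) (R := ℂ)) j w) := by
  obtain ⟨p, q⟩ := p
  induction w using TensorProduct.induction_on with
  | zero => simp only [map_zero]
  | tmul x y =>
    rw [oten_tmul, TensorProduct.map_tmul, oten_tmul, map_smul, TensorProduct.map_tmul, hj,
      LinearMap.id_apply, LinearMap.id_apply]
  | add x y hx hy => rw [map_add, map_add, map_add, map_add, hx, hy]

theorem oten_mapL {a b : ℕ} {V₁ V₂ V₃ : Type} [AddCommGroup V₁] [Module ℂ V₁]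
    [AddCommGroup V₂] [Module ℂ V₂] [AddCommGroup V₃] [Module ℂ V₃] (s t : ℝ)
    {π₁ : GL (Fin a) E →* Module.End ℂ V₁} (π₂ : GL (Fin b) E →* Module.End ℂ V₂)
    {π₃ : GL (Fin a) E →* Module.End ℂ V₃} {j : V₃ →ₗ[ℂ] V₁} (hj : ∀ g x, j (π₃ g x) = π₁ g (j x))
    (p : GL (Fin a) E × GL (Fin b) E) (w : V₃ ⊗[ℂ] V₂) :
    TensorProduct.map j (LinearMap.id (M := V₂) (R := ℂ)) (oten s t π₃ π₂ p w) =
      oten s t π₁ π₂ p (TensorProduct.map j (LinearMap.id (M := V₂) (R := ℂ)) w) := by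
  obtain ⟨p, q⟩ := p
  induction w using TensorProduct.induction_on with
  | zero => simp only [map_zero]
  | tmul x y =>
    rw [oten_tmul, TensorProduct.map_tmul, oten_tmul, map_smul, TensorProduct.map_tmul, hj,
      LinearMap.id_apply, LinearMap.id_apply]
  | add x y hx hy => rw [map_add, map_add, map_add, map_add, hx, hy]

/-- the two eigenvalues on the Jacquet module of the second factor -/
theorem oten_aeval_low {a b : ℕ} {V₁ V₂ : Type} [AddCommGroup V₁] [Module ℂ V₁]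
    [AddCommGroup V₂] [Module ℂ V₂] (s t : ℝ) {π₁ : GL (Fin a) E →* Module.End ℂ V₁}
    {π₂ : GL (Fin b) E →* Module.End ℂ V₂} {p : GL (Fin a) E} {q : GL (Fin b) E} {c : ℂ}
    (h₁ : ∀ v, π₁ p v = c • v) {k : ℕ} {a₁ a₂ : ℂ}
    (hA : ∀ v, π₂ q (π₂ q v - a₁ • v) - a₂ • (π₂ q v - a₁ • v) ∈ cvN π₂ (Nk b k E) ⊤)
    (w : V₁ ⊗[ℂ] V₂) :
    aeval (oten s t π₁ π₂ (p, q))
      ((X - C ((((ad p ^ s * ad q ^ t : ℝ) : ℂ) * c) * a₂)) *
        (X - C ((((ad p ^ s * ad q ^ t : ℝ) : ℂ) * c) * a₁))) w ∈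
      cvN (oten s t π₁ π₂) ((⊥ : Subgroup (GL (Fin a) E)).prod (Nk b k E)) ⊤ := by
  set c' : ℂ := ((ad p ^ s * ad q ^ t : ℝ) : ℂ) * c with hc'
  induction w using TensorProduct.induction_on with
  | zero => rw [map_zero]; exact Submodule.zero_mem _
  | tmul x y =>
    have h2 : ∀ (y : V₂) (e : ℂ), aeval (oten s t π₁ π₂ (p, q)) (X - C (c' * e) : ℂ[X])
        (x ⊗ₜ[ℂ] y) = c' • (x ⊗ₜ[ℂ] (π₂ q y - e • y)) := by
      intro y e
      rw [map_sub, aeval_X, aeval_C, LinearMap.sub_apply, Module.algebraMap_end_apply, oten_tmul,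
        h₁, hc', TensorProduct.tmul_sub, TensorProduct.tmul_smul, smul_sub,
        ← TensorProduct.smul_tmul', smul_smul, smul_smul]
    rw [map_mul, Module.End.mul_apply, h2, map_smul, h2]
    exact Submodule.smul_mem _ _ (Submodule.smul_mem _ _ (cvN_oten_low s t (hA y) x))
  | add x y hx hy => rw [map_add]; exact Submodule.add_mem _ hx hy

/-- **(COMM), abstract form.** -/
theorem exists_comm_abs (hm : 0 < m) (h12 : m + 2 * m = 3 * m) (h21 : 2 * m + m = 3 * m)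
    {α : GL (Fin (2 * m)) E →* Module.End ℂ A} (hα : IsSmoothRep α)
    {δ : GL (Fin (2 * m)) E →* Module.End ℂ D} {ι : D →ₗ[ℂ] A}
    (hι : Function.Injective ι) (hιG : ∀ g x, ι (δ g x) = α g (ι x))
    {κ : GL (Fin m) E →* Module.End ℂ V} (hκ : IsSmoothRep κ) (hκc : IsCusp κ)
    {χα χκ : Eˣ → ℂ} (hχα1 : ∀ z, ‖χα z‖ = 1) (hχκ1 : ∀ z, ‖χκ z‖ = 1)
    (hχα : ∀ z v, α (Matrix.GeneralLinearGroup.scalar (Fin (2 * m)) z) v = χα z • v)
    (hχκ : ∀ z v, κ (Matrix.GeneralLinearGroup.scalar (Fin m) z) v = χκ z • v)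
    {ϖ : Eˣ} (hϖ : ‖(ϖ : E)‖ < 1) (hval : ∀ x : Eˣ, ∃ e : ℤ, ‖(x : E)‖ = ‖(ϖ : E)‖ ^ e)
    {a₁ a₂ : ℂ} (ha₁ : ‖a₁‖ = absE ϖ ^ ((m : ℝ) * (m + 1) / 2))
    (ha₂ : ‖a₂‖ = absE ϖ ^ ((m : ℝ) * (m - 1) / 2))
    (hA : ∀ v, α (dgl (fun i : Fin (2 * m) => if i.1 < m then ϖ else 1))
        (α (dgl (fun i : Fin (2 * m) => if i.1 < m then ϖ else 1)) v - a₁ • v) -
          a₂ • (α (dgl (fun i : Fin (2 * m) => if i.1 < m then ϖ else 1)) v - a₁ • v) ∈
        cvN α (Nk (2 * m) m E) ⊤)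
    {c₁ c₂ c₃ : ℂ} (hc₁ : ‖c₁‖ = absE ϖ ^ ((m : ℝ) ^ 2 + m / 2))
    (hc₂ : ‖c₂‖ = absE ϖ ^ ((m : ℝ) ^ 2 + m))
    (hc₃ : ‖c₃‖ = absE ϖ ^ ((m : ℝ) ^ 2 + 3 * m / 2))
    (J1 : ∀ k, 0 < k → k < 3 * m → k ≠ m → k ≠ 2 * m →
      cvN (indActJ h21 (oten ((m : ℝ) / 2) (-((m : ℝ) - 1)) δ κ)) (Nk (3 * m) k E) ⊤ = ⊤)
    (J2 : ∀ f : IndJ h21 (oten ((m : ℝ) / 2) (-((m : ℝ) - 1)) δ κ),
      indActJ h21 _ (dgl (fun i : Fin (3 * m) => if i.1 < m then ϖ else 1))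
        (indActJ h21 _ (dgl (fun i : Fin (3 * m) => if i.1 < m then ϖ else 1)) f - c₁ • f) -
          c₂ • (indActJ h21 _ (dgl (fun i : Fin (3 * m) => if i.1 < m then ϖ else 1)) f -
            c₁ • f) ∈
        cvN (indActJ h21 (oten ((m : ℝ) / 2) (-((m : ℝ) - 1)) δ κ)) (Nk (3 * m) m E) ⊤)
    (J3 : ∀ f : IndJ h21 (oten ((m : ℝ) / 2) (-((m : ℝ) - 1)) δ κ), evJ h21 _ f = 0 →
      indActJ h21 _ (dgl (fun i : Fin (3 * m) => if i.1 < 2 * m then ϖ else 1)) f - c₃ • f ∈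
        cvN (indActJ h21 (oten ((m : ℝ) / 2) (-((m : ℝ) - 1)) δ κ))
          (Nk (3 * m) (2 * m) E) ⊤) :
    ∃ M : IndJ h12 (oten ((m : ℝ) + 1) (-((m : ℝ) / 2)) κ α) →ₗ[ℂ]
        IndJ h21 (oten ((m : ℝ) / 2) (-((m : ℝ) - 1)) α κ),
      (∀ g f, M (indActJ h12 _ g f) = indActJ h21 _ g (M f)) ∧
      (∀ f ∈ valSub h12 (LinearMap.range (TensorProduct.map (LinearMap.id (M := V) (R := ℂ)) ι)),
        M f ∈ valSub h21 (LinearMap.range
          (TensorProduct.map ι (LinearMap.id (M := V) (R := ℂ))))) ∧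
      ∀ f ∈ valSub (ρ := oten ((m : ℝ) / 2) (-((m : ℝ) - 1)) α κ) h21
          (LinearMap.range (TensorProduct.map ι (LinearMap.id (M := V) (R := ℂ)))),
        ∃ f' ∈ valSub h12 (LinearMap.range
          (TensorProduct.map (LinearMap.id (M := V) (R := ℂ)) ι)), M f' = f := by
  have hq0 : 0 < absE ϖ := absE_pos ϖ
  have hq1 : absE ϖ < 1 := absE_lt_one hϖ
  have hmR : (0 : ℝ) < m := by exact_mod_cast hm
  set ρ := oten ((m : ℝ) + 1) (-((m : ℝ) / 2)) κ α with hρdef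
  set ρ₁ := oten ((m : ℝ) / 2) (-((m : ℝ) - 1)) α κ with hρ₁def
  set ρ₂ := oten ((m : ℝ) / 2) (-((m : ℝ) - 1)) δ κ with hρ₂def
  have hρ : IsSmoothRep ρ := oten_smooth hκ hα _ _
  have hs : ∀ (n : ℕ) (z : Eˣ) (x : ℝ),
      ad (Matrix.GeneralLinearGroup.scalar (Fin n) z) ^ x = absE z ^ ((n : ℝ) * x) := by
    intro n z x
    rw [ad_scalar, ← Real.rpow_natCast, ← Real.rpow_mul (absE_pos z).le]
  have hnr : ∀ x : ℝ, ‖((absE ϖ ^ x : ℝ) : ℂ)‖ = absE ϖ ^ x := fun x => by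
    rw [Complex.norm_real, Real.norm_of_nonneg (Real.rpow_pos_of_pos hq0 x).le]
  have hinj : ∀ x y : ℝ, x ≠ y → absE ϖ ^ x ≠ absE ϖ ^ y := by
    intro x y hxy h1
    rcases lt_or_gt_of_ne hxy with h2 | h2
    · exact absurd h1 (Real.rpow_lt_rpow_of_exponent_gt hq0 hq1 h2).ne'
    · exact absurd h1 (Real.rpow_lt_rpow_of_exponent_gt hq0 hq1 h2).ne
  -- the intertwining operator
  set zm : GL (Fin (2 * m)) E := dgl (fun i : Fin (2 * m) => if i.1 < m then ϖ else 1) with hzm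
  have hadz : ad zm = absE ϖ ^ m := L2.ad_dgl_zk (n := 2 * m) (k := m) ϖ (by omega)
  set c' : ℂ := ((ad (Matrix.GeneralLinearGroup.scalar (Fin m) ϖ : GL (Fin m) E) ^ ((m : ℝ) + 1) *
    ad zm ^ (-((m : ℝ) / 2)) : ℝ) : ℂ) * χκ ϖ with hc'
  have hc'n : ‖c'‖ = absE ϖ ^ ((m : ℝ) ^ 2 / 2 + m) := by
    rw [hc', norm_mul, hχκ1, mul_one, hs, hadz, ← Real.rpow_natCast, ← Real.rpow_mul hq0.le,
      ← Real.rpow_add hq0, hnr]
    congr 1
    ring
  set c₀ : ℂ := ((ad (1 : GL (Fin m) E) ^ ((m : ℝ) + 1) *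
    ad (Matrix.GeneralLinearGroup.scalar (Fin (2 * m)) ϖ : GL (Fin (2 * m)) E) ^
      (-((m : ℝ) / 2)) : ℝ) : ℂ) * (1 * χα ϖ) with hc₀
  have hc : ∀ w, ρ (1, Matrix.GeneralLinearGroup.scalar (Fin (2 * m)) ϖ) w = c₀ • w := fun w =>
    oten_scal _ _ (fun v => by rw [map_one, Module.End.one_apply, one_smul]) (hχα ϖ) w
  set P : ℂ[X] := (X - C (c' * a₂)) * (X - C (c' * a₁)) with hPdef
  have hβn : ‖(((ad (Matrix.GeneralLinearGroup.scalar (Fin (2 * m)) ϖ : GL (Fin (2 * m)) E) ^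
      (m : ℝ) : ℝ) : ℂ) * c₀)‖ = absE ϖ ^ ((m : ℝ) ^ 2) := by
    rw [hc₀, norm_mul, norm_mul, one_mul, hχα1, mul_one, ad_one, Real.one_rpow, one_mul, hs, hs,
      hnr, hnr, ← Real.rpow_add hq0]
    congr 1
    push_cast
    ring
  have hβ : P.eval (((ad (Matrix.GeneralLinearGroup.scalar (Fin (2 * m)) ϖ :
      GL (Fin (2 * m)) E) ^ (m : ℝ) : ℝ) : ℂ) * c₀) ≠ 0 := by
    rw [hPdef, eval_mul, eval_sub, eval_X, eval_C, eval_sub, eval_X, eval_C]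
    refine mul_ne_zero (sub_ne_zero.2 ?_) (sub_ne_zero.2 ?_)
    · intro h0
      have h1 := congrArg norm h0
      rw [hβn, norm_mul, hc'n, ha₂, ← Real.rpow_add hq0] at h1
      exact hinj _ _ (by nlinarith) h1
    · intro h0
      have h1 := congrArg norm h0
      rw [hβn, norm_mul, hc'n, ha₁, ← Real.rpow_add hq0] at h1
      exact hinj _ _ (by nlinarith) h1
  have h2m : 2 * m - m = m := by omega
  obtain ⟨M₀, hM1, -, hM3, hM4⟩ := exists_swapJ h12 h21 hρ (ρ' := swJ ρ) (swJ_apply ρ) hc hβ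
    (fun f => swap_hP h12 h21 hρ hm (by omega)
      (fun r hr0 hr => cvN_oten_up_top _ _ α (hκc r hr0 hr)) ϖ P (by
        intro w
        rw [h2m]
        exact oten_aeval_low _ _ (hχκ ϖ) hA w) f)
  -- the flip
  set T : V ⊗[ℂ] A →ₗ[ℂ] A ⊗[ℂ] V := (TensorProduct.comm ℂ V A).toLinearMap with hT
  have hTG : ∀ p w, T (swJ ρ p w) = ρ₁ p (T w) := fun p w => comm_swJ p w
  set W₁ : Submodule ℂ (V ⊗[ℂ] A) :=
    LinearMap.range (TensorProduct.map (LinearMap.id (M := V) (R := ℂ)) ι) with hW₁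
  have hW₁s : ∀ p q, ∀ w ∈ W₁, ρ (p, q) w ∈ W₁ := by
    rintro p q _ ⟨x, rfl⟩
    exact ⟨oten _ _ κ δ (p, q) x, oten_mapR _ _ κ hιG (p, q) x⟩
  set φ : D ⊗[ℂ] V →ₗ[ℂ] A ⊗[ℂ] V := TensorProduct.map ι (LinearMap.id (M := V) (R := ℂ)) with hφ
  have hφG : ∀ p w, φ (ρ₂ p w) = ρ₁ p (φ w) := fun p w => oten_mapL _ _ κ hιG p w
  have hφi : Function.Injective φ := Module.Flat.rTensor_preserves_injective_linearMap ι hι
  have hTφ : ∀ w ∈ W₁, T w ∈ LinearMap.range φ := by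
    rintro _ ⟨x, rfl⟩
    refine ⟨TensorProduct.comm ℂ V D x, ?_⟩
    induction x using TensorProduct.induction_on with
    | zero => simp only [map_zero]
    | tmul x y => rfl
    | add x y hx hy => rw [map_add, map_add, map_add, map_add, hx, hy]
  have hTφ' : ∀ x, (TensorProduct.comm ℂ V A).symm (φ x) ∈ W₁ := by
    intro x
    refine ⟨(TensorProduct.comm ℂ V D).symm x, ?_⟩
    induction x using TensorProduct.induction_on with
    | zero => simp only [map_zero]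
    | tmul x y => rfl
    | add x y hx hy => rw [map_add, map_add, map_add, map_add, hx, hy]
  let M : IndJ h12 ρ →ₗ[ℂ] IndJ h21 ρ₁ := (mapJ h21 T hTG).comp M₀
  have hMG : ∀ g f, M (indActJ h12 ρ g f) = indActJ h21 ρ₁ g (M f) := by
    intro g f
    show mapJ h21 T hTG (M₀ (indActJ h12 ρ g f)) = _
    rw [hM1, mapJ_act]
    rfl
  have hMv : ∀ f ∈ valSub h12 W₁, M f ∈ valSub h21 (LinearMap.range φ) := by
    intro f hf g
    exact hTφ _ (hM3 W₁ f hf g)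
  refine ⟨M, hMG, hMv, ?_⟩
  -- the subspace of the abstract representation
  let B : Submodule ℂ (IndJ h21 ρ₂) := ((valSub h12 W₁).map M).comap (mapJ h21 φ hφG)
  have hB : IsStab (indActJ h21 ρ₂) B := by
    rintro g f' ⟨f₀, hf₀, hf⟩
    refine ⟨indActJ h12 ρ g f₀, valSub_act h12 g hf₀, ?_⟩
    rw [hMG, hf, mapJ_act]
  have hev : ∀ w, ∃ f ∈ B, evJ h21 ρ₂ f = w := by
    intro w
    obtain ⟨f₀, -, h1, h2⟩ := hM4 ((TensorProduct.comm ℂ V A).symm (φ w))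
    have h3 := h2 W₁ hW₁s (hTφ' w)
    obtain ⟨f', hf'⟩ := exists_mapJ_eq h21 hφi hφG (M f₀) (hMv f₀ h3)
    refine ⟨f', ⟨f₀, h3, hf'.symm⟩, ?_⟩
    apply hφi
    have h4 := congrArg (fun F : IndJ h21 ρ₁ => (F : GL (Fin (3 * m)) E → A ⊗[ℂ] V) 1) hf'
    have h5 : ((M f₀ : IndJ h21 ρ₁) : GL (Fin (3 * m)) E → A ⊗[ℂ] V) 1 = φ w := by
      show T (((M₀ f₀ : IndJ h21 (swJ ρ)) : GL (Fin (3 * m)) E → V ⊗[ℂ] A) 1) = φ w
      rw [h1]
      exact LinearEquiv.apply_symm_apply (TensorProduct.comm ℂ V A) (φ w)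
    rw [← h5, ← h4]
    rfl
  have hιs : ∀ z v, δ (Matrix.GeneralLinearGroup.scalar (Fin (2 * m)) z) v = χα z • v := by
    intro z v
    apply hι
    rw [hιG, hχα, map_smul]
  have htop : B = ⊤ := by
    refine comm_top hm h21 (R := ρ₂) (χ := fun z =>
      (((ad (Matrix.GeneralLinearGroup.scalar (Fin (2 * m)) z : GL (Fin (2 * m)) E) ^ ((m : ℝ) / 2) *
        ad (Matrix.GeneralLinearGroup.scalar (Fin m) z : GL (Fin m) E) ^ (-((m : ℝ) - 1)) : ℝ) :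
          ℂ) * (χα z * χκ z))) (fun z => ?_) (fun z w => oten_scal _ _ (hιs z) (hχκ z) w)
      hB hϖ hval hc₁ hc₂ hc₃ J1 J2 J3 hev
    have hz0 := absE_pos z
    rw [norm_mul, norm_mul, hχα1, hχκ1, mul_one, mul_one, hs, hs, ← Real.rpow_add hz0,
      Complex.norm_real, Real.norm_of_nonneg (Real.rpow_pos_of_pos hz0 _).le]
    congr 1
    push_cast
    ring
  intro f hf
  obtain ⟨f', rfl⟩ := exists_mapJ_eq h21 hφi hφG f hf
  have h1 : f' ∈ B := by rw [htop]; trivial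
  obtain ⟨f₀, hf₀, h2⟩ := h1
  exact ⟨f₀, hf₀, h2⟩

end abs

end SpW
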