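import Pool.Agent.Work.MP_3615d2_al.Co.EigG

/-!
MP_3615d2_al, (COMM): the eigenvalue lemma: `diag(z 1_k, 1)` acts by a scalar on the part of the
coinvariants of `N_k` of one rank stratum.
-/

open MeasureTheory Matrix Filter Topology
open scoped NNReal TensorProduct ENNReal

set_option linter.unusedSectionVars false

namespace SpW

section fin

variable {E : Type} [NontriviallyNormedField E] [IsUltrametricDist E] [ProperSpace E]
  {a b N k l : ℕ} (h : a + b = N) (hk : k + l = N) {W : Type} [AddCommGroup W] [Module ℂ W]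
  {ρ : (GL (Fin a) E × GL (Fin b) E) →* Module.End ℂ W}

theorem rkJ_mul_zD (g : GL (Fin N) E) (z : Eˣ) : rkJ h k (g * zD N k z) = rkJ h k g := by
  have h1 := rank_blkJ h k ((g * zD N k z : GL (Fin N) E) : Matrix (Fin N) (Fin N) E)
  have h2 := rank_blkJ h k (g : Matrix (Fin N) (Fin N) E)
  have h3 : (zD N k z : Matrix (Fin N) (Fin N) E) * prj E {i : Fin N | i.1 < k} =
      prj E {i : Fin N | i.1 < k} * (zD N k z : Matrix (Fin N) (Fin N) E) := by
    rw [zD_val, add_mul, mul_add, one_mul, mul_one, Matrix.smul_mul, Matrix.mul_smul]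
  rw [rkJ, rkJ, ← h1, ← h2, Units.val_mul, ← Matrix.mul_assoc, Matrix.mul_assoc _ _ (prj E _), h3,
    ← Matrix.mul_assoc]
  have hd : IsUnit (zD N k z : Matrix (Fin N) (Fin N) E).det :=
    (Matrix.isUnit_iff_isUnit_det _).1 (Units.isUnit _)
  exact Matrix.rank_mul_eq_left_of_isUnit_det _ _ hd

variable [MeasurableSpace (Fin k → Fin l → E)] [BorelSpace (Fin k → Fin l → E)]
  (μ : Measure (Fin k → Fin l → E)) [μ.IsAddHaarMeasure]

/-- uniformity of the averages -/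
theorem avZ_unif (f : IndJ h ρ) {j : ℕ}
    (hf : ∀ g, (f : GL (Fin N) E → W) g ≠ 0 → j ≤ rkJ h k g)
    (H : ∀ g, rkJ h k g = j → ∃ R₀ : ℝ, ∀ R, R₀ ≤ R → 0 < R → AvZ h hk μ f R g) :
    ∃ R : ℝ, 0 < R ∧ ∀ g, rkJ h k g = j → AvZ h hk μ f R g := by
  obtain ⟨R₁, hR₁⟩ : ∃ R₁ : ℝ, ∀ g ∈ (((glK (Fin N) E 1 zero_le_one le_rfl :
      Subgroup (GL (Fin N) E)) : Set (GL (Fin N) E)) ∩ ({g | (f : GL (Fin N) E → W) g ≠ 0} ∩
      {g | rkJ h k g ≤ j})), rkJ h k g = j → ∀ R, R₁ ≤ R → 0 < R → AvZ h hk μ f R g := by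
    refine (isCompact_supp h f k j).induction_on (p := fun s => ∃ R₁ : ℝ, ∀ g ∈ s,
      rkJ h k g = j → ∀ R, R₁ ≤ R → 0 < R → AvZ h hk μ f R g) ?_ ?_ ?_ ?_
    · exact ⟨0, fun g hg => absurd hg (Set.notMem_empty g)⟩
    · rintro s t hst ⟨R₁, hR₁⟩
      exact ⟨R₁, fun g hg => hR₁ g (hst hg)⟩
    · rintro s t ⟨R₁, hR₁⟩ ⟨R₂, hR₂⟩
      refine ⟨max R₁ R₂, fun g hg hgj R hR hR0 => ?_⟩
      rcases hg with hg | hg
      · exact hR₁ g hg hgj R ((le_max_left _ _).trans hR) hR0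
      · exact hR₂ g hg hgj R ((le_max_right _ _).trans hR) hR0
    · rintro g₀ ⟨-, hg1, hg2⟩
      have hg₀ : rkJ h k g₀ = j := le_antisymm hg2 (hf g₀ hg1)
      obtain ⟨R₀, hR₀⟩ := H g₀ hg₀
      have hΩ : ((glK (Fin N) E 1 zero_le_one le_rfl : Subgroup (GL (Fin N) E)) :
          Set (GL (Fin N) E)) ∩ {q | ∀ x, (f : GL (Fin N) E → W) (x * q) =
            (f : GL (Fin N) E → W) x} ∈ 𝓝 (1 : GL (Fin N) E) :=
        Filter.inter_mem ((glK_isOpen one_pos le_rfl).mem_nhds (one_mem _)) f.2.2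
      have hLA := la_top (prj E {i : Fin N | i.1 < a}) (prj E {i : Fin N | i.1 < k})
        (prj_idem _) (prj_idem _) g₀ hΩ
      refine ⟨_, mem_nhdsWithin_of_mem_nhds hLA, R₀, ?_⟩
      intro g hg hgj R hR hR0
      obtain ⟨p, q, hp, hq, hpe, hqf, hgpq⟩ := hg (by
        rw [rank_blkJ h, rank_blkJ h]
        exact le_of_eq (hgj.trans hg₀.symm))
      have hpP : p ∈ PSJ h E := mem_PSJ_of_blk h hpe
      have h1 := ((hR₀ R hR hR0).mulP ⟨p, hpP⟩).mulQ hR0 hq.1 hqf hq.2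
      rw [hgpq]
      exact h1
  refine ⟨max R₁ 1, lt_max_of_lt_right one_pos, fun g hg => ?_⟩
  by_cases h0 : ∀ y : Fin k → Fin l → E, ‖y‖ ≤ max R₁ 1 →
      (f : GL (Fin N) E → W) (g * nU hk y) = 0
  · intro ℓ _
    refine (setIntegral_congr_fun measurableSet_closedBall fun y hy => ?_).trans
      (integral_zero _ _)
    rw [mem_closedBall_zero_iff] at hy
    show ℓ _ = 0
    rw [h0 y hy, map_zero]
  · push Not at h0
    obtain ⟨y₁, hy₁, hfy⟩ := h0
    obtain ⟨p, q, y', κ, hκ, hpk⟩ := iwasawaJ h (g * nU hk y₁)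
    have hfκ : (f : GL (Fin N) E → W) κ ≠ 0 := by
      intro h2
      apply hfy
      rw [hpk, f.2.1, h2, map_zero]
    have hrκ : rkJ h k κ = j := by
      rw [← hg, ← rkJ_mul_nU h hk g y₁, hpk, rkJ_pelJ_mul]
    have h3 := hR₁ κ ⟨hκ, hfκ, le_of_eq hrκ⟩ hrκ (max R₁ 1) (le_max_left _ _)
      (lt_max_of_lt_right one_pos)
    have h4 := h3.mulP ⟨pelJ h p q y', ⟨p, q, y', rfl⟩⟩
    refine AvZ.of_nU hy₁ ?_
    rw [hpk]
    exact h4

/-- a function with vanishing averages is killed on the stratum -/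
theorem strata_avZ (hρ : IsSmoothRep ρ) (f : IndJ h ρ) {j : ℕ}
    (hf : ∀ g, (f : GL (Fin N) E → W) g ≠ 0 → j ≤ rkJ h k g)
    (H : ∀ g, rkJ h k g = j → ∃ R₀ : ℝ, ∀ R, R₀ ≤ R → 0 < R → AvZ h hk μ f R g) :
    ∃ f₀ : IndJ h ρ, f - f₀ ∈ cvN (indActJ h ρ) (Nk N k E) ⊤ ∧
      ∀ g, (f₀ : GL (Fin N) E → W) g ≠ 0 → j + 1 ≤ rkJ h k g := by
  obtain ⟨R, hR, hav⟩ := avZ_unif h hk μ f hf H
  obtain ⟨f', h1, h2, h3⟩ := avg_exists h hk μ f hR
  obtain ⟨f₀, h4, h5⟩ := strataJ_value h ρ hρ (k := k) (j := j) f' (by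
    intro g hg
    obtain ⟨y, hy⟩ := h3 g hg
    have h6 := hf _ hy
    rwa [rkJ_mul_nU] at h6) (by
    intro g hg
    by_contra h0
    obtain ⟨ℓ, hℓ1, hℓ2⟩ := Submodule.exists_le_ker_of_notMem h0
    apply hℓ1
    have h7 := h2 ℓ g
    rw [hav g hg ℓ (fun x hx => hℓ2 (Submodule.subset_span hx))] at h7
    have h8 : (μ.real (Metric.closedBall (0 : Fin k → Fin l → E) R) : ℂ) ≠ 0 := by
      have h9 : 0 < μ.real (Metric.closedBall (0 : Fin k → Fin l → E) R) := by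
        rw [Measure.real]
        exact ENNReal.toReal_pos (Metric.measure_closedBall_pos μ 0 hR).ne'
          (isCompact_closedBall 0 R).measure_lt_top.ne
      exact_mod_cast h9.ne'
    exact (mul_eq_zero.1 h7).resolve_left h8)
  refine ⟨f₀, ?_, fun g hg => (h5 g hg).1⟩
  have h6 : f - f₀ = (f - f') + (f' - f₀) := by abel
  rw [h6]
  exact Submodule.add_mem _ h1 h4

end fin

section eig

variable {E : Type} [NontriviallyNormedField E] [IsUltrametricDist E] [ProperSpace E]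
  {a b N k : ℕ} (h : a + b = N) {W : Type} [AddCommGroup W] [Module ℂ W]
  {ρ : (GL (Fin a) E × GL (Fin b) E) →* Module.End ℂ W}

/-- **the eigenvalue lemma**: if `(diag(z 1_r, 1), diag(z 1_j, 1))` acts on the coinvariants of
`N_r × N_j` in `ρ` by `c`, then `diag(z 1_k, 1)`, `k = r + j`, acts on the functions supported on
the ranks `≥ j`, modulo the coinvariants of `N_k` and the functions supported on the ranks `> j`,
by `|z|^(j (a - r)) c`. -/
theorem eigJ_md (hρ : IsSmoothRep ρ) {r j : ℕ} (hrj : r + j = k) (hkN : k ≤ N) {z : Eˣ} {c : ℂ}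
    (hc : ∀ w, ρ (zD a r z, zD b j z) w - c • w ∈ cvN ρ ((Nk a r E).prod (Nk b j E)) ⊤)
    (f : IndJ h ρ) (hf : ∀ g, (f : GL (Fin N) E → W) g ≠ 0 → j ≤ rkJ h k g) :
    ∃ f₀ : IndJ h ρ, indActJ h ρ (zD N k z) f -
        ((((md (z : E) ^ (j * (j + a - k)) : ℝ≥0) : ℝ) : ℂ) * c) • f - f₀ ∈
          cvN (indActJ h ρ) (Nk N k E) ⊤ ∧
      ∀ g, (f₀ : GL (Fin N) E → W) g ≠ 0 → j + 1 ≤ rkJ h k g := by
  obtain ⟨l, hk⟩ := Nat.exists_eq_add_of_le hkN
  have hk' : k + l = N := hk.symm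
  borelize (Fin k → Fin l → E)
  set c' : ℂ := (((md (z : E) ^ (j * (j + a - k)) : ℝ≥0) : ℝ) : ℂ) * c with hc'
  refine strata_avZ h hk' Measure.addHaar hρ (indActJ h ρ (zD N k z) f - c' • f) ?_ ?_
  · intro g hg
    by_contra h0
    have h1 : (f : GL (Fin N) E → W) g = 0 := by
      by_contra h2
      exact h0 (hf g h2)
    have h3 : (f : GL (Fin N) E → W) (g * zD N k z) = 0 := by
      by_contra h2
      have h4 := hf _ h2
      rw [rkJ_mul_zD h] at h4
      exact h0 h4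
    apply hg
    show (f : GL (Fin N) E → W) (g * zD N k z) - c' • (f : GL (Fin N) E → W) g = 0
    rw [h1, h3, smul_zero, sub_zero]
  · intro g hg
    obtain ⟨R₀, hR₀⟩ := eig_point h hk' (Measure.addHaar : Measure (Fin k → Fin l → E)) hrj f hf g
      hg hc
    refine ⟨R₀, fun R hR hR0 ℓ hℓ => ?_⟩
    have h1 := hR₀ R hR hR0 ℓ hℓ
    have h2 : ∀ y : Fin k → Fin l → E,
        ℓ (((indActJ h ρ (zD N k z) f - c' • f : IndJ h ρ) : GL (Fin N) E → W) (g * nU hk' y)) =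
        ℓ ((f : GL (Fin N) E → W) (g * nU hk' y * zD N k z)) -
          c' * ℓ ((f : GL (Fin N) E → W) (g * nU hk' y)) := by
      intro y
      show ℓ ((f : GL (Fin N) E → W) (g * nU hk' y * zD N k z) -
        c' • (f : GL (Fin N) E → W) (g * nU hk' y)) = _
      rw [map_sub, map_smul, smul_eq_mul]
    simp only [h2]
    have h3 : Continuous fun y : Fin k → Fin l → E =>
        ℓ ((f : GL (Fin N) E → W) (g * nU hk' y * zD N k z)) :=
      phi_cont h hk' (indActJ h ρ (zD N k z) f) ℓ g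
    have h4 := phi_cont h hk' f ℓ g
    have hcb : IsCompact (Metric.closedBall (0 : Fin k → Fin l → E) R) :=
      isCompact_closedBall 0 R
    rw [integral_sub (h3.continuousOn.integrableOn_compact hcb)
      ((h4.continuousOn.integrableOn_compact hcb).const_mul c'), integral_const_mul, h1, ← hc',
      sub_self]

variable [MeasurableSpace E] [BorelSpace E]

/-- the eigenvalue lemma with `absE` -/
theorem eigJ (hρ : IsSmoothRep ρ) {r j : ℕ} (hrj : r + j = k) (hkN : k ≤ N) (z : Eˣ) (c : ℂ)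
    (hc : ∀ w, ρ (dgl (fun i : Fin a => if i.1 < r then z else 1),
      dgl (fun i : Fin b => if i.1 < j then z else 1)) w - c • w ∈
        cvN ρ ((Nk a r E).prod (Nk b j E)) ⊤)
    (f : IndJ h ρ) (hf : ∀ g, (f : GL (Fin N) E → W) g ≠ 0 → j ≤ rkJ h k g) :
    ∃ f₀ : IndJ h ρ, indActJ h ρ (dgl (fun i : Fin N => if i.1 < k then z else 1)) f -
        (((absE z ^ (j * (a - r)) : ℝ) : ℂ) * c) • f - f₀ ∈ cvN (indActJ h ρ) (Nk N k E) ⊤ ∧
      ∀ g, (f₀ : GL (Fin N) E → W) g ≠ 0 → j + 1 ≤ rkJ h k g := by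
  have h1 := eigJ_md h hρ hrj hkN hc f hf
  have h2 : j * (j + a - k) = j * (a - r) := by
    congr 1
    omega
  have h3 : absE z = md (z : E) := by
    rw [md_units]
    rfl
  rw [h2] at h1
  rw [h3]
  push_cast at h1 ⊢
  exact h1

/-- **the open stratum** (`j = b`) -/
theorem eigJ_open (hρ : IsSmoothRep ρ) {r : ℕ} (hrb : r + b = k) (hkN : k ≤ N) (z : Eˣ) (c : ℂ)
    (hc : ∀ w, ρ (dgl (fun i : Fin a => if i.1 < r then z else 1),
      Matrix.GeneralLinearGroup.scalar (Fin b) z) w - c • w ∈ cvN ρ ((Nk a r E).prod ⊥) ⊤)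
    (f : IndJ h ρ) (hf : ∀ g, (f : GL (Fin N) E → W) g ≠ 0 → b ≤ rkJ h k g) :
    indActJ h ρ (dgl (fun i : Fin N => if i.1 < k then z else 1)) f -
        (((absE z ^ (b * (N - k)) : ℝ) : ℂ) * c) • f ∈ cvN (indActJ h ρ) (Nk N k E) ⊤ := by
  have e1 : (dgl (fun i : Fin b => if i.1 < b then z else 1) : GL (Fin b) E) =
      Matrix.GeneralLinearGroup.scalar (Fin b) z := by
    apply Units.ext
    rw [dgl_val, Matrix.GeneralLinearGroup.coe_scalar, Matrix.scalar_apply]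
    congr 1
    funext i
    rw [if_pos i.2]
  have h1 := eigJ h hρ hrb hkN z c (fun w => by
    rw [e1]
    exact cvN_mono_left (Subgroup.prod_mono le_rfl bot_le) (hc w)) f hf
  obtain ⟨f₀, h2, h3⟩ := h1
  have h4 : f₀ = 0 := by
    apply Subtype.ext
    funext g
    by_contra h0
    have h5 := h3 g h0
    have h6 := rkJ_le h k g
    omega
  have h5 : b * (a - r) = b * (N - k) := by
    congr 1
    omega
  rwa [h4, sub_zero, h5] at h2

end eig

end SpW
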