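import Pool.Agent.Work.MP_3615d2_al.Co.Comm
import Pool.Agent.Work.MP_3615d2_al.Co.JacF
import Pool.Agent.Work.MP_3615d2_al.Red

/-!
MP_3615d2_al, (COMM) for `I = π ν^{1/2} × π ν^{-1/2}` and the kernel `D` of an irreducible
quotient.
-/

open Filter Topology Polynomial
open scoped TensorProduct

set_option linter.unusedSectionVars false

namespace SpW

section abs

variable {E : Type} [NontriviallyNormedField E] [IsUltrametricDist E] [ProperSpace E]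
  [MeasurableSpace E] [BorelSpace E] {m : ℕ} {A D V : Type} [AddCommGroup A] [Module ℂ A]
  [AddCommGroup D] [Module ℂ D] [AddCommGroup V] [Module ℂ V]

/-- **(COMM), abstract form**, with the Jacquet modules of `D` and `A` as hypotheses. -/
theorem exists_comm_abs2 (hm : 0 < m) (h12 : m + 2 * m = 3 * m) (h21 : 2 * m + m = 3 * m)
    {α : GL (Fin (2 * m)) E →* Module.End ℂ A} (hα : IsSmoothRep α)
    {δ : GL (Fin (2 * m)) E →* Module.End ℂ D} {ι : D →ₗ[ℂ] A} (hδ : IsSmoothRep δ)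
    (hι : Function.Injective ι) (hιG : ∀ g x, ι (δ g x) = α g (ι x))
    {κ : GL (Fin m) E →* Module.End ℂ V} (hκ : IsSmoothRep κ) (hκc : IsCusp κ)
    {χα χκ : Eˣ → ℂ} (hχα1 : ∀ z, ‖χα z‖ = 1) (hχκ1 : ∀ z, ‖χκ z‖ = 1)
    (hχα : ∀ z v, α (Matrix.GeneralLinearGroup.scalar (Fin (2 * m)) z) v = χα z • v)
    (hχκ : ∀ z v, κ (Matrix.GeneralLinearGroup.scalar (Fin m) z) v = χκ z • v)
    {ϖ : Eˣ} (hϖ : ‖(ϖ : E)‖ < 1) (hval : ∀ x : Eˣ, ∃ e : ℤ, ‖(x : E)‖ = ‖(ϖ : E)‖ ^ e)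
    {a₁ a₂ : ℂ} (ha₁ : ‖a₁‖ = absE ϖ ^ ((m : ℝ) * (m + 1) / 2))
    (ha₂ : ‖a₂‖ = absE ϖ ^ ((m : ℝ) * (m - 1) / 2))
    (hA : ∀ v, α (dgl (fun i : Fin (2 * m) => if i.1 < m then ϖ else 1))
        (α (dgl (fun i : Fin (2 * m) => if i.1 < m then ϖ else 1)) v - a₁ • v) -
          a₂ • (α (dgl (fun i : Fin (2 * m) => if i.1 < m then ϖ else 1)) v - a₁ • v) ∈
        cvN α (Nk (2 * m) m E) ⊤)
    (D1 : ∀ k, 0 < k → k < 2 * m → k ≠ m → cvN δ (Nk (2 * m) k E) ⊤ = ⊤)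
    (D2 : ∀ v, δ (dgl (fun i : Fin (2 * m) => if i.1 < m then ϖ else 1)) v - a₁ • v ∈
      cvN δ (Nk (2 * m) m E) ⊤) :
    ∃ M : IndJ h12 (oten ((m : ℝ) + 1) (-((m : ℝ) / 2)) κ α) →ₗ[ℂ]
        IndJ h21 (oten ((m : ℝ) / 2) (-((m : ℝ) - 1)) α κ),
      (∀ g f, M (indActJ h12 _ g f) = indActJ h21 _ g (M f)) ∧
      (∀ f ∈ valSub h12 (LinearMap.range (TensorProduct.map (LinearMap.id (M := V) (R := ℂ)) ι)),
        M f ∈ valSub h21 (LinearMap.range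
          (TensorProduct.map ι (LinearMap.id (M := V) (R := ℂ))))) ∧
      ∀ f ∈ valSub (ρ := oten ((m : ℝ) / 2) (-((m : ℝ) - 1)) α κ) h21
          (LinearMap.range (TensorProduct.map ι (LinearMap.id (M := V) (R := ℂ)))),
        ∃ f' ∈ valSub h12 (LinearMap.range
          (TensorProduct.map (LinearMap.id (M := V) (R := ℂ)) ι)), M f' = f := by
  have hq0 : 0 < absE ϖ := absE_pos ϖ
  have hnr : ∀ x : ℝ, ‖((absE ϖ ^ x : ℝ) : ℂ)‖ = absE ϖ ^ x := fun x => by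
    rw [Complex.norm_real, Real.norm_of_nonneg (Real.rpow_pos_of_pos hq0 x).le]
  have hE : EigO h21 (oten ((m : ℝ) / 2) (-((m : ℝ) - 1)) δ κ) ϖ :=
    eigO_all h21 (oten_smooth hδ hκ _ _) ϖ
  refine exists_comm_abs hm h12 h21 hα hι hιG hκ hκc hχα1 hχκ1 hχα hχκ hϖ hval ha₁ ha₂ hA
    (c₁ := sc1 m ((m : ℝ) / 2) ϖ a₁) (c₂ := sc2 m (-((m : ℝ) - 1)) ϖ (χκ ϖ))
    (c₃ := sc3 m ((m : ℝ) / 2) (-((m : ℝ) - 1)) ϖ a₁ (χκ ϖ)) ?_ ?_ ?_
    (fun k hk0 hk hkm hk2 => sigJ_other h21 _ _ hδ hκ hκc D1 hk0 hk hkm hk2)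
    (fun f => sigJ_m h21 hm _ _ hδ hκ hκc D2 (hχκ ϖ) hE f)
    (fun f hf => sigJ_2m h21 hm _ _ hδ hκ hκc D2 (hχκ ϖ) hE f hf)
  · rw [sc1, norm_mul, hnr, ha₁, ← Real.rpow_add hq0]
    congr 1
    ring
  · rw [sc2, norm_mul, hnr, hχκ1, mul_one]
    congr 1
    ring
  · rw [sc3, norm_mul, norm_mul, hnr, ha₁, hχκ1, mul_one, ← Real.rpow_add hq0]
    congr 1
    ring

/-- **(COMM)** for a stable subspace -/
theorem exists_comm_sub (hm : 0 < m) (h12 : m + 2 * m = 3 * m) (h21 : 2 * m + m = 3 * m)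
    {α : GL (Fin (2 * m)) E →* Module.End ℂ A} (hα : IsSmoothRep α)
    (D : Submodule ℂ A) (hDs : IsStab α D)
    {κ : GL (Fin m) E →* Module.End ℂ V} (hκ : IsSmoothRep κ) (hκc : IsCusp κ)
    {χα χκ : Eˣ → ℂ} (hχα1 : ∀ z, ‖χα z‖ = 1) (hχκ1 : ∀ z, ‖χκ z‖ = 1)
    (hχα : ∀ z v, α (Matrix.GeneralLinearGroup.scalar (Fin (2 * m)) z) v = χα z • v)
    (hχκ : ∀ z v, κ (Matrix.GeneralLinearGroup.scalar (Fin m) z) v = χκ z • v)
    {ϖ : Eˣ} (hϖ : ‖(ϖ : E)‖ < 1) (hval : ∀ x : Eˣ, ∃ e : ℤ, ‖(x : E)‖ = ‖(ϖ : E)‖ ^ e)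
    {a₁ a₂ : ℂ} (ha₁ : ‖a₁‖ = absE ϖ ^ ((m : ℝ) * (m + 1) / 2))
    (ha₂ : ‖a₂‖ = absE ϖ ^ ((m : ℝ) * (m - 1) / 2))
    (hA : ∀ v, α (dgl (fun i : Fin (2 * m) => if i.1 < m then ϖ else 1))
        (α (dgl (fun i : Fin (2 * m) => if i.1 < m then ϖ else 1)) v - a₁ • v) -
          a₂ • (α (dgl (fun i : Fin (2 * m) => if i.1 < m then ϖ else 1)) v - a₁ • v) ∈
        cvN α (Nk (2 * m) m E) ⊤)
    (D1 : ∀ k, 0 < k → k < 2 * m → k ≠ m → ∀ f ∈ D, f ∈ cvN α (Nk (2 * m) k E) D)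
    (D2 : ∀ f ∈ D, α (dgl (fun i : Fin (2 * m) => if i.1 < m then ϖ else 1)) f - a₁ • f ∈
      cvN α (Nk (2 * m) m E) D) :
    ∃ M : IndJ h12 (oten ((m : ℝ) + 1) (-((m : ℝ) / 2)) κ α) →ₗ[ℂ]
        IndJ h21 (oten ((m : ℝ) / 2) (-((m : ℝ) - 1)) α κ),
      (∀ g f, M (indActJ h12 _ g f) = indActJ h21 _ g (M f)) ∧
      (∀ f ∈ valSub h12 (LinearMap.range
          (TensorProduct.map (LinearMap.id (M := V) (R := ℂ)) D.subtype)),
        M f ∈ valSub h21 (LinearMap.range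
          (TensorProduct.map D.subtype (LinearMap.id (M := V) (R := ℂ))))) ∧
      ∀ f ∈ valSub (ρ := oten ((m : ℝ) / 2) (-((m : ℝ) - 1)) α κ) h21
          (LinearMap.range (TensorProduct.map D.subtype (LinearMap.id (M := V) (R := ℂ)))),
        ∃ f' ∈ valSub h12 (LinearMap.range
          (TensorProduct.map (LinearMap.id (M := V) (R := ℂ)) D.subtype)), M f' = f := by
  have hsm : IsSmoothRep (subRep α D hDs) := by
    intro v
    filter_upwards [hα (v : A)] with g hg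
    exact Subtype.ext hg
  refine exists_comm_abs2 hm h12 h21 hα (δ := subRep α D hDs) (ι := D.subtype) hsm
    (Submodule.subtype_injective _) (fun g x => rfl) hκ hκc hχα1 hχκ1 hχα hχκ hϖ hval ha₁ ha₂ hA
    (fun k hk0 hk hkm => ?_) (fun v => ?_)
  · rw [eq_top_iff]
    rintro ⟨f, hf⟩ -
    have h1 := D1 k hk0 hk hkm f hf
    rw [← cvN_sub_eq hDs] at h1
    obtain ⟨x, hx, hxf⟩ := h1
    have h2 : x = ⟨f, hf⟩ := Subtype.ext hxf
    rw [← h2]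
    exact hx
  · have h1 := D2 v v.2
    rw [← cvN_sub_eq hDs] at h1
    obtain ⟨x, hx, hxf⟩ := h1
    have h2 : x = subRep α D hDs (dgl (fun i : Fin (2 * m) => if i.1 < m then ϖ else 1)) v -
      a₁ • v := Subtype.ext hxf
    rw [← h2]
    exact hx

end abs

section conc

variable {E : Type} [NontriviallyNormedField E] [IsUltrametricDist E] [ProperSpace E]
  [MeasurableSpace E] [BorelSpace E] {m : ℕ} {V V₁ W₀ : Type} [AddCommGroup V] [Module ℂ V]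
  [AddCommGroup V₁] [Module ℂ V₁] [AddCommGroup W₀] [Module ℂ W₀]

/-- (COMM) from the data on the coinvariants of `Ind (rho π s)` and of the kernel of `q` -/
theorem comm_conc (hm : 0 < m) (h12 : m + 2 * m = 3 * m) (h21 : 2 * m + m = 3 * m)
    {π : GL (Fin m) E →* Module.End ℂ V} {χπ : Eˣ → ℂ} (hχπ1 : ∀ z, ‖χπ z‖ = 1)
    (hχπ : ∀ z v, π (Matrix.GeneralLinearGroup.scalar (Fin m) z) v = χπ z • v)
    {κ : GL (Fin m) E →* Module.End ℂ V₁} (hκ : IsSmoothRep κ)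
    (hκc : IsCusp κ) {χκ : Eˣ → ℂ} (hχκ1 : ∀ z, ‖χκ z‖ = 1)
    (hχκ : ∀ z v, κ (Matrix.GeneralLinearGroup.scalar (Fin m) z) v = χκ z • v)
    {s s' : ℝ} (hs : s = ((m : ℝ) + 1) / 2) (hs' : s' = ((m : ℝ) - 1) / 2)
    (D : Submodule ℂ (Ind (rho π s))) (hDs : IsStab (indAct (rho π s)) D)
    (e' : Ind (rho π s) →ₗ[ℂ] V ⊗[ℂ] V)
    (he' : ∀ a d b f, e' (indAct (rho π s) (pel a d b) f) = rho π s' (a, d) (e' f))
    (hJ : ∀ f, ev1 _ f = 0 → e' f = 0 → f ∈ cvN (indAct (rho π s)) (Nk (2 * m) m E) ⊤)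
    (hD2 : ∀ f ∈ D, ev1 _ f = 0 → f ∈ cvN (indAct (rho π s)) (Nk (2 * m) m E) D)
    (hD1 : ∀ k, 0 < k → k < 2 * m → k ≠ m → ∀ f ∈ D,
      f ∈ cvN (indAct (rho π s)) (Nk (2 * m) k E) D) :
    ∃ M : IndJ h12 (oten ((m : ℝ) + 1) (-((m : ℝ) / 2)) κ (indAct (rho π s)))
        →ₗ[ℂ] IndJ h21 (oten ((m : ℝ) / 2) (-((m : ℝ) - 1)) (indAct (rho π s)) κ),
      (∀ g f, M (indActJ h12 _ g f) = indActJ h21 _ g (M f)) ∧
      (∀ f ∈ valSub h12 (LinearMap.range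
          (TensorProduct.map (LinearMap.id (M := V₁) (R := ℂ)) D.subtype)),
        M f ∈ valSub h21 (LinearMap.range
          (TensorProduct.map D.subtype (LinearMap.id (M := V₁) (R := ℂ))))) ∧
      ∀ f ∈ valSub (ρ := oten ((m : ℝ) / 2) (-((m : ℝ) - 1)) (indAct (rho π s)) κ) h21
          (LinearMap.range (TensorProduct.map D.subtype (LinearMap.id (M := V₁) (R := ℂ)))),
        ∃ f' ∈ valSub h12 (LinearMap.range
          (TensorProduct.map (LinearMap.id (M := V₁) (R := ℂ)) D.subtype)), M f' = f := by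
  obtain ⟨ϖ, hϖ, hval⟩ := L2.exists_uniformiser (E := E)
  have hq0 : 0 < absE ϖ := absE_pos ϖ
  -- the central element of the Levi subgroup
  have hz : (dgl (fun i : Fin (2 * m) => if i.1 < m then ϖ else 1) : GL (Fin (2 * m)) E) =
      pel (Matrix.GeneralLinearGroup.scalar (Fin m) ϖ) 1 0 :=
    (pelJ_scalar_eq_dgl (two_mul m).symm ϖ).symm
  have had : ∀ x : ℝ, ad (Matrix.GeneralLinearGroup.scalar (Fin m) ϖ : GL (Fin m) E) ^ x *
      ad (1 : GL (Fin m) E) ^ (-x) = absE ϖ ^ ((m : ℝ) * x) := by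
    intro x
    rw [ad_scalar, ad_one, Real.one_rpow, mul_one, ← Real.rpow_natCast,
      ← Real.rpow_mul hq0.le]
  have hrho : ∀ (x : ℝ) (w : V ⊗[ℂ] V), rho π x (Matrix.GeneralLinearGroup.scalar (Fin m) ϖ, 1) w =
      (((absE ϖ ^ ((m : ℝ) * x) : ℝ) : ℂ) * χπ ϖ) • w := by
    intro x w
    rw [rho_eq_oten, oten_scal _ _ (hχπ ϖ) (fun v => by
      rw [map_one, Module.End.one_apply, one_smul]) w, had, mul_one]
  have hn : ∀ x : ℝ, ‖((absE ϖ ^ x : ℝ) : ℂ) * χπ ϖ‖ = absE ϖ ^ x := by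
    intro x
    rw [norm_mul, hχπ1, mul_one, Complex.norm_real,
      Real.norm_of_nonneg (Real.rpow_pos_of_pos hq0 x).le]
  have hev : ∀ f, ev1 _ (indAct (rho π s)
      (dgl (fun i : Fin (2 * m) => if i.1 < m then ϖ else 1)) f -
      (((absE ϖ ^ ((m : ℝ) * s) : ℝ) : ℂ) * χπ ϖ) • f) = 0 := by
    intro f
    rw [map_sub, map_smul, hz, ev1_pel, hrho, sub_self]
  have hcen : ∀ z (f : Ind (rho π s)), indAct (rho π s)
      (Matrix.GeneralLinearGroup.scalar (Fin (2 * m)) z) f = (χπ z * χπ z) • f := by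
    intro z f
    refine ind_unitCentral (rho π s) (fun z => χπ z * χπ z) (fun z w => ?_) z f
    rw [rho_eq_oten, oten_scal _ _ (hχπ z) (hχπ z) w, ← Real.rpow_add (ad_pos _),
      add_neg_cancel, Real.rpow_zero, Complex.ofReal_one, one_mul]
  refine exists_comm_sub hm h12 h21 (ind_smooth (rho π s)) D hDs hκ hκc
    (χα := fun z => χπ z * χπ z) (χκ := χκ) (fun z => by rw [norm_mul, hχπ1, mul_one]) hχκ1
    hcen hχκ hϖ hval
    (a₁ := ((absE ϖ ^ ((m : ℝ) * s) : ℝ) : ℂ) * χπ ϖ)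
    (a₂ := ((absE ϖ ^ ((m : ℝ) * s') : ℝ) : ℂ) * χπ ϖ) (by rw [hn, hs]; congr 1; ring)
    (by rw [hn, hs']; congr 1; ring) (fun f => hJ _ ?_ ?_) hD1 (fun f hf => ?_)
  · rw [map_sub, map_smul, hev, smul_zero, sub_zero, hz, ev1_pel, ← hz, hev, map_zero]
  · rw [map_sub, map_smul]
    nth_rewrite 1 [hz]
    rw [he', hrho, sub_self]
  · exact hD2 _ (D.sub_mem (hDs _ _ hf) (D.smul_mem _ hf)) (hev _)

/-- **SWAP + COMM**, with explicit exponents; `M` also respects the two subspaces -/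
theorem exists_comm_e (hm : 0 < m) (h2 : (2 : E) ≠ 0) (ψE : AddChar E Circle) (hψE : Continuous ψE)
    (hψE1 : ψE ≠ 1) (h12 : m + 2 * m = 3 * m) (h21 : 2 * m + m = 3 * m)
    {π : GL (Fin m) E →* Module.End ℂ V} (hπ : IsSmoothRep π) (hirr : IsIrrRep π) (hc : IsCusp π)
    (hu : UnitCentral π)
    {κ : GL (Fin m) E →* Module.End ℂ V₁} (hκ : IsSmoothRep κ)
    (hκc : IsCusp κ) (hκu : UnitCentral κ)
    {τ : GL (Fin (2 * m)) E →* Module.End ℂ W₀} (hτ : IsIrrRep τ)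
    (q : Ind (rho π (((m : ℝ) + 1) / 2)) →ₗ[ℂ] W₀) (hq : Function.Surjective q)
    (hqG : ∀ g f, q (indAct (rho π (((m : ℝ) + 1) / 2)) g f) = τ g (q f)) :
    ∃ M : IndJ h12 (oten ((m : ℝ) + 1) (-((m : ℝ) / 2)) κ (indAct (rho π (((m : ℝ) + 1) / 2))))
        →ₗ[ℂ] IndJ h21 (oten ((m : ℝ) / 2) (-((m : ℝ) - 1))
          (indAct (rho π (((m : ℝ) + 1) / 2))) κ),
      (∀ g f, M (indActJ h12 _ g f) = indActJ h21 _ g (M f)) ∧
      (∀ f ∈ valSub h12 (LinearMap.range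
          (TensorProduct.map (LinearMap.id (M := V₁) (R := ℂ)) (LinearMap.ker q).subtype)),
        M f ∈ valSub h21 (LinearMap.range
          (TensorProduct.map (LinearMap.ker q).subtype (LinearMap.id (M := V₁) (R := ℂ))))) ∧
      ∀ f : IndJ h21 (oten ((m : ℝ) / 2) (-((m : ℝ) - 1))
          (indAct (rho π (((m : ℝ) + 1) / 2))) κ),
        (∀ g, (f : GL (Fin (3 * m)) E → _) g ∈ LinearMap.range
          (TensorProduct.map (LinearMap.ker q).subtype (LinearMap.id (M := V₁) (R := ℂ)))) →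
        ∃ f' : IndJ h12 (oten ((m : ℝ) + 1) (-((m : ℝ) / 2)) κ
            (indAct (rho π (((m : ℝ) + 1) / 2)))),
          (∀ g, (f' : GL (Fin (3 * m)) E → _) g ∈ LinearMap.range
            (TensorProduct.map (LinearMap.id (M := V₁) (R := ℂ)) (LinearMap.ker q).subtype)) ∧
          M f' = f := by
  obtain ⟨χπ, hχπ1, hχπ⟩ := id hu
  obtain ⟨χκ, hχκ1, hχκ⟩ := hκu
  obtain ⟨e', he', -, hJ, hD⟩ := ker_quot_coinv hm h2 ψE hψE hψE1 hπ hirr hc hu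
  obtain ⟨-, -, hD2, hD1⟩ := hD hτ q hq hqG
  have hst : IsStab (indAct (rho π (((m : ℝ) + 1) / 2))) (LinearMap.ker q) := by
    intro g f hf
    rw [LinearMap.mem_ker] at hf ⊢
    rw [hqG, hf, map_zero]
  obtain ⟨M, hM1, hM2, hM3⟩ := comm_conc hm h12 h21 hχπ1 hχπ hκ hκc hχκ1 hχκ rfl rfl
    (LinearMap.ker q) hst e' he' hJ (fun f hf => hD2 f hf)
    (fun k hk0 hk hkm f hf => hD1 k hk0 hk hkm f hf)
  refine ⟨M, hM1, hM2, fun f hf => ?_⟩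
  obtain ⟨f', hf', h1⟩ := hM3 f hf
  exact ⟨f', hf', h1⟩

/-- **SWAP + COMM** (the statement of `P1/Tasks`) -/
theorem exists_comm (hm : 0 < m) (h2 : (2 : E) ≠ 0) (ψE : AddChar E Circle) (hψE : Continuous ψE)
    (hψE1 : ψE ≠ 1)
    {π : GL (Fin m) E →* Module.End ℂ V} (hπ : IsSmoothRep π) (hirr : IsIrrRep π) (hc : IsCusp π)
    (hu : UnitCentral π)
    {κ : GL (Fin m) E →* Module.End ℂ V₁} (hκ : IsSmoothRep κ) (_hκirr : IsIrrRep κ)
    (hκc : IsCusp κ) (hκu : UnitCentral κ)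
    {τ : GL (Fin (2 * m)) E →* Module.End ℂ W₀} (hτ : IsIrrRep τ)
    (q : Ind (rho π (((m : ℝ) + 1) / 2)) →ₗ[ℂ] W₀) (hq : Function.Surjective q)
    (hqG : ∀ g f, q (repI π g f) = τ g (q f)) :
    ∃ M : IndJ (m12 m) (rKB κ (repI π)) →ₗ[ℂ] IndJ (m21 m) (rBK (repI π) κ),
      (∀ g f, M (indActJ (m12 m) (rKB κ (repI π)) g f) =
        indActJ (m21 m) (rBK (repI π) κ) g (M f)) ∧
      ∀ f : IndJ (m21 m) (rBK (repI π) κ),
        (∀ g, (f : GL (Fin (3 * m)) E → _) g ∈ LinearMap.range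
          (TensorProduct.map (LinearMap.ker q).subtype (LinearMap.id (M := V₁) (R := ℂ)))) →
        ∃ f' : IndJ (m12 m) (rKB κ (repI π)),
          (∀ g, (f' : GL (Fin (3 * m)) E → _) g ∈ LinearMap.range
            (TensorProduct.map (LinearMap.id (M := V₁) (R := ℂ)) (LinearMap.ker q).subtype)) ∧
          M f' = f := by
  obtain ⟨M, hM1, -, hM3⟩ := exists_comm_e hm h2 ψE hψE hψE1 (m12 m) (m21 m) hπ hirr hc hu hκ hκc
    hκu hτ q hq hqG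
  exact ⟨M, hM1, hM3⟩

end conc

end SpW
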