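import Pool.Agent.Work.MP_3615d2_al.Co.L2Twist

/-!
MP_3615d2_al, (COMM) (notes 6706, 6707): on `GL_{3m}`, a stable subspace of `St × κν` (shape of the
exponents only) whose evaluations are everything is everything.
-/

open Filter Topology

set_option linter.unusedSectionVars false

namespace SpW

section top

variable {E : Type} [NontriviallyNormedField E] [IsUltrametricDist E] [ProperSpace E]
  [MeasurableSpace E] [BorelSpace E] {m : ℕ} {W : Type} [AddCommGroup W] [Module ℂ W]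

theorem absE_lt_one {ϖ : Eˣ} (hϖ : ‖(ϖ : E)‖ < 1) : absE ϖ < 1 := by
  rw [absE_md]
  exact_mod_cast md_lt_one hϖ

/-- **(COMM), numerical part.** The exponents of a quotient of `Σ` on which the evaluation piece
dies are square integrable and not symmetric, so the quotient is zero. -/
theorem comm_top (hm : 0 < m) (h : 2 * m + m = 3 * m)
    {R : (GL (Fin (2 * m)) E × GL (Fin m) E) →* Module.End ℂ W} {χ : Eˣ → ℂ}
    (hχ1 : ∀ z, ‖χ z‖ = absE z ^ (m : ℝ))
    (hχ : ∀ z w, R (Matrix.GeneralLinearGroup.scalar (Fin (2 * m)) z,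
      Matrix.GeneralLinearGroup.scalar (Fin m) z) w = χ z • w)
    {B : Submodule ℂ (IndJ h R)} (hB : IsStab (indActJ h R) B) {ϖ : Eˣ} (hϖ : ‖(ϖ : E)‖ < 1)
    (hval : ∀ x : Eˣ, ∃ e : ℤ, ‖(x : E)‖ = ‖(ϖ : E)‖ ^ e) {c₁ c₂ c₃ : ℂ}
    (hc₁ : ‖c₁‖ = absE ϖ ^ ((m : ℝ) ^ 2 + m / 2)) (hc₂ : ‖c₂‖ = absE ϖ ^ ((m : ℝ) ^ 2 + m))
    (hc₃ : ‖c₃‖ = absE ϖ ^ ((m : ℝ) ^ 2 + 3 * m / 2))
    (J1 : ∀ k, 0 < k → k < 3 * m → k ≠ m → k ≠ 2 * m →
      cvN (indActJ h R) (Nk (3 * m) k E) ⊤ = ⊤)
    (J2 : ∀ f : IndJ h R,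
      indActJ h R (dgl (fun i : Fin (3 * m) => if i.1 < m then ϖ else 1))
        (indActJ h R (dgl (fun i : Fin (3 * m) => if i.1 < m then ϖ else 1)) f - c₁ • f) -
          c₂ • (indActJ h R (dgl (fun i : Fin (3 * m) => if i.1 < m then ϖ else 1)) f - c₁ • f) ∈
        cvN (indActJ h R) (Nk (3 * m) m E) ⊤)
    (J3 : ∀ f : IndJ h R, evJ h R f = 0 →
      indActJ h R (dgl (fun i : Fin (3 * m) => if i.1 < 2 * m then ϖ else 1)) f - c₃ • f ∈
        cvN (indActJ h R) (Nk (3 * m) (2 * m) E) ⊤)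
    (hev : ∀ w, ∃ f ∈ B, evJ h R f = w) : B = ⊤ := by
  have hq0 : 0 < absE ϖ := absE_pos ϖ
  have hq1 : absE ϖ < 1 := absE_lt_one hϖ
  have hmR : (0 : ℝ) < m := by exact_mod_cast hm
  have hne : m ≠ 2 * m := by omega
  -- absolute values after the twist
  have key : ∀ (k : ℕ) (c : ℂ) (x : ℝ), ‖c‖ = absE ϖ ^ x →
      (absE ϖ ^ k) ^ (-(1 / 3) : ℝ) * ‖c‖ = absE ϖ ^ (x - k / 3) := by
    intro k c x hc
    rw [hc, ← Real.rpow_natCast, ← Real.rpow_mul hq0.le, ← Real.rpow_add hq0]
    congr 1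
    ring
  have hcne : ∀ (c : ℂ) (x : ℝ), ‖c‖ = absE ϖ ^ x → c ≠ 0 := by
    intro c x hc h0
    rw [h0, norm_zero] at hc
    exact (Real.rpow_pos_of_pos hq0 x).ne hc
  have hlt : ∀ (k j : ℕ) (c : ℂ) (x : ℝ), ‖c‖ = absE ϖ ^ x → (j : ℝ) < 2 * (x - k / 3) →
      ((absE ϖ ^ k) ^ (-(1 / 3) : ℝ) * ‖c‖) ^ 2 < absE ϖ ^ j := by
    intro k j c x hc hj
    rw [key k c x hc, ← Real.rpow_natCast, ← Real.rpow_mul hq0.le, ← Real.rpow_natCast]
    apply Real.rpow_lt_rpow_of_exponent_gt hq0 hq1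
    push_cast
    linarith
  have hinj : ∀ x y : ℝ, x ≠ y → absE ϖ ^ x ≠ absE ϖ ^ y := by
    intro x y hxy h1
    rcases lt_or_gt_of_ne hxy with h2 | h2
    · exact absurd h1 (Real.rpow_lt_rpow_of_exponent_gt hq0 hq1 h2).ne'
    · exact absurd h1 (Real.rpow_lt_rpow_of_exponent_gt hq0 hq1 h2).ne
  have e1 : m * (3 * m - m) = 2 * m * m := by
    have : 3 * m - m = 2 * m := by omega
    rw [this]
    ring
  have e2 : 2 * m * (3 * m - 2 * m) = 2 * m * m := by
    have : 3 * m - 2 * m = m := by omega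
    rw [this]
  let L : ℕ → List ℂ := fun k => if k = m then [c₁, c₂] else if k = 2 * m then [c₃] else []
  have hLm : L m = [c₁, c₂] := if_pos rfl
  have hL2m : L (2 * m) = [c₃] := by
    show (if 2 * m = m then _ else if 2 * m = 2 * m then _ else _) = _
    rw [if_neg hne.symm, if_pos rfl]
  have hLo : ∀ k, k ≠ m → k ≠ 2 * m → L k = [] := by
    intro k h1 h2
    show (if k = m then _ else if k = 2 * m then _ else _) = _
    rw [if_neg h1, if_neg h2]
  refine L2.eq_top_of_exponents h (by omega) hm hχ1 hχ (t := -(1 / 3)) (by push_cast; ring) hB hϖ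
    hval L ?_ ?_ ?_
  · intro k hk0 hkn f
    by_cases h1 : k = m
    · subst h1
      refine ⟨0, B.zero_mem, ?_⟩
      rw [hLm, sub_zero, L2.rt_cons, L2.rt_cons, L2.rt_nil]
      exact J2 f
    by_cases h2 : k = 2 * m
    · subst h2
      obtain ⟨b, hb, hbe⟩ := hev (evJ h R f)
      refine ⟨indActJ h R (dgl (L2.zk (3 * m) (2 * m) ϖ)) b - c₃ • b,
        B.sub_mem (hB _ b hb) (B.smul_mem _ hb), ?_⟩
      rw [hL2m, L2.rt_cons, L2.rt_nil]
      have h3 := J3 (f - b) (by rw [map_sub, hbe, sub_self])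
      have h4 : indActJ h R (dgl (L2.zk (3 * m) (2 * m) ϖ)) f - c₃ • f -
          (indActJ h R (dgl (L2.zk (3 * m) (2 * m) ϖ)) b - c₃ • b) =
          indActJ h R (dgl (fun i : Fin (3 * m) => if i.1 < 2 * m then ϖ else 1)) (f - b) -
            c₃ • (f - b) := by
        rw [map_sub, smul_sub]
        show _ = indActJ h R (dgl (L2.zk (3 * m) (2 * m) ϖ)) f -
          indActJ h R (dgl (L2.zk (3 * m) (2 * m) ϖ)) b - _
        abel
      rw [h4]
      exact h3
    · refine ⟨0, B.zero_mem, ?_⟩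
      rw [J1 k hk0 hkn h1 h2]
      exact Submodule.mem_top
  · intro k hk0 hkn c hc
    by_cases h1 : k = m
    · subst h1
      rw [hLm] at hc
      rw [e1]
      simp only [List.mem_cons, List.not_mem_nil, or_false] at hc
      rcases hc with rfl | rfl
      · refine ⟨hcne _ _ hc₁, hlt _ _ _ _ hc₁ ?_⟩
        push_cast
        nlinarith
      · refine ⟨hcne _ _ hc₂, hlt _ _ _ _ hc₂ ?_⟩
        push_cast
        nlinarith
    by_cases h2 : k = 2 * m
    · subst h2
      rw [hL2m] at hc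
      rw [e2]
      simp only [List.mem_cons, List.not_mem_nil, or_false] at hc
      subst hc
      refine ⟨hcne _ _ hc₃, hlt _ _ _ _ hc₃ ?_⟩
      push_cast
      nlinarith
    · rw [hLo k h1 h2] at hc
      exact absurd hc List.not_mem_nil
  · intro k hk0 hkn c hc c' hc'
    by_cases h1 : k = m
    · subst h1
      have e3 : 3 * k - k = 2 * k := by omega
      rw [hLm] at hc
      rw [e3, hL2m] at hc'
      rw [e3]
      simp only [List.mem_cons, List.not_mem_nil, or_false] at hc hc'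
      subst hc'
      rw [key _ _ _ hc₃]
      rcases hc with rfl | rfl
      · rw [key _ _ _ hc₁]
        apply hinj
        push_cast
        intro h0
        nlinarith
      · rw [key _ _ _ hc₂]
        apply hinj
        push_cast
        intro h0
        nlinarith
    by_cases h2 : k = 2 * m
    · subst h2
      have e3 : 3 * m - 2 * m = m := by omega
      rw [hL2m] at hc
      rw [e3, hLm] at hc'
      rw [e3]
      simp only [List.mem_cons, List.not_mem_nil, or_false] at hc hc'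
      subst hc
      rw [key _ _ _ hc₃]
      rcases hc' with rfl | rfl
      · rw [key _ _ _ hc₁]
        apply hinj
        push_cast
        intro h0
        nlinarith
      · rw [key _ _ _ hc₂]
        apply hinj
        push_cast
        intro h0
        nlinarith
    · rw [hLo k h1 h2] at hc
      exact absurd hc List.not_mem_nil

end top

end SpW
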