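import Pool.Agent.Work.MP_3615d2_al.ModDet

/-!
MP_3615d2_al, (COMM): the change of variable used in the eigenvalue lemma.

`V` a finite dimensional space over the local field `E`, `S` a subspace, `φ` a function on `V`
invariant under `S` with compact support modulo `S`: the integral of `φ (v₀ + z⁻¹ v)` over a large
ball is `|z|^(dim V - dim S)` times the integral of `φ`.
-/

open MeasureTheory Filter Topology
open scoped NNReal ENNReal

namespace SpW

section

variable {E : Type} [NontriviallyNormedField E] [ProperSpace E] {V : Type}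
  [NormedAddCommGroup V] [NormedSpace E V] [FiniteDimensional E V] [MeasurableSpace V]
  [BorelSpace V] [IsUltrametricDist V]

theorem eig_ball_add {r : ℝ} {v w : V} (hv : ‖v‖ ≤ r) (hw : ‖w‖ ≤ r) : ‖v + w‖ ≤ r :=
  (IsUltrametricDist.norm_add_le_max v w).trans (max_le hv hw)

theorem eig_ball_sub {r : ℝ} {v w : V} (hv : ‖v‖ ≤ r) (hw : ‖w‖ ≤ r) : ‖v - w‖ ≤ r := by
  rw [sub_eq_add_neg]
  exact eig_ball_add hv (by rwa [norm_neg])

/-- comparison of the integrals over two balls -/
theorem eig_balls (μ : Measure V) [μ.IsAddHaarMeasure] (S : Submodule E V) (ν : Measure S)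
    [ν.IsAddHaarMeasure] {φ : V → ℂ} (hφ : Continuous φ) (hS : ∀ s ∈ S, ∀ v, φ (s + v) = φ v)
    {ρ : ℝ} (hρ : ∀ v, φ v ≠ 0 → ∃ s ∈ S, ‖v - s‖ ≤ ρ) {r r' : ℝ} (hr : ρ ≤ r) (hr0 : 0 < r)
    (hrr : r ≤ r') :
    (ν.real {s : S | ‖(s : V)‖ ≤ r} : ℂ) * ∫ v in Metric.closedBall (0 : V) r', φ v ∂μ =
      (ν.real {s : S | ‖(s : V)‖ ≤ r'} : ℂ) * ∫ v in Metric.closedBall (0 : V) r, φ v ∂μ := by
  have iP : ProperSpace V := FiniteDimensional.proper E V
  have iS : ProperSpace S := FiniteDimensional.proper E S
  have hmem : ∀ (v : V) (r : ℝ), v ∈ Metric.closedBall (0 : V) r ↔ ‖v‖ ≤ r := by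
    intro v r
    rw [mem_closedBall_zero_iff]
  have hSm : ∀ (r : ℝ) (w : V), MeasurableSet {s : S | ‖w - (s : V)‖ ≤ r} := by
    intro r w
    exact (isClosed_le (by fun_prop) continuous_const).measurableSet
  set F : V → S → ℂ := fun v s => Set.indicator (Metric.closedBall (0 : V) r') φ v *
    Set.indicator (Metric.closedBall (0 : V) r) (fun _ => (1 : ℂ)) (v - s) with hF
  -- first order of integration
  have h1 : ∀ v, ∫ s, F v s ∂ν = (ν.real {s : S | ‖(s : V)‖ ≤ r} : ℂ) *
      Set.indicator (Metric.closedBall (0 : V) r') φ v := by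
    intro v
    by_cases hv : Set.indicator (Metric.closedBall (0 : V) r') φ v = 0
    · simp only [hF, hv, zero_mul, mul_zero, integral_zero]
    · have hv' : φ v ≠ 0 := by
        intro h
        apply hv
        by_cases hm : v ∈ Metric.closedBall (0 : V) r'
        · rw [Set.indicator_of_mem hm, h]
        · rw [Set.indicator_of_notMem hm]
      obtain ⟨s0, hs0, hb⟩ := hρ v hv'
      simp only [hF]
      rw [integral_const_mul, mul_comm]
      congr 1
      have h2 : ∀ s : S, Set.indicator (Metric.closedBall (0 : V) r) (fun _ => (1 : ℂ)) (v - s) =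
          Set.indicator {s : S | ‖(s : V)‖ ≤ r} (fun _ => (1 : ℂ)) (s - ⟨s0, hs0⟩) := by
        intro s
        have h3 : ‖v - (s : V)‖ ≤ r ↔ ‖(s : V) - s0‖ ≤ r := by
          constructor
          · intro h
            have h4 := eig_ball_sub (hb.trans hr) h
            rwa [sub_sub_sub_cancel_left] at h4
          · intro h
            have h4 := eig_ball_sub (hb.trans hr) h
            have e : v - s0 - ((s : V) - s0) = v - s := by abel
            rwa [e] at h4
        by_cases h : ‖v - (s : V)‖ ≤ r
        · rw [Set.indicator_of_mem (by rwa [hmem]), Set.indicator_of_mem]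
          exact h3.1 h
        · rw [Set.indicator_of_notMem (by rwa [hmem]), Set.indicator_of_notMem]
          exact fun h' => h (h3.2 h')
      simp only [h2]
      rw [integral_sub_right_eq_self (fun s : S => Set.indicator {s : S | ‖(s : V)‖ ≤ r}
        (fun _ => (1 : ℂ)) s) (⟨s0, hs0⟩ : S)]
      rw [integral_indicator_const]
      · simp
      · have := hSm r 0
        simpa [norm_neg] using this
  -- second order of integration
  have h2 : ∀ s : S, ∫ v, F v s ∂μ = (∫ v in Metric.closedBall (0 : V) r, φ v ∂μ) *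
      Set.indicator {s : S | ‖(s : V)‖ ≤ r'} (fun _ => (1 : ℂ)) s := by
    intro s
    by_cases hs : ‖(s : V)‖ ≤ r'
    · rw [Set.indicator_of_mem (by exact hs), mul_one]
      have h3 : ∀ v, F v s = Set.indicator (Metric.closedBall (0 : V) r) φ (v - s) := by
        intro v
        simp only [hF]
        by_cases hv : ‖v - (s : V)‖ ≤ r
        · rw [Set.indicator_of_mem (s := Metric.closedBall (0 : V) r) (by rwa [hmem]),
            Set.indicator_of_mem (s := Metric.closedBall (0 : V) r) (by rwa [hmem]), mul_one,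
            Set.indicator_of_mem]
          · have := hS s s.2 (v - s)
            rwa [add_sub_cancel] at this
          · rw [hmem]
            have := eig_ball_add (hv.trans hrr) hs
            rwa [sub_add_cancel] at this
        · rw [Set.indicator_of_notMem (s := Metric.closedBall (0 : V) r) (by rwa [hmem]),
            Set.indicator_of_notMem (s := Metric.closedBall (0 : V) r) (by rwa [hmem]), mul_zero]
      simp only [h3]
      rw [integral_sub_right_eq_self (fun v => Set.indicator (Metric.closedBall (0 : V) r) φ v)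
        (s : V), integral_indicator measurableSet_closedBall]
    · rw [Set.indicator_of_notMem (by exact hs), mul_zero]
      have h3 : ∀ v, F v s = 0 := by
        intro v
        simp only [hF]
        by_cases hv : ‖v - (s : V)‖ ≤ r
        · rw [Set.indicator_of_notMem, zero_mul]
          rw [hmem]
          intro hv'
          apply hs
          have := eig_ball_sub hv' (hv.trans hrr)
          rwa [sub_sub_cancel] at this
        · rw [Set.indicator_of_notMem (s := Metric.closedBall (0 : V) r) (by rwa [hmem]), mul_zero]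
      simp only [h3, integral_zero]
  -- integrability
  obtain ⟨C, hC⟩ := (isCompact_closedBall (0 : V) r').exists_bound_of_continuousOn
    hφ.continuousOn
  have hint : Integrable (Function.uncurry F) (μ.prod ν) := by
    have hbd : ∀ p : V × S, ‖Function.uncurry F p‖ ≤
        Set.indicator (Metric.closedBall (0 : V) r' ×ˢ {s : S | ‖(s : V)‖ ≤ r'})
          (fun _ => C) p := by
      rintro ⟨v, s⟩
      show ‖F v s‖ ≤ _
      simp only [hF]
      by_cases hv : ‖v‖ ≤ r'
      · by_cases hvs : ‖v - (s : V)‖ ≤ r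
        · rw [Set.indicator_of_mem (s := Metric.closedBall (0 : V) r) (by rwa [hmem]), mul_one,
            Set.indicator_of_mem (s := Metric.closedBall (0 : V) r') (by rwa [hmem]),
            Set.indicator_of_mem]
          · exact hC v (by rwa [hmem])
          · refine ⟨by rwa [hmem], ?_⟩
            have := eig_ball_sub hv (hvs.trans hrr)
            rwa [sub_sub_cancel] at this
        · rw [Set.indicator_of_notMem (s := Metric.closedBall (0 : V) r) (by rwa [hmem]),
            mul_zero, norm_zero]
          refine Set.indicator_nonneg (fun _ _ => ?_) _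
          exact (norm_nonneg _).trans (hC v (by rwa [hmem]))
      · rw [Set.indicator_of_notMem (s := Metric.closedBall (0 : V) r') (by rwa [hmem]), zero_mul,
          norm_zero]
        refine Set.indicator_nonneg (fun _ _ => ?_) _
        refine (norm_nonneg _).trans (hC 0 ?_)
        rw [hmem, norm_zero]
        exact hr0.le.trans hrr
    have hm : AEStronglyMeasurable (Function.uncurry F) (μ.prod ν) := by
      have m1 : Measurable (fun p : V × S =>
          Set.indicator (Metric.closedBall (0 : V) r') φ p.1) :=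
        (hφ.measurable.indicator measurableSet_closedBall).comp measurable_fst
      have m2 : Measurable (fun p : V × S =>
          Set.indicator (Metric.closedBall (0 : V) r) (fun _ => (1 : ℂ)) (p.1 - (p.2 : V))) := by
        have m3 : Measurable (fun p : V × S => p.1 - (p.2 : V)) := by
          exact measurable_fst.sub (measurable_subtype_coe.comp measurable_snd)
        exact (measurable_const.indicator measurableSet_closedBall).comp m3
      exact (m1.mul m2).aestronglyMeasurable
    refine Integrable.mono' ?_ hm (Eventually.of_forall hbd)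
    have hSm' : MeasurableSet {s : S | ‖(s : V)‖ ≤ r'} := by
      have := hSm r' 0
      simpa [norm_neg] using this
    refine (integrable_indicator_iff (measurableSet_closedBall.prod hSm')).2 ?_
    refine integrableOn_const ?_ (by simp)
    rw [Measure.prod_prod]
    refine (ENNReal.mul_lt_top (isCompact_closedBall (0 : V) r').measure_lt_top ?_).ne
    have : {s : S | ‖(s : V)‖ ≤ r'} = Metric.closedBall (0 : S) r' := by
      ext s
      rw [mem_closedBall_zero_iff]
      rfl
    rw [this]
    exact (isCompact_closedBall (0 : S) r').measure_lt_top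
  have h3 := integral_integral_swap hint
  simp only [h1, h2] at h3
  rw [integral_const_mul, integral_const_mul, integral_indicator measurableSet_closedBall] at h3
  rw [h3, mul_comm]
  congr 1
  rw [integral_indicator_const]
  · simp
  · have := hSm r' 0
    simpa [norm_neg] using this

/-- comparison of the integrals over two balls, any order -/
theorem eig_balls' (μ : Measure V) [μ.IsAddHaarMeasure] (S : Submodule E V) (ν : Measure S)
    [ν.IsAddHaarMeasure] {φ : V → ℂ} (hφ : Continuous φ) (hS : ∀ s ∈ S, ∀ v, φ (s + v) = φ v)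
    {ρ : ℝ} (hρ : ∀ v, φ v ≠ 0 → ∃ s ∈ S, ‖v - s‖ ≤ ρ) {r r' : ℝ} (hr : ρ ≤ r) (hr0 : 0 < r)
    (hr' : ρ ≤ r') (hr0' : 0 < r') :
    (ν.real {s : S | ‖(s : V)‖ ≤ r} : ℂ) * ∫ v in Metric.closedBall (0 : V) r', φ v ∂μ =
      (ν.real {s : S | ‖(s : V)‖ ≤ r'} : ℂ) * ∫ v in Metric.closedBall (0 : V) r, φ v ∂μ := by
  rcases le_total r r' with h | h
  · exact eig_balls μ S ν hφ hS hρ hr hr0 h
  · exact (eig_balls μ S ν hφ hS hρ hr' hr0' h).symm

/-- the change of variable -/
theorem eig_change (μ : Measure V) [μ.IsAddHaarMeasure] (S : Submodule E V) {φ : V → ℂ}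
    (hφ : Continuous φ) (hS : ∀ s ∈ S, ∀ v, φ (s + v) = φ v)
    {ρ : ℝ} (hρ : ∀ v, φ v ≠ 0 → ∃ s ∈ S, ‖v - s‖ ≤ ρ) {z : E} (hz0 : z ≠ 0)
    (v₀ : V) {r : ℝ} (hr : ρ ≤ r) (hr0 : 0 < r) (hrz : ρ * ‖z‖ ≤ r) (hv₀ : ‖z • v₀‖ ≤ r) :
    ∫ v in Metric.closedBall (0 : V) r, φ (v₀ + z⁻¹ • v) ∂μ =
      (((md z) ^ (Module.finrank E V - Module.finrank E S) : ℝ≥0) : ℂ) *
        ∫ v in Metric.closedBall (0 : V) r, φ v ∂μ := by
  have iP : ProperSpace V := FiniteDimensional.proper E V
  have iS : ProperSpace S := FiniteDimensional.proper E S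
  have hmem : ∀ (v : V) (r : ℝ), v ∈ Metric.closedBall (0 : V) r ↔ ‖v‖ ≤ r := by
    intro v r
    rw [mem_closedBall_zero_iff]
  have hzn : 0 < ‖z‖ := norm_pos_iff.2 hz0
  set r' : ℝ := r / ‖z‖ with hr'
  have hrr : ρ ≤ r' := by
    rw [hr', le_div_iff₀ hzn]
    exact hrz
  have hrr0 : 0 < r' := div_pos hr0 hzn
  have hzr : ∀ v : V, ‖z⁻¹ • v‖ ≤ r' ↔ ‖v‖ ≤ r := by
    intro v
    rw [norm_smul, norm_inv, hr', inv_mul_eq_div, div_le_div_iff_of_pos_right hzn]
  have hv₀' : ‖v₀‖ ≤ r' := by
    have := (hzr (z • v₀)).2 hv₀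
    rwa [inv_smul_smul₀ hz0] at this
  -- scaling on `V`
  let T : V ≃ₗ[E] V := LinearEquiv.smulOfUnit (Units.mk0 z hz0)⁻¹
  have hT : ∀ v, T v = z⁻¹ • v := fun v => rfl
  have hdet : LinearMap.det (T : V →ₗ[E] V) = (z⁻¹) ^ Module.finrank E V := by
    have : (T : V →ₗ[E] V) = z⁻¹ • LinearMap.id := by
      ext v
      rfl
    rw [this, LinearMap.det_smul, LinearMap.det_id, mul_one]
  have h1 : ∫ v in Metric.closedBall (0 : V) r, φ (v₀ + z⁻¹ • v) ∂μ =
      ((((md z) ^ (Module.finrank E V) : ℝ≥0) : ℝ) : ℂ) *
        ∫ v in Metric.closedBall (0 : V) r', φ v ∂μ := by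
    have h2 := integral_linearEquiv μ T
      (fun w => Set.indicator (Metric.closedBall (0 : V) r') (fun w => φ (v₀ + w)) w)
    have h3 : ∀ v, Set.indicator (Metric.closedBall (0 : V) r') (fun w => φ (v₀ + w)) (T v) =
        Set.indicator (Metric.closedBall (0 : V) r) (fun v => φ (v₀ + z⁻¹ • v)) v := by
      intro v
      rw [hT]
      by_cases hv : ‖v‖ ≤ r
      · rw [Set.indicator_of_mem (by rw [hmem]; exact (hzr v).2 hv),
          Set.indicator_of_mem (by rwa [hmem])]
      · rw [Set.indicator_of_notMem (by rw [hmem]; exact fun h => hv ((hzr v).1 h)),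
          Set.indicator_of_notMem (by rwa [hmem])]
    simp only [h3] at h2
    rw [integral_indicator measurableSet_closedBall] at h2
    rw [h2, hdet, md_pow, md_inv]
    congr 1
    · push_cast
      rw [inv_pow, inv_inv]
    · have h4 : ∀ w, Set.indicator (Metric.closedBall (0 : V) r') (fun w => φ (v₀ + w)) w =
          Set.indicator (Metric.closedBall (0 : V) r') φ (v₀ + w) := by
        intro w
        have h5 : ‖w‖ ≤ r' ↔ ‖v₀ + w‖ ≤ r' := by
          constructor
          · exact fun h => eig_ball_add hv₀' h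
          · intro h
            have := eig_ball_sub h hv₀'
            rwa [add_sub_cancel_left] at this
        by_cases hw : ‖w‖ ≤ r'
        · rw [Set.indicator_of_mem (by rwa [hmem]), Set.indicator_of_mem (by
            rw [hmem]; exact h5.1 hw)]
        · rw [Set.indicator_of_notMem (by rwa [hmem]), Set.indicator_of_notMem (by
            rw [hmem]; exact fun h => hw (h5.2 h))]
      simp only [h4]
      rw [integral_add_left_eq_self (fun w => Set.indicator (Metric.closedBall (0 : V) r') φ w) v₀,
        integral_indicator measurableSet_closedBall]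
  -- scaling on `S`
  let ν : Measure S := Measure.addHaar
  have hball : ∀ r : ℝ, {s : S | ‖(s : V)‖ ≤ r} = Metric.closedBall (0 : S) r := by
    intro r
    ext s
    rw [mem_closedBall_zero_iff]
    rfl
  have hνr : ν.real {s : S | ‖(s : V)‖ ≤ r'} =
      ((md z ^ Module.finrank E S : ℝ≥0) : ℝ)⁻¹ * ν.real {s : S | ‖(s : V)‖ ≤ r} := by
    let TS : S ≃ₗ[E] S := LinearEquiv.smulOfUnit (Units.mk0 z hz0)⁻¹
    have hTS : ∀ v, TS v = z⁻¹ • v := fun v => rfl
    have hdetS : LinearMap.det (TS : S →ₗ[E] S) = (z⁻¹) ^ Module.finrank E S := by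
      have : (TS : S →ₗ[E] S) = z⁻¹ • LinearMap.id := by
        ext v
        rfl
      rw [this, LinearMap.det_smul, LinearMap.det_id, mul_one]
    have h5 : {s : S | ‖(s : V)‖ ≤ r'} = TS '' {s : S | ‖(s : V)‖ ≤ r} := by
      ext s
      constructor
      · intro hs
        refine ⟨z • s, ?_, ?_⟩
        · show ‖((z • s : S) : V)‖ ≤ r
          rw [← hzr]
          show ‖z⁻¹ • z • (s : V)‖ ≤ r'
          rw [inv_smul_smul₀ hz0]
          exact hs
        · rw [hTS, inv_smul_smul₀ hz0]
      · rintro ⟨t, ht, rfl⟩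
        exact (hzr _).2 ht
    rw [h5, Measure.real, image_linearEquiv ν TS, hdetS, ENNReal.toReal_mul, md_pow, md_inv,
      Measure.real]
    congr 1
    rw [ENNReal.coe_toReal]
    push_cast
    rw [inv_pow]
  have hpos : 0 < ν.real {s : S | ‖(s : V)‖ ≤ r} := by
    rw [hball, Measure.real]
    exact ENNReal.toReal_pos (Metric.measure_closedBall_pos ν 0 hr0).ne'
      (isCompact_closedBall 0 r).measure_lt_top.ne
  have h6 := eig_balls' μ S ν hφ hS hρ hr hr0 hrr hrr0
  rw [hνr] at h6
  have hmz : 0 < md z := md_pos hz0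
  have h7 : (∫ v in Metric.closedBall (0 : V) r', φ v ∂μ) =
      ((((md z) ^ Module.finrank E S : ℝ≥0) : ℝ) : ℂ)⁻¹ *
        ∫ v in Metric.closedBall (0 : V) r, φ v ∂μ := by
    have h8 : (ν.real {s : S | ‖(s : V)‖ ≤ r} : ℂ) ≠ 0 := by
      exact_mod_cast hpos.ne'
    apply mul_left_cancel₀ h8
    rw [h6]
    push_cast
    ring
  rw [h1, h7, ← mul_assoc]
  congr 1
  have hle : Module.finrank E S ≤ Module.finrank E V := S.finrank_le
  have h9 : (((md z : ℝ≥0) : ℝ) : ℂ) ≠ 0 := by
    exact_mod_cast hmz.ne'
  push_cast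
  rw [← div_eq_mul_inv, div_eq_iff (pow_ne_zero _ h9), ← pow_add, Nat.sub_add_cancel hle]

end

end SpW
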