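import Pool.Agent.Work.MP_3615d2_al.Loc

/-!
MP_3615d2_al, (COMM): linear algebra for the eigenvalue lemma: the rank of `y ↦ A y B`.
-/

open Matrix

namespace SpW

section

variable {K : Type} [Field K]

/-- dimension of the image of a subspace -/
theorem finrank_map_add {V W : Type} [AddCommGroup V] [Module K V] [AddCommGroup W] [Module K W]
    [FiniteDimensional K V] (T : V →ₗ[K] W) (p : Submodule K V) :
    Module.finrank K (p.map T) + Module.finrank K (p ⊓ LinearMap.ker T : Submodule K V) =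
      Module.finrank K p := by
  have h := (T.domRestrict p).finrank_range_add_finrank_ker
  have h1 : LinearMap.range (T.domRestrict p) = p.map T := by
    ext w
    constructor
    · rintro ⟨x, rfl⟩
      exact ⟨x, x.2, rfl⟩
    · rintro ⟨x, hx, rfl⟩
      exact ⟨⟨x, hx⟩, rfl⟩
  have h2 : Module.finrank K (LinearMap.ker (T.domRestrict p)) =
      Module.finrank K (p ⊓ LinearMap.ker T : Submodule K V) := by
    have e : LinearMap.ker (T.domRestrict p) ≃ₗ[K] (p ⊓ LinearMap.ker T : Submodule K V) :=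
      { toFun := fun x => ⟨x.1.1, x.1.2, x.2⟩
        map_add' := fun _ _ => rfl
        map_smul' := fun _ _ => rfl
        invFun := fun x => ⟨⟨x.1, x.2.1⟩, x.2.2⟩
        left_inv := fun _ => rfl
        right_inv := fun _ => rfl }
    exact e.finrank_eq
  rw [h1, h2] at h
  exact h

/-- the rank of `y ↦ f ∘ y ∘ g` -/
theorem finrank_range_comp {V₁ V₂ V₃ V₄ : Type} [AddCommGroup V₁] [Module K V₁]
    [AddCommGroup V₂] [Module K V₂] [AddCommGroup V₃] [Module K V₃] [AddCommGroup V₄] [Module K V₄]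
    [FiniteDimensional K V₁] [FiniteDimensional K V₂] [FiniteDimensional K V₃]
    [FiniteDimensional K V₄] (f : V₃ →ₗ[K] V₄) (g : V₁ →ₗ[K] V₂)
    (Φ : (V₂ →ₗ[K] V₃) →ₗ[K] (V₁ →ₗ[K] V₄)) (hΦ : ∀ y, Φ y = f ∘ₗ y ∘ₗ g) :
    Module.finrank K (LinearMap.range Φ) =
      Module.finrank K (LinearMap.range f) * Module.finrank K (LinearMap.range g) := by
  let Ψ : (LinearMap.range g →ₗ[K] LinearMap.range f) →ₗ[K] (V₁ →ₗ[K] V₄) :=
    { toFun := fun Y => (LinearMap.range f).subtype ∘ₗ Y ∘ₗ g.rangeRestrict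
      map_add' := fun Y Y' => by
        ext v
        rfl
      map_smul' := fun c Y => by
        ext v
        rfl }
  have hΨ : ∀ Y v, Ψ Y v = (Y ⟨g v, ⟨v, rfl⟩⟩ : V₄) := fun _ _ => rfl
  have hinj : Function.Injective Ψ := by
    intro Y Y' h
    apply LinearMap.ext
    rintro ⟨_, v, rfl⟩
    apply Subtype.ext
    rw [← hΨ, ← hΨ, h]
  have hr : LinearMap.range Φ = LinearMap.range Ψ := by
    apply le_antisymm
    · rintro _ ⟨y, rfl⟩
      refine ⟨(f ∘ₗ y ∘ₗ (LinearMap.range g).subtype).codRestrict _ (fun x => ⟨_, rfl⟩), ?_⟩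
      rw [hΦ]
      apply LinearMap.ext
      intro v
      rfl
    · rintro _ ⟨Y, rfl⟩
      obtain ⟨σ, hσ⟩ := f.rangeRestrict.exists_rightInverse_of_surjective f.range_rangeRestrict
      obtain ⟨y, hy⟩ := LinearMap.exists_extend (σ ∘ₗ Y)
      refine ⟨y, ?_⟩
      rw [hΦ]
      apply LinearMap.ext
      intro v
      rw [hΨ]
      show f (y (g v)) = _
      have h1 : y (g v) = σ (Y ⟨g v, ⟨v, rfl⟩⟩) := by
        have := LinearMap.congr_fun hy ⟨g v, ⟨v, rfl⟩⟩
        exact this
      rw [h1]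
      have h2 := LinearMap.congr_fun hσ (Y ⟨g v, ⟨v, rfl⟩⟩)
      exact congrArg Subtype.val h2
  rw [hr, LinearMap.finrank_range_of_inj hinj, Module.finrank_linearMap, mul_comm]

/-- the rank of `y ↦ A y B` -/
theorem finrank_ker_mul_mul {ι₁ ι₂ ι₃ ι₄ : Type} [Fintype ι₁] [Fintype ι₂] [Fintype ι₃]
    [Fintype ι₄] [DecidableEq ι₁] [DecidableEq ι₂] [DecidableEq ι₃] [DecidableEq ι₄]
    (A : Matrix ι₄ ι₃ K) (B : Matrix ι₂ ι₁ K)
    (θ : Matrix ι₃ ι₂ K →ₗ[K] Matrix ι₄ ι₁ K) (hθ : ∀ y, θ y = A * y * B) :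
    Module.finrank K (LinearMap.ker θ) + A.rank * B.rank =
      Module.finrank K (Matrix ι₃ ι₂ K) := by
  let u : Matrix ι₃ ι₂ K ≃ₗ[K] ((ι₂ → K) →ₗ[K] (ι₃ → K)) := Matrix.toLin'
  let w : Matrix ι₄ ι₁ K ≃ₗ[K] ((ι₁ → K) →ₗ[K] (ι₄ → K)) := Matrix.toLin'
  let Φ : ((ι₂ → K) →ₗ[K] (ι₃ → K)) →ₗ[K] ((ι₁ → K) →ₗ[K] (ι₄ → K)) :=
    w.toLinearMap ∘ₗ θ ∘ₗ u.symm.toLinearMap
  have hΦ : ∀ y, Φ y = A.mulVecLin ∘ₗ y ∘ₗ B.mulVecLin := by
    intro y
    obtain ⟨y, rfl⟩ := u.surjective y
    show w (θ (u.symm (u y))) = _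
    rw [u.symm_apply_apply, hθ]
    show Matrix.toLin' (A * y * B) = _
    rw [Matrix.toLin'_mul, Matrix.toLin'_mul, LinearMap.comp_assoc]
    rfl
  have h1 := finrank_range_comp A.mulVecLin B.mulVecLin Φ hΦ
  have h2 : Module.finrank K (LinearMap.range Φ) = Module.finrank K (LinearMap.range θ) := by
    have : LinearMap.range Φ = (LinearMap.range θ).map w.toLinearMap := by
      rw [LinearMap.range_comp, LinearMap.range_comp_of_range_eq_top _ (LinearEquiv.range _)]
    rw [this]
    exact LinearEquiv.finrank_map_eq w _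
  have h3 := θ.finrank_range_add_finrank_ker
  rw [← h2, h1] at h3
  rw [add_comm]
  exact h3

/-- complementary ranks -/
theorem rank_compl {ι : Type} [Fintype ι] [DecidableEq ι] (e f : Matrix ι ι K) (he : e * e = e)
    (hf : f * f = f) (g : GL ι K) :
    ((1 - e) * (g : Matrix ι ι K) * f).rank + e.rank =
      ((1 - f) * ((g⁻¹ : GL ι K) : Matrix ι ι K) * e).rank + f.rank := by
  let eg : (ι → K) ≃ₗ[K] (ι → K) :=
    { (g : Matrix ι ι K).mulVecLin with
      invFun := ((g⁻¹ : GL ι K) : Matrix ι ι K).mulVec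
      left_inv := fun v => by
        show ((g⁻¹ : GL ι K) : Matrix ι ι K).mulVec ((g : Matrix ι ι K).mulVec v) = v
        rw [Matrix.mulVec_mulVec, ← Units.val_mul, inv_mul_cancel, Units.val_one,
          Matrix.one_mulVec]
      right_inv := fun v => by
        show (g : Matrix ι ι K).mulVec (((g⁻¹ : GL ι K) : Matrix ι ι K).mulVec v) = v
        rw [Matrix.mulVec_mulVec, ← Units.val_mul, mul_inv_cancel, Units.val_one,
          Matrix.one_mulVec] }
  have heg : ∀ v, eg v = (g : Matrix ι ι K).mulVec v := fun _ => rfl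
  have heg' : ∀ v, eg.symm v = ((g⁻¹ : GL ι K) : Matrix ι ι K).mulVec v := fun _ => rfl
  have key : ∀ (e f A : Matrix ι ι K), e * e = e → ∀ T : (ι → K) ≃ₗ[K] (ι → K),
      (∀ v, T v = A.mulVec v) → ((1 - e) * A * f).rank +
        Module.finrank K ((LinearMap.range (f.mulVecLin)).map T.toLinearMap ⊓
          LinearMap.range e.mulVecLin : Submodule K (ι → K)) = f.rank := by
    intro e f A he T hT
    have h1 := finrank_map_add ((1 - e).mulVecLin)
      ((LinearMap.range f.mulVecLin).map T.toLinearMap)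
    have h2 : ((LinearMap.range f.mulVecLin).map T.toLinearMap).map (1 - e).mulVecLin =
        LinearMap.range ((1 - e) * A * f).mulVecLin := by
      ext v
      constructor
      · rintro ⟨_, ⟨_, ⟨w, rfl⟩, rfl⟩, rfl⟩
        refine ⟨w, ?_⟩
        show _ = (1 - e).mulVec (T (f.mulVec w))
        rw [hT, Matrix.mulVec_mulVec, Matrix.mulVec_mulVec, Matrix.mul_assoc]
        rfl
      · rintro ⟨w, rfl⟩
        refine ⟨_, ⟨_, ⟨w, rfl⟩, rfl⟩, ?_⟩
        show (1 - e).mulVec (T (f.mulVec w)) = _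
        rw [hT, Matrix.mulVec_mulVec, Matrix.mulVec_mulVec, Matrix.mul_assoc]
        rfl
    have h3 : LinearMap.ker (1 - e).mulVecLin = LinearMap.range e.mulVecLin := by
      ext v
      rw [LinearMap.mem_ker, Matrix.mulVecLin_apply, Matrix.sub_mulVec, Matrix.one_mulVec,
        sub_eq_zero]
      constructor
      · intro h
        exact ⟨v, h.symm⟩
      · rintro ⟨w, rfl⟩
        rw [Matrix.mulVecLin_apply, Matrix.mulVec_mulVec, he]
    have h4 : Module.finrank K ((LinearMap.range f.mulVecLin).map T.toLinearMap) = f.rank :=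
      LinearEquiv.finrank_map_eq T _
    rw [h2, h3, h4] at h1
    exact h1
  have h1 := key e f g he eg heg
  have h2 := key f e ((g⁻¹ : GL ι K) : Matrix ι ι K) hf eg.symm heg'
  have h3 : Module.finrank K ((LinearMap.range (f.mulVecLin)).map eg.toLinearMap ⊓
      LinearMap.range e.mulVecLin : Submodule K (ι → K)) =
      Module.finrank K ((LinearMap.range (e.mulVecLin)).map eg.symm.toLinearMap ⊓
      LinearMap.range f.mulVecLin : Submodule K (ι → K)) := by
    have h4 : ((LinearMap.range (e.mulVecLin)).map eg.symm.toLinearMap ⊓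
      LinearMap.range f.mulVecLin : Submodule K (ι → K)).map eg.toLinearMap =
      ((LinearMap.range (f.mulVecLin)).map eg.toLinearMap ⊓
      LinearMap.range e.mulVecLin : Submodule K (ι → K)) := by
      ext v
      constructor
      · rintro ⟨w, ⟨⟨x, hx, hxw⟩, hw⟩, rfl⟩
        refine ⟨⟨w, hw, rfl⟩, ?_⟩
        have : eg w = x := by
          rw [← hxw]
          exact eg.apply_symm_apply x
        show eg w ∈ _
        rw [this]
        exact hx
      · rintro ⟨⟨w, hw, rfl⟩, hv⟩
        refine ⟨w, ⟨⟨eg w, hv, ?_⟩, hw⟩, rfl⟩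
        exact eg.symm_apply_apply w
    rw [← h4]
    exact LinearEquiv.finrank_map_eq eg _
  omega

/-- the rank of the projection -/
theorem rank_prj {N : ℕ} (a : ℕ) (ha : a ≤ N) :
    (prj K {i : Fin N | i.1 < a}).rank = a := by
  classical
  rw [prj, Matrix.rank_diagonal]
  have h1 : Fintype.card {i : Fin N // (if i ∈ {i : Fin N | i.1 < a} then (1 : K) else 0) ≠ 0} =
      Fintype.card (Fin a) := by
    apply Fintype.card_congr
    exact
      { toFun := fun i => ⟨i.1.1, by
          by_contra h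
          have h2 := i.2
          rw [if_neg (by exact h)] at h2
          exact h2 rfl⟩
        invFun := fun i => ⟨Fin.castLE ha i, by
          rw [if_pos (by
            show (Fin.castLE ha i).1 < a
            exact i.2)]
          exact one_ne_zero⟩
        left_inv := fun i => by
          apply Subtype.ext
          apply Fin.ext
          rfl
        right_inv := fun i => by
          apply Fin.ext
          rfl }
  rw [h1, Fintype.card_fin]

end

end SpW
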