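import Pool.Agent.Work.MP_3615d2_al.Co.IndAB
import Pool.Agent.Work.MP_3615d2_al.Co.EigA
import Pool.Agent.Work.MP_3615d2_al.Co.EigB

/-!
MP_3615d2_al, (COMM): the eigenvalue lemma, part 1: the unipotent radical `N_k` as an additive
group, the support of a function of the induced representation along `N_k`, averages.
-/

open MeasureTheory Matrix Filter Topology
open scoped NNReal TensorProduct

set_option linter.unusedSectionVars false

namespace SpW

section alg

variable {E : Type} [Field E] {a b N k l : ℕ}

/-- the parabolic subgroup in terms of projections -/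
theorem mem_PSJ_iff_blk (h : a + b = N) (p : GL (Fin N) E) : p ∈ PSJ h E ↔
    (1 - prj E {i : Fin N | i.1 < a}) * (p : Matrix (Fin N) (Fin N) E) *
      prj E {i : Fin N | i.1 < a} = 0 := by
  have h0 : p ∈ PSJ h E ↔ lowLJ h (p : Matrix (Fin N) (Fin N) E) = 0 := exists_pelJ_iff h p
  rw [h0]
  constructor
  · intro h1
    ext i j
    rw [blk_apply, Matrix.zero_apply]
    by_cases hij : i ∉ {i : Fin N | i.1 < a} ∧ j ∈ {i : Fin N | i.1 < a}
    · rw [if_pos hij]
      obtain ⟨i, rfl⟩ := (sJ h).surjective i
      obtain ⟨j, rfl⟩ := (sJ h).surjective j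
      rcases i with i | i
      · exfalso
        apply hij.1
        show (sJ h (Sum.inl i)).1 < a
        rw [sJ_inl]
        exact i.2
      · rcases j with j | j
        · exact congrFun (congrFun h1 i) j
        · exfalso
          have h2 : (sJ h (Sum.inr j)).1 < a := hij.2
          rw [sJ_inr] at h2
          omega
    · rw [if_neg hij]
  · intro h1
    ext i j
    have h2 := congrFun (congrFun h1 (sJ h (Sum.inr i))) (sJ h (Sum.inl j))
    rw [blk_apply, if_pos] at h2
    · exact h2
    · refine ⟨?_, ?_⟩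
      · show ¬ (sJ h (Sum.inr i)).1 < a
        rw [sJ_inr]
        omega
      · show (sJ h (Sum.inl j)).1 < a
        rw [sJ_inl]
        exact j.2

/-- the element of `N_k` with the block `y` -/
def nU (hk : k + l = N) (y : Fin k → Fin l → E) : GL (Fin N) E := pelJ hk 1 1 (Matrix.of y)

/-- the inclusion of the first `k` coordinates -/
def inA (hk : k + l = N) (E : Type) [Field E] : Matrix (Fin N) (Fin k) E :=
  fun i r => if i = sJ hk (Sum.inl r) then 1 else 0

/-- the projection to the last `l` coordinates -/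
def prB (hk : k + l = N) (E : Type) [Field E] : Matrix (Fin l) (Fin N) E :=
  fun s j => if sJ hk (Sum.inr s) = j then 1 else 0

theorem nU_sub_one (hk : k + l = N) (y : Fin k → Fin l → E) :
    (nU hk y : Matrix (Fin N) (Fin N) E) - 1 = inA hk E * Matrix.of y * prB hk E := by
  ext i j
  obtain ⟨i, rfl⟩ := (sJ hk).surjective i
  obtain ⟨j, rfl⟩ := (sJ hk).surjective j
  have h1 : (nU hk y : Matrix (Fin N) (Fin N) E) = bmJ hk 1 (Matrix.of y) 0 1 := rfl
  have hs : ∀ i j : Fin k ⊕ Fin l, (sJ hk i = sJ hk j) ↔ i = j := fun i j =>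
    (sJ hk).apply_eq_iff_eq
  rw [Matrix.sub_apply, h1, bmJ_apply, Matrix.mul_apply]
  have h2 : ∀ (i : Fin k ⊕ Fin l) (s : Fin l), (inA hk E * Matrix.of y) (sJ hk i) s =
      Sum.elim (fun r => y r s) (fun _ => 0) i := by
    intro i s
    rw [Matrix.mul_apply]
    rcases i with i | i
    · rw [Finset.sum_eq_single i]
      · simp [inA]
      · intro r _ hr
        simp only [inA, hs]
        rw [if_neg (fun h => hr (Sum.inl.inj h).symm), zero_mul]
      · intro h
        exact absurd (Finset.mem_univ _) h
    · apply Finset.sum_eq_zero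
      intro r _
      simp only [inA, hs]
      rw [if_neg (by simp), zero_mul]
  simp only [h2]
  rcases i with i | i <;> rcases j with j | j
  · simp [prB, Matrix.one_apply, hs]
  · rw [Finset.sum_eq_single j]
    · simp [prB, Matrix.one_apply, hs]
    · intro s _ hne
      simp only [prB, hs]
      rw [if_neg (fun h => hne (Sum.inr.inj h)), mul_zero]
    · intro h
      exact absurd (Finset.mem_univ _) h
  · simp [prB, Matrix.one_apply, hs]
  · simp [prB, Matrix.one_apply, hs]

theorem nU_add (hk : k + l = N) (y y' : Fin k → Fin l → E) :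
    nU hk (y + y') = nU hk y * nU hk y' := by
  unfold nU
  rw [pelJ_mul, mul_one, mul_one]
  congr 1
  rw [Units.val_one, Units.val_one, Matrix.one_mul, Matrix.mul_one, add_comm]
  rfl

theorem nU_zero (hk : k + l = N) : nU hk (0 : Fin k → Fin l → E) = 1 := by
  unfold nU
  exact pelJ_one hk

theorem nU_neg (hk : k + l = N) (y : Fin k → Fin l → E) : nU hk (-y) = (nU hk y)⁻¹ := by
  rw [eq_inv_iff_mul_eq_one, ← nU_add, neg_add_cancel, nU_zero]

theorem nU_mem (hk : k + l = N) (y : Fin k → Fin l → E) : nU hk y ∈ Nk N k E :=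
  (mem_Nk_J hk _).2 ⟨_, rfl⟩

theorem exists_nU (hk : k + l = N) {u : GL (Fin N) E} (hu : u ∈ Nk N k E) :
    ∃ y, u = nU hk y := by
  obtain ⟨y, rfl⟩ := (mem_Nk_J hk u).1 hu
  exact ⟨y, rfl⟩

/-- the element `diag(z, .., z, 1, .., 1)` with `k` entries `z` -/
def zD (N k : ℕ) (z : Eˣ) : GL (Fin N) E := dgl fun i : Fin N => if i.1 < k then z else 1

theorem zD_val (z : Eˣ) : (zD N k z : Matrix (Fin N) (Fin N) E) =
    1 + ((z : E) - 1) • prj E {i : Fin N | i.1 < k} := by
  unfold zD
  rw [dgl_val]
  ext i j
  rw [Matrix.add_apply, Matrix.smul_apply, prj, Matrix.diagonal_apply, Matrix.diagonal_apply,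
    Matrix.one_apply]
  by_cases hij : i = j
  · subst hij
    by_cases hi : i.1 < k
    · simp [hi]
    · simp [hi]
  · simp [hij]

theorem zD_eq_pelJ (hk : k + l = N) (z : Eˣ) : zD N k z =
    pelJ hk (Matrix.GeneralLinearGroup.scalar (Fin k) z) 1 0 := by
  apply Units.ext
  ext i j
  obtain ⟨i, rfl⟩ := (sJ hk).surjective i
  obtain ⟨j, rfl⟩ := (sJ hk).surjective j
  have hs : (sJ hk i = sJ hk j) ↔ i = j := (sJ hk).apply_eq_iff_eq
  unfold zD
  rw [dgl_val, pelJ_val, bmJ_apply, Matrix.diagonal_apply]
  rcases i with i | i <;> rcases j with j | j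
  · simp [sJ_inl, Matrix.diagonal_apply]
  · simp
  · simp
  · simp [sJ_inr, Matrix.one_apply]

/-- commutation of `N_k` and `diag(z, 1)` -/
theorem nU_mul_zD (hk : k + l = N) (z : Eˣ) (y : Fin k → Fin l → E) :
    nU hk y * zD N k z = zD N k z * nU hk ((z : E)⁻¹ • y) := by
  rw [zD_eq_pelJ hk]
  unfold nU
  rw [pelJ_mul, pelJ_mul]
  congr 1
  · rw [one_mul, mul_one]
  · rw [Units.val_one, Units.val_one, Matrix.mul_one, Matrix.mul_zero, zero_add, Matrix.zero_mul,
      add_zero]
    ext i j
    rw [Matrix.mul_apply, Finset.sum_eq_single i]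
    · simp
    · intro r _ hr
      simp [Matrix.diagonal_apply, Ne.symm hr]
    · intro h
      exact absurd (Finset.mem_univ _) h

end alg

section top

variable {E : Type} [NontriviallyNormedField E] {a b N k l : ℕ}

theorem continuous_nU (hk : k + l = N) :
    Continuous fun y : Fin k → Fin l → E => nU hk y := by
  refine Units.continuous_iff.2 ⟨continuous_matrix fun i j => ?_, continuous_matrix fun i j => ?_⟩
  · obtain ⟨i, rfl⟩ := (sJ hk).surjective i
    obtain ⟨j, rfl⟩ := (sJ hk).surjective j
    have h1 : ∀ y : Fin k → Fin l → E, (nU hk y : Matrix (Fin N) (Fin N) E) (sJ hk i) (sJ hk j) =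
        Matrix.fromBlocks 1 (Matrix.of y) 0 1 i j := fun y => bmJ_apply hk _ _ _ _ i j
    simp only [Function.comp_apply, h1]
    rcases i with i | i <;> rcases j with j | j
    · exact continuous_const
    · show Continuous fun y : Fin k → Fin l → E => y i j
      fun_prop
    · exact continuous_const
    · exact continuous_const
  · obtain ⟨i, rfl⟩ := (sJ hk).surjective i
    obtain ⟨j, rfl⟩ := (sJ hk).surjective j
    have h1 : ∀ y : Fin k → Fin l → E,
        (((nU hk y)⁻¹ : GL (Fin N) E) : Matrix (Fin N) (Fin N) E) (sJ hk i) (sJ hk j) =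
        Matrix.fromBlocks 1 (Matrix.of (-y)) 0 1 i j := fun y => by
      rw [← nU_neg]
      exact bmJ_apply hk _ _ _ _ i j
    simp only [h1]
    rcases i with i | i <;> rcases j with j | j
    · exact continuous_const
    · show Continuous fun y : Fin k → Fin l → E => - y i j
      fun_prop
    · exact continuous_const
    · exact continuous_const

end top

end SpW
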