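import Pool.Agent.Work.MP_3615d2_al.Co.StratA
import Pool.Agent.Work.MP_3615d2_al.Pt2

/-!
MP_3615d2_al, induced representations `IndJ`: the points of the rank strata killed by cuspidality
in the upper or in the lower block.
-/

open Filter Topology Matrix

set_option linter.unusedSectionVars false

namespace SpW

section vec

variable {E : Type} [NontriviallyNormedField E] {a b N : ℕ} (h : a + b = N)

/-- the upper rows of the first `k` columns -/
def upKJ (k : ℕ) (g : Matrix (Fin N) (Fin N) E) : Matrix (Fin a) {j : Fin N // j.1 < k} E :=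
  fun i j => g (sJ h (Sum.inl i)) j.1

/-- extension by zero -/
def extKJ {k : ℕ} (x : {j : Fin N // j.1 < k} → E) : Fin N → E :=
  fun j => if h : j.1 < k then x ⟨j, h⟩ else 0

theorem sum_extKJ {k : ℕ} (r : Fin N → E) (x : {j : Fin N // j.1 < k} → E) :
    ∑ j, r j * extKJ x j = ∑ j : {j : Fin N // j.1 < k}, r j.1 * x j := by
  have h1 : ∑ j ∈ Finset.univ.filter (fun j : Fin N => j.1 < k), r j * extKJ x j =
      ∑ j : {j : Fin N // j.1 < k}, r j.1 * extKJ x j.1 :=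
    Finset.sum_subtype (Finset.univ.filter fun j : Fin N => j.1 < k)
      (p := fun j : Fin N => j.1 < k) (by simp) (fun j => r j * extKJ x j)
  have h2 : ∑ j : {j : Fin N // j.1 < k}, r j.1 * x j =
      ∑ j : {j : Fin N // j.1 < k}, r j.1 * extKJ x j.1 := by
    apply Finset.sum_congr rfl
    intro j _
    rw [extKJ, dif_pos j.2]
  rw [h2, ← h1, Finset.sum_filter]
  apply Finset.sum_congr rfl
  intro j _
  split_ifs with h
  · rfl
  · rw [extKJ, dif_neg h, mul_zero]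

theorem mulVec_extKJ_inl {k : ℕ} (g : Matrix (Fin N) (Fin N) E)
    (x : {j : Fin N // j.1 < k} → E) (i : Fin a) :
    g.mulVec (extKJ x) (sJ h (Sum.inl i)) = (upKJ h k g).mulVec x i :=
  sum_extKJ (g (sJ h (Sum.inl i))) x

theorem mulVec_extKJ_inr {k : ℕ} (g : Matrix (Fin N) (Fin N) E)
    (x : {j : Fin N // j.1 < k} → E) (i : Fin b) :
    g.mulVec (extKJ x) (sJ h (Sum.inr i)) = (lowKJ h k g).mulVec x i :=
  sum_extKJ (g (sJ h (Sum.inr i))) x

theorem bmJ_mulVec_inl (A : Matrix (Fin a) (Fin a) E) (B : Matrix (Fin a) (Fin b) E)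
    (C : Matrix (Fin b) (Fin a) E) (D : Matrix (Fin b) (Fin b) E) (v : Fin N → E) (i : Fin a) :
    (bmJ h A B C D).mulVec v (sJ h (Sum.inl i)) =
      (A.mulVec (fun j => v (sJ h (Sum.inl j))) + B.mulVec (fun j => v (sJ h (Sum.inr j)))) i := by
  rw [Matrix.mulVec, dotProduct, ← (sJ h).sum_comp, Fintype.sum_sum_type]
  simp [bmJ, Matrix.mulVec, dotProduct]

theorem bmJ_mulVec_inr (A : Matrix (Fin a) (Fin a) E) (B : Matrix (Fin a) (Fin b) E)
    (C : Matrix (Fin b) (Fin a) E) (D : Matrix (Fin b) (Fin b) E) (v : Fin N → E) (i : Fin b) :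
    (bmJ h A B C D).mulVec v (sJ h (Sum.inr i)) =
      (C.mulVec (fun j => v (sJ h (Sum.inl j))) + D.mulVec (fun j => v (sJ h (Sum.inr j)))) i := by
  rw [Matrix.mulVec, dotProduct, ← (sJ h).sum_comp, Fintype.sum_sum_type]
  simp [bmJ, Matrix.mulVec, dotProduct]

theorem ext_sJ {v w : Fin N → E} (h1 : ∀ i, v (sJ h (Sum.inl i)) = w (sJ h (Sum.inl i)))
    (h2 : ∀ i, v (sJ h (Sum.inr i)) = w (sJ h (Sum.inr i))) : v = w := by
  funext j
  obtain ⟨i, rfl⟩ := (sJ h).surjective j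
  rcases i with i | i
  · exact h1 i
  · exact h2 i

/-- the kernel of the lower block embeds by the upper block -/
theorem upKJ_injOn {k : ℕ} (g : GL (Fin N) E) {x : {j : Fin N // j.1 < k} → E}
    (h1 : (lowKJ h k (g : Matrix (Fin N) (Fin N) E)).mulVec x = 0)
    (h2 : (upKJ h k (g : Matrix (Fin N) (Fin N) E)).mulVec x = 0) : x = 0 := by
  have h0 : Function.Injective (g : Matrix (Fin N) (Fin N) E).mulVec :=
    (Matrix.mulVec_injective_iff_isUnit).2 (Units.isUnit g)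
  have h3 : (g : Matrix (Fin N) (Fin N) E).mulVec (extKJ x) = 0 := by
    apply ext_sJ h
    · intro i
      rw [mulVec_extKJ_inl, h2]
      rfl
    · intro i
      rw [mulVec_extKJ_inr, h1]
      rfl
  have h4 : extKJ x = 0 := h0 (by rw [h3, Matrix.mulVec_zero])
  funext j
  have h5 := congrFun h4 j.1
  rw [extKJ, dif_pos j.2] at h5
  exact h5

/-- the image under the upper block of the kernel of the lower block -/
noncomputable def spAJ (k : ℕ) (g : GL (Fin N) E) : Submodule E (Fin a → E) :=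
  (LinearMap.ker (lowKJ h k (g : Matrix (Fin N) (Fin N) E)).mulVecLin).map
    (upKJ h k (g : Matrix (Fin N) (Fin N) E)).mulVecLin

theorem card_lt_sub {k : ℕ} (hk : k ≤ N) : Fintype.card {j : Fin N // j.1 < k} = k := by
  rw [Fintype.card_subtype]
  have : (Finset.univ.filter fun j : Fin N => j.1 < k).card = (Finset.range k).card := by
    apply Finset.card_bij (fun j _ => j.1)
    · intro j hj
      simpa using hj
    · intro i _ j _ h
      exact Fin.ext h
    · intro i hi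
      have hi' : i < k := by simpa using hi
      exact ⟨⟨i, by omega⟩, by simpa using hi', rfl⟩
  rw [this, Finset.card_range]

theorem finrank_spAJ {k : ℕ} (hk : k ≤ N) (g : GL (Fin N) E) :
    Module.finrank E (spAJ h k g) + rkJ h k g = k := by
  have h1 := finrank_ker_add_rank (lowKJ h k (g : Matrix (Fin N) (Fin N) E))
  have h2 : Module.finrank E (spAJ h k g) =
      Module.finrank E (LinearMap.ker
        (lowKJ h k (g : Matrix (Fin N) (Fin N) E)).mulVecLin) := by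
    have hinj : Function.Injective ((upKJ h k (g : Matrix (Fin N) (Fin N) E)).mulVecLin ∘ₗ
        (LinearMap.ker (lowKJ h k (g : Matrix (Fin N) (Fin N) E)).mulVecLin).subtype) := by
      rw [injective_iff_map_eq_zero]
      intro x hx
      exact Subtype.ext (upKJ_injOn h g x.2 hx)
    have h3 := LinearMap.finrank_range_of_inj hinj
    rw [← h3, LinearMap.range_comp, Submodule.range_subtype]
    rfl
  rw [card_lt_sub hk] at h1
  rw [h2]
  exact h1

theorem le_add_rkJ {k : ℕ} (hk : k ≤ N) (g : GL (Fin N) E) : k ≤ a + rkJ h k g := by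
  have h1 := finrank_spAJ h hk g
  have h2 := (spAJ h k g).finrank_le
  rw [Module.finrank_fintype_fun_eq_card, Fintype.card_fin] at h2
  omega

theorem rkJ_le_k {k : ℕ} (hk : k ≤ N) (g : GL (Fin N) E) : rkJ h k g ≤ k := by
  have h1 := finrank_spAJ h hk g
  omega

/-- realisation of the elements of the unipotent radical of the stabiliser of `spAJ` -/
theorem exists_conj_upperJ {k : ℕ} (g : GL (Fin N) E) (p : GL (Fin a) E)
    (H1 : ∀ y ∈ spAJ h k g, ((p : Matrix (Fin a) (Fin a) E) - 1).mulVec y = 0)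
    (H2 : ∀ y, ((p : Matrix (Fin a) (Fin a) E) - 1).mulVec y ∈ spAJ h k g) :
    ∃ c ∈ Nk N k E, ∃ y, pelJ h p 1 y = g * c * g⁻¹ := by
  set U := upKJ h k (g : Matrix (Fin N) (Fin N) E) with hU
  set L := lowKJ h k (g : Matrix (Fin N) (Fin N) E) with hL
  obtain ⟨Q, hQ, -⟩ := exists_ginv L
  set y : Matrix (Fin a) (Fin b) E := -(((p : Matrix (Fin a) (Fin a) E) - 1) * (U * Q)) with hy
  refine ⟨g⁻¹ * pelJ h p 1 y * g, ?_, y, by group⟩
  set M : Matrix (Fin N) (Fin N) E :=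
    bmJ h ((p : Matrix (Fin a) (Fin a) E) - 1) y 0 0 with hM
  have hpel : (pelJ h p 1 y : Matrix (Fin N) (Fin N) E) = 1 + M := by
    rw [pelJ_val, hM, ← bmJ_one h]
    ext i j
    obtain ⟨i, rfl⟩ := (sJ h).surjective i
    obtain ⟨j, rfl⟩ := (sJ h).surjective j
    rcases i with i | i <;> rcases j with j | j <;> simp [bmJ, Matrix.one_apply]
  have hc : ((g⁻¹ * pelJ h p 1 y * g : GL (Fin N) E) :
      Matrix (Fin N) (Fin N) E) =
      1 + ((g⁻¹ : GL (Fin N) E) : Matrix (Fin N) (Fin N) E) * M *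
        (g : Matrix (Fin N) (Fin N) E) := by
    rw [Units.val_mul, Units.val_mul, hpel, mul_add, add_mul, mul_one]
    congr 1
    exact g.inv_mul
  -- `M v` for a vector `v`
  have hMv : ∀ v : Fin N → E, ∃ z ∈ spAJ h k g,
      (∀ i, M.mulVec v (sJ h (Sum.inl i)) = z i) ∧ ∀ i, M.mulVec v (sJ h (Sum.inr i)) = 0 := by
    intro v
    refine ⟨((p : Matrix (Fin a) (Fin a) E) - 1).mulVec ((fun j => v (sJ h (Sum.inl j))) -
      (U * Q).mulVec (fun j => v (sJ h (Sum.inr j)))), H2 _, fun i => ?_, fun i => ?_⟩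
    · rw [hM, bmJ_mulVec_inl, hy, Matrix.neg_mulVec, ← Matrix.mulVec_mulVec, Matrix.mulVec_sub,
        ← sub_eq_add_neg]
    · rw [hM, bmJ_mulVec_inr]
      simp
  intro i j hij
  rw [hc, Matrix.add_apply]
  suffices h0 : (((g⁻¹ : GL (Fin N) E) : Matrix (Fin N) (Fin N) E) * M *
      (g : Matrix (Fin N) (Fin N) E)) i j = 0 by rw [h0, add_zero]
  have hcol : (((g⁻¹ : GL (Fin N) E) : Matrix (Fin N) (Fin N) E) * M *
      (g : Matrix (Fin N) (Fin N) E)) i j =
      (((g⁻¹ : GL (Fin N) E) : Matrix (Fin N) (Fin N) E).mulVec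
        (M.mulVec ((g : Matrix (Fin N) (Fin N) E).mulVec (Pi.single j 1)))) i := by
    rw [Matrix.mulVec_mulVec, Matrix.mulVec_mulVec, Matrix.mulVec_single_one]
    rfl
  rw [hcol]
  by_cases hj : j.1 < k
  · -- the columns `< k` are killed
    have h1 : (Pi.single j 1 : Fin N → E) =
        extKJ (Pi.single (⟨j, hj⟩ : {j : Fin N // j.1 < k}) (1 : E)) := by
      funext i'
      rw [extKJ]
      by_cases hi' : i'.1 < k
      · rw [dif_pos hi']
        by_cases h2 : i' = j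
        · subst h2
          simp
        · have h3 : (⟨i', hi'⟩ : {j : Fin N // j.1 < k}) ≠ ⟨j, hj⟩ := fun h =>
            h2 (congrArg Subtype.val h)
          rw [Pi.single_eq_of_ne h2, Pi.single_eq_of_ne h3]
      · rw [dif_neg hi']
        have h2 : i' ≠ j := fun h => hi' (h ▸ hj)
        rw [Pi.single_eq_of_ne h2]
    set x : {j : Fin N // j.1 < k} → E := Pi.single (⟨j, hj⟩) (1 : E) with hx
    have h2 : M.mulVec ((g : Matrix (Fin N) (Fin N) E).mulVec (Pi.single j 1)) = 0 := by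
      rw [h1]
      apply ext_sJ h
      · intro i'
        have e1 : (fun j => (g : Matrix (Fin N) (Fin N) E).mulVec (extKJ x)
            (sJ h (Sum.inl j))) = U.mulVec x := funext fun j => mulVec_extKJ_inl h _ x j
        have e2 : (fun j => (g : Matrix (Fin N) (Fin N) E).mulVec (extKJ x)
            (sJ h (Sum.inr j))) = L.mulVec x := funext fun j => mulVec_extKJ_inr h _ x j
        rw [hM, bmJ_mulVec_inl, e1, e2, hy, Matrix.neg_mulVec, ← Matrix.mulVec_mulVec,
          ← sub_eq_add_neg, ← Matrix.mulVec_sub]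
        have h3 : U.mulVec x - (U * Q).mulVec (L.mulVec x) ∈ spAJ h k g := by
          refine ⟨x - Q.mulVec (L.mulVec x), ?_, ?_⟩
          · show L.mulVec (x - Q.mulVec (L.mulVec x)) = 0
            rw [Matrix.mulVec_sub, Matrix.mulVec_mulVec, Matrix.mulVec_mulVec, hQ, sub_self]
          · show U.mulVec (x - Q.mulVec (L.mulVec x)) = _
            rw [Matrix.mulVec_sub, Matrix.mulVec_mulVec]
        rw [H1 _ h3]
        rfl
      · intro i'
        rw [hM, bmJ_mulVec_inr]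
        simp
    rw [h2, Matrix.mulVec_zero]
    rfl
  · -- the rows `≥ k`
    have hi : k ≤ i.1 := by
      by_contra h0
      exact hij ⟨by omega, by omega⟩
    obtain ⟨z, hz, h1, h2⟩ := hMv ((g : Matrix (Fin N) (Fin N) E).mulVec
      (Pi.single j 1))
    obtain ⟨x, hx, rfl⟩ := hz
    have hx' : L.mulVec x = 0 := hx
    have h3 : M.mulVec ((g : Matrix (Fin N) (Fin N) E).mulVec (Pi.single j 1)) =
        (g : Matrix (Fin N) (Fin N) E).mulVec (extKJ x) := by
      apply ext_sJ h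
      · intro i'
        rw [h1, mulVec_extKJ_inl]
        rfl
      · intro i'
        rw [h2, mulVec_extKJ_inr, hx']
        rfl
    rw [h3, Matrix.mulVec_mulVec]
    have h4 : ((g⁻¹ : GL (Fin N) E) : Matrix (Fin N) (Fin N) E) *
        (g : Matrix (Fin N) (Fin N) E) = 1 := g.inv_mul
    rw [h4, Matrix.one_mulVec, extKJ, dif_neg (by omega)]

end vec

section pt1

variable {E : Type} [NontriviallyNormedField E] {a b N : ℕ} (h : a + b = N)
  {W : Type} [AddCommGroup W] [Module ℂ W]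

/-- **the point `pt1`**: the coinvariants of the upper block -/
theorem pt1J {ρ : (GL (Fin a) E × GL (Fin b) E) →* Module.End ℂ W} {k j r : ℕ} (hk : k ≤ N)
    (hr : r + j = k) (g₀ : GL (Fin N) E) (hg : rkJ h k g₀ = j) :
    ∃ u : GL (Fin a) E, ∀ x ∈ cvN ρ ((Nk a r E).prod ⊥) ⊤, ρ (u, 1) x ∈
      Submodule.span ℂ (rel (tauJ h ρ) (Nk N k E : Set (GL (Fin N) E)) Set.univ g₀) := by
  obtain ⟨u₀, hh⟩ := exists_gl_map (spAJ h k g₀)
  have hfr := finrank_spAJ h hk g₀
  have hfr' : Module.finrank E (spAJ h k g₀) = r := by omega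
  rw [hfr'] at hh
  refine ⟨u₀, fun x hx => ?_⟩
  refine (Submodule.span_le (p := (Submodule.span ℂ (rel (tauJ h ρ)
    (Nk N k E : Set (GL (Fin N) E)) Set.univ g₀)).comap (ρ (u₀, 1)))).2 ?_ hx
  rintro _ ⟨⟨u, u'⟩, ⟨hu, hu'⟩, v, -, rfl⟩
  have hu'1 : u' = 1 := hu'
  subst hu'1
  have hu0 : u ∈ Nk a r E := hu
  obtain ⟨H1, H2⟩ := Nk_std (h := u₀) hu0 hh
  obtain ⟨c, hc, y, hy⟩ := exists_conj_upperJ h g₀ (u₀ * u * u₀⁻¹) H1 H2
  show ρ (u₀, 1) (ρ (u, 1) v - v) ∈ Submodule.span ℂ (rel (tauJ h ρ)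
    (Nk N k E : Set (GL (Fin N) E)) Set.univ g₀)
  have e1 : ρ (u₀, 1) (ρ (u, 1) v - v) =
      ρ (u₀ * u * u₀⁻¹, 1) (ρ (u₀, 1) v) - ρ (u₀, 1) v := by
    rw [map_sub, ← Module.End.mul_apply, ← Module.End.mul_apply, ← map_mul, ← map_mul,
      Prod.mk_mul_mk, Prod.mk_mul_mk, one_mul, inv_mul_cancel_right]
  rw [e1]
  have hq : g₀ * c * g₀⁻¹ ∈ PSJ h E := ⟨_, 1, y, hy.symm⟩
  refine Submodule.subset_span ⟨ρ (u₀, 1) v, Set.mem_univ _, ⟨_, hq⟩, c, hc, rfl, ?_⟩
  rw [tauJ_pelJ ρ ⟨_, hq⟩ hy.symm]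

theorem pt1J_kill {ρ : (GL (Fin a) E × GL (Fin b) E) →* Module.End ℂ W} {k j r : ℕ} (hk : k ≤ N)
    (hr : r + j = k) (h1 : cvN ρ ((Nk a r E).prod ⊥) ⊤ = ⊤) (g₀ : GL (Fin N) E)
    (hg : rkJ h k g₀ = j) (w : W) :
    w ∈ Submodule.span ℂ (rel (tauJ h ρ) (Nk N k E : Set (GL (Fin N) E)) Set.univ g₀) := by
  obtain ⟨u, hu⟩ := pt1J h (ρ := ρ) hk hr g₀ hg
  have h5 := hu (ρ (u⁻¹, 1) w) (by rw [h1]; exact Submodule.mem_top)
  have h6 : ρ (u, 1) (ρ (u⁻¹, 1) w) = w := by
    rw [← Module.End.mul_apply, ← map_mul, Prod.mk_mul_mk, mul_inv_cancel, one_mul]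
    have : ρ ((1, 1) : GL (Fin a) E × GL (Fin b) E) = 1 := map_one ρ
    rw [this, Module.End.one_apply]
  rwa [h6] at h5

end pt1

section rows

variable {E : Type} [NontriviallyNormedField E] {a b N : ℕ} (h : a + b = N)

/-- the upper rows -/
def upRwJ (g : Matrix (Fin N) (Fin N) E) : Matrix (Fin a) (Fin N) E :=
  fun i j => g (sJ h (Sum.inl i)) j

/-- the lower rows -/
def loRwJ (g : Matrix (Fin N) (Fin N) E) : Matrix (Fin b) (Fin N) E :=
  fun i j => g (sJ h (Sum.inr i)) j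

theorem ext_rowsJ {g g' : Matrix (Fin N) (Fin N) E} (h1 : upRwJ h g = upRwJ h g')
    (h2 : loRwJ h g = loRwJ h g') : g = g' := by
  ext i j
  obtain ⟨s, rfl⟩ := (sJ h).surjective i
  rcases s with s | s
  · exact congrFun (congrFun h1 s) j
  · exact congrFun (congrFun h2 s) j

theorem upRwJ_bmJ_mul (A : Matrix (Fin a) (Fin a) E) (B : Matrix (Fin a) (Fin b) E)
    (C : Matrix (Fin b) (Fin a) E) (D : Matrix (Fin b) (Fin b) E)
    (g : Matrix (Fin N) (Fin N) E) :
    upRwJ h (bmJ h A B C D * g) = A * upRwJ h g + B * loRwJ h g := by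
  ext i j
  rw [Matrix.add_apply, Matrix.mul_apply, Matrix.mul_apply]
  show (bmJ h A B C D * g) (sJ h (Sum.inl i)) j = _
  rw [Matrix.mul_apply, ← (sJ h).sum_comp, Fintype.sum_sum_type]
  simp [bmJ, upRwJ, loRwJ]

theorem loRwJ_bmJ_mul (A : Matrix (Fin a) (Fin a) E) (B : Matrix (Fin a) (Fin b) E)
    (C : Matrix (Fin b) (Fin a) E) (D : Matrix (Fin b) (Fin b) E)
    (g : Matrix (Fin N) (Fin N) E) :
    loRwJ h (bmJ h A B C D * g) = C * upRwJ h g + D * loRwJ h g := by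
  ext i j
  rw [Matrix.add_apply, Matrix.mul_apply, Matrix.mul_apply]
  show (bmJ h A B C D * g) (sJ h (Sum.inr i)) j = _
  rw [Matrix.mul_apply, ← (sJ h).sum_comp, Fintype.sum_sum_type]
  simp [bmJ, upRwJ, loRwJ]

theorem upRwJ_mul (g ν : Matrix (Fin N) (Fin N) E) : upRwJ h (g * ν) = upRwJ h g * ν := by
  ext i j
  rw [Matrix.mul_apply]
  exact Matrix.mul_apply

theorem loRwJ_mul (g ν : Matrix (Fin N) (Fin N) E) : loRwJ h (g * ν) = loRwJ h g * ν := by
  ext i j
  rw [Matrix.mul_apply]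
  exact Matrix.mul_apply

theorem upRwJ_add (g g' : Matrix (Fin N) (Fin N) E) :
    upRwJ h (g + g') = upRwJ h g + upRwJ h g' := rfl

theorem loRwJ_add (g g' : Matrix (Fin N) (Fin N) E) :
    loRwJ h (g + g') = loRwJ h g + loRwJ h g' := rfl

/-- the inclusion of the first `k` coordinates -/
def iZJ (N k : ℕ) (E : Type) [Field E] : Matrix (Fin N) {j : Fin N // j.1 < k} E :=
  fun l j => if l = j.1 then 1 else 0

theorem mul_iZJ_apply {κ : Type} (M : Matrix κ (Fin N) E) {k : ℕ} (i : κ)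
    (j : {j : Fin N // j.1 < k}) : (M * iZJ N k E) i j = M i j.1 := by
  rw [Matrix.mul_apply, Finset.sum_eq_single j.1]
  · show M i j.1 * (if j.1 = j.1 then (1 : E) else 0) = M i j.1
    rw [if_pos rfl, mul_one]
  · intro x _ hx
    show _ * (if x = j.1 then (1 : E) else 0) = 0
    rw [if_neg hx, mul_zero]
  · intro h
    exact absurd (Finset.mem_univ _) h

theorem loRwJ_mul_iZJ (g : Matrix (Fin N) (Fin N) E) (k : ℕ) :
    loRwJ h g * iZJ N k E = lowKJ h k g := by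
  ext i j
  rw [mul_iZJ_apply]
  rfl

theorem iZJ_mul_apply_of_le {κ : Type} {k : ℕ} (M : Matrix {j : Fin N // j.1 < k} κ E)
    {i : Fin N} (hi : ¬ i.1 < k) (j : κ) : (iZJ N k E * M) i j = 0 := by
  rw [Matrix.mul_apply]
  apply Finset.sum_eq_zero
  intro x _
  show (if i = x.1 then (1 : E) else 0) * _ = 0
  rw [if_neg, zero_mul]
  intro h
  apply hi
  rw [h]
  exact x.2

/-- An element of `N_k` from a matrix `T : E^N → E^k` that is zero on `E^k`. -/
theorem exists_Nk_ofJ {k : ℕ} (T : Matrix {j : Fin N // j.1 < k} (Fin N) E)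
    (hT : T * iZJ N k E = 0) : ∃ c : GL (Fin N) E, c ∈ Nk N k E ∧
      (c : Matrix (Fin N) (Fin N) E) = 1 + iZJ N k E * T := by
  have h0 : iZJ N k E * T * (iZJ N k E * T) = 0 := by
    have : iZJ N k E * T * (iZJ N k E * T) = iZJ N k E * (T * iZJ N k E) * T := by
      simp only [Matrix.mul_assoc]
    rw [this, hT, Matrix.mul_zero, Matrix.zero_mul]
  refine ⟨⟨1 + iZJ N k E * T, 1 - iZJ N k E * T, ?_, ?_⟩, ?_, rfl⟩
  · rw [mul_sub, mul_one, add_mul, one_mul, h0]
    abel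
  · rw [mul_add, mul_one, sub_mul, one_mul, h0]
    abel
  · intro i j hij
    show ((1 : Matrix (Fin N) (Fin N) E) + iZJ N k E * T) i j = _
    rw [Matrix.add_apply]
    have : (iZJ N k E * T) i j = 0 := by
      by_cases hi : i.1 < k
      · have hj : j.1 < k := by
          by_contra hj
          exact hij ⟨hi, by omega⟩
        have h1 := mul_iZJ_apply (iZJ N k E * T) i ⟨j, hj⟩
        rw [Matrix.mul_assoc, hT, Matrix.mul_zero] at h1
        exact h1.symm
      · exact iZJ_mul_apply_of_le T hi j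
    rw [this, add_zero]

end rows

section pt2

variable {E : Type} [NontriviallyNormedField E] {a b N : ℕ} (h : a + b = N)
  {W : Type} [AddCommGroup W] [Module ℂ W]

/-- **the point `pt2`**: the coinvariants of the lower block -/
theorem pt2J {ρ : (GL (Fin a) E × GL (Fin b) E) →* Module.End ℂ W} {k j : ℕ}
    (g₀ : GL (Fin N) E) (hg : rkJ h k g₀ = j) :
    ∃ u : GL (Fin b) E, ∀ x ∈ cvN ρ ((⊥ : Subgroup (GL (Fin a) E)).prod (Nk b j E)) ⊤,
      ρ (1, u) x ∈
      Submodule.span ℂ (rel (tauJ h ρ) (Nk N k E : Set (GL (Fin N) E)) Set.univ g₀) := by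
  classical
  set G₀ : Matrix (Fin N) (Fin N) E := (g₀ : Matrix (Fin N) (Fin N) E) with hG₀
  set B := lowKJ h k G₀ with hB
  obtain ⟨Q, hQ, -⟩ := exists_ginv B
  obtain ⟨u₁, hh⟩ := exists_gl_map (LinearMap.range B.mulVecLin)
  have hfin : Module.finrank E (LinearMap.range B.mulVecLin) = j := hg
  rw [hfin] at hh
  -- the elements
  have key : ∀ u₀ ∈ Nk b j E, ∀ w' : W, ρ (1, u₁ * u₀ * u₁⁻¹) w' - w' ∈
      rel (tauJ h ρ) (Nk N k E : Set (GL (Fin N) E)) Set.univ g₀ := by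
    intro u₀ hu₀ w'
    obtain ⟨hU1, hU2⟩ := Nk_std hu₀ hh
    set u : GL (Fin b) E := u₁ * u₀ * u₁⁻¹ with hu
    set U : Matrix (Fin b) (Fin b) E := (u : Matrix (Fin b) (Fin b) E) - 1 with hU
    have hUB : U * B = 0 := by
      apply Matrix.ext_of_mulVec_single
      intro i
      rw [← Matrix.mulVec_mulVec, Matrix.zero_mulVec]
      exact hU1 _ ⟨_, rfl⟩
    have hBQU : B * Q * U = U := by
      apply Matrix.ext_of_mulVec_single
      intro i
      rw [← Matrix.mulVec_mulVec]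
      obtain ⟨z, hz⟩ := hU2 (Pi.single i 1)
      have hz' : B.mulVec z = U.mulVec (Pi.single i 1) := hz
      rw [← hz', Matrix.mulVec_mulVec, hQ]
    obtain ⟨c, hc, hcv⟩ := exists_Nk_ofJ (N := N) (k := k) (Q * U * loRwJ h G₀) (by
      rw [Matrix.mul_assoc, loRwJ_mul_iZJ, ← hB, Matrix.mul_assoc, hUB, Matrix.mul_zero])
    set y : Matrix (Fin a) (Fin b) E := upRwJ h G₀ * iZJ N k E * Q * U with hy
    have hmul : pelJ h 1 u y * g₀ = g₀ * c := by
      apply Units.ext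
      rw [Units.val_mul, Units.val_mul, ← hG₀, hcv]
      show bmJ h 1 y 0 (u : Matrix (Fin b) (Fin b) E) * G₀ = _
      apply ext_rowsJ h
      · rw [upRwJ_bmJ_mul, mul_add, mul_one, upRwJ_add, upRwJ_mul, Matrix.one_mul, hy]
        simp only [Matrix.mul_assoc]
      · rw [loRwJ_bmJ_mul, mul_add, mul_one, loRwJ_add, loRwJ_mul, Matrix.zero_mul, zero_add]
        have h3 : loRwJ h G₀ * (iZJ N k E * (Q * U * loRwJ h G₀)) =
            (loRwJ h G₀ * iZJ N k E) * Q * U * loRwJ h G₀ := by simp only [Matrix.mul_assoc]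
        rw [h3, loRwJ_mul_iZJ, ← hB, hBQU, hU, Matrix.sub_mul, Matrix.one_mul]
        abel
    refine ⟨w', Set.mem_univ _, ⟨pelJ h 1 u y, ⟨1, u, y, rfl⟩⟩, c, hc, ?_, ?_⟩
    · show pelJ h 1 u y = g₀ * c * g₀⁻¹
      rw [← hmul]
      group
    · rw [tauJ_pelJ ρ _ rfl]
  -- conclusion
  refine ⟨u₁, fun x hx => ?_⟩
  have hle : cvN ρ ((⊥ : Subgroup (GL (Fin a) E)).prod (Nk b j E)) ⊤ ≤
      (Submodule.span ℂ (rel (tauJ h ρ)
        (Nk N k E : Set (GL (Fin N) E)) Set.univ g₀)).comap (ρ (1, u₁)) := by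
    apply Submodule.span_le.2
    rintro _ ⟨⟨n1, n2⟩, hn, v, -, rfl⟩
    obtain ⟨hn1, hn2⟩ := Subgroup.mem_prod.1 hn
    have hn1' : n1 = 1 := hn1
    subst hn1'
    have h3 : ρ (1, u₁) (ρ (1, n2) v - v) =
        ρ (1, u₁ * n2 * u₁⁻¹) (ρ (1, u₁) v) - ρ (1, u₁) v := by
      rw [map_sub, ← Module.End.mul_apply, ← Module.End.mul_apply, ← map_mul, ← map_mul,
        Prod.mk_mul_mk, Prod.mk_mul_mk, inv_mul_cancel_right, one_mul]
    show ρ (1, u₁) (ρ (1, n2) v - v) ∈ Submodule.span ℂ (rel (tauJ h ρ)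
        (Nk N k E : Set (GL (Fin N) E)) Set.univ g₀)
    rw [h3]
    exact Submodule.subset_span (key n2 hn2 _)
  exact hle hx

theorem pt2J_kill {ρ : (GL (Fin a) E × GL (Fin b) E) →* Module.End ℂ W} {k j : ℕ}
    (h2 : cvN ρ ((⊥ : Subgroup (GL (Fin a) E)).prod (Nk b j E)) ⊤ = ⊤)
    (g₀ : GL (Fin N) E) (hg : rkJ h k g₀ = j) (w : W) :
    w ∈ Submodule.span ℂ (rel (tauJ h ρ) (Nk N k E : Set (GL (Fin N) E)) Set.univ g₀) := by
  obtain ⟨u, hu⟩ := pt2J h (ρ := ρ) g₀ hg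
  have h5 := hu (ρ (1, u⁻¹) w) (by rw [h2]; exact Submodule.mem_top)
  rwa [← Module.End.mul_apply, ← map_mul, Prod.mk_mul_mk, one_mul, mul_inv_cancel,
    Prod.mk_one_one, map_one, Module.End.one_apply] at h5

end pt2

/-! ### the middle strata are killed -/

section kill

variable {E : Type} [NontriviallyNormedField E] [IsUltrametricDist E] [ProperSpace E]
  {a b N : ℕ} (h : a + b = N) {W : Type} [AddCommGroup W] [Module ℂ W]

/-- the strata `j₀ ≤ j < j₁` are killed if for each `j` the upper or the lower block has no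
coinvariants -/
theorem indJ_strata_kill (ρ : (GL (Fin a) E × GL (Fin b) E) →* Module.End ℂ W)
    (hρ : IsSmoothRep ρ) {k j₀ j₁ : ℕ} (hk : k ≤ N) (hj : j₀ ≤ j₁)
    (hL : ∀ j r, j₀ ≤ j → j < j₁ → r + j = k → r ≤ a → j ≤ b →
      cvN ρ ((Nk a r E).prod ⊥) ⊤ = ⊤ ∨
        cvN ρ ((⊥ : Subgroup (GL (Fin a) E)).prod (Nk b j E)) ⊤ = ⊤)
    (f : IndJ h ρ) (hf : ∀ g, (f : GL (Fin N) E → W) g ≠ 0 → j₀ ≤ rkJ h k g) :
    ∃ f₀ : IndJ h ρ, f - f₀ ∈ cvN (indActJ h ρ) (Nk N k E) ⊤ ∧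
      ∀ g, (f₀ : GL (Fin N) E → W) g ≠ 0 →
        j₁ ≤ rkJ h k g ∧ (f : GL (Fin N) E → W) g ≠ 0 := by
  refine strataJ_kill h ρ hρ hj (fun j hj0 hj1 w g hg => ?_) f hf
  have h1 := finrank_spAJ h hk g
  have h2 := le_add_rkJ h hk g
  have h3 := rkJ_le h k g
  obtain h4 | h4 := hL j (k - j) hj0 hj1 (by omega) (by omega) (by omega)
  · exact pt1J_kill h hk (by omega) h4 g hg w
  · exact pt2J_kill h h4 g hg w

/-- **no coinvariants** if all strata are killed -/
theorem indJ_coinv_top (ρ : (GL (Fin a) E × GL (Fin b) E) →* Module.End ℂ W)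
    (hρ : IsSmoothRep ρ) {k : ℕ} (hk : k ≤ N)
    (hL : ∀ j r, r + j = k → r ≤ a → j ≤ b → cvN ρ ((Nk a r E).prod ⊥) ⊤ = ⊤ ∨
        cvN ρ ((⊥ : Subgroup (GL (Fin a) E)).prod (Nk b j E)) ⊤ = ⊤) :
    cvN (indActJ h ρ) (Nk N k E) ⊤ = ⊤ := by
  rw [eq_top_iff]
  intro f _
  obtain ⟨f₀, h2, h3⟩ := indJ_strata_kill h ρ hρ (j₀ := 0) (j₁ := b + 1) hk (Nat.zero_le _)
    (fun j r _ _ h1 h2 h3 => hL j r h1 h2 h3) f (fun _ _ => Nat.zero_le _)
  have h4 : f₀ = 0 := by
    apply Subtype.ext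
    funext g
    by_contra h0
    have h5 := (h3 g h0).1
    have h6 := rkJ_le h k g
    omega
  rwa [h4, sub_zero] at h2

end kill

end SpW
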