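import Pool.Agent.Work.MP_3615d2_al.Co.EigC
import Pool.Agent.Work.MP_3615d2_al.Co.StratB

/-!
MP_3615d2_al, (COMM): the eigenvalue lemma, part 2: the map `y ↦ (1-e) g n(y) g⁻¹ e`, its kernel,
and the support of a function of the induced representation along `g N_k`.
-/

open MeasureTheory Matrix Filter Topology
open scoped NNReal TensorProduct

set_option linter.unusedSectionVars false

namespace SpW

section ginv

variable {E : Type} [NontriviallyNormedField E] {ι : Type} [Fintype ι] [DecidableEq ι]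

/-- bounded generalised inverses on a compact set of constant rank -/
theorem ginv_bdd {X : Type} [TopologicalSpace X] {K : Set X} (hK : IsCompact K)
    {A : X → Matrix ι ι E} (hA : Continuous A) {j : ℕ} (hj : ∀ x ∈ K, (A x).rank = j) :
    ∃ C : ℝ, 0 ≤ C ∧ ∀ x ∈ K, ∃ Q : Matrix ι ι E, A x * Q * A x = A x ∧
      ∀ i i', ‖Q i i'‖ ≤ C := by
  suffices h : ∃ C : ℝ, 0 ≤ C ∧ ∀ x ∈ K, (A x).rank = j → ∃ Q : Matrix ι ι E,
      A x * Q * A x = A x ∧ ∀ i i', ‖Q i i'‖ ≤ C by
    obtain ⟨C, hC, h⟩ := h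
    exact ⟨C, hC, fun x hx => h x hx (hj x hx)⟩
  refine hK.induction_on (p := fun s => ∃ C : ℝ, 0 ≤ C ∧ ∀ x ∈ s, (A x).rank = j →
    ∃ Q : Matrix ι ι E, A x * Q * A x = A x ∧ ∀ i i', ‖Q i i'‖ ≤ C) ?_ ?_ ?_ ?_
  · exact ⟨0, le_rfl, fun x hx => absurd hx (Set.notMem_empty x)⟩
  · rintro s t hst ⟨C, hC, h⟩
    exact ⟨C, hC, fun x hx => h x (hst hx)⟩
  · rintro s t ⟨C, hC, h⟩ ⟨C', hC', h'⟩
    refine ⟨max C C', le_max_of_le_left hC, fun x hx hr => ?_⟩
    rcases hx with hx | hx
    · obtain ⟨Q, h1, h2⟩ := h x hx hr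
      exact ⟨Q, h1, fun i i' => (h2 i i').trans (le_max_left _ _)⟩
    · obtain ⟨Q, h1, h2⟩ := h' x hx hr
      exact ⟨Q, h1, fun i i' => (h2 i i').trans (le_max_right _ _)⟩
  · intro x₀ hx₀
    obtain ⟨Q₀, h1, h2⟩ := exists_ginv (A x₀)
    set T : X → Matrix ι ι E := fun x => 1 + Q₀ * (A x - A x₀) with hT
    have hTc : Continuous T :=
      continuous_const.add (continuous_const.matrix_mul (hA.sub continuous_const))
    have hT0 : T x₀ = 1 := by simp [hT]
    have hdet : ∀ᶠ x in 𝓝 x₀, (T x).det ≠ 0 := by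
      refine hTc.matrix_det.continuousAt.eventually_ne ?_
      rw [hT0, Matrix.det_one]
      exact one_ne_zero
    have hinv : ContinuousAt (fun x => (T x)⁻¹ * Q₀) x₀ := by
      have h3 : (fun x => (T x)⁻¹) = fun x => ((T x).det)⁻¹ • (T x).adjugate := by
        funext x
        rw [Matrix.inv_def, Ring.inverse_eq_inv']
      have h4 : ContinuousAt (fun x => (T x)⁻¹) x₀ := by
        rw [h3]
        refine (hTc.matrix_det.continuousAt.inv₀ ?_).smul hTc.matrix_adjugate.continuousAt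
        rw [hT0, Matrix.det_one]
        exact one_ne_zero
      exact h4.mul continuousAt_const
    obtain ⟨C, hC0, hC⟩ : ∃ C : ℝ, 0 ≤ C ∧ ∀ i i', ‖((T x₀)⁻¹ * Q₀) i i'‖ < C := by
      refine ⟨1 + ∑ i, ∑ i', ‖((T x₀)⁻¹ * Q₀) i i'‖, by positivity, ?_⟩
      intro i i'
      have h5 : ‖((T x₀)⁻¹ * Q₀) i i'‖ ≤ ∑ i', ‖((T x₀)⁻¹ * Q₀) i i'‖ :=
        Finset.single_le_sum (f := fun i' => ‖((T x₀)⁻¹ * Q₀) i i'‖)
          (fun _ _ => norm_nonneg _) (Finset.mem_univ i')
      have h6 : ∑ i', ‖((T x₀)⁻¹ * Q₀) i i'‖ ≤ ∑ i, ∑ i', ‖((T x₀)⁻¹ * Q₀) i i'‖ :=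
        Finset.single_le_sum (f := fun i => ∑ i', ‖((T x₀)⁻¹ * Q₀) i i'‖)
          (fun _ _ => Finset.sum_nonneg fun _ _ => norm_nonneg _) (Finset.mem_univ i)
      linarith
    have hbd : ∀ᶠ x in 𝓝 x₀, ∀ i i', ‖((T x)⁻¹ * Q₀) i i'‖ ≤ C := by
      rw [Filter.eventually_all]
      intro i
      rw [Filter.eventually_all]
      intro i'
      have h7 : ContinuousAt (fun x => ‖((T x)⁻¹ * Q₀) i i'‖) x₀ := by
        have h8 : Continuous fun M : Matrix ι ι E => ‖M i i'‖ :=
          (continuous_id.matrix_elem i i').norm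
        exact ContinuousAt.comp (f := fun x => (T x)⁻¹ * Q₀) h8.continuousAt hinv
      exact (h7.eventually_lt_const (hC i i')).mono fun x hx => hx.le
    refine ⟨_, mem_nhdsWithin_of_mem_nhds (hdet.and hbd), C, hC0, ?_⟩
    rintro x ⟨hx1, hx2⟩ hr
    refine ⟨(T x)⁻¹ * Q₀, ?_, hx2⟩
    have hker : A x * (T x)⁻¹ * (1 - Q₀ * A x₀) = 0 := by
      apply Matrix.ext_of_mulVec_single
      intro i
      rw [Matrix.zero_mulVec, ← Matrix.mulVec_mulVec, ← Matrix.mulVec_mulVec]
      refine ker_of_isUnit (A₀ := A x₀) (Q := Q₀) h1 h2 (isUnit_iff_ne_zero.2 hx1)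
        (le_of_eq (hr.trans (hj x₀ hx₀).symm))
        (w := (1 - Q₀ * A x₀).mulVec (Pi.single i 1)) ?_ ?_
      · rw [Matrix.mulVec_mulVec, mul_sub, mul_one, ← mul_assoc, h1, sub_self,
          Matrix.zero_mulVec]
      · show (T x).mulVec _ = _
        rw [Matrix.mulVec_mulVec, Matrix.mul_nonsing_inv _ (isUnit_iff_ne_zero.2 hx1),
          Matrix.one_mulVec]
    have h9 : (1 : Matrix ι ι E) - Q₀ * A x₀ = T x - Q₀ * A x := by
      show _ = 1 + Q₀ * (A x - A x₀) - Q₀ * A x
      rw [mul_sub]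
      abel
    rw [h9, mul_sub, Matrix.mul_assoc, Matrix.nonsing_inv_mul _ (isUnit_iff_ne_zero.2 hx1),
      Matrix.mul_one, sub_eq_zero] at hker
    rw [← mul_assoc, mul_assoc]
    exact hker.symm

end ginv

section alg

variable {E : Type} [Field E] {a b N k l : ℕ}

theorem inA_mul_transpose (hk : k + l = N) : inA hk E * (inA hk E)ᵀ =
    prj E {i : Fin N | i.1 < k} := by
  ext i j
  obtain ⟨i, rfl⟩ := (sJ hk).surjective i
  obtain ⟨j, rfl⟩ := (sJ hk).surjective j
  have hs : ∀ i j : Fin k ⊕ Fin l, (sJ hk i = sJ hk j) ↔ i = j := fun i j =>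
    (sJ hk).apply_eq_iff_eq
  rw [Matrix.mul_apply, prj, Matrix.diagonal_apply]
  simp only [Matrix.transpose_apply, inA, hs]
  rcases i with i | i <;> rcases j with j | j
  · by_cases hij : i = j
    · subst hij
      simp [sJ_inl]
    · rw [if_neg (fun h => hij (Sum.inl.inj h))]
      apply Finset.sum_eq_zero
      intro x _
      by_cases hx : i = x
      · subst hx
        simp [Ne.symm hij]
      · simp [hx]
  · simp
  · simp
  · simp [sJ_inr]

theorem transpose_mul_inA (hk : k + l = N) : (inA hk E)ᵀ * inA hk E = 1 := by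
  ext i j
  have hs : ∀ i j : Fin k ⊕ Fin l, (sJ hk i = sJ hk j) ↔ i = j := fun i j =>
    (sJ hk).apply_eq_iff_eq
  rw [Matrix.mul_apply, ← (sJ hk).sum_comp, Fintype.sum_sum_type]
  simp [Matrix.transpose_apply, inA, hs, Matrix.one_apply, eq_comm]

theorem prB_mul_transpose (hk : k + l = N) : prB hk E * (prB hk E)ᵀ = 1 := by
  ext i j
  have hs : ∀ i j : Fin k ⊕ Fin l, (sJ hk i = sJ hk j) ↔ i = j := fun i j =>
    (sJ hk).apply_eq_iff_eq
  rw [Matrix.mul_apply, ← (sJ hk).sum_comp, Fintype.sum_sum_type]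
  simp [Matrix.transpose_apply, prB, hs, Matrix.one_apply, eq_comm]

theorem transpose_mul_prB (hk : k + l = N) : (prB hk E)ᵀ * prB hk E =
    1 - prj E {i : Fin N | i.1 < k} := by
  ext i j
  obtain ⟨i, rfl⟩ := (sJ hk).surjective i
  obtain ⟨j, rfl⟩ := (sJ hk).surjective j
  have hs : ∀ i j : Fin k ⊕ Fin l, (sJ hk i = sJ hk j) ↔ i = j := fun i j =>
    (sJ hk).apply_eq_iff_eq
  rw [Matrix.mul_apply, Matrix.sub_apply, prj, Matrix.diagonal_apply, Matrix.one_apply]
  simp only [Matrix.transpose_apply, prB, hs]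
  rcases i with i | i <;> rcases j with j | j
  · by_cases hij : i = j
    · subst hij
      simp [sJ_inl]
    · simp [hij]
  · simp
  · simp
  · by_cases hij : i = j
    · subst hij
      simp [sJ_inr]
    · rw [if_neg (fun h => hij (Sum.inr.inj h)), if_neg (fun h => hij (Sum.inr.inj h)), sub_zero]
      apply Finset.sum_eq_zero
      intro x _
      by_cases hx : x = i
      · subst hx
        simp [hij]
      · simp [hx]

theorem prj_mul_inA (hk : k + l = N) : prj E {i : Fin N | i.1 < k} * inA hk E = inA hk E := by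
  rw [← inA_mul_transpose hk, Matrix.mul_assoc, transpose_mul_inA, Matrix.mul_one]

theorem prB_mul_one_sub (hk : k + l = N) :
    prB hk E * (1 - prj E {i : Fin N | i.1 < k}) = prB hk E := by
  rw [← transpose_mul_prB hk, ← Matrix.mul_assoc, prB_mul_transpose, Matrix.one_mul]

theorem prB_mul_prj (hk : k + l = N) : prB hk E * prj E {i : Fin N | i.1 < k} = 0 := by
  have h := prB_mul_one_sub (E := E) hk
  rw [Matrix.mul_sub, Matrix.mul_one, sub_eq_self] at h
  exact h

theorem rank_mul_inA (hk : k + l = N) {ι : Type} [Fintype ι] (M : Matrix ι (Fin N) E) :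
    (M * inA hk E).rank = (M * prj E {i : Fin N | i.1 < k}).rank := by
  apply le_antisymm
  · rw [← prj_mul_inA hk, ← Matrix.mul_assoc]
    exact Matrix.rank_mul_le_left _ _
  · rw [← inA_mul_transpose hk, ← Matrix.mul_assoc]
    exact Matrix.rank_mul_le_left _ _

theorem rank_prB_mul (hk : k + l = N) {ι : Type} [Fintype ι] [DecidableEq ι]
    (M : Matrix (Fin N) ι E) :
    (prB hk E * M).rank = ((1 - prj E {i : Fin N | i.1 < k}) * M).rank := by
  apply le_antisymm
  · rw [← prB_mul_one_sub hk, Matrix.mul_assoc]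
    exact Matrix.rank_mul_le_right _ _
  · rw [← transpose_mul_prB hk, Matrix.mul_assoc]
    exact Matrix.rank_mul_le_right _ _

variable (h : a + b = N) (hk : k + l = N)

/-- the block of `g n(y) g⁻¹` which vanishes if it is in the parabolic subgroup -/
noncomputable def thE (_h : a + b = N) (hk : k + l = N) (g : GL (Fin N) E) :
    (Fin k → Fin l → E) →ₗ[E] Matrix (Fin N) (Fin N) E where
  toFun y := ((1 - prj E {i : Fin N | i.1 < a}) * (g : Matrix (Fin N) (Fin N) E) * inA hk E) *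
    Matrix.of y * (prB hk E * ((g⁻¹ : GL (Fin N) E) : Matrix (Fin N) (Fin N) E) *
      prj E {i : Fin N | i.1 < a})
  map_add' y y' := by
    have h1 : Matrix.of (y + y') = Matrix.of y + Matrix.of y' := rfl
    rw [h1, Matrix.mul_add, Matrix.add_mul]
  map_smul' c y := by
    have h1 : Matrix.of (c • y) = c • Matrix.of y := rfl
    rw [h1, Matrix.mul_smul, Matrix.smul_mul]
    rfl

theorem thE_apply (g : GL (Fin N) E) (y : Fin k → Fin l → E) : thE h hk g y =
    ((1 - prj E {i : Fin N | i.1 < a}) * (g : Matrix (Fin N) (Fin N) E) * inA hk E) *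
    Matrix.of y * (prB hk E * ((g⁻¹ : GL (Fin N) E) : Matrix (Fin N) (Fin N) E) *
      prj E {i : Fin N | i.1 < a}) := rfl

theorem thE_eq (g : GL (Fin N) E) (y : Fin k → Fin l → E) : thE h hk g y =
    (1 - prj E {i : Fin N | i.1 < a}) * ((g * nU hk y * g⁻¹ : GL (Fin N) E) :
      Matrix (Fin N) (Fin N) E) * prj E {i : Fin N | i.1 < a} := by
  have h1 : (nU hk y : Matrix (Fin N) (Fin N) E) = 1 + inA hk E * Matrix.of y * prB hk E := by
    rw [← nU_sub_one]
    abel
  have hgg : (g : Matrix (Fin N) (Fin N) E) * ((g⁻¹ : GL (Fin N) E) : Matrix (Fin N) (Fin N) E) =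
      1 := by rw [← Units.val_mul, mul_inv_cancel, Units.val_one]
  have he : (1 - prj E {i : Fin N | i.1 < a}) * prj E {i : Fin N | i.1 < a} = 0 := by
    rw [sub_mul, one_mul, prj_idem, sub_self]
  rw [thE_apply, Units.val_mul, Units.val_mul, h1, mul_add, mul_one, add_mul, hgg, mul_add,
    mul_one, add_mul, he, zero_add]
  simp only [Matrix.mul_assoc]

theorem thE_eq_zero_iff (g : GL (Fin N) E) (y : Fin k → Fin l → E) : thE h hk g y = 0 ↔
    g * nU hk y * g⁻¹ ∈ PSJ h E := by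
  rw [mem_PSJ_iff_blk, thE_eq]

/-- the dimension of the kernel -/
theorem finrank_ker_thE (ha : a ≤ N) (g : GL (Fin N) E) (j : ℕ)
    (hg : ((1 - prj E {i : Fin N | i.1 < a}) * (g : Matrix (Fin N) (Fin N) E) *
      prj E {i : Fin N | i.1 < k}).rank = j) :
    Module.finrank E (LinearMap.ker (thE h hk g)) + j * (j + a - k) =
      Module.finrank E (Fin k → Fin l → E) := by
  have h1 := finrank_ker_mul_mul
    ((1 - prj E {i : Fin N | i.1 < a}) * (g : Matrix (Fin N) (Fin N) E) * inA hk E)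
    (prB hk E * ((g⁻¹ : GL (Fin N) E) : Matrix (Fin N) (Fin N) E) * prj E {i : Fin N | i.1 < a})
    (θ := (thE h hk g : Matrix (Fin k) (Fin l) E →ₗ[E] Matrix (Fin N) (Fin N) E))
    (fun y => rfl)
  have h2 := rank_compl (prj E {i : Fin N | i.1 < a}) (prj E {i : Fin N | i.1 < k})
    (prj_idem _) (prj_idem _) g
  rw [rank_prj a ha, rank_prj k (by omega), hg] at h2
  rw [rank_mul_inA, hg, Matrix.mul_assoc (prB hk E), rank_prB_mul, ← Matrix.mul_assoc] at h1
  have h3 : ((1 - prj E {i : Fin N | i.1 < k}) * ((g⁻¹ : GL (Fin N) E) :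
      Matrix (Fin N) (Fin N) E) * prj E {i : Fin N | i.1 < a}).rank = j + a - k := by omega
  rw [h3] at h1
  exact h1

theorem nU_mul_prj (hk : k + l = N) (y : Fin k → Fin l → E) :
    (nU hk y : Matrix (Fin N) (Fin N) E) * prj E {i : Fin N | i.1 < k} =
      prj E {i : Fin N | i.1 < k} := by
  have h1 : (nU hk y : Matrix (Fin N) (Fin N) E) = 1 + inA hk E * Matrix.of y * prB hk E := by
    rw [← nU_sub_one]
    abel
  rw [h1, add_mul, one_mul, Matrix.mul_assoc _ (prB hk E), prB_mul_prj, Matrix.mul_zero, add_zero]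

theorem thE_alg {ι : Type} [Fintype ι] [DecidableEq ι] {e f p p' κ g g' M Q A : Matrix ι ι E}
    (he : e * e = e) (hp : (1 - e) * p * e = 0) (hp' : (1 - e) * p' * e = 0) (hpp : p' * p = 1)
    (hgg : g * g' = 1) (hM : f * M = M) (hMf : M * f = 0) (hpk : p * κ = g * (1 + M))
    (hA : A = (1 - e) * κ * f) (hQ : A * Q * A = A) :
    (1 - e) * (g * (1 + M) * g') * e =
      (1 - e) * g * f * (Q * ((1 - e) * (κ * (g' * e)))) := by
  set eb := 1 - e with heb
  have heb2 : eb * eb = eb := by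
    rw [heb, sub_mul, one_mul, mul_sub, mul_one, he, sub_self, sub_zero]
  have hebe : eb * e = 0 := by
    rw [heb, sub_mul, one_mul, he, sub_self]
  have h1 : eb * p * eb = eb * p := by
    rw [heb, mul_sub, mul_one, ← heb, hp, sub_zero]
  have hebA : eb * A = A := by rw [hA, ← mul_assoc, ← mul_assoc, heb2]
  have h2 : eb * g * f = eb * p * A := by
    have h3 : g * f = g * (1 + M) * f := by
      rw [mul_assoc, add_mul, one_mul, hMf, add_zero]
    calc eb * g * f = eb * (g * f) := mul_assoc _ _ _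
      _ = eb * (p * κ * f) := by rw [h3, hpk]
      _ = eb * p * (κ * f) := by simp only [mul_assoc]
      _ = eb * p * eb * (κ * f) := by rw [h1]
      _ = eb * p * A := by rw [hA]; simp only [mul_assoc]
  have h4 : eb * p' * eb * (eb * p * eb) = eb := by
    calc eb * p' * eb * (eb * p * eb) = eb * p' * (eb * eb) * p * eb := by simp only [mul_assoc]
      _ = eb * p' * (1 - e) * p * eb := by rw [heb2]
      _ = (eb * p' - eb * p' * e) * p * eb := by rw [mul_sub (eb * p') 1 e, mul_one]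
      _ = eb * (p' * p) * eb := by rw [hp', sub_zero, mul_assoc eb p' p]
      _ = eb := by rw [hpp, mul_one, heb2]
  have h5 : eb * (g * (1 + M) * g') * e = eb * p * A * M * g' * e := by
    calc eb * (g * (1 + M) * g') * e = eb * (g * g') * e + eb * (g * M * g') * e := by
          noncomm_ring
      _ = eb * g * (f * M) * g' * e := by
          rw [hgg, mul_one, hebe, zero_add, hM]
          simp only [mul_assoc]
      _ = (eb * g * f) * M * g' * e := by simp only [mul_assoc]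
      _ = eb * p * A * M * g' * e := by rw [h2]
  have h6 : eb * (g * (1 + M) * g') * e = eb * p * eb * (eb * κ * g' * e) := by
    calc eb * (g * (1 + M) * g') * e = eb * (p * κ * g') * e := by rw [hpk]
      _ = eb * p * (κ * g' * e) := by simp only [mul_assoc]
      _ = eb * p * eb * (κ * g' * e) := by rw [h1]
      _ = eb * p * (eb * eb) * (κ * g' * e) := by rw [heb2]
      _ = eb * p * eb * (eb * κ * g' * e) := by simp only [mul_assoc]
  have h7 : eb * κ * g' * e = A * M * g' * e := by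
    calc eb * κ * g' * e = eb * (eb * κ * g' * e) := by
          rw [← mul_assoc, ← mul_assoc, ← mul_assoc, heb2]
      _ = eb * p' * eb * (eb * p * eb) * (eb * κ * g' * e) := by rw [h4]
      _ = eb * p' * eb * (eb * p * eb * (eb * κ * g' * e)) := by simp only [mul_assoc]
      _ = eb * p' * eb * (eb * p * A * M * g' * e) := by rw [← h6, h5]
      _ = eb * p' * eb * (eb * p * (eb * A) * M * g' * e) := by rw [hebA]
      _ = eb * p' * eb * (eb * p * eb) * A * M * g' * e := by simp only [mul_assoc]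
      _ = eb * A * M * g' * e := by rw [h4]
      _ = A * M * g' * e := by rw [hebA]
  rw [h5, h2]
  have h8 : eb * (κ * (g' * e)) = A * M * g' * e := by
    rw [← h7]
    simp only [mul_assoc]
  rw [h8]
  calc eb * p * A * M * g' * e = eb * p * (A * Q * A) * M * g' * e := by rw [hQ]
    _ = eb * p * A * (Q * (A * M * g' * e)) := by simp only [mul_assoc]

end alg

section supp

variable {E : Type} [NontriviallyNormedField E] {a b N k l : ℕ} (h : a + b = N) (hk : k + l = N)
  {W : Type} [AddCommGroup W] [Module ℂ W]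

theorem rkJ_mul_nU (g : GL (Fin N) E) (y : Fin k → Fin l → E) :
    rkJ h k (g * nU hk y) = rkJ h k g := by
  have h1 := rank_blkJ h k ((g * nU hk y : GL (Fin N) E) : Matrix (Fin N) (Fin N) E)
  have h2 := rank_blkJ h k (g : Matrix (Fin N) (Fin N) E)
  rw [rkJ, rkJ, ← h1, ← h2, Units.val_mul, ← Matrix.mul_assoc, Matrix.mul_assoc _ _ (prj E _),
    nU_mul_prj]

theorem exists_entry_bd (M : Matrix (Fin N) (Fin N) E) : ∃ C : ℝ, 0 ≤ C ∧ ∀ i i', ‖M i i'‖ ≤ C := by
  refine ⟨∑ i, ∑ i', ‖M i i'‖, by positivity, ?_⟩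
  intro i i'
  have h5 : ‖M i i'‖ ≤ ∑ i', ‖M i i'‖ :=
    Finset.single_le_sum (f := fun i' => ‖M i i'‖)
      (fun _ _ => norm_nonneg _) (Finset.mem_univ i')
  have h6 : ∑ i', ‖M i i'‖ ≤ ∑ i, ∑ i', ‖M i i'‖ :=
    Finset.single_le_sum (f := fun i => ∑ i', ‖M i i'‖)
      (fun _ _ => Finset.sum_nonneg fun _ _ => norm_nonneg _) (Finset.mem_univ i)
  linarith

variable [IsUltrametricDist E] [ProperSpace E]

/-- the points of `K₀` of rank `≤ j` where a function is not zero -/
theorem isCompact_supp {ρ : (GL (Fin a) E × GL (Fin b) E) →* Module.End ℂ W} (f : IndJ h ρ)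
    (k j : ℕ) : IsCompact (((glK (Fin N) E 1 zero_le_one le_rfl : Subgroup (GL (Fin N) E)) :
      Set (GL (Fin N) E)) ∩ ({g | (f : GL (Fin N) E → W) g ≠ 0} ∩ {g | rkJ h k g ≤ j})) := by
  apply (glK_isCompact one_pos le_rfl).inter_right
  apply IsClosed.inter
  · have h1 : {g | (f : GL (Fin N) E → W) g ≠ 0} = ((f : GL (Fin N) E → W) ⁻¹' {0})ᶜ := rfl
    rw [h1]
    exact ((indJ_isLocallyConstant h f) {0}).isClosed_compl
  · have : {g : GL (Fin N) E | rkJ h k g ≤ j} = {g | j + 1 ≤ rkJ h k g}ᶜ := by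
      ext g
      simp [not_le, Nat.lt_succ_iff]
    rw [this]
    exact (isOpen_rkJ h k _).isClosed_compl

/-- **the support along `N_k`** -/
theorem thE_bdd {ρ : (GL (Fin a) E × GL (Fin b) E) →* Module.End ℂ W} (f : IndJ h ρ) {j : ℕ}
    (hf : ∀ g, (f : GL (Fin N) E → W) g ≠ 0 → j ≤ rkJ h k g) (g : GL (Fin N) E)
    (hg : rkJ h k g = j) : ∃ C : ℝ, 0 ≤ C ∧ ∀ y : Fin k → Fin l → E,
      (f : GL (Fin N) E → W) (g * nU hk y) ≠ 0 → ∀ i i', ‖thE h hk g y i i'‖ ≤ C := by
  set e := prj E {i : Fin N | i.1 < a} with he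
  set fk := prj E {i : Fin N | i.1 < k} with hfk
  have hcont : Continuous fun κ : GL (Fin N) E =>
      (1 - e) * (κ : Matrix (Fin N) (Fin N) E) * fk :=
    (continuous_const.mul Units.continuous_val).mul continuous_const
  obtain ⟨C1, hC1, hQ⟩ := ginv_bdd (isCompact_supp h f k j) hcont (j := j) (by
    rintro κ ⟨-, hκ1, hκ2⟩
    rw [rank_blkJ h]
    exact le_antisymm hκ2 (hf κ hκ1))
  obtain ⟨cA, hcA, hA⟩ := exists_entry_bd ((1 - e) * (g : Matrix (Fin N) (Fin N) E) * fk)
  obtain ⟨cB, hcB, hB⟩ := exists_entry_bd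
    (((g⁻¹ : GL (Fin N) E) : Matrix (Fin N) (Fin N) E) * e)
  have heb : ∀ i i', ‖(1 - e) i i'‖ ≤ 1 := by
    intro i i'
    rw [he, prj, Matrix.sub_apply, Matrix.diagonal_apply, Matrix.one_apply]
    by_cases hii : i = i'
    · rw [if_pos hii, if_pos hii]
      split_ifs
      · simp
      · simp
    · rw [if_neg hii, if_neg hii]
      simp
  refine ⟨cA * (C1 * (1 * (1 * cB))), by positivity, ?_⟩
  intro y hy
  obtain ⟨p, q, y', κ, hκ, hpk⟩ := iwasawaJ h (g * nU hk y)
  have hfκ : (f : GL (Fin N) E → W) κ ≠ 0 := by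
    intro h0
    apply hy
    rw [hpk, f.2.1, h0, map_zero]
  have hrκ : rkJ h k κ = j := by
    rw [← hg, ← rkJ_mul_nU h hk g y, hpk, rkJ_pelJ_mul]
  obtain ⟨Q, hQ1, hQ2⟩ := hQ κ ⟨hκ, hfκ, le_of_eq hrκ⟩
  set P := pelJ h p q y' with hP
  have hPm : P ∈ PSJ h E := ⟨p, q, y', rfl⟩
  have hp1 := (mem_PSJ_iff_blk h P).1 hPm
  have hp2 := (mem_PSJ_iff_blk h P⁻¹).1 (inv_mem hPm)
  have hM : (nU hk y : Matrix (Fin N) (Fin N) E) = 1 + inA hk E * Matrix.of y * prB hk E := by
    rw [← nU_sub_one]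
    abel
  have h1 := thE_alg (e := e) (f := fk) (p := (P : Matrix (Fin N) (Fin N) E))
    (p' := ((P⁻¹ : GL (Fin N) E) : Matrix (Fin N) (Fin N) E))
    (κ := (κ : Matrix (Fin N) (Fin N) E)) (g := (g : Matrix (Fin N) (Fin N) E))
    (g' := ((g⁻¹ : GL (Fin N) E) : Matrix (Fin N) (Fin N) E))
    (M := inA hk E * Matrix.of y * prB hk E) (Q := Q) (prj_idem _) hp1 hp2
    (by rw [← Units.val_mul, inv_mul_cancel, Units.val_one])
    (by rw [← Units.val_mul, mul_inv_cancel, Units.val_one])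
    (by rw [← Matrix.mul_assoc, ← Matrix.mul_assoc, prj_mul_inA])
    (by rw [Matrix.mul_assoc _ (prB hk E), prB_mul_prj, Matrix.mul_zero])
    (by
      rw [← hM, ← Units.val_mul, ← Units.val_mul]
      exact congrArg Units.val hpk.symm)
    rfl hQ1
  have h2 : thE h hk g y = (1 - e) * ((g : Matrix (Fin N) (Fin N) E) *
      (1 + inA hk E * Matrix.of y * prB hk E) *
      ((g⁻¹ : GL (Fin N) E) : Matrix (Fin N) (Fin N) E)) * e := by
    rw [thE_eq, Units.val_mul, Units.val_mul, hM]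
  rw [h2, h1]
  intro i i'
  refine mul_entry_le _ _ hcA (by positivity) hA ?_ i i'
  refine mul_entry_le _ _ hC1 (by positivity) hQ2 ?_
  refine mul_entry_le _ _ zero_le_one (by positivity) heb ?_
  exact mul_entry_le _ _ zero_le_one hcB (fun i j => glK_entry hκ i j) hB

end supp

end SpW
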