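import Pool.Agent.Work.MP_3615d2_al.Co.EigD

/-!
MP_3615d2_al, (COMM): the eigenvalue lemma, part 3: the element `g diag(z,1) g⁻¹` modulo the
parabolic subgroup and the relations at the point `g`.
-/

open MeasureTheory Matrix Filter Topology
open scoped NNReal TensorProduct

set_option linter.unusedSectionVars false

namespace SpW

section vec

variable {E : Type} [Field E] {a b N k l : ℕ}

/-- the vector with the blocks `u`, `v` -/
def vJ (h : a + b = N) (u : Fin a → E) (v : Fin b → E) : Fin N → E :=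
  fun i => Sum.elim u v ((sJ h).symm i)

theorem vJ_inl (h : a + b = N) (u : Fin a → E) (v : Fin b → E) (i : Fin a) :
    vJ h u v (sJ h (Sum.inl i)) = u i := by
  simp [vJ]

theorem vJ_inr (h : a + b = N) (u : Fin a → E) (v : Fin b → E) (i : Fin b) :
    vJ h u v (sJ h (Sum.inr i)) = v i := by
  simp [vJ]

/-- the action of `hh diag(z,1) u hh⁻¹` -/
theorem exists_Nk_of_std {m j : ℕ} {hh p : GL (Fin m) E} {A : Submodule E (Fin m → E)}
    (hA : ∀ v : Fin m → E, (hh : Matrix (Fin m) (Fin m) E).mulVec v ∈ A ↔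
      ∀ i : Fin m, j ≤ i.1 → v i = 0) {z : Eˣ}
    (H1 : ∀ v ∈ A, (p : Matrix (Fin m) (Fin m) E).mulVec v = (z : E) • v)
    (H2 : ∀ v, (p : Matrix (Fin m) (Fin m) E).mulVec v - v ∈ A) :
    ∃ u ∈ Nk m j E, p = hh * zD m j z * u * hh⁻¹ := by
  have hhi : (hh : Matrix (Fin m) (Fin m) E) * ((hh⁻¹ : GL (Fin m) E) : Matrix (Fin m) (Fin m) E) =
      1 := by rw [← Units.val_mul, mul_inv_cancel, Units.val_one]
  have hih : ((hh⁻¹ : GL (Fin m) E) : Matrix (Fin m) (Fin m) E) * (hh : Matrix (Fin m) (Fin m) E) =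
      1 := by rw [← Units.val_mul, inv_mul_cancel, Units.val_one]
  set q : GL (Fin m) E := hh⁻¹ * p * hh with hq
  have hqv : ∀ v, (q : Matrix (Fin m) (Fin m) E).mulVec v =
      ((hh⁻¹ : GL (Fin m) E) : Matrix (Fin m) (Fin m) E).mulVec
        ((p : Matrix (Fin m) (Fin m) E).mulVec ((hh : Matrix (Fin m) (Fin m) E).mulVec v)) := by
    intro v
    rw [Matrix.mulVec_mulVec, Matrix.mulVec_mulVec]
    rfl
  have h1 : ∀ i i' : Fin m, i'.1 < j → (q : Matrix (Fin m) (Fin m) E) i i' =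
      if i = i' then (z : E) else 0 := by
    intro i i' hi'
    have h2 : (hh : Matrix (Fin m) (Fin m) E).mulVec (Pi.single i' 1) ∈ A := by
      rw [hA]
      intro i₁ hi₁
      rw [Pi.single_eq_of_ne]
      rintro rfl
      omega
    have h3 := hqv (Pi.single i' 1)
    rw [H1 _ h2, Matrix.mulVec_smul, Matrix.mulVec_mulVec, hih, Matrix.one_mulVec,
      Matrix.mulVec_single_one] at h3
    have h4 := congrFun h3 i
    rw [Pi.smul_apply, smul_eq_mul] at h4
    have h5 : (q : Matrix (Fin m) (Fin m) E) i i' = (z : E) * (Pi.single i' 1 : Fin m → E) i := h4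
    rw [h5, Pi.single_apply, mul_ite, mul_one, mul_zero]
  have h2 : ∀ i i' : Fin m, j ≤ i.1 → (q : Matrix (Fin m) (Fin m) E) i i' =
      if i = i' then 1 else 0 := by
    intro i i' hi
    have h3 := H2 ((hh : Matrix (Fin m) (Fin m) E).mulVec (Pi.single i' 1))
    have h4 : (p : Matrix (Fin m) (Fin m) E).mulVec
        ((hh : Matrix (Fin m) (Fin m) E).mulVec (Pi.single i' 1)) -
        (hh : Matrix (Fin m) (Fin m) E).mulVec (Pi.single i' 1) =
        (hh : Matrix (Fin m) (Fin m) E).mulVec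
          ((q : Matrix (Fin m) (Fin m) E).mulVec (Pi.single i' 1) - Pi.single i' 1) := by
      rw [Matrix.mulVec_sub, hqv, Matrix.mulVec_mulVec _ (hh : Matrix (Fin m) (Fin m) E), hhi,
        Matrix.one_mulVec]
    rw [h4, hA] at h3
    have h5 := h3 i hi
    rw [Matrix.mulVec_single_one, Pi.sub_apply, sub_eq_zero] at h5
    have h6 : (q : Matrix (Fin m) (Fin m) E) i i' = (Pi.single i' 1 : Fin m → E) i := h5
    rw [h6, Pi.single_apply]
  refine ⟨(zD m j z)⁻¹ * q, ?_, by rw [hq]; group⟩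
  intro i i' hii
  have h3 : (((zD m j z)⁻¹ * q : GL (Fin m) E) : Matrix (Fin m) (Fin m) E) i i' =
      ((if i.1 < j then z⁻¹ else 1 : Eˣ) : E) * (q : Matrix (Fin m) (Fin m) E) i i' := by
    rw [Units.val_mul]
    unfold zD
    rw [dgl_inv_val, Matrix.diagonal_mul]
    congr 2
    split_ifs
    · rfl
    · rw [inv_one]
  rw [h3, Matrix.one_apply]
  by_cases hi : i.1 < j
  · have hi' : i'.1 < j := by
      by_contra h0
      exact hii ⟨hi, by omega⟩
    rw [h1 i i' hi', if_pos hi]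
    by_cases he : i = i'
    · rw [if_pos he, if_pos he, Units.inv_mul]
    · rw [if_neg he, if_neg he, mul_zero]
  · rw [h2 i i' (by omega), if_neg hi, Units.val_one, one_mul]

end vec

section pt

variable {E : Type} [NontriviallyNormedField E] {a b N k l : ℕ} (h : a + b = N) (hk : k + l = N)

theorem extKJ_of_zero {v : Fin N → E} (hv : ∀ i : Fin N, k ≤ i.1 → v i = 0) :
    v = extKJ (fun j : {j : Fin N // j.1 < k} => v j.1) := by
  funext i
  rw [extKJ]
  split_ifs with hi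
  · rfl
  · exact hv i (by omega)

theorem blocks_eq (g : GL (Fin N) E) (x : {j : Fin N // j.1 < k} → E) :
    (g : Matrix (Fin N) (Fin N) E).mulVec (extKJ x) =
      vJ h ((upKJ h k (g : Matrix (Fin N) (Fin N) E)).mulVec x)
        ((lowKJ h k (g : Matrix (Fin N) (Fin N) E)).mulVec x) := by
  apply ext_sJ h
  · intro i
    rw [mulVec_extKJ_inl, vJ_inl]
  · intro i
    rw [mulVec_extKJ_inr, vJ_inr]

theorem pelJ_mulVec (p : GL (Fin a) E) (q : GL (Fin b) E) (y : Matrix (Fin a) (Fin b) E)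
    (u : Fin a → E) (v : Fin b → E) :
    (pelJ h p q y : Matrix (Fin N) (Fin N) E).mulVec (vJ h u v) =
      vJ h ((p : Matrix (Fin a) (Fin a) E).mulVec u + y.mulVec v)
        ((q : Matrix (Fin b) (Fin b) E).mulVec v) := by
  have e1 : (fun j => vJ h u v (sJ h (Sum.inl j))) = u := funext fun j => vJ_inl h u v j
  have e2 : (fun j => vJ h u v (sJ h (Sum.inr j))) = v := funext fun j => vJ_inr h u v j
  rw [pelJ_val]
  apply ext_sJ h
  · intro i
    rw [bmJ_mulVec_inl, vJ_inl, e1, e2]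
  · intro i
    rw [bmJ_mulVec_inr, vJ_inr, e1, e2, Matrix.zero_mulVec, zero_add]

theorem vJ_inj {u u' : Fin a → E} {v v' : Fin b → E} (e : vJ h u v = vJ h u' v') :
    u = u' ∧ v = v' := by
  constructor
  · funext i
    have := congrFun e (sJ h (Sum.inl i))
    rwa [vJ_inl, vJ_inl] at this
  · funext i
    have := congrFun e (sJ h (Sum.inr i))
    rwa [vJ_inr, vJ_inr] at this

theorem vJ_smul (c : E) (u : Fin a → E) (v : Fin b → E) : c • vJ h u v = vJ h (c • u) (c • v) := by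
  apply ext_sJ h
  · intro i
    rw [Pi.smul_apply, vJ_inl, vJ_inl, Pi.smul_apply]
  · intro i
    rw [Pi.smul_apply, vJ_inr, vJ_inr, Pi.smul_apply]

theorem vJ_sub (u u' : Fin a → E) (v v' : Fin b → E) :
    vJ h u v - vJ h u' v' = vJ h (u - u') (v - v') := by
  apply ext_sJ h
  · intro i
    rw [Pi.sub_apply, vJ_inl, vJ_inl, vJ_inl, Pi.sub_apply]
  · intro i
    rw [Pi.sub_apply, vJ_inr, vJ_inr, vJ_inr, Pi.sub_apply]

/-- the action of `(z Y; 0 1)` on the first coordinates -/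
theorem pelJ_mulVec_extKJ (z : Eˣ) (Y : Matrix (Fin k) (Fin l) E)
    (x : {j : Fin N // j.1 < k} → E) :
    (pelJ hk (Matrix.GeneralLinearGroup.scalar (Fin k) z) 1 Y :
      Matrix (Fin N) (Fin N) E).mulVec (extKJ x) = (z : E) • extKJ x := by
  have e2 : (fun j => extKJ x (sJ hk (Sum.inr j))) = 0 := by
    funext j
    rw [extKJ, dif_neg]
    · rfl
    · rw [sJ_inr]
      omega
  rw [pelJ_val]
  apply ext_sJ hk
  · intro i
    rw [bmJ_mulVec_inl, e2, Matrix.mulVec_zero, add_zero, Pi.smul_apply]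
    rw [Matrix.GeneralLinearGroup.coe_scalar, Matrix.scalar_apply, Matrix.mulVec_diagonal]
    rfl
  · intro i
    rw [bmJ_mulVec_inr, e2, Matrix.mulVec_zero, Matrix.zero_mulVec, add_zero, Pi.smul_apply]
    have := congrFun e2 i
    rw [this]
    simp

theorem pelJ_mulVec_sub (z : Eˣ) (Y : Matrix (Fin k) (Fin l) E) (v : Fin N → E) :
    ∃ x : {j : Fin N // j.1 < k} → E,
      (pelJ hk (Matrix.GeneralLinearGroup.scalar (Fin k) z) 1 Y :
        Matrix (Fin N) (Fin N) E).mulVec v - v = extKJ x := by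
  refine ⟨_, extKJ_of_zero ?_⟩
  intro i hi
  obtain ⟨i, rfl⟩ := (sJ hk).surjective i
  rcases i with i | i
  · exfalso
    rw [sJ_inl] at hi
    omega
  · rw [Pi.sub_apply, pelJ_val, bmJ_mulVec_inr, Matrix.zero_mulVec, zero_add, Units.val_one,
      Matrix.one_mulVec, sub_self]

/-- the Levi components of `g (z Y; 0 1) g⁻¹` -/
theorem levi_pt (g : GL (Fin N) E) (z : Eˣ) (Y : Matrix (Fin k) (Fin l) E) (pA : GL (Fin a) E)
    (pD : GL (Fin b) E) (y : Matrix (Fin a) (Fin b) E)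
    (e : g * pelJ hk (Matrix.GeneralLinearGroup.scalar (Fin k) z) 1 Y * g⁻¹ = pelJ h pA pD y) :
    (∀ v ∈ spAJ h k g, (pA : Matrix (Fin a) (Fin a) E).mulVec v = (z : E) • v) ∧
    (∀ v, (pA : Matrix (Fin a) (Fin a) E).mulVec v - v ∈ spAJ h k g) ∧
    (∀ v ∈ LinearMap.range (lowKJ h k (g : Matrix (Fin N) (Fin N) E)).mulVecLin,
      (pD : Matrix (Fin b) (Fin b) E).mulVec v = (z : E) • v) ∧
    (∀ v, (pD : Matrix (Fin b) (Fin b) E).mulVec v - v ∈
      LinearMap.range (lowKJ h k (g : Matrix (Fin N) (Fin N) E)).mulVecLin) := by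
  set m := pelJ hk (Matrix.GeneralLinearGroup.scalar (Fin k) z) 1 Y with hm
  have hgi : ((g⁻¹ : GL (Fin N) E) : Matrix (Fin N) (Fin N) E) * (g : Matrix (Fin N) (Fin N) E) =
      1 := by rw [← Units.val_mul, inv_mul_cancel, Units.val_one]
  have hgg : (g : Matrix (Fin N) (Fin N) E) * ((g⁻¹ : GL (Fin N) E) : Matrix (Fin N) (Fin N) E) =
      1 := by rw [← Units.val_mul, mul_inv_cancel, Units.val_one]
  have hp : ∀ v, (pelJ h pA pD y : Matrix (Fin N) (Fin N) E).mulVec v =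
      (g : Matrix (Fin N) (Fin N) E).mulVec ((m : Matrix (Fin N) (Fin N) E).mulVec
        (((g⁻¹ : GL (Fin N) E) : Matrix (Fin N) (Fin N) E).mulVec v)) := by
    intro v
    rw [← e, Matrix.mulVec_mulVec, Matrix.mulVec_mulVec]
    rfl
  -- on the image of the first coordinates
  have h1 : ∀ x : {j : Fin N // j.1 < k} → E,
      (pelJ h pA pD y : Matrix (Fin N) (Fin N) E).mulVec
        ((g : Matrix (Fin N) (Fin N) E).mulVec (extKJ x)) =
      (z : E) • (g : Matrix (Fin N) (Fin N) E).mulVec (extKJ x) := by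
    intro x
    rw [hp, Matrix.mulVec_mulVec _ ((g⁻¹ : GL (Fin N) E) : Matrix (Fin N) (Fin N) E), hgi,
      Matrix.one_mulVec, hm, pelJ_mulVec_extKJ, Matrix.mulVec_smul]
  -- modulo the image of the first coordinates
  have h2 : ∀ v, ∃ x : {j : Fin N // j.1 < k} → E,
      (pelJ h pA pD y : Matrix (Fin N) (Fin N) E).mulVec v - v =
        (g : Matrix (Fin N) (Fin N) E).mulVec (extKJ x) := by
    intro v
    obtain ⟨x, hx⟩ := pelJ_mulVec_sub hk z Y
      (((g⁻¹ : GL (Fin N) E) : Matrix (Fin N) (Fin N) E).mulVec v)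
    refine ⟨x, ?_⟩
    rw [← hx, Matrix.mulVec_sub, hp, ← hm,
      Matrix.mulVec_mulVec _ (g : Matrix (Fin N) (Fin N) E)
        ((g⁻¹ : GL (Fin N) E) : Matrix (Fin N) (Fin N) E), hgg, Matrix.one_mulVec]
  refine ⟨?_, ?_, ?_, ?_⟩
  · rintro _ ⟨x, hx, rfl⟩
    have hx' : (lowKJ h k (g : Matrix (Fin N) (Fin N) E)).mulVec x = 0 := hx
    have h3 := h1 x
    rw [blocks_eq h, hx', pelJ_mulVec, vJ_smul] at h3
    have h4 := (vJ_inj h h3).1
    rwa [Matrix.mulVec_zero, add_zero] at h4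
  · intro v
    obtain ⟨x, hx⟩ := h2 (vJ h v 0)
    rw [pelJ_mulVec, vJ_sub, blocks_eq h, Matrix.mulVec_zero, add_zero, Matrix.mulVec_zero,
      sub_zero] at hx
    obtain ⟨h3, h4⟩ := vJ_inj h hx
    exact ⟨x, h4.symm, h3.symm⟩
  · rintro _ ⟨x, rfl⟩
    have h3 := h1 x
    rw [blocks_eq h, pelJ_mulVec, vJ_smul] at h3
    exact (vJ_inj h h3).2
  · intro v
    obtain ⟨x, hx⟩ := h2 (vJ h 0 v)
    rw [pelJ_mulVec, vJ_sub, blocks_eq h] at hx
    obtain ⟨h3, h4⟩ := vJ_inj h hx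
    exact ⟨x, h4.symm⟩

/-- the solution `y₀`: `g diag(z,1) = P g n(y₀)` -/
theorem exists_y0 (g : GL (Fin N) E) (z : Eˣ) : ∃ y₀ : Fin k → Fin l → E,
    g * (zD N k z * nU hk (-y₀)) * g⁻¹ ∈ PSJ h E := by
  set e := prj E {i : Fin N | i.1 < a} with he
  set f := prj E {i : Fin N | i.1 < k} with hf
  set G : Matrix (Fin N) (Fin N) E := (g : Matrix (Fin N) (Fin N) E) with hG
  set G' : Matrix (Fin N) (Fin N) E := ((g⁻¹ : GL (Fin N) E) : Matrix (Fin N) (Fin N) E) with hG'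
  have hgg : G * G' = 1 := by rw [hG, hG', ← Units.val_mul, mul_inv_cancel, Units.val_one]
  have hee : (1 - e) * e = 0 := by
    rw [sub_mul, one_mul, prj_idem, sub_self]
  set A := (1 - e) * G * inA hk E with hA
  set B := prB hk E * G' * e with hB
  set X := (inA hk E)ᵀ * G' * e with hX
  set Y := (1 - e) * G * (prB hk E)ᵀ with hY
  have hC1 : A * X = (1 - e) * G * f * G' * e := by
    rw [hA, hX, hf, ← inA_mul_transpose hk]
    simp only [Matrix.mul_assoc]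
  have hC2 : Y * B = (1 - e) * G * (1 - f) * G' * e := by
    rw [hB, hY, hf, ← transpose_mul_prB hk]
    simp only [Matrix.mul_assoc]
  have hC3 : A * X = -(Y * B) := by
    rw [eq_neg_iff_add_eq_zero, hC1, hC2]
    have : (1 - e) * G * f * G' * e + (1 - e) * G * (1 - f) * G' * e =
        (1 - e) * (G * G') * e := by noncomm_ring
    rw [this, hgg, mul_one, hee]
  obtain ⟨QA, hQA, -⟩ := exists_ginv A
  obtain ⟨QB, hQB, -⟩ := exists_ginv B
  set M0 : Matrix (Fin k) (Fin l) E := ((z : E)⁻¹ * ((z : E) - 1)) • (QA * (A * X) * QB) with hM0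
  have hz : (z : E) ≠ 0 := z.ne_zero
  have hAMB : A * M0 * B = ((z : E)⁻¹ * ((z : E) - 1)) • (A * X) := by
    rw [hM0, Matrix.mul_smul, Matrix.smul_mul]
    congr 1
    have h1 : A * (QA * (A * X) * QB) * B = (A * QA * A) * X * QB * B := by
      simp only [Matrix.mul_assoc]
    rw [h1, hQA, hC3]
    have h2 : -(Y * B) * QB * B = -(Y * (B * QB * B)) := by
      simp only [Matrix.mul_assoc, Matrix.neg_mul]
    rw [h2, hQB]
  refine ⟨Matrix.of.symm M0, ?_⟩
  rw [mem_PSJ_iff_blk]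
  have hn : (nU hk (-(Matrix.of.symm M0)) : Matrix (Fin N) (Fin N) E) =
      1 - inA hk E * M0 * prB hk E := by
    have h1 := nU_sub_one hk (-(Matrix.of.symm M0))
    have h2 : Matrix.of (-(Matrix.of.symm M0)) = -M0 := rfl
    rw [h2, Matrix.mul_neg, Matrix.neg_mul, sub_eq_iff_eq_add] at h1
    rw [h1]
    abel
  have hprod : (((zD N k z * nU hk (-(Matrix.of.symm M0)) : GL (Fin N) E)) :
      Matrix (Fin N) (Fin N) E) = 1 + ((z : E) - 1) • f - (z : E) • (inA hk E * M0 * prB hk E) := by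
    rw [Units.val_mul, hn, zD_val, ← hf]
    have h1 : f * (inA hk E * M0 * prB hk E) = inA hk E * M0 * prB hk E := by
      rw [hf, ← Matrix.mul_assoc, ← Matrix.mul_assoc, prj_mul_inA]
    rw [mul_sub, mul_one, add_mul, one_mul, Matrix.smul_mul, h1]
    module
  rw [Units.val_mul, Units.val_mul, hprod, ← hG, ← hG', ← he]
  have h3 : (1 - e) * (G * (1 + ((z : E) - 1) • f - (z : E) • (inA hk E * M0 * prB hk E)) * G') * e
      = (1 - e) * (G * G') * e + ((z : E) - 1) • ((1 - e) * G * f * G' * e) -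
        (z : E) • (A * M0 * B) := by
    rw [hA, hB]
    simp only [mul_sub, mul_add, sub_mul, add_mul, Matrix.mul_smul, Matrix.smul_mul,
      Matrix.mul_assoc, mul_one, one_mul, smul_sub]
  rw [h3, hgg, mul_one, hee, zero_add, ← hC1, hAMB, smul_smul, mul_inv_cancel_left₀ hz, sub_self]

/-- realisation of the elements of the lower block -/
theorem exists_conj_lowerJ (g₀ : GL (Fin N) E) (u : GL (Fin b) E)
    (H1 : ∀ v ∈ LinearMap.range (lowKJ h k (g₀ : Matrix (Fin N) (Fin N) E)).mulVecLin,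
      ((u : Matrix (Fin b) (Fin b) E) - 1).mulVec v = 0)
    (H2 : ∀ v, ((u : Matrix (Fin b) (Fin b) E) - 1).mulVec v ∈
      LinearMap.range (lowKJ h k (g₀ : Matrix (Fin N) (Fin N) E)).mulVecLin) :
    ∃ c ∈ Nk N k E, ∃ y, pelJ h 1 u y = g₀ * c * g₀⁻¹ := by
  classical
  set G₀ : Matrix (Fin N) (Fin N) E := (g₀ : Matrix (Fin N) (Fin N) E) with hG₀
  set B := lowKJ h k G₀ with hB
  obtain ⟨Q, hQ, -⟩ := exists_ginv B
  set U : Matrix (Fin b) (Fin b) E := (u : Matrix (Fin b) (Fin b) E) - 1 with hU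
  have hUB : U * B = 0 := by
    apply Matrix.ext_of_mulVec_single
    intro i
    rw [← Matrix.mulVec_mulVec, Matrix.zero_mulVec]
    exact H1 _ ⟨_, rfl⟩
  have hBQU : B * Q * U = U := by
    apply Matrix.ext_of_mulVec_single
    intro i
    rw [← Matrix.mulVec_mulVec]
    obtain ⟨z, hz⟩ := H2 (Pi.single i 1)
    have hz' : B.mulVec z = U.mulVec (Pi.single i 1) := hz
    rw [← hz', Matrix.mulVec_mulVec, hQ]
  obtain ⟨c, hc, hcv⟩ := exists_Nk_ofJ (N := N) (k := k) (Q * U * loRwJ h G₀) (by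
    rw [Matrix.mul_assoc, loRwJ_mul_iZJ, ← hB, Matrix.mul_assoc, hUB, Matrix.mul_zero])
  set y : Matrix (Fin a) (Fin b) E := upRwJ h G₀ * iZJ N k E * Q * U with hy
  have hmul : pelJ h 1 u y * g₀ = g₀ * c := by
    apply Units.ext
    rw [Units.val_mul, Units.val_mul, ← hG₀, hcv]
    show bmJ h 1 y 0 (u : Matrix (Fin b) (Fin b) E) * G₀ = _
    apply ext_rowsJ h
    · rw [upRwJ_bmJ_mul, mul_add, mul_one, upRwJ_add, upRwJ_mul, Matrix.one_mul, hy]
      simp only [Matrix.mul_assoc]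
    · rw [loRwJ_bmJ_mul, mul_add, mul_one, loRwJ_add, loRwJ_mul, Matrix.zero_mul, zero_add]
      have h3 : loRwJ h G₀ * (iZJ N k E * (Q * U * loRwJ h G₀)) =
          (loRwJ h G₀ * iZJ N k E) * Q * U * loRwJ h G₀ := by simp only [Matrix.mul_assoc]
      rw [h3, loRwJ_mul_iZJ, ← hB, hBQU, hU, Matrix.sub_mul, Matrix.one_mul]
      abel
  exact ⟨c, hc, y, by rw [← hmul]; group⟩

variable {W : Type} [AddCommGroup W] [Module ℂ W]

/-- the coinvariants of the Levi subgroup at the point `g` -/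
theorem span_pt {ρ : (GL (Fin a) E × GL (Fin b) E) →* Module.End ℂ W} {r j : ℕ}
    (g : GL (Fin N) E) (uA : GL (Fin a) E)
    (hA : ∀ v : Fin a → E, (uA : Matrix (Fin a) (Fin a) E).mulVec v ∈ spAJ h k g ↔
      ∀ i : Fin a, r ≤ i.1 → v i = 0) (uD : GL (Fin b) E)
    (hD : ∀ v : Fin b → E, (uD : Matrix (Fin b) (Fin b) E).mulVec v ∈
      LinearMap.range (lowKJ h k (g : Matrix (Fin N) (Fin N) E)).mulVecLin ↔
      ∀ i : Fin b, j ≤ i.1 → v i = 0) {x : W}
    (hx : x ∈ cvN ρ ((Nk a r E).prod (Nk b j E)) ⊤) : ρ (uA, uD) x ∈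
      Submodule.span ℂ (rel (tauJ h ρ) (Nk N k E : Set (GL (Fin N) E)) Set.univ g) := by
  refine (Submodule.span_le (p := (Submodule.span ℂ (rel (tauJ h ρ)
    (Nk N k E : Set (GL (Fin N) E)) Set.univ g)).comap (ρ (uA, uD)))).2 ?_ hx
  rintro _ ⟨⟨n1, n2⟩, hn, v, -, rfl⟩
  obtain ⟨hn1, hn2⟩ := Subgroup.mem_prod.1 hn
  obtain ⟨H1, H2⟩ := Nk_std (h := uA) hn1 hA
  obtain ⟨H3, H4⟩ := Nk_std (h := uD) hn2 hD
  obtain ⟨c1, hc1, y1, hy1⟩ := exists_conj_upperJ h g (uA * n1 * uA⁻¹) H1 H2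
  obtain ⟨c2, hc2, y2, hy2⟩ := exists_conj_lowerJ h g (uD * n2 * uD⁻¹) H3 H4
  show ρ (uA, uD) (ρ (n1, n2) v - v) ∈ Submodule.span ℂ (rel (tauJ h ρ)
    (Nk N k E : Set (GL (Fin N) E)) Set.univ g)
  have e1 : ρ (uA, uD) (ρ (n1, n2) v - v) =
      ρ (uA * n1 * uA⁻¹, uD * n2 * uD⁻¹) (ρ (uA, uD) v) - ρ (uA, uD) v := by
    rw [map_sub, ← Module.End.mul_apply, ← Module.End.mul_apply, ← map_mul, ← map_mul,
      Prod.mk_mul_mk, Prod.mk_mul_mk, inv_mul_cancel_right, inv_mul_cancel_right]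
  rw [e1]
  have e3 : ∃ y3, g * (c1 * c2) * g⁻¹ = pelJ h (uA * n1 * uA⁻¹) (uD * n2 * uD⁻¹) y3 := by
    have e4 : g * (c1 * c2) * g⁻¹ = (g * c1 * g⁻¹) * (g * c2 * g⁻¹) := by group
    rw [e4, ← hy1, ← hy2, pelJ_mul, mul_one, one_mul]
    exact ⟨_, rfl⟩
  obtain ⟨y3, hy3⟩ := e3
  refine Submodule.subset_span ⟨ρ (uA, uD) v, Set.mem_univ _, ⟨g * (c1 * c2) * g⁻¹,
    _, _, _, hy3⟩, c1 * c2, mul_mem hc1 hc2, rfl, ?_⟩
  rw [tauJ_pelJ ρ _ hy3]

/-- **the eigenvalue at a point** -/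
theorem eig_pt {ρ : (GL (Fin a) E × GL (Fin b) E) →* Module.End ℂ W} {r j : ℕ} (hrj : r + j = k)
    (g : GL (Fin N) E) (hg : rkJ h k g = j) {z : Eˣ} {c : ℂ}
    (hc : ∀ w, ρ (zD a r z, zD b j z) w - c • w ∈ cvN ρ ((Nk a r E).prod (Nk b j E)) ⊤) :
    ∃ (y₀ : Fin k → Fin l → E) (P : PSJ h E), g * zD N k z = (P : GL (Fin N) E) * g * nU hk y₀ ∧
      ∀ w, tauJ h ρ P w - c • w ∈
        Submodule.span ℂ (rel (tauJ h ρ) (Nk N k E : Set (GL (Fin N) E)) Set.univ g) := by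
  obtain ⟨y₀, hy₀⟩ := exists_y0 h hk g z
  obtain ⟨pA, pD, y, hp⟩ := id hy₀
  have hζ : ∃ Y, zD N k z * nU hk (-y₀) =
      pelJ hk (Matrix.GeneralLinearGroup.scalar (Fin k) z) 1 Y := by
    rw [zD_eq_pelJ hk]
    unfold nU
    rw [pelJ_mul, mul_one, mul_one]
    exact ⟨_, rfl⟩
  obtain ⟨Y, hY⟩ := hζ
  obtain ⟨A1, A2, D1, D2⟩ := levi_pt h hk g z Y pA pD y (by rw [← hY]; exact hp)
  obtain ⟨uA, hA⟩ := exists_gl_map (spAJ h k g)
  obtain ⟨uD, hD⟩ := exists_gl_map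
    (LinearMap.range (lowKJ h k (g : Matrix (Fin N) (Fin N) E)).mulVecLin)
  have hfA : Module.finrank E (spAJ h k g) = r := by
    have := finrank_spAJ h (by omega : k ≤ N) g
    omega
  have hfD : Module.finrank E (LinearMap.range
      (lowKJ h k (g : Matrix (Fin N) (Fin N) E)).mulVecLin) = j := hg
  rw [hfA] at hA
  rw [hfD] at hD
  obtain ⟨nA, hnA, hpA⟩ := exists_Nk_of_std hA A1 A2
  obtain ⟨nD, hnD, hpD⟩ := exists_Nk_of_std hD D1 D2
  refine ⟨y₀, ⟨_, hy₀⟩, ?_, ?_⟩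
  · show g * zD N k z = g * (zD N k z * nU hk (-y₀)) * g⁻¹ * g * nU hk y₀
    rw [nU_neg]
    group
  · intro w
    rw [tauJ_pelJ ρ ⟨_, hy₀⟩ hp]
    set w' := ρ (uA⁻¹, uD⁻¹) w with hw'
    set w'' := ρ (nA, nD) w' with hw''
    have h1 : ρ (pA, pD) w = ρ (uA, uD) (ρ (zD a r z, zD b j z) w'') := by
      rw [hw'', hw', ← Module.End.mul_apply, ← Module.End.mul_apply, ← Module.End.mul_apply,
        ← map_mul, ← map_mul, ← map_mul, Prod.mk_mul_mk, Prod.mk_mul_mk, Prod.mk_mul_mk, hpA, hpD]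
    have h2 : c • w = ρ (uA, uD) (c • w') := by
      rw [map_smul, hw', ← Module.End.mul_apply, ← map_mul, Prod.mk_mul_mk, mul_inv_cancel,
        mul_inv_cancel]
      have : ρ ((1, 1) : GL (Fin a) E × GL (Fin b) E) = 1 := map_one ρ
      rw [this, Module.End.one_apply]
    rw [h1, h2, ← map_sub]
    apply span_pt h g uA hA uD hD
    have h3 : ρ (zD a r z, zD b j z) w'' - c • w' =
        (ρ (zD a r z, zD b j z) w'' - c • w'') + c • (w'' - w') := by
      rw [smul_sub]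
      abel
    rw [h3]
    refine Submodule.add_mem _ (hc w'') (Submodule.smul_mem _ _ ?_)
    exact Submodule.subset_span ⟨(nA, nD), Subgroup.mem_prod.2 ⟨hnA, hnD⟩, w', Submodule.mem_top,
      rfl⟩

end pt

end SpW
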