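import Pool.Agent.Work.MP_3615d2_al.Co.EigE

/-!
MP_3615d2_al, (COMM): the eigenvalue lemma, part 4: averages over large balls of `N_k`.
-/

open MeasureTheory Matrix Filter Topology
open scoped NNReal TensorProduct ENNReal

set_option linter.unusedSectionVars false

namespace SpW

section reps

variable {V : Type} [NormedAddCommGroup V] [IsUltrametricDist V]

/-- the ball as a subgroup -/
def balS (V : Type) [NormedAddCommGroup V] [IsUltrametricDist V] (r : ℝ) (hr : 0 ≤ r) :
    AddSubgroup V where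
  carrier := {v | ‖v‖ ≤ r}
  add_mem' := fun {v w} hv hw => (IsUltrametricDist.norm_add_le_max v w).trans (max_le hv hw)
  zero_mem' := by
    show ‖(0 : V)‖ ≤ r
    rwa [norm_zero]
  neg_mem' := fun {v} hv => by
    show ‖-v‖ ≤ r
    rwa [norm_neg]

/-- representatives of a large ball modulo a small ball -/
theorem exists_reps [ProperSpace V] {ε r : ℝ} (hε : 0 < ε) (hεr : ε ≤ r) :
    ∃ (ι : Type) (_ : Fintype ι) (t : ι → V), Nonempty ι ∧ (∀ i, ‖t i‖ ≤ r) ∧
      ∀ y, ‖y‖ ≤ r → ∃ i, ‖y - t i‖ ≤ ε ∧ ∀ i', ‖y - t i'‖ ≤ ε → i' = i := by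
  have hr : 0 ≤ r := hε.le.trans hεr
  let B : AddSubgroup V := balS V r hr
  let C : AddSubgroup B := (balS V ε hε.le).addSubgroupOf B
  have hB : (B : Set V) = Metric.closedBall 0 r := by
    ext v
    rw [mem_closedBall_zero_iff]
    rfl
  have hBc : IsCompact (B : Set V) := by
    rw [hB]
    exact isCompact_closedBall 0 r
  have : CompactSpace B := isCompact_iff_compactSpace.1 hBc
  have hC : IsOpen (C : Set B) := by
    have h1 : (C : Set B) = Subtype.val ⁻¹' (Metric.closedBall (0 : V) ε) := by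
      ext v
      rw [Set.mem_preimage, mem_closedBall_zero_iff]
      rfl
    rw [h1]
    exact (IsUltrametricDist.isOpen_closedBall _ hε.ne').preimage continuous_subtype_val
  have : Finite (B ⧸ C) := C.quotient_finite_of_isOpen hC
  let _ : Fintype (B ⧸ C) := Fintype.ofFinite _
  have key : ∀ (y : V) (hy : ‖y‖ ≤ r) (q : B ⧸ C), ‖y - ((Quotient.out q : B) : V)‖ ≤ ε ↔
      q = QuotientAddGroup.mk (⟨y, hy⟩ : B) := by
    intro y hy q
    have h1 : q = QuotientAddGroup.mk (⟨y, hy⟩ : B) ↔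
        -(Quotient.out q : B) + ⟨y, hy⟩ ∈ C := by
      rw [← QuotientAddGroup.eq]
      have : (QuotientAddGroup.mk (Quotient.out q : B) : B ⧸ C) = q := QuotientAddGroup.out_eq' q
      rw [this]
    rw [h1]
    have h2 : -(Quotient.out q : B) + (⟨y, hy⟩ : B) ∈ C ↔
        ‖-((Quotient.out q : B) : V) + y‖ ≤ ε := Iff.rfl
    rw [h2, neg_add_eq_sub]
  refine ⟨B ⧸ C, inferInstance, fun q => ((Quotient.out q : B) : V), ⟨QuotientAddGroup.mk 0⟩,
    fun q => (Quotient.out q : B).2, fun y hy => ?_⟩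
  exact ⟨QuotientAddGroup.mk ⟨y, hy⟩, (key y hy _).2 rfl, fun i' hi' => (key y hy i').1 hi'⟩

/-- the integral of a periodic function over a large ball -/
theorem integral_reps [ProperSpace V] [MeasurableSpace V] [BorelSpace V] (μ : Measure V)
    [μ.IsAddHaarMeasure] {ε r : ℝ} (hε : 0 < ε) (hεr : ε ≤ r) {ι : Type} [Fintype ι] (t : ι → V)
    (ht : ∀ i, ‖t i‖ ≤ r)
    (hu : ∀ y, ‖y‖ ≤ r → ∃ i, ‖y - t i‖ ≤ ε ∧ ∀ i', ‖y - t i'‖ ≤ ε → i' = i)
    {F : V → ℂ} (hF : ∀ y v, ‖v‖ ≤ ε → F (y + v) = F y) :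
    ∫ y in Metric.closedBall (0 : V) r, F y ∂μ =
      ∑ i, F (t i) * (μ.real (Metric.closedBall (0 : V) ε) : ℂ) := by
  classical
  have h1 : ∀ y, Set.indicator (Metric.closedBall (0 : V) r) F y =
      ∑ i, F (t i) * Set.indicator (Metric.closedBall (0 : V) ε) (fun _ => (1 : ℂ)) (y - t i) := by
    intro y
    by_cases hy : ‖y‖ ≤ r
    · obtain ⟨i, hi, hi'⟩ := hu y hy
      rw [Set.indicator_of_mem (by rwa [mem_closedBall_zero_iff]), Finset.sum_eq_single i]
      · rw [Set.indicator_of_mem (by rwa [mem_closedBall_zero_iff]), mul_one]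
        have h2 := hF (t i) (y - t i) hi
        rwa [add_sub_cancel] at h2
      · intro i' _ hne
        rw [Set.indicator_of_notMem, mul_zero]
        rw [mem_closedBall_zero_iff]
        exact fun h => hne (hi' i' h)
      · intro h
        exact absurd (Finset.mem_univ _) h
    · rw [Set.indicator_of_notMem (by rwa [mem_closedBall_zero_iff])]
      symm
      apply Finset.sum_eq_zero
      intro i _
      rw [Set.indicator_of_notMem, mul_zero]
      rw [mem_closedBall_zero_iff]
      intro h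
      apply hy
      have h2 := (IsUltrametricDist.norm_add_le_max (y - t i) (t i)).trans
        (max_le (h.trans hεr) (ht i))
      rwa [sub_add_cancel] at h2
  rw [← integral_indicator measurableSet_closedBall]
  simp only [h1]
  have hfin : μ (Metric.closedBall (0 : V) ε) ≠ ∞ :=
    (isCompact_closedBall (0 : V) ε).measure_lt_top.ne
  have hint : Integrable (fun y : V =>
      Set.indicator (Metric.closedBall (0 : V) ε) (fun _ => (1 : ℂ)) y) μ :=
    (integrable_indicator_iff measurableSet_closedBall).2 (integrableOn_const hfin (by simp))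
  rw [integral_finsetSum]
  · apply Finset.sum_congr rfl
    intro i _
    rw [integral_const_mul, integral_sub_right_eq_self (fun y =>
      Set.indicator (Metric.closedBall (0 : V) ε) (fun _ => (1 : ℂ)) y) (t i),
      integral_indicator_const _ measurableSet_closedBall]
    simp
  · intro i _
    exact (hint.comp_sub_right (t i)).const_mul _

end reps

section avg

variable {E : Type} [NontriviallyNormedField E] [IsUltrametricDist E] [ProperSpace E]
  {a b N k l : ℕ} (h : a + b = N) (hk : k + l = N) {W : Type} [AddCommGroup W] [Module ℂ W]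

/-- **averages over large balls of `N_k`** -/
theorem avg_exists [MeasurableSpace (Fin k → Fin l → E)] [BorelSpace (Fin k → Fin l → E)]
    (μ : Measure (Fin k → Fin l → E)) [μ.IsAddHaarMeasure]
    {ρ : (GL (Fin a) E × GL (Fin b) E) →* Module.End ℂ W} (f : IndJ h ρ) {r : ℝ} (hr : 0 < r) :
    ∃ f' : IndJ h ρ, f - f' ∈ cvN (indActJ h ρ) (Nk N k E) ⊤ ∧
      (∀ (ℓ : W →ₗ[ℂ] ℂ) g,
        (μ.real (Metric.closedBall (0 : Fin k → Fin l → E) r) : ℂ) *
          ℓ ((f' : GL (Fin N) E → W) g) =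
        ∫ y in Metric.closedBall (0 : Fin k → Fin l → E) r,
          ℓ ((f : GL (Fin N) E → W) (g * nU hk y)) ∂μ) ∧
      ∀ g, (f' : GL (Fin N) E → W) g ≠ 0 → ∃ y, (f : GL (Fin N) E → W) (g * nU hk y) ≠ 0 := by
  classical
  -- a small ball of invariance
  have h1 : ∀ᶠ y : Fin k → Fin l → E in 𝓝 0, ∀ g,
      (f : GL (Fin N) E → W) (g * nU hk y) = (f : GL (Fin N) E → W) g := by
    have h2 : Tendsto (fun y : Fin k → Fin l → E => nU hk y) (𝓝 0) (𝓝 1) := by
      have h3 := (continuous_nU (E := E) hk).tendsto 0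
      rwa [nU_zero] at h3
    exact h2.eventually f.2.2
  obtain ⟨ε₀, hε₀, hε₀'⟩ := (Metric.nhds_basis_closedBall.eventually_iff).1 h1
  set ε := min ε₀ r with hε
  have hε0 : 0 < ε := lt_min hε₀ hr
  have hεr : ε ≤ r := min_le_right _ _
  have hinv : ∀ y : Fin k → Fin l → E, ‖y‖ ≤ ε → ∀ g,
      (f : GL (Fin N) E → W) (g * nU hk y) = (f : GL (Fin N) E → W) g := by
    intro y hy
    apply hε₀'
    rw [mem_closedBall_zero_iff]
    exact hy.trans (min_le_left _ _)
  obtain ⟨ι, hι, t, hne, ht, hu⟩ := exists_reps (V := Fin k → Fin l → E) hε0 hεr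
  have hcard : ((Fintype.card ι : ℕ) : ℂ) ≠ 0 := by
    exact_mod_cast Fintype.card_ne_zero
  set f' : IndJ h ρ := ((Fintype.card ι : ℂ)⁻¹) • ∑ i, indActJ h ρ (nU hk (t i)) f with hf'
  have hval : ∀ g, (f' : GL (Fin N) E → W) g =
      ((Fintype.card ι : ℂ)⁻¹) • ∑ i, (f : GL (Fin N) E → W) (g * nU hk (t i)) := by
    intro g
    have h5 : (f' : GL (Fin N) E → W) = ((Fintype.card ι : ℂ)⁻¹) •
        ∑ i, ((indActJ h ρ (nU hk (t i)) f : IndJ h ρ) : GL (Fin N) E → W) := by
      rw [hf', Submodule.coe_smul, AddSubmonoidClass.coe_finsetSum]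
    rw [h5, Pi.smul_apply, Finset.sum_apply]
    rfl
  have hvol : (μ.real (Metric.closedBall (0 : Fin k → Fin l → E) r) : ℂ) =
      (Fintype.card ι : ℂ) * (μ.real (Metric.closedBall (0 : Fin k → Fin l → E) ε) : ℂ) := by
    have h6 := integral_reps μ hε0 hεr t ht hu (F := fun _ => 1) (fun _ _ _ => rfl)
    rw [setIntegral_const] at h6
    simp only [one_mul, Finset.sum_const, Finset.card_univ, nsmul_eq_mul] at h6
    rw [← h6]
    simp
  refine ⟨f', ?_, ?_, ?_⟩
  · have h7 : f - f' = -(((Fintype.card ι : ℂ)⁻¹) • ∑ i, (indActJ h ρ (nU hk (t i)) f - f)) := by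
      rw [Finset.sum_sub_distrib, smul_sub, ← hf', Finset.sum_const, Finset.card_univ,
        ← Nat.cast_smul_eq_nsmul ℂ, smul_smul, inv_mul_cancel₀ hcard, one_smul, neg_sub]
    rw [h7]
    refine Submodule.neg_mem _ (Submodule.smul_mem _ _ (Submodule.sum_mem _ fun i _ => ?_))
    exact Submodule.subset_span ⟨nU hk (t i), nU_mem hk _, f, Submodule.mem_top, rfl⟩
  · intro ℓ g
    have h8 := integral_reps μ hε0 hεr t ht hu
      (F := fun y => ℓ ((f : GL (Fin N) E → W) (g * nU hk y))) (by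
        intro y v hv
        show ℓ ((f : GL (Fin N) E → W) (g * nU hk (y + v))) = _
        rw [nU_add, ← mul_assoc, hinv v hv])
    rw [h8, hval, map_smul, map_sum, hvol, smul_eq_mul, ← Finset.sum_mul]
    field_simp
  · intro g hg
    by_contra h0
    push Not at h0
    apply hg
    rw [hval, Finset.sum_eq_zero (fun i _ => h0 (t i)), smul_zero]

end avg

end SpW
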