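import Pool.Agent.Work.MP_3615d2_al.Co.EigF

/-!
MP_3615d2_al, (COMM): the eigenvalue lemma, part 5: the identity of integrals at one point, and its
dependence on the point.
-/

open MeasureTheory Matrix Filter Topology
open scoped NNReal TensorProduct ENNReal

set_option linter.unusedSectionVars false

namespace SpW

section point

variable {E : Type} [NontriviallyNormedField E] [IsUltrametricDist E] [ProperSpace E]
  {a b N k l : ℕ} (h : a + b = N) (hk : k + l = N) {W : Type} [AddCommGroup W] [Module ℂ W]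
  {ρ : (GL (Fin a) E × GL (Fin b) E) →* Module.End ℂ W}

theorem indJ_tauJ (f : IndJ h ρ) (p : PSJ h E) (g : GL (Fin N) E) :
    (f : GL (Fin N) E → W) ((p : GL (Fin N) E) * g) =
      tauJ h ρ p ((f : GL (Fin N) E → W) g) :=
  mem_indE_tauJ.2 f.2.1 p g

theorem phi_cont (f : IndJ h ρ) (ℓ : W →ₗ[ℂ] ℂ) (g : GL (Fin N) E) :
    Continuous fun y : Fin k → Fin l → E => ℓ ((f : GL (Fin N) E → W) (g * nU hk y)) := by
  have h1 : Continuous fun y : Fin k → Fin l → E => g * nU hk y :=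
    continuous_const.mul (continuous_nU hk)
  have h2 := (indJ_isLocallyConstant h f).comp_continuous h1
  exact (h2.comp ℓ).continuous

theorem phi_inv (f : IndJ h ρ) (ℓ : W →ₗ[ℂ] ℂ) (g : GL (Fin N) E)
    (hℓ : ∀ x ∈ rel (tauJ h ρ) (Nk N k E : Set (GL (Fin N) E)) Set.univ g, ℓ x = 0)
    (s : Fin k → Fin l → E) (hs : s ∈ LinearMap.ker (thE h hk g)) (y : Fin k → Fin l → E) :
    ℓ ((f : GL (Fin N) E → W) (g * nU hk (s + y))) =
      ℓ ((f : GL (Fin N) E → W) (g * nU hk y)) := by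
  have hp : g * nU hk s * g⁻¹ ∈ PSJ h E := (thE_eq_zero_iff h hk g s).1 hs
  have h1 : g * nU hk (s + y) = ((⟨_, hp⟩ : PSJ h E) : GL (Fin N) E) * (g * nU hk y) := by
    show _ = g * nU hk s * g⁻¹ * (g * nU hk y)
    rw [nU_add]
    group
  rw [h1, indJ_tauJ]
  have h2 := hℓ (tauJ h ρ ⟨_, hp⟩ ((f : GL (Fin N) E → W) (g * nU hk y)) -
    (f : GL (Fin N) E → W) (g * nU hk y))
    ⟨_, Set.mem_univ _, ⟨_, hp⟩, nU hk s, nU_mem hk s, rfl, rfl⟩
  rwa [map_sub, sub_eq_zero] at h2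

/-- the support modulo the kernel -/
theorem supp_bd (f : IndJ h ρ) {j : ℕ}
    (hf : ∀ g, (f : GL (Fin N) E → W) g ≠ 0 → j ≤ rkJ h k g) (g : GL (Fin N) E)
    (hg : rkJ h k g = j) : ∃ C : ℝ, ∀ y : Fin k → Fin l → E,
      (f : GL (Fin N) E → W) (g * nU hk y) ≠ 0 →
        ∃ s ∈ LinearMap.ker (thE h hk g), ‖y - s‖ ≤ C := by
  obtain ⟨C, hC, hb⟩ := thE_bdd h hk f hf g hg
  let θ : (Fin k → Fin l → E) →ₗ[E] (Fin N → Fin N → E) := thE h hk g
  obtain ⟨g', hg'⟩ := θ.rangeRestrict.exists_rightInverse_of_surjective θ.range_rangeRestrict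
  obtain ⟨σ, hσ⟩ := LinearMap.exists_extend g'
  have h1 : ∀ v, θ (σ (θ v)) = θ v := by
    intro v
    have h2 : σ (θ v) = g' ⟨θ v, LinearMap.mem_range_self θ v⟩ := by
      rw [← hσ]
      rfl
    rw [h2]
    have h3 := LinearMap.congr_fun hg' ⟨θ v, LinearMap.mem_range_self θ v⟩
    have h4 := congrArg Subtype.val h3
    simpa using h4
  let σc : (Fin N → Fin N → E) →L[E] (Fin k → Fin l → E) := LinearMap.toContinuousLinearMap σ
  refine ⟨‖σc‖ * C, fun y hy => ⟨y - σ (θ y), ?_, ?_⟩⟩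
  · rw [LinearMap.mem_ker]
    show θ (y - σ (θ y)) = 0
    rw [map_sub, h1, sub_self]
  · rw [sub_sub_cancel]
    have h2 : ‖θ y‖ ≤ C := by
      rw [pi_norm_le_iff_of_nonneg hC]
      intro i
      rw [pi_norm_le_iff_of_nonneg hC]
      intro i'
      exact hb y hy i i'
    have h3 : σ (θ y) = σc (θ y) := rfl
    rw [h3]
    exact (σc.le_opNorm _).trans (mul_le_mul_of_nonneg_left h2 (norm_nonneg _))

variable [MeasurableSpace (Fin k → Fin l → E)] [BorelSpace (Fin k → Fin l → E)]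
  (μ : Measure (Fin k → Fin l → E)) [μ.IsAddHaarMeasure]

/-- **the identity of integrals at one point** -/
theorem eig_point {r j : ℕ} (hrj : r + j = k) (f : IndJ h ρ)
    (hf : ∀ g, (f : GL (Fin N) E → W) g ≠ 0 → j ≤ rkJ h k g) (g : GL (Fin N) E)
    (hg : rkJ h k g = j) {z : Eˣ} {c : ℂ}
    (hc : ∀ w, ρ (zD a r z, zD b j z) w - c • w ∈ cvN ρ ((Nk a r E).prod (Nk b j E)) ⊤) :
    ∃ R₀ : ℝ, ∀ R, R₀ ≤ R → 0 < R → ∀ ℓ : W →ₗ[ℂ] ℂ,
      (∀ x ∈ rel (tauJ h ρ) (Nk N k E : Set (GL (Fin N) E)) Set.univ g, ℓ x = 0) →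
      ∫ y in Metric.closedBall (0 : Fin k → Fin l → E) R,
        ℓ ((f : GL (Fin N) E → W) (g * nU hk y * zD N k z)) ∂μ =
      (((md (z : E) ^ (j * (j + a - k)) : ℝ≥0) : ℝ) : ℂ) * c *
        ∫ y in Metric.closedBall (0 : Fin k → Fin l → E) R,
          ℓ ((f : GL (Fin N) E → W) (g * nU hk y)) ∂μ := by
  obtain ⟨y₀, P, hP, hτ⟩ := eig_pt h hk hrj g hg hc
  obtain ⟨C, hC⟩ := supp_bd h hk f hf g hg
  refine ⟨max C (max (C * ‖(z : E)‖) ‖(z : E) • y₀‖), fun R hR hR0 ℓ hℓ => ?_⟩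
  have hspan : ∀ x ∈ Submodule.span ℂ (rel (tauJ h ρ) (Nk N k E : Set (GL (Fin N) E))
      Set.univ g), ℓ x = 0 := by
    intro x hx
    have h1 : Submodule.span ℂ (rel (tauJ h ρ) (Nk N k E : Set (GL (Fin N) E))
      Set.univ g) ≤ LinearMap.ker ℓ := Submodule.span_le.2 fun x hx => hℓ x hx
    exact h1 hx
  have h1 : ∀ y : Fin k → Fin l → E, ℓ ((f : GL (Fin N) E → W) (g * nU hk y * zD N k z)) =
      c * ℓ ((f : GL (Fin N) E → W) (g * nU hk (y₀ + (z : E)⁻¹ • y))) := by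
    intro y
    have h2 : g * nU hk y * zD N k z =
        (P : GL (Fin N) E) * (g * nU hk (y₀ + (z : E)⁻¹ • y)) := by
      rw [mul_assoc, nU_mul_zD, ← mul_assoc, hP, nU_add]
      group
    rw [h2, indJ_tauJ]
    have h3 := hspan _ (hτ ((f : GL (Fin N) E → W) (g * nU hk (y₀ + (z : E)⁻¹ • y))))
    rw [map_sub, map_smul, smul_eq_mul, sub_eq_zero] at h3
    exact h3
  simp only [h1]
  rw [integral_const_mul]
  have h4 := eig_change μ (LinearMap.ker (thE h hk g))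
    (φ := fun y => ℓ ((f : GL (Fin N) E → W) (g * nU hk y))) (phi_cont h hk f ℓ g)
    (fun s hs v => phi_inv h hk f ℓ g hℓ s hs v) (ρ := C) (fun v hv => hC v (by
      intro h0
      apply hv
      show ℓ _ = 0
      rw [h0, map_zero])) (z := (z : E)) z.ne_zero y₀ (r := R)
    ((le_max_left _ _).trans hR) hR0
    (((le_max_left _ _).trans (le_max_right _ _)).trans hR)
    (((le_max_right _ _).trans (le_max_right _ _)).trans hR)
  have h5 := finrank_ker_thE h hk (by omega) g j (by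
    rw [rank_blkJ h]
    exact hg)
  have h6 : Module.finrank E (Fin k → Fin l → E) -
      Module.finrank E (LinearMap.ker (thE h hk g)) = j * (j + a - k) := by omega
  rw [h6] at h4
  rw [h4]
  push_cast
  ring

/-- the condition on the averages at the point `g` -/
def AvZ (f : IndJ h ρ) (R : ℝ) (g : GL (Fin N) E) : Prop :=
  ∀ ℓ : W →ₗ[ℂ] ℂ,
    (∀ x ∈ rel (tauJ h ρ) (Nk N k E : Set (GL (Fin N) E)) Set.univ g, ℓ x = 0) →
    ∫ y in Metric.closedBall (0 : Fin k → Fin l → E) R,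
      ℓ ((f : GL (Fin N) E → W) (g * nU hk y)) ∂μ = 0

variable {h hk μ}

theorem AvZ.mulP {f : IndJ h ρ} {R : ℝ} {g : GL (Fin N) E} (H : AvZ h hk μ f R g)
    (p : PSJ h E) : AvZ h hk μ f R (p * g) := by
  intro ℓ hℓ
  have h1 := H (ℓ ∘ₗ tauJ h ρ p) (by
    intro x hx
    have h2 := rel_mul_left p g (Submodule.subset_span hx)
    have h3 : Submodule.span ℂ (rel (tauJ h ρ) (Nk N k E : Set (GL (Fin N) E))
      Set.univ (p * g)) ≤ LinearMap.ker ℓ := Submodule.span_le.2 fun x hx => hℓ x hx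
    exact h3 h2)
  rw [← h1]
  refine integral_congr_ae (Eventually.of_forall fun y => ?_)
  show ℓ _ = ℓ _
  rw [mul_assoc, indJ_tauJ]

theorem AvZ.of_nU {f : IndJ h ρ} {R : ℝ} {g : GL (Fin N) E} {y₁ : Fin k → Fin l → E}
    (hy : ‖y₁‖ ≤ R) (H : AvZ h hk μ f R (g * nU hk y₁)) : AvZ h hk μ f R g := by
  intro ℓ hℓ
  have h1 := H ℓ (by
    rintro x ⟨w, -, q, c, hc, hq, rfl⟩
    apply hℓ
    refine ⟨w, Set.mem_univ _, q, nU hk y₁ * c * (nU hk y₁)⁻¹,
      mul_mem (mul_mem (nU_mem hk _) hc) (inv_mem (nU_mem hk _)), ?_, rfl⟩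
    rw [hq]
    group)
  rw [← h1, ← integral_indicator measurableSet_closedBall,
    ← integral_indicator measurableSet_closedBall,
    ← integral_add_left_eq_self (fun y : Fin k → Fin l → E =>
      Set.indicator (Metric.closedBall (0 : Fin k → Fin l → E) R)
        (fun y => ℓ ((f : GL (Fin N) E → W) (g * nU hk y))) y) y₁]
  congr 1
  funext y
  have h2 : ‖y₁ + y‖ ≤ R ↔ ‖y‖ ≤ R := by
    constructor
    · intro h3
      have h4 := eig_ball_sub h3 hy
      rwa [add_sub_cancel_left] at h4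
    · exact fun h3 => eig_ball_add hy h3
  by_cases hy' : ‖y‖ ≤ R
  · rw [Set.indicator_of_mem (by rw [mem_closedBall_zero_iff]; exact h2.2 hy'),
      Set.indicator_of_mem (by rwa [mem_closedBall_zero_iff]), nU_add, mul_assoc]
  · rw [Set.indicator_of_notMem (by rw [mem_closedBall_zero_iff]; exact fun h3 => hy' (h2.1 h3)),
      Set.indicator_of_notMem (by rwa [mem_closedBall_zero_iff])]

/-- the linear map `y ↦ q₁ y q₂⁻¹` -/
def conjT (q1 : GL (Fin k) E) (q2 : GL (Fin l) E) : (Fin k → Fin l → E) ≃ₗ[E] (Fin k → Fin l → E)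
    where
  toFun y := Matrix.of.symm ((q1 : Matrix (Fin k) (Fin k) E) * Matrix.of y *
    ((q2⁻¹ : GL (Fin l) E) : Matrix (Fin l) (Fin l) E))
  invFun y := Matrix.of.symm (((q1⁻¹ : GL (Fin k) E) : Matrix (Fin k) (Fin k) E) * Matrix.of y *
    (q2 : Matrix (Fin l) (Fin l) E))
  map_add' y y' := by
    have h1 : Matrix.of (y + y') = Matrix.of y + Matrix.of y' := rfl
    rw [h1, Matrix.mul_add, Matrix.add_mul]
    rfl
  map_smul' c y := by
    have h1 : Matrix.of (c • y) = c • Matrix.of y := rfl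
    rw [h1, Matrix.mul_smul, Matrix.smul_mul]
    rfl
  left_inv y := by
    have h1 : ((q1⁻¹ : GL (Fin k) E) : Matrix (Fin k) (Fin k) E) *
        (q1 : Matrix (Fin k) (Fin k) E) = 1 := by
      rw [← Units.val_mul, inv_mul_cancel, Units.val_one]
    have h2 : ((q2⁻¹ : GL (Fin l) E) : Matrix (Fin l) (Fin l) E) *
        (q2 : Matrix (Fin l) (Fin l) E) = 1 := by
      rw [← Units.val_mul, inv_mul_cancel, Units.val_one]
    show Matrix.of.symm (((q1⁻¹ : GL (Fin k) E) : Matrix (Fin k) (Fin k) E) *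
        ((q1 : Matrix (Fin k) (Fin k) E) * Matrix.of y *
          ((q2⁻¹ : GL (Fin l) E) : Matrix (Fin l) (Fin l) E)) *
          (q2 : Matrix (Fin l) (Fin l) E)) = y
    have h3 : ((q1⁻¹ : GL (Fin k) E) : Matrix (Fin k) (Fin k) E) *
        ((q1 : Matrix (Fin k) (Fin k) E) * Matrix.of y *
          ((q2⁻¹ : GL (Fin l) E) : Matrix (Fin l) (Fin l) E)) * (q2 : Matrix (Fin l) (Fin l) E) =
        (((q1⁻¹ : GL (Fin k) E) : Matrix (Fin k) (Fin k) E) *
          (q1 : Matrix (Fin k) (Fin k) E)) * Matrix.of y *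
          (((q2⁻¹ : GL (Fin l) E) : Matrix (Fin l) (Fin l) E) *
            (q2 : Matrix (Fin l) (Fin l) E)) := by simp only [Matrix.mul_assoc]
    rw [h3, h1, h2, Matrix.one_mul, Matrix.mul_one, Equiv.symm_apply_apply]
  right_inv y := by
    have h1 : (q1 : Matrix (Fin k) (Fin k) E) *
        ((q1⁻¹ : GL (Fin k) E) : Matrix (Fin k) (Fin k) E) = 1 := by
      rw [← Units.val_mul, mul_inv_cancel, Units.val_one]
    have h2 : (q2 : Matrix (Fin l) (Fin l) E) *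
        ((q2⁻¹ : GL (Fin l) E) : Matrix (Fin l) (Fin l) E) = 1 := by
      rw [← Units.val_mul, mul_inv_cancel, Units.val_one]
    show Matrix.of.symm ((q1 : Matrix (Fin k) (Fin k) E) *
        (((q1⁻¹ : GL (Fin k) E) : Matrix (Fin k) (Fin k) E) * Matrix.of y *
          (q2 : Matrix (Fin l) (Fin l) E)) *
          ((q2⁻¹ : GL (Fin l) E) : Matrix (Fin l) (Fin l) E)) = y
    have h3 : (q1 : Matrix (Fin k) (Fin k) E) *
        (((q1⁻¹ : GL (Fin k) E) : Matrix (Fin k) (Fin k) E) * Matrix.of y *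
          (q2 : Matrix (Fin l) (Fin l) E)) *
          ((q2⁻¹ : GL (Fin l) E) : Matrix (Fin l) (Fin l) E) =
        ((q1 : Matrix (Fin k) (Fin k) E) *
        ((q1⁻¹ : GL (Fin k) E) : Matrix (Fin k) (Fin k) E)) * Matrix.of y *
          ((q2 : Matrix (Fin l) (Fin l) E) *
        ((q2⁻¹ : GL (Fin l) E) : Matrix (Fin l) (Fin l) E)) := by simp only [Matrix.mul_assoc]
    rw [h3, h1, h2, Matrix.one_mul, Matrix.mul_one, Equiv.symm_apply_apply]

theorem conjT_apply (q1 : GL (Fin k) E) (q2 : GL (Fin l) E) (y : Fin k → Fin l → E) :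
    Matrix.of (conjT q1 q2 y) = (q1 : Matrix (Fin k) (Fin k) E) * Matrix.of y *
      ((q2⁻¹ : GL (Fin l) E) : Matrix (Fin l) (Fin l) E) := rfl

theorem pelJ_mul_nU (hk : k + l = N) (q1 : GL (Fin k) E) (q2 : GL (Fin l) E)
    (Y : Matrix (Fin k) (Fin l) E) (y : Fin k → Fin l → E) :
    pelJ hk q1 q2 Y * nU hk y = nU hk (conjT q1 q2 y) * pelJ hk q1 q2 Y := by
  have h2 : ((q2⁻¹ : GL (Fin l) E) : Matrix (Fin l) (Fin l) E) *
        (q2 : Matrix (Fin l) (Fin l) E) = 1 := by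
      rw [← Units.val_mul, inv_mul_cancel, Units.val_one]
  unfold nU
  rw [pelJ_mul, pelJ_mul, mul_one, mul_one, one_mul, one_mul, conjT_apply, Units.val_one,
    Units.val_one, Matrix.mul_one, Matrix.one_mul,
    Matrix.mul_assoc _ _ (q2 : Matrix (Fin l) (Fin l) E), h2, Matrix.mul_one, add_comm]

theorem norm_le_iff_entry {R : ℝ} (hR : 0 ≤ R) (y : Fin k → Fin l → E) :
    ‖y‖ ≤ R ↔ ∀ i j, ‖y i j‖ ≤ R := by
  rw [pi_norm_le_iff_of_nonneg hR]
  exact forall_congr' fun i => pi_norm_le_iff_of_nonneg hR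

theorem conjT_norm {R : ℝ} (hR : 0 ≤ R) {q1 : GL (Fin k) E} {q2 : GL (Fin l) E}
    (h1 : ∀ i j, ‖(q1 : Matrix (Fin k) (Fin k) E) i j‖ ≤ 1)
    (h1' : ∀ i j, ‖((q1⁻¹ : GL (Fin k) E) : Matrix (Fin k) (Fin k) E) i j‖ ≤ 1)
    (h2 : ∀ i j, ‖(q2 : Matrix (Fin l) (Fin l) E) i j‖ ≤ 1)
    (h2' : ∀ i j, ‖((q2⁻¹ : GL (Fin l) E) : Matrix (Fin l) (Fin l) E) i j‖ ≤ 1)
    (y : Fin k → Fin l → E) : ‖conjT q1 q2 y‖ ≤ R ↔ ‖y‖ ≤ R := by
  have key : ∀ (A : Matrix (Fin k) (Fin k) E) (B : Matrix (Fin l) (Fin l) E)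
      (Y : Matrix (Fin k) (Fin l) E), (∀ i j, ‖A i j‖ ≤ 1) → (∀ i j, ‖B i j‖ ≤ 1) →
      (∀ i j, ‖Y i j‖ ≤ R) → ∀ i j, ‖(A * Y * B) i j‖ ≤ R := by
    intro A B Y hA hB hY i j
    have h3 := mul_entry_le (A * Y) B (mul_nonneg zero_le_one hR) zero_le_one
      (mul_entry_le A Y zero_le_one hR hA hY) hB i j
    rwa [one_mul, mul_one] at h3
  rw [norm_le_iff_entry hR, norm_le_iff_entry hR]
  constructor
  · intro h3
    have h4 := key _ _ (Matrix.of (conjT q1 q2 y)) h1' h2 h3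
    have h5 : ((q1⁻¹ : GL (Fin k) E) : Matrix (Fin k) (Fin k) E) * Matrix.of (conjT q1 q2 y) *
        (q2 : Matrix (Fin l) (Fin l) E) = Matrix.of y :=
      congrArg Matrix.of ((conjT q1 q2).symm_apply_apply y)
    rw [h5] at h4
    exact h4
  · intro h3
    exact key _ _ (Matrix.of y) h1 h2' h3

theorem AvZ.mulQ {f : IndJ h ρ} {R : ℝ} (hR : 0 < R) {g : GL (Fin N) E}
    (H : AvZ h hk μ f R g) {q : GL (Fin N) E} (hq1 : q ∈ glK (Fin N) E 1 zero_le_one le_rfl)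
    (hq2 : (1 - prj E {i : Fin N | i.1 < k}) * (q : Matrix (Fin N) (Fin N) E) *
      prj E {i : Fin N | i.1 < k} = 0)
    (hq3 : ∀ x, (f : GL (Fin N) E → W) (x * q) = (f : GL (Fin N) E → W) x) :
    AvZ h hk μ f R (g * q) := by
  obtain ⟨q1, q2, Y, rfl⟩ := mem_PSJ_of_blk hk hq2
  intro ℓ hℓ
  have e1 : ∀ i j, (q1 : Matrix (Fin k) (Fin k) E) i j =
      (pelJ hk q1 q2 Y : Matrix (Fin N) (Fin N) E) (sJ hk (Sum.inl i)) (sJ hk (Sum.inl j)) := by
    intro i j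
    rw [pelJ_val, bmJ_apply, Matrix.fromBlocks_apply₁₁]
  have e2 : ∀ i j, (q2 : Matrix (Fin l) (Fin l) E) i j =
      (pelJ hk q1 q2 Y : Matrix (Fin N) (Fin N) E) (sJ hk (Sum.inr i)) (sJ hk (Sum.inr j)) := by
    intro i j
    rw [pelJ_val, bmJ_apply, Matrix.fromBlocks_apply₂₂]
  have e3 : ∀ i j, ((q1⁻¹ : GL (Fin k) E) : Matrix (Fin k) (Fin k) E) i j =
      (((pelJ hk q1 q2 Y)⁻¹ : GL (Fin N) E) : Matrix (Fin N) (Fin N) E)
        (sJ hk (Sum.inl i)) (sJ hk (Sum.inl j)) := by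
    intro i j
    rw [pelJ_inv, pelJ_val, bmJ_apply, Matrix.fromBlocks_apply₁₁]
  have e4 : ∀ i j, ((q2⁻¹ : GL (Fin l) E) : Matrix (Fin l) (Fin l) E) i j =
      (((pelJ hk q1 q2 Y)⁻¹ : GL (Fin N) E) : Matrix (Fin N) (Fin N) E)
        (sJ hk (Sum.inr i)) (sJ hk (Sum.inr j)) := by
    intro i j
    rw [pelJ_inv, pelJ_val, bmJ_apply, Matrix.fromBlocks_apply₂₂]
  have hn := conjT_norm (R := R) hR.le (q1 := q1) (q2 := q2)
    (fun i j => by rw [e1]; exact glK_entry hq1 _ _)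
    (fun i j => by rw [e3]; exact glK_entry_inv hq1 _ _)
    (fun i j => by rw [e2]; exact glK_entry hq1 _ _)
    (fun i j => by rw [e4]; exact glK_entry_inv hq1 _ _)
  have h1 := H ℓ (by
    rintro x ⟨w, -, p, c, hc, hp, rfl⟩
    apply hℓ
    refine ⟨w, Set.mem_univ _, p, (pelJ hk q1 q2 Y)⁻¹ * c * pelJ hk q1 q2 Y,
      conj_mem_Nk hc hq2, ?_, rfl⟩
    rw [hp]
    group)
  rw [← integral_indicator measurableSet_closedBall] at h1 ⊢
  have h2 := integral_linearEquiv μ (conjT q1 q2)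
    (fun w => Set.indicator (Metric.closedBall (0 : Fin k → Fin l → E) R)
      (fun y => ℓ ((f : GL (Fin N) E → W) (g * nU hk y))) w)
  rw [h1, mul_zero] at h2
  rw [← h2]
  congr 1
  funext y
  by_cases hy : ‖y‖ ≤ R
  · rw [Set.indicator_of_mem (by rwa [mem_closedBall_zero_iff]),
      Set.indicator_of_mem (by rw [mem_closedBall_zero_iff]; exact (hn y).2 hy), mul_assoc,
      pelJ_mul_nU, ← mul_assoc, hq3]
  · rw [Set.indicator_of_notMem (by rwa [mem_closedBall_zero_iff]),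
      Set.indicator_of_notMem (by rw [mem_closedBall_zero_iff]; exact fun h3 => hy ((hn y).1 h3))]

end point

end SpW
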