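import Pool.Agent.Work.MP_3615d2_al.Coinv

/-!
MP_3615d2_al, representations of `GL_N(E)` induced from the parabolic subgroup with two blocks of
sizes `a` and `b`, `a + b = N`: definitions, the Iwasawa decomposition, Frobenius reciprocity and
the bridge to the abstract induced representations.
-/

open MeasureTheory Matrix Filter Topology
open scoped NNReal TensorProduct

set_option linter.unusedSectionVars false

namespace SpW

/-! ### Block matrices -/

section blocks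

variable {a b N : ℕ}

/-- The two blocks of `Fin N`. -/
def sJ (h : a + b = N) : Fin a ⊕ Fin b ≃ Fin N := finSumFinEquiv.trans (finCongr h)

theorem sJ_inl (h : a + b = N) (j : Fin a) : (sJ h (Sum.inl j)).1 = j.1 := by
  simp [sJ]

theorem sJ_inr (h : a + b = N) (i : Fin b) : (sJ h (Sum.inr i)).1 = a + i.1 := by
  simp [sJ]

theorem sJ_lt (h : a + b = N) (i : Fin b) (j : Fin a) :
    sJ h (Sum.inl j) < sJ h (Sum.inr i) := by
  rw [Fin.lt_def, sJ_inl, sJ_inr]
  omega

variable {E : Type} [Field E] (h : a + b = N)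

/-- The block matrix `(A B; C D)`. -/
def bmJ (A : Matrix (Fin a) (Fin a) E) (B : Matrix (Fin a) (Fin b) E)
    (C : Matrix (Fin b) (Fin a) E) (D : Matrix (Fin b) (Fin b) E) : Matrix (Fin N) (Fin N) E :=
  Matrix.reindex (sJ h) (sJ h) (Matrix.fromBlocks A B C D)

theorem bmJ_apply (A : Matrix (Fin a) (Fin a) E) (B : Matrix (Fin a) (Fin b) E)
    (C : Matrix (Fin b) (Fin a) E) (D : Matrix (Fin b) (Fin b) E) (i j : Fin a ⊕ Fin b) :
    bmJ h A B C D (sJ h i) (sJ h j) = Matrix.fromBlocks A B C D i j := by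
  simp [bmJ]

theorem bmJ_mul (A A' : Matrix (Fin a) (Fin a) E) (B B' : Matrix (Fin a) (Fin b) E)
    (C C' : Matrix (Fin b) (Fin a) E) (D D' : Matrix (Fin b) (Fin b) E) :
    bmJ h A B C D * bmJ h A' B' C' D' =
      bmJ h (A * A' + B * C') (A * B' + B * D') (C * A' + D * C') (C * B' + D * D') := by
  unfold bmJ
  rw [Matrix.reindex_apply, Matrix.reindex_apply, Matrix.reindex_apply,
    Matrix.submatrix_mul_equiv, Matrix.fromBlocks_multiply]

theorem bmJ_one : bmJ h (1 : Matrix (Fin a) (Fin a) E) 0 0 1 = 1 := by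
  unfold bmJ
  rw [Matrix.fromBlocks_one, Matrix.reindex_apply, Matrix.submatrix_one_equiv]

/-- The lower left block. -/
def lowLJ (g : Matrix (Fin N) (Fin N) E) : Matrix (Fin b) (Fin a) E :=
  fun i j => g (sJ h (Sum.inr i)) (sJ h (Sum.inl j))

/-- The lower right block. -/
def lowRJ (g : Matrix (Fin N) (Fin N) E) : Matrix (Fin b) (Fin b) E :=
  fun i j => g (sJ h (Sum.inr i)) (sJ h (Sum.inr j))

/-- The upper left block. -/
def upLJ (g : Matrix (Fin N) (Fin N) E) : Matrix (Fin a) (Fin a) E :=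
  fun i j => g (sJ h (Sum.inl i)) (sJ h (Sum.inl j))

/-- The upper right block. -/
def upRJ (g : Matrix (Fin N) (Fin N) E) : Matrix (Fin a) (Fin b) E :=
  fun i j => g (sJ h (Sum.inl i)) (sJ h (Sum.inr j))

theorem lowLJ_bmJ (A : Matrix (Fin a) (Fin a) E) (B : Matrix (Fin a) (Fin b) E)
    (C : Matrix (Fin b) (Fin a) E) (D : Matrix (Fin b) (Fin b) E) :
    lowLJ h (bmJ h A B C D) = C := by
  ext i j
  simp [lowLJ, bmJ]

theorem lowRJ_bmJ (A : Matrix (Fin a) (Fin a) E) (B : Matrix (Fin a) (Fin b) E)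
    (C : Matrix (Fin b) (Fin a) E) (D : Matrix (Fin b) (Fin b) E) :
    lowRJ h (bmJ h A B C D) = D := by
  ext i j
  simp [lowRJ, bmJ]

theorem upLJ_bmJ (A : Matrix (Fin a) (Fin a) E) (B : Matrix (Fin a) (Fin b) E)
    (C : Matrix (Fin b) (Fin a) E) (D : Matrix (Fin b) (Fin b) E) :
    upLJ h (bmJ h A B C D) = A := by
  ext i j
  simp [upLJ, bmJ]

theorem upRJ_bmJ (A : Matrix (Fin a) (Fin a) E) (B : Matrix (Fin a) (Fin b) E)
    (C : Matrix (Fin b) (Fin a) E) (D : Matrix (Fin b) (Fin b) E) :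
    upRJ h (bmJ h A B C D) = B := by
  ext i j
  simp [upRJ, bmJ]

/-- Every matrix is a block matrix. -/
theorem bmJ_blocks (g : Matrix (Fin N) (Fin N) E) :
    bmJ h (upLJ h g) (upRJ h g) (lowLJ h g) (lowRJ h g) = g := by
  ext i j
  obtain ⟨i, rfl⟩ := (sJ h).surjective i
  obtain ⟨j, rfl⟩ := (sJ h).surjective j
  rw [bmJ_apply]
  rcases i with i | i <;> rcases j with j | j <;> rfl

/-- The element `(p y; 0 q)`. -/
def pelJ (p : GL (Fin a) E) (q : GL (Fin b) E) (y : Matrix (Fin a) (Fin b) E) :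
    GL (Fin N) E where
  val := bmJ h p y 0 q
  inv := bmJ h ((p⁻¹ : GL (Fin a) E) : Matrix (Fin a) (Fin a) E)
    (-(((p⁻¹ : GL (Fin a) E) : Matrix (Fin a) (Fin a) E) * y *
      ((q⁻¹ : GL (Fin b) E) : Matrix (Fin b) (Fin b) E))) 0
    ((q⁻¹ : GL (Fin b) E) : Matrix (Fin b) (Fin b) E)
  val_inv := by
    rw [bmJ_mul, ← bmJ_one h]
    have ha : (p : Matrix (Fin a) (Fin a) E) * ((p⁻¹ : GL (Fin a) E) : Matrix (Fin a) (Fin a) E) =
        1 := by rw [← Units.val_mul, mul_inv_cancel, Units.val_one]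
    have hd : (q : Matrix (Fin b) (Fin b) E) * ((q⁻¹ : GL (Fin b) E) : Matrix (Fin b) (Fin b) E) =
        1 := by rw [← Units.val_mul, mul_inv_cancel, Units.val_one]
    congr 1
    · rw [ha, Matrix.mul_zero, add_zero]
    · rw [Matrix.mul_neg, ← Matrix.mul_assoc, ← Matrix.mul_assoc, ha, Matrix.one_mul,
        neg_add_cancel]
    · rw [Matrix.zero_mul, Matrix.mul_zero, add_zero]
    · rw [Matrix.zero_mul, zero_add, hd]
  inv_val := by
    rw [bmJ_mul, ← bmJ_one h]
    have ha : ((p⁻¹ : GL (Fin a) E) : Matrix (Fin a) (Fin a) E) * (p : Matrix (Fin a) (Fin a) E) =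
        1 := by rw [← Units.val_mul, inv_mul_cancel, Units.val_one]
    have hd : ((q⁻¹ : GL (Fin b) E) : Matrix (Fin b) (Fin b) E) * (q : Matrix (Fin b) (Fin b) E) =
        1 := by rw [← Units.val_mul, inv_mul_cancel, Units.val_one]
    congr 1
    · rw [ha, Matrix.mul_zero, add_zero]
    · rw [Matrix.neg_mul, Matrix.mul_assoc _ _ (q : Matrix (Fin b) (Fin b) E), hd,
        Matrix.mul_one, add_neg_cancel]
    · rw [Matrix.zero_mul, Matrix.mul_zero, add_zero]
    · rw [Matrix.zero_mul, zero_add, hd]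

theorem pelJ_val (p : GL (Fin a) E) (q : GL (Fin b) E) (y : Matrix (Fin a) (Fin b) E) :
    (pelJ h p q y : Matrix (Fin N) (Fin N) E) = bmJ h p y 0 q := rfl

theorem pelJ_mul (p p' : GL (Fin a) E) (q q' : GL (Fin b) E) (y y' : Matrix (Fin a) (Fin b) E) :
    pelJ h p q y * pelJ h p' q' y' = pelJ h (p * p') (q * q')
      ((p : Matrix (Fin a) (Fin a) E) * y' + y * (q' : Matrix (Fin b) (Fin b) E)) := by
  apply Units.ext
  show bmJ h p y 0 q * bmJ h p' y' 0 q' = bmJ h _ _ 0 _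
  rw [bmJ_mul]
  congr 1
  · rw [Matrix.mul_zero, add_zero]; rfl
  · rw [Matrix.zero_mul, Matrix.mul_zero, add_zero]
  · rw [Matrix.zero_mul, zero_add]; rfl

theorem pelJ_one : pelJ h (1 : GL (Fin a) E) 1 0 = 1 := by
  apply Units.ext
  exact bmJ_one h

theorem pelJ_inv (p : GL (Fin a) E) (q : GL (Fin b) E) (y : Matrix (Fin a) (Fin b) E) :
    (pelJ h p q y)⁻¹ = pelJ h p⁻¹ q⁻¹ (-(((p⁻¹ : GL (Fin a) E) : Matrix (Fin a) (Fin a) E) * y *
      ((q⁻¹ : GL (Fin b) E) : Matrix (Fin b) (Fin b) E))) := by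
  apply Units.ext
  rfl

theorem pelJ_injective {p p' : GL (Fin a) E} {q q' : GL (Fin b) E}
    {y y' : Matrix (Fin a) (Fin b) E} (e : pelJ h p q y = pelJ h p' q' y') :
    p = p' ∧ q = q' ∧ y = y' := by
  have h1 : bmJ h (p : Matrix (Fin a) (Fin a) E) y 0 (q : Matrix (Fin b) (Fin b) E) =
      bmJ h (p' : Matrix (Fin a) (Fin a) E) y' 0 (q' : Matrix (Fin b) (Fin b) E) :=
    congrArg Units.val e
  have h2 := (Matrix.reindex (sJ h) (sJ h)).injective h1
  rw [Matrix.fromBlocks_inj] at h2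
  exact ⟨Units.ext h2.1, Units.ext h2.2.2.2, h2.2.1⟩

/-- the case of two equal blocks -/
theorem pelJ_two {m : ℕ} (p q : GL (Fin m) E) (y : Matrix (Fin m) (Fin m) E) :
    pelJ (two_mul m).symm p q y = pel p q y := rfl

theorem lowLJ_pelJ (p : GL (Fin a) E) (q : GL (Fin b) E) (y : Matrix (Fin a) (Fin b) E) :
    lowLJ h (pelJ h p q y : Matrix (Fin N) (Fin N) E) = 0 := lowLJ_bmJ h _ _ _ _

theorem pelJ_mul_blocks (p : GL (Fin a) E) (q : GL (Fin b) E) (y : Matrix (Fin a) (Fin b) E)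
    (g : Matrix (Fin N) (Fin N) E) :
    (pelJ h p q y : Matrix (Fin N) (Fin N) E) * g =
      bmJ h ((p : Matrix (Fin a) (Fin a) E) * upLJ h g + y * lowLJ h g)
        ((p : Matrix (Fin a) (Fin a) E) * upRJ h g + y * lowRJ h g)
        ((q : Matrix (Fin b) (Fin b) E) * lowLJ h g)
        ((q : Matrix (Fin b) (Fin b) E) * lowRJ h g) := by
  have h1 : (pelJ h p q y : Matrix (Fin N) (Fin N) E) * g =
      bmJ h p y 0 q * bmJ h (upLJ h g) (upRJ h g) (lowLJ h g) (lowRJ h g) := by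
    rw [bmJ_blocks]
    rfl
  rw [h1, bmJ_mul, Matrix.zero_mul, zero_add, Matrix.zero_mul, zero_add]

theorem mul_pelJ_blocks (p : GL (Fin a) E) (q : GL (Fin b) E) (y : Matrix (Fin a) (Fin b) E)
    (g : Matrix (Fin N) (Fin N) E) :
    g * (pelJ h p q y : Matrix (Fin N) (Fin N) E) =
      bmJ h (upLJ h g * (p : Matrix (Fin a) (Fin a) E))
        (upLJ h g * y + upRJ h g * (q : Matrix (Fin b) (Fin b) E))
        (lowLJ h g * (p : Matrix (Fin a) (Fin a) E))
        (lowLJ h g * y + lowRJ h g * (q : Matrix (Fin b) (Fin b) E)) := by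
  have h1 : g * (pelJ h p q y : Matrix (Fin N) (Fin N) E) =
      bmJ h (upLJ h g) (upRJ h g) (lowLJ h g) (lowRJ h g) * bmJ h p y 0 q := by
    rw [bmJ_blocks]
    rfl
  rw [h1, bmJ_mul, Matrix.mul_zero, add_zero, Matrix.mul_zero, add_zero]

theorem lowLJ_pelJ_mul (p : GL (Fin a) E) (q : GL (Fin b) E) (y : Matrix (Fin a) (Fin b) E)
    (g : Matrix (Fin N) (Fin N) E) :
    lowLJ h ((pelJ h p q y : Matrix (Fin N) (Fin N) E) * g) =
      (q : Matrix (Fin b) (Fin b) E) * lowLJ h g := by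
  rw [pelJ_mul_blocks, lowLJ_bmJ]

theorem lowRJ_pelJ_mul (p : GL (Fin a) E) (q : GL (Fin b) E) (y : Matrix (Fin a) (Fin b) E)
    (g : Matrix (Fin N) (Fin N) E) :
    lowRJ h ((pelJ h p q y : Matrix (Fin N) (Fin N) E) * g) =
      (q : Matrix (Fin b) (Fin b) E) * lowRJ h g := by
  rw [pelJ_mul_blocks, lowRJ_bmJ]

/-- **The lower left block criterion**. -/
theorem exists_pelJ_iff (g : GL (Fin N) E) :
    (∃ p q y, g = pelJ h p q y) ↔ lowLJ h (g : Matrix (Fin N) (Fin N) E) = 0 := by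
  constructor
  · rintro ⟨p, q, y, rfl⟩
    exact lowLJ_pelJ h p q y
  · intro hl
    have h0 := bmJ_blocks h (g : Matrix (Fin N) (Fin N) E)
    rw [hl] at h0
    have hdet : IsUnit (bmJ h (upLJ h (g : Matrix (Fin N) (Fin N) E))
        (upRJ h (g : Matrix (Fin N) (Fin N) E)) 0
        (lowRJ h (g : Matrix (Fin N) (Fin N) E))).det := by
      rw [h0]
      exact Matrix.isUnits_det_units g
    have hdet2 : (bmJ h (upLJ h (g : Matrix (Fin N) (Fin N) E))
        (upRJ h (g : Matrix (Fin N) (Fin N) E)) 0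
        (lowRJ h (g : Matrix (Fin N) (Fin N) E))).det =
        (upLJ h (g : Matrix (Fin N) (Fin N) E)).det *
          (lowRJ h (g : Matrix (Fin N) (Fin N) E)).det := by
      unfold bmJ
      rw [Matrix.det_reindex_self, Matrix.det_fromBlocks_zero₂₁]
    rw [hdet2] at hdet
    refine ⟨Matrix.GeneralLinearGroup.mk'' _ (isUnit_of_mul_isUnit_left hdet),
      Matrix.GeneralLinearGroup.mk'' _ (isUnit_of_mul_isUnit_right hdet),
      upRJ h (g : Matrix (Fin N) (Fin N) E), ?_⟩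
    apply Units.ext
    exact h0.symm

/-- `Nk N a` consists of the elements `(1 y; 0 1)`. -/
theorem mem_Nk_J (u : GL (Fin N) E) : u ∈ Nk N a E ↔ ∃ y, u = pelJ h 1 1 y := by
  constructor
  · intro hu
    refine ⟨upRJ h (u : Matrix (Fin N) (Fin N) E), ?_⟩
    apply Units.ext
    ext i j
    obtain ⟨i, rfl⟩ := (sJ h).surjective i
    obtain ⟨j, rfl⟩ := (sJ h).surjective j
    rw [pelJ_val, bmJ_apply]
    have hs : (sJ h i = sJ h j) ↔ i = j := (sJ h).apply_eq_iff_eq
    rcases i with i | i <;> rcases j with j | j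
    · rw [hu _ _ (by rw [sJ_inl, sJ_inl]; have := j.2; omega), Matrix.fromBlocks_apply₁₁,
        Matrix.one_apply, Units.val_one, Matrix.one_apply]
      simp
    · rfl
    · rw [hu _ _ (by rw [sJ_inr, sJ_inl]; omega), Matrix.fromBlocks_apply₂₁, Matrix.one_apply]
      simp
    · rw [hu _ _ (by rw [sJ_inr, sJ_inr]; omega), Matrix.fromBlocks_apply₂₂,
        Matrix.one_apply, Units.val_one, Matrix.one_apply]
      simp
  · rintro ⟨y, rfl⟩ i j hij
    obtain ⟨i, rfl⟩ := (sJ h).surjective i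
    obtain ⟨j, rfl⟩ := (sJ h).surjective j
    rw [pelJ_val, bmJ_apply, Matrix.one_apply]
    have hs : (sJ h i = sJ h j) ↔ i = j := (sJ h).apply_eq_iff_eq
    rcases i with i | i <;> rcases j with j | j
    · rw [Matrix.fromBlocks_apply₁₁, Units.val_one, Matrix.one_apply]
      simp
    · exfalso
      apply hij
      rw [sJ_inl, sJ_inr]
      have := i.2
      exact ⟨this, by omega⟩
    · rw [Matrix.fromBlocks_apply₂₁]
      simp
    · rw [Matrix.fromBlocks_apply₂₂, Units.val_one, Matrix.one_apply]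
      simp

theorem scalar_eq_pelJ (z : Eˣ) : Matrix.GeneralLinearGroup.scalar (Fin N) z =
    pelJ h (Matrix.GeneralLinearGroup.scalar (Fin a) z)
      (Matrix.GeneralLinearGroup.scalar (Fin b) z) 0 := by
  apply Units.ext
  ext i j
  obtain ⟨i, rfl⟩ := (sJ h).surjective i
  obtain ⟨j, rfl⟩ := (sJ h).surjective j
  rw [pelJ_val, bmJ_apply]
  have hs : (sJ h i = sJ h j) ↔ i = j := (sJ h).apply_eq_iff_eq
  rcases i with i | i <;> rcases j with j | j <;>
    simp [Matrix.diagonal_apply]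

end blocks

/-! ### Induced representations -/

section ind

variable {E : Type} [NontriviallyNormedField E] {a b N : ℕ} (h : a + b = N)
  {W : Type} [AddCommGroup W] [Module ℂ W]

/-- The induced representation space: functions `f` with `f(pg) = ρ(p) f(g)`, right smooth. -/
def IndJ (ρ : (GL (Fin a) E × GL (Fin b) E) →* Module.End ℂ W) :
    Submodule ℂ (GL (Fin N) E → W) where
  carrier := {f | (∀ p q y g, f (pelJ h p q y * g) = ρ (p, q) (f g)) ∧
    ∀ᶠ k in 𝓝 (1 : GL (Fin N) E), ∀ g, f (g * k) = f g}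
  add_mem' := by
    rintro f f' ⟨h1, h2⟩ ⟨h3, h4⟩
    refine ⟨fun p q y g => ?_, ?_⟩
    · rw [Pi.add_apply, Pi.add_apply, h1, h3, map_add]
    · filter_upwards [h2, h4] with k hk hk' g
      rw [Pi.add_apply, Pi.add_apply, hk, hk']
  zero_mem' := ⟨fun p q y g => by simp, by filter_upwards with k g using rfl⟩
  smul_mem' := by
    rintro c f ⟨h1, h2⟩
    refine ⟨fun p q y g => ?_, ?_⟩
    · rw [Pi.smul_apply, Pi.smul_apply, h1, map_smul]
    · filter_upwards [h2] with k hk g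
      rw [Pi.smul_apply, Pi.smul_apply, hk]

theorem mem_IndJ {ρ : (GL (Fin a) E × GL (Fin b) E) →* Module.End ℂ W} {f : GL (Fin N) E → W} :
    f ∈ IndJ h ρ ↔ (∀ p q y g, f (pelJ h p q y * g) = ρ (p, q) (f g)) ∧
      ∀ᶠ k in 𝓝 (1 : GL (Fin N) E), ∀ g, f (g * k) = f g := Iff.rfl

/-- the case of two equal blocks -/
theorem IndJ_two {m : ℕ} (ρ : (GL (Fin m) E × GL (Fin m) E) →* Module.End ℂ W) :
    IndJ (two_mul m).symm ρ = Ind ρ := rfl

/-- The action of `G` by right translation. -/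
def indActJ (ρ : (GL (Fin a) E × GL (Fin b) E) →* Module.End ℂ W) :
    GL (Fin N) E →* Module.End ℂ (IndJ h ρ) where
  toFun g :=
    { toFun := fun f => ⟨fun x => (f : GL (Fin N) E → W) (x * g), by
        refine ⟨fun p q y x => ?_, ?_⟩
        · show (f : GL (Fin N) E → W) (pelJ h p q y * x * g) =
            ρ (p, q) ((f : GL (Fin N) E → W) (x * g))
          rw [mul_assoc]
          exact f.2.1 p q y (x * g)
        · have h0 : Tendsto (fun k : GL (Fin N) E => g⁻¹ * k * g) (𝓝 1) (𝓝 1) := by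
            have : ContinuousAt (fun k : GL (Fin N) E => g⁻¹ * k * g) 1 := by fun_prop
            simpa [ContinuousAt] using this
          filter_upwards [h0.eventually f.2.2] with k hk x
          have h1 := hk (x * g)
          rw [← h1]
          refine congrArg _ ?_
          group⟩
      map_add' := fun f f' => rfl
      map_smul' := fun c f => rfl }
  map_one' := by
    apply LinearMap.ext
    intro f
    apply Subtype.ext
    funext x
    show (f : GL (Fin N) E → W) (x * 1) = (f : GL (Fin N) E → W) x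
    rw [mul_one]
  map_mul' g k := by
    apply LinearMap.ext
    intro f
    apply Subtype.ext
    funext x
    show (f : GL (Fin N) E → W) (x * (g * k)) = (f : GL (Fin N) E → W) (x * g * k)
    rw [mul_assoc]

theorem indActJ_apply (ρ : (GL (Fin a) E × GL (Fin b) E) →* Module.End ℂ W)
    (g : GL (Fin N) E) (f : IndJ h ρ) (x : GL (Fin N) E) :
    ((indActJ h ρ g f : IndJ h ρ) : GL (Fin N) E → W) x =
      (f : GL (Fin N) E → W) (x * g) := rfl

theorem indJ_smooth (ρ : (GL (Fin a) E × GL (Fin b) E) →* Module.End ℂ W) :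
    IsSmoothRep (indActJ h ρ) := by
  intro f
  filter_upwards [f.2.2] with k hk
  apply Subtype.ext
  funext x
  exact hk x

theorem indJ_unitCentral (ρ : (GL (Fin a) E × GL (Fin b) E) →* Module.End ℂ W) (χ : Eˣ → ℂ)
    (hχ : ∀ z w, ρ (Matrix.GeneralLinearGroup.scalar (Fin a) z,
      Matrix.GeneralLinearGroup.scalar (Fin b) z) w = χ z • w) (z : Eˣ) (f : IndJ h ρ) :
    indActJ h ρ (Matrix.GeneralLinearGroup.scalar (Fin N) z) f = χ z • f := by
  apply Subtype.ext
  funext x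
  rw [indActJ_apply, ← scalZ_central _ ⟨z, rfl⟩ x, scalar_eq_pelJ h, f.2.1, hχ]
  rfl

theorem indJ_isLocallyConstant {ρ : (GL (Fin a) E × GL (Fin b) E) →* Module.End ℂ W}
    (f : IndJ h ρ) : IsLocallyConstant (f : GL (Fin N) E → W) := by
  rw [IsLocallyConstant.iff_eventually_eq]
  intro g
  have h0 : Tendsto (fun y : GL (Fin N) E => g⁻¹ * y) (𝓝 g) (𝓝 1) := by
    have : ContinuousAt (fun y : GL (Fin N) E => g⁻¹ * y) g := by fun_prop
    simpa [ContinuousAt] using this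
  filter_upwards [h0.eventually f.2.2] with y hy
  have h1 := hy g
  rwa [mul_inv_cancel_left] at h1

/-- evaluation at `1` -/
theorem indJ_eval_pelJ (ρ : (GL (Fin a) E × GL (Fin b) E) →* Module.End ℂ W) (f : IndJ h ρ)
    (p : GL (Fin a) E) (q : GL (Fin b) E) (y : Matrix (Fin a) (Fin b) E) :
    ((indActJ h ρ (pelJ h p q y) f : IndJ h ρ) : GL (Fin N) E → W) 1 =
      ρ (p, q) ((f : GL (Fin N) E → W) 1) := by
  rw [indActJ_apply, one_mul, ← mul_one (pelJ h p q y), f.2.1]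

theorem indJ_eval_unip (ρ : (GL (Fin a) E × GL (Fin b) E) →* Module.End ℂ W) (f : IndJ h ρ)
    (y : Matrix (Fin a) (Fin b) E) :
    ((indActJ h ρ (pelJ h 1 1 y) f : IndJ h ρ) : GL (Fin N) E → W) 1 =
      (f : GL (Fin N) E → W) 1 := by
  rw [indJ_eval_pelJ]
  have : ((1 : GL (Fin a) E), (1 : GL (Fin b) E)) = 1 := rfl
  rw [this, map_one, Module.End.one_apply]

/-- evaluation at `1` as a linear map -/
def evJ (ρ : (GL (Fin a) E × GL (Fin b) E) →* Module.End ℂ W) : IndJ h ρ →ₗ[ℂ] W where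
  toFun f := (f : GL (Fin N) E → W) 1
  map_add' _ _ := rfl
  map_smul' _ _ := rfl

theorem evJ_apply (ρ : (GL (Fin a) E × GL (Fin b) E) →* Module.End ℂ W) (f : IndJ h ρ) :
    evJ h ρ f = (f : GL (Fin N) E → W) 1 := rfl

/-- evaluation at `1` kills the coinvariants -/
theorem evJ_cvN (ρ : (GL (Fin a) E × GL (Fin b) E) →* Module.End ℂ W) {f : IndJ h ρ}
    (hf : f ∈ cvN (indActJ h ρ) (Nk N a E) ⊤) : evJ h ρ f = 0 := by
  have h1 : cvN (indActJ h ρ) (Nk N a E) ⊤ ≤ LinearMap.ker (evJ h ρ) := by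
    refine Submodule.span_le.2 ?_
    rintro _ ⟨n, hn, v, -, rfl⟩
    obtain ⟨y, rfl⟩ := (mem_Nk_J h n).1 hn
    rw [SetLike.mem_coe, LinearMap.mem_ker, map_sub, sub_eq_zero]
    exact indJ_eval_unip h ρ v y
  exact h1 hf

/-- Frobenius: an equivariant map to an induced representation from a representation without
coinvariants is zero -/
theorem hom_indJ_eq_zero (ρ : (GL (Fin a) E × GL (Fin b) E) →* Module.End ℂ W)
    {V : Type} [AddCommGroup V] [Module ℂ V] {π : GL (Fin N) E →* Module.End ℂ V}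
    (hV : cvN π (Nk N a E) ⊤ = ⊤) (Ψ : V →ₗ[ℂ] IndJ h ρ)
    (hΨ : ∀ g v, Ψ (π g v) = indActJ h ρ g (Ψ v)) : Ψ = 0 := by
  have h1 : cvN π (Nk N a E) ⊤ ≤ LinearMap.ker ((evJ h ρ).comp Ψ) := by
    refine Submodule.span_le.2 ?_
    rintro _ ⟨n, hn, v, -, rfl⟩
    obtain ⟨y, rfl⟩ := (mem_Nk_J h n).1 hn
    rw [SetLike.mem_coe, LinearMap.mem_ker, map_sub, sub_eq_zero]
    show (Ψ (π (pelJ h 1 1 y) v) : GL (Fin N) E → W) 1 = (Ψ v : GL (Fin N) E → W) 1
    rw [hΨ, indJ_eval_unip]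
  rw [hV] at h1
  have h2 : ∀ v, (Ψ v : GL (Fin N) E → W) 1 = 0 := fun v => h1 (Submodule.mem_top (x := v))
  apply LinearMap.ext
  intro v
  apply Subtype.ext
  funext g
  have h3 := h2 (π g v)
  rw [hΨ, indActJ_apply, one_mul] at h3
  exact h3

/-- Frobenius reciprocity. -/
theorem exists_frobJ {A : Type} [AddCommGroup A] [Module ℂ A]
    (ρ : (GL (Fin a) E × GL (Fin b) E) →* Module.End ℂ W)
    (πA : GL (Fin N) E →* Module.End ℂ A) (hA : IsSmoothRep πA) (φ : A →ₗ[ℂ] W)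
    (hφ : ∀ p q y v, φ (πA (pelJ h p q y) v) = ρ (p, q) (φ v)) :
    ∃ F : A →ₗ[ℂ] IndJ h ρ, (∀ g v, F (πA g v) = indActJ h ρ g (F v)) ∧
      (∀ v, ((F v : IndJ h ρ) : GL (Fin N) E → W) 1 = φ v) ∧
      ∀ v g, ((F v : IndJ h ρ) : GL (Fin N) E → W) g = φ (πA g v) := by
  let F : A →ₗ[ℂ] IndJ h ρ :=
    { toFun := fun v => ⟨fun g => φ (πA g v), by
        refine ⟨fun p q y g => ?_, ?_⟩
        · show φ (πA (pelJ h p q y * g) v) = ρ (p, q) (φ (πA g v))
          rw [map_mul, Module.End.mul_apply, hφ]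
        · have h1 : ∀ᶠ k in 𝓝 (1 : GL (Fin N) E), πA k v = v := hA v
          filter_upwards [h1] with k hk g
          show φ (πA (g * k) v) = φ (πA g v)
          rw [map_mul, Module.End.mul_apply, hk]⟩
      map_add' := by
        intro v w
        apply Subtype.ext
        funext g
        show φ (πA g (v + w)) = φ (πA g v) + φ (πA g w)
        rw [map_add, map_add]
      map_smul' := by
        intro c v
        apply Subtype.ext
        funext g
        show φ (πA g (c • v)) = c • φ (πA g v)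
        rw [map_smul, map_smul] }
  refine ⟨F, fun g v => ?_, fun v => ?_, fun v g => rfl⟩
  · apply Subtype.ext
    funext x
    rw [indActJ_apply]
    show φ (πA x (πA g v)) = φ (πA (x * g) v)
    rw [map_mul, Module.End.mul_apply]
  · show φ (πA 1 v) = φ v
    rw [map_one, Module.End.one_apply]

/-- An element of `IndJ` whose translates vanish at `1` is zero. -/
theorem indJ_ext_one (ρ : (GL (Fin a) E × GL (Fin b) E) →* Module.End ℂ W) (f : IndJ h ρ)
    (h0 : ∀ g, ((indActJ h ρ g f : IndJ h ρ) : GL (Fin N) E → W) 1 = 0) : f = 0 := by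
  apply Subtype.ext
  funext g
  have h1 := h0 g
  rw [indActJ_apply, one_mul] at h1
  exact h1

end ind

section iwa

variable {E : Type} [NontriviallyNormedField E] [IsUltrametricDist E] {a b N : ℕ} (h : a + b = N)

/-- **Iwasawa decomposition** `G = P K`. -/
theorem iwasawaJ (g : GL (Fin N) E) :
    ∃ (p : GL (Fin a) E) (q : GL (Fin b) E) (y : Matrix (Fin a) (Fin b) E),
      ∃ k ∈ glK (Fin N) E 1 zero_le_one le_rfl, g = pelJ h p q y * k := by
  obtain ⟨k, hk, h0⟩ := exists_upper (g : Matrix (Fin N) (Fin N) E)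
  have h1 : lowLJ h ((g * k : GL (Fin N) E) : Matrix (Fin N) (Fin N) E) = 0 := by
    ext i j
    exact h0 _ _ (sJ_lt h i j)
  obtain ⟨p, q, y, h2⟩ := (exists_pelJ_iff h (g * k)).2 h1
  refine ⟨p, q, y, k⁻¹, (glK (Fin N) E 1 zero_le_one le_rfl).inv_mem hk, ?_⟩
  rw [← h2, mul_assoc, mul_inv_cancel, mul_one]

end iwa

/-! ### the parabolic subgroup and its representation -/

section par

variable {E : Type} [NontriviallyNormedField E] {a b N : ℕ} (h : a + b = N)
  {W : Type} [AddCommGroup W] [Module ℂ W]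

/-- the parabolic subgroup -/
def PSJ (h : a + b = N) (E : Type) [Field E] : Subgroup (GL (Fin N) E) where
  carrier := {g | ∃ p q y, g = pelJ h p q y}
  mul_mem' := by
    rintro _ _ ⟨p, q, y, rfl⟩ ⟨p', q', y', rfl⟩
    exact ⟨_, _, _, pelJ_mul h _ _ _ _ _ _⟩
  one_mem' := ⟨1, 1, 0, (pelJ_one h).symm⟩
  inv_mem' := by
    rintro _ ⟨p, q, y, rfl⟩
    exact ⟨_, _, _, pelJ_inv h p q y⟩

theorem mem_PSJ {g : GL (Fin N) E} : g ∈ PSJ h E ↔ ∃ p q y, g = pelJ h p q y := Iff.rfl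

variable {h}

/-- the upper block of an element of the parabolic subgroup -/
noncomputable def pAJ (g : PSJ h E) : GL (Fin a) E :=
  Exists.choose (g.2 : ∃ p q y, _ = pelJ h p q y)

/-- the lower block of an element of the parabolic subgroup -/
noncomputable def pDJ (g : PSJ h E) : GL (Fin b) E :=
  Exists.choose (Exists.choose_spec (g.2 : ∃ p q y, _ = pelJ h p q y))

theorem exists_pelJ (g : PSJ h E) : ∃ y, (g : GL (Fin N) E) = pelJ h (pAJ g) (pDJ g) y :=
  Exists.choose_spec (Exists.choose_spec (g.2 : ∃ p q y, _ = pelJ h p q y))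

theorem pAJ_eq {g : PSJ h E} {p : GL (Fin a) E} {q : GL (Fin b) E}
    {y : Matrix (Fin a) (Fin b) E} (e : (g : GL (Fin N) E) = pelJ h p q y) : pAJ g = p := by
  obtain ⟨y₁, h₁⟩ := exists_pelJ g
  exact (pelJ_injective h (h₁.symm.trans e)).1

theorem pDJ_eq {g : PSJ h E} {p : GL (Fin a) E} {q : GL (Fin b) E}
    {y : Matrix (Fin a) (Fin b) E} (e : (g : GL (Fin N) E) = pelJ h p q y) : pDJ g = q := by
  obtain ⟨y₁, h₁⟩ := exists_pelJ g
  exact (pelJ_injective h (h₁.symm.trans e)).2.1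

theorem exists_pelJ_mul (g g' : PSJ h E) : ∃ y, ((g * g' : PSJ h E) : GL (Fin N) E) =
    pelJ h (pAJ g * pAJ g') (pDJ g * pDJ g') y := by
  obtain ⟨y₁, h₁⟩ := exists_pelJ g
  obtain ⟨y₂, h₂⟩ := exists_pelJ g'
  refine ⟨(pAJ g : Matrix (Fin a) (Fin a) E) * y₂ + y₁ * (pDJ g' : Matrix (Fin b) (Fin b) E), ?_⟩
  rw [← pelJ_mul, ← h₁, ← h₂]
  rfl

variable (h) in
/-- the representation of the parabolic subgroup -/
noncomputable def tauJ (ρ : (GL (Fin a) E × GL (Fin b) E) →* Module.End ℂ W) :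
    PSJ h E →* Module.End ℂ W where
  toFun g := ρ (pAJ g, pDJ g)
  map_one' := by
    have h0 : ((1 : PSJ h E) : GL (Fin N) E) = pelJ h 1 1 0 := (pelJ_one h).symm
    rw [pAJ_eq h0, pDJ_eq h0]
    exact map_one ρ
  map_mul' g g' := by
    obtain ⟨y, h0⟩ := exists_pelJ_mul g g'
    rw [pAJ_eq h0, pDJ_eq h0, ← map_mul, Prod.mk_mul_mk]

theorem tauJ_pelJ (ρ : (GL (Fin a) E × GL (Fin b) E) →* Module.End ℂ W) (g : PSJ h E)
    {p : GL (Fin a) E} {q : GL (Fin b) E} {y : Matrix (Fin a) (Fin b) E}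
    (e : (g : GL (Fin N) E) = pelJ h p q y) : tauJ h ρ g = ρ (p, q) := by
  show ρ (pAJ g, pDJ g) = _
  rw [pAJ_eq e, pDJ_eq e]

theorem mem_indE_tauJ {ρ : (GL (Fin a) E × GL (Fin b) E) →* Module.End ℂ W}
    {f : GL (Fin N) E → W} : f ∈ indE (PSJ h E) (tauJ h ρ) ↔
      ∀ p q y g, f (pelJ h p q y * g) = ρ (p, q) (f g) := by
  constructor
  · intro h0 p q y g
    have h1 := h0 ⟨pelJ h p q y, ⟨p, q, y, rfl⟩⟩ g
    rw [tauJ_pelJ ρ _ rfl] at h1
    exact h1
  · rintro h0 ⟨_, p, q, y, rfl⟩ g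
    rw [tauJ_pelJ ρ _ rfl]
    exact h0 p q y g

variable (h)

theorem indS_eq_IndJ [IsUltrametricDist E] [ProperSpace E]
    (ρ : (GL (Fin a) E × GL (Fin b) E) →* Module.End ℂ W) :
    indS (PSJ h E) (tauJ h ρ) = IndJ h ρ := by
  ext f
  constructor
  · rintro ⟨h1, K, hK, h2⟩
    refine ⟨mem_indE_tauJ.1 h1, ?_⟩
    filter_upwards [hK.mem_nhds K.one_mem] with k hk g
    exact h2 g k hk
  · rintro ⟨h1, h2⟩
    obtain ⟨K, hKo, -, hK⟩ := gl_basis _ h2
    exact ⟨mem_indE_tauJ.2 h1, K, hKo, fun g k hk => hK hk g⟩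

theorem mem_cvN_of_coiJ [IsUltrametricDist E] [ProperSpace E]
    {ρ : (GL (Fin a) E × GL (Fin b) E) →* Module.End ℂ W} {U : Subgroup (GL (Fin N) E)}
    {f : GL (Fin N) E → W} (hf : f ∈ coi (U : Set (GL (Fin N) E))
      (indS (PSJ h E) (tauJ h ρ))) :
    ∃ hf : f ∈ IndJ h ρ, (⟨f, hf⟩ : IndJ h ρ) ∈ cvN (indActJ h ρ) U ⊤ := by
  rw [indS_eq_IndJ] at hf
  have H : ∀ f ∈ coi (U : Set (GL (Fin N) E)) (IndJ h ρ),
      f ∈ (cvN (indActJ h ρ) U ⊤).map (IndJ h ρ).subtype := by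
    intro f hf
    refine (Submodule.span_le (p := (cvN (indActJ h ρ) U ⊤).map (IndJ h ρ).subtype)).2 ?_ hf
    rintro _ ⟨u, hu, f', hf', rfl⟩
    refine ⟨indActJ h ρ u ⟨f', hf'⟩ - ⟨f', hf'⟩, Submodule.subset_span
      ⟨u, hu, ⟨f', hf'⟩, Submodule.mem_top, rfl⟩, ?_⟩
    funext x
    rfl
  obtain ⟨f', hf', rfl⟩ := H f hf
  exact ⟨f'.2, hf'⟩

variable {h}

theorem continuous_pAJ : Continuous fun g : PSJ h E => pAJ g := by
  have e1 : ∀ (g : PSJ h E) (i j : Fin a), (pAJ g : Matrix (Fin a) (Fin a) E) i j =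
      ((g : GL (Fin N) E) : Matrix (Fin N) (Fin N) E) (sJ h (Sum.inl i)) (sJ h (Sum.inl j)) := by
    intro g i j
    obtain ⟨y, hy⟩ := exists_pelJ g
    rw [hy, pelJ_val, bmJ_apply]
    rfl
  have e3 : ∀ (g : PSJ h E) (i j : Fin a),
      (((pAJ g)⁻¹ : GL (Fin a) E) : Matrix (Fin a) (Fin a) E) i j =
        (((g : GL (Fin N) E)⁻¹ : GL (Fin N) E) : Matrix (Fin N) (Fin N) E)
          (sJ h (Sum.inl i)) (sJ h (Sum.inl j)) := by
    intro g i j
    obtain ⟨y, hy⟩ := exists_pelJ g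
    rw [hy, pelJ_inv, pelJ_val, bmJ_apply]
    rfl
  refine Units.continuous_iff.2 ⟨continuous_matrix fun i j => ?_,
    continuous_matrix fun i j => ?_⟩
  · simp only [Function.comp_apply, e1]
    exact (continuous_gl_entry _ _).comp continuous_subtype_val
  · simp only [e3]
    exact (continuous_gl_inv_entry _ _).comp continuous_subtype_val

theorem continuous_pDJ : Continuous fun g : PSJ h E => pDJ g := by
  have e1 : ∀ (g : PSJ h E) (i j : Fin b), (pDJ g : Matrix (Fin b) (Fin b) E) i j =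
      ((g : GL (Fin N) E) : Matrix (Fin N) (Fin N) E) (sJ h (Sum.inr i)) (sJ h (Sum.inr j)) := by
    intro g i j
    obtain ⟨y, hy⟩ := exists_pelJ g
    rw [hy, pelJ_val, bmJ_apply]
    rfl
  have e3 : ∀ (g : PSJ h E) (i j : Fin b),
      (((pDJ g)⁻¹ : GL (Fin b) E) : Matrix (Fin b) (Fin b) E) i j =
        (((g : GL (Fin N) E)⁻¹ : GL (Fin N) E) : Matrix (Fin N) (Fin N) E)
          (sJ h (Sum.inr i)) (sJ h (Sum.inr j)) := by
    intro g i j
    obtain ⟨y, hy⟩ := exists_pelJ g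
    rw [hy, pelJ_inv, pelJ_val, bmJ_apply]
    rfl
  refine Units.continuous_iff.2 ⟨continuous_matrix fun i j => ?_,
    continuous_matrix fun i j => ?_⟩
  · simp only [Function.comp_apply, e1]
    exact (continuous_gl_entry _ _).comp continuous_subtype_val
  · simp only [e3]
    exact (continuous_gl_inv_entry _ _).comp continuous_subtype_val

/-- smooth representations of the Levi subgroup give smooth representations of the parabolic -/
theorem tauJ_smooth {ρ : (GL (Fin a) E × GL (Fin b) E) →* Module.End ℂ W}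
    (hρ : IsSmoothRep ρ) (w : W) : ∀ᶠ g in 𝓝 (1 : PSJ h E), tauJ h ρ g w = w := by
  have hc : Continuous fun g : PSJ h E => ((pAJ g, pDJ g) : GL (Fin a) E × GL (Fin b) E) :=
    continuous_pAJ.prodMk continuous_pDJ
  have h1 : Tendsto (fun g : PSJ h E => ((pAJ g, pDJ g) : GL (Fin a) E × GL (Fin b) E))
      (𝓝 1) (𝓝 1) := by
    have h2 := hc.tendsto 1
    have h0 : ((1 : PSJ h E) : GL (Fin N) E) = pelJ h 1 1 0 := (pelJ_one h).symm
    rw [pAJ_eq h0, pDJ_eq h0] at h2
    exact h2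
  exact h1.eventually (hρ w)

variable (h)

/-- Every vector of a smooth `ρ` is the value at `1` of an element of `IndJ`. -/
theorem indJ_ev_surj [IsUltrametricDist E] [ProperSpace E]
    (ρ : (GL (Fin a) E × GL (Fin b) E) →* Module.End ℂ W) (hρ : IsSmoothRep ρ)
    (w : W) : ∃ f : IndJ h ρ, (f : GL (Fin N) E → W) 1 = w := by
  have h1 := tauJ_smooth (h := h) hρ w
  rw [nhds_subtype_eq_comap, Filter.eventually_comap] at h1
  obtain ⟨K, hKo, -, hK⟩ := gl_basis _ h1
  have hw : w ∈ wfix (tauJ h ρ) K 1 := by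
    intro p k hk h
    rw [one_mul, inv_one, mul_one] at h
    exact hK hk p h
  have h2 : bump (tauJ h ρ) K 1 w ∈ IndJ h ρ := by
    rw [← indS_eq_IndJ]
    exact bump_mem_indS hKo hw
  refine ⟨⟨_, h2⟩, ?_⟩
  have h3 := bump_apply hw 1 K.one_mem
  rw [map_one, Module.End.one_apply, Subgroup.coe_one, mul_one, mul_one] at h3
  exact h3

end par

end SpW
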