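import Pool.Agent.Work.MP_3615d2_al.NoCuspB
import Pool.Agent.Work.MP_3615d2_al.Co.IndAB

/-!
MP_3615d2_al, block Co: a quotient of `IndJ h ρ` without coinvariants for all the maximal
parabolic subgroups is zero.
-/

open Filter Topology
open scoped TensorProduct

set_option linter.unusedSectionVars false

namespace SpW

section abs

variable {E : Type} [NontriviallyNormedField E] [IsUltrametricDist E] [ProperSpace E]
  {n : ℕ} {I : Type} [AddCommGroup I] [Module ℂ I]

/-- A nonzero cuspidal quotient of a representation with unitary central character embeds. -/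
theorem exists_hom_of_cusp_quot {τ : GL (Fin n) E →* Module.End ℂ I} (hτ : IsSmoothRep τ)
    (hc : UnitCentral τ) {B : Submodule ℂ I} (hB : IsStab τ B) (hne : B ≠ ⊤)
    (hk : ∀ k, 0 < k → k < n → cvN (quoRep τ B hB) (Nk n k E) ⊤ = ⊤) :
    ∃ Ψ : (I ⧸ B) →ₗ[ℂ] I, Ψ ≠ 0 ∧ ∀ g v, Ψ (quoRep τ B hB g v) = τ g (Ψ v) := by
  classical
  have hs : IsSmoothRep (quoRep τ B hB) := by
    intro v
    obtain ⟨x, rfl⟩ := B.mkQ_surjective v
    filter_upwards [hτ x] with g hg
    rw [quoRep_mk, hg]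
  have hcusp : IsCusp (quoRep τ B hB) := hk
  have hnt : Nontrivial (I ⧸ B) := by
    rw [Submodule.Quotient.nontrivial_iff]
    exact hne
  obtain ⟨χ, hχ, hχ2⟩ := hc
  let χ' : GL (Fin n) E → ℂ := fun g =>
    if h : ∃ z, Matrix.GeneralLinearGroup.scalar (Fin n) z = g then χ h.choose else 1
  have hsc : ∀ z ∈ scalZ n E, ∃ w, Matrix.GeneralLinearGroup.scalar (Fin n) w = z ∧
      χ' z = χ w := by
    rintro z ⟨w, hw⟩
    have h1 : ∃ z', Matrix.GeneralLinearGroup.scalar (Fin n) z' = z := ⟨w, hw⟩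
    exact ⟨h1.choose, h1.choose_spec, dif_pos h1⟩
  exact exists_hom_of_hc (G := GL (Fin n) E) gl_basis (Z := scalZ n E)
    (fun z hz g => scalZ_central z hz g) hτ χ' (by
      intro z hz
      obtain ⟨w, -, hw⟩ := hsc z hz
      rw [hw]
      exact hχ w)
    (by
      intro z hz a
      obtain ⟨w, rfl, hw⟩ := hsc z hz
      rw [hw]
      exact hχ2 w a)
    B.mkQ B.mkQ_surjective (fun g a => rfl) (hasHC_of_cusp hs hcusp)

end abs

section ind

variable {E : Type} [NontriviallyNormedField E] [IsUltrametricDist E] [ProperSpace E]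
  {a b N : ℕ} (h : a + b = N) {W : Type} [AddCommGroup W] [Module ℂ W]

/-- A quotient of `IndJ h ρ` without coinvariants is zero. -/
theorem indJ_noCusp (ha : 0 < a) (hb : 0 < b)
    {ρ : (GL (Fin a) E × GL (Fin b) E) →* Module.End ℂ W}
    (χ : Eˣ → ℂ) (hχ1 : ∀ z, ‖χ z‖ = 1)
    (hχ : ∀ z w, ρ (Matrix.GeneralLinearGroup.scalar (Fin a) z,
      Matrix.GeneralLinearGroup.scalar (Fin b) z) w = χ z • w)
    {B : Submodule ℂ (IndJ h ρ)} (hB : IsStab (indActJ h ρ) B)
    (hk : ∀ k, 0 < k → k < N → cvN (quoRep (indActJ h ρ) B hB) (Nk N k E) ⊤ = ⊤) : B = ⊤ := by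
  by_contra hne
  obtain ⟨Ψ, h0, h1⟩ := exists_hom_of_cusp_quot (indJ_smooth h ρ)
    ⟨χ, hχ1, indJ_unitCentral h ρ χ hχ⟩ hB hne hk
  exact h0 (hom_indJ_eq_zero h ρ (hk a ha (by omega)) Ψ h1)

end ind

end SpW
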