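import Pool.Agent.Work.MP_3615d2_al.Co.L2Lemma
import Pool.Agent.Work.MP_3615d2_al.Co.NoCuspJ
import Pool.Agent.Work.MP_3615d2_al.RhoB
import Pool.Agent.Work.MP_3615d2_al.BPClosed

/-!
MP_3615d2_al, (COMM) (notes 6706, 6707): the `L²` lemma up to a twist by a power of `|det|`, applied
to the quotients of induced representations.
-/

open Filter Topology
open scoped ComplexConjugate NNReal

set_option linter.unusedSectionVars false

namespace SpW.L2

section twist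

variable {E : Type} [NontriviallyNormedField E] [IsUltrametricDist E] [ProperSpace E]
  [MeasurableSpace E] [BorelSpace E] {n : ℕ} {V : Type} [AddCommGroup V] [Module ℂ V]

/-- the twist of `π` by `|det|^t` -/
noncomputable def twd (t : ℝ) (π : GL (Fin n) E →* Module.End ℂ V) :
    GL (Fin n) E →* Module.End ℂ V where
  toFun g := ((ad g ^ t : ℝ) : ℂ) • π g
  map_one' := by
    rw [ad_one, Real.one_rpow, Complex.ofReal_one, one_smul, map_one]
  map_mul' g g' := by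
    rw [ad_mul, Real.mul_rpow (ad_pos g).le (ad_pos g').le, Complex.ofReal_mul, map_mul,
      smul_mul_smul_comm]

theorem twd_apply (t : ℝ) (π : GL (Fin n) E →* Module.End ℂ V) (g : GL (Fin n) E) (v : V) :
    twd t π g v = ((ad g ^ t : ℝ) : ℂ) • π g v := rfl

theorem twd_eq {t : ℝ} {π : GL (Fin n) E →* Module.End ℂ V} {g : GL (Fin n) E} (hg : ad g = 1)
    (v : V) : twd t π g v = π g v := by
  rw [twd_apply, hg, Real.one_rpow, Complex.ofReal_one, one_smul]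

theorem twd_smooth (t : ℝ) {π : GL (Fin n) E →* Module.End ℂ V} (hπ : IsSmoothRep π) :
    IsSmoothRep (twd t π) := by
  intro v
  filter_upwards [hπ v, ad_near] with g hg hg'
  rw [twd_eq hg', hg]

theorem twd_cvN (t : ℝ) (π : GL (Fin n) E →* Module.End ℂ V) (k : ℕ) (A : Submodule ℂ V) :
    cvN (twd t π) (Nk n k E) A = cvN π (Nk n k E) A := by
  unfold cvN
  congr 1
  ext x
  constructor
  · rintro ⟨u, hu, v, hv, rfl⟩
    exact ⟨u, hu, v, hv, by rw [twd_eq (Nk_ad hu)]⟩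
  · rintro ⟨u, hu, v, hv, rfl⟩
    exact ⟨u, hu, v, hv, by rw [twd_eq (Nk_ad hu)]⟩

theorem ad_dgl_zk (ϖ : Eˣ) {k : ℕ} (hk : k ≤ n) : ad (dgl (zk n k ϖ) : GL (Fin n) E) =
    absE ϖ ^ k := by
  have h1 : Matrix.GeneralLinearGroup.det (dgl (zk n k ϖ) : GL (Fin n) E) = ϖ ^ k := by
    apply Units.ext
    show ((dgl (zk n k ϖ) : GL (Fin n) E) : Matrix (Fin n) (Fin n) E).det = _
    rw [dgl_val, Matrix.det_diagonal, Units.val_pow_eq_pow_val]
    have h2 : ∀ i : Fin n, ((zk n k ϖ i : Eˣ) : E) = if i.1 < k then (ϖ : E) else 1 := by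
      intro i
      unfold zk
      split_ifs <;> rfl
    simp only [h2]
    rw [Finset.prod_ite, Finset.prod_const, Finset.prod_const_one, mul_one,
      Fin.card_filter_val_lt, min_eq_right hk]
  unfold ad
  rw [h1]
  unfold absE
  rw [map_pow, NNReal.coe_pow]

/-- `rt` for a multiple of `T` -/
theorem rt_smul (T : Module.End ℂ V) (a : ℂ) (cs : List ℂ) :
    ∀ v, rt (a • T) (cs.map fun c => a * c) v = a ^ cs.length • rt T cs v := by
  induction cs with
  | nil => intro v; rw [List.map_nil, rt_nil, rt_nil, List.length_nil, pow_zero, one_smul]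
  | cons c cs ih =>
    intro v
    have h1 : (a • T) v - (a * c) • v = a • (T v - c • v) := by
      rw [LinearMap.smul_apply, smul_sub, mul_smul]
    have h2 : ∀ x, rt T cs (a • x) = a • rt T cs x := by
      intro x
      have h3 := rt_comm T (a • (1 : Module.End ℂ V)) (fun v => by
        rw [LinearMap.smul_apply, LinearMap.smul_apply, Module.End.one_apply,
          Module.End.one_apply, map_smul]) cs x
      rw [LinearMap.smul_apply, LinearMap.smul_apply, Module.End.one_apply,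
        Module.End.one_apply] at h3
      exact h3.symm
    rw [List.map_cons, rt_cons, rt_cons, ih, h1, h2, List.length_cons, pow_succ, mul_smul]

/-- The `L²` lemma up to twist: `|χ(z)| = |z|^s` on the centre, `s + n t = 0`. -/
theorem isCusp_of_asym_twist {π : GL (Fin n) E →* Module.End ℂ V} (hπ : IsSmoothRep π)
    {χ : Eˣ → ℂ} {s t : ℝ} (hχ1 : ∀ z, ‖χ z‖ = absE z ^ s)
    (hχ : ∀ z v, π (Matrix.GeneralLinearGroup.scalar (Fin n) z) v = χ z • v)
    (hst : s + n * t = 0) {ϖ : Eˣ} (hϖ : ‖(ϖ : E)‖ < 1)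
    (hval : ∀ x : Eˣ, ∃ e : ℤ, ‖(x : E)‖ = ‖(ϖ : E)‖ ^ e) (L : ℕ → List ℂ)
    (hL : ∀ k, 0 < k → k < n → ∀ v, rt (π (dgl (zk n k ϖ))) (L k) v ∈ cvN π (Nk n k E) ⊤)
    (hL2 : ∀ k, 0 < k → k < n → ∀ c ∈ L k, c ≠ 0 ∧
      ((absE ϖ ^ k) ^ t * ‖c‖) ^ 2 < absE ϖ ^ (k * (n - k)))
    (hne : ∀ k, 0 < k → k < n → ∀ c ∈ L k, ∀ c' ∈ L (n - k),
      (absE ϖ ^ k) ^ t * ‖c‖ ≠ (absE ϖ ^ (n - k)) ^ t * ‖c'‖) : IsCusp π := by
  have hpos : ∀ k : ℕ, 0 < (absE ϖ ^ k) ^ t := fun k =>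
    Real.rpow_pos_of_pos (pow_pos (absE_pos ϖ) k) t
  have hnm : ∀ (k : ℕ) (c : ℂ), ‖(((absE ϖ ^ k) ^ t : ℝ) : ℂ) * c‖ = (absE ϖ ^ k) ^ t * ‖c‖ := by
    intro k c
    rw [norm_mul, Complex.norm_real, Real.norm_of_nonneg (hpos k).le]
  have hcen : UnitCentral (twd t π) := by
    refine ⟨fun z => (((absE z ^ n) ^ t : ℝ) : ℂ) * χ z, fun z => ?_, fun z v => ?_⟩
    · rw [norm_mul, Complex.norm_real, hχ1, Real.norm_of_nonneg
        (Real.rpow_pos_of_pos (pow_pos (absE_pos z) n) t).le, ← Real.rpow_natCast,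
        ← Real.rpow_mul (absE_pos z).le, ← Real.rpow_add (absE_pos z)]
      have h2 : (n : ℝ) * t + s = 0 := by linarith
      rw [h2, Real.rpow_zero]
    · rw [twd_apply, ad_scalar, hχ, smul_smul]
  have h1 := isCusp_of_asym (twd_smooth t hπ) hcen hϖ hval
    (fun k => (L k).map fun c => (((absE ϖ ^ k) ^ t : ℝ) : ℂ) * c) ?_ ?_ ?_
  · intro k hk0 hkn
    rw [← twd_cvN t π k ⊤]
    exact h1 k hk0 hkn
  · intro k hk0 hkn v
    have h2 : twd t π (dgl (zk n k ϖ)) = (((absE ϖ ^ k) ^ t : ℝ) : ℂ) • π (dgl (zk n k ϖ)) := by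
      apply LinearMap.ext
      intro v
      rw [twd_apply, ad_dgl_zk ϖ hkn.le]
      rfl
    rw [twd_cvN, h2, rt_smul]
    exact Submodule.smul_mem _ _ (hL k hk0 hkn v)
  · intro k hk0 hkn c hc
    obtain ⟨c₀, hc₀, rfl⟩ := List.mem_map.1 hc
    obtain ⟨h3, h4⟩ := hL2 k hk0 hkn c₀ hc₀
    refine ⟨mul_ne_zero ?_ h3, ?_⟩
    · rw [Complex.ofReal_ne_zero]
      exact (hpos k).ne'
    · rw [hnm]
      exact h4
  · intro k hk0 hkn c hc c' hc'
    obtain ⟨c₀, hc₀, rfl⟩ := List.mem_map.1 hc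
    obtain ⟨c₁, hc₁, rfl⟩ := List.mem_map.1 hc'
    rw [hnm, hnm]
    exact hne k hk0 hkn c₀ hc₀ c₁ hc₁

end twist

section quot

variable {E : Type} [NontriviallyNormedField E] [IsUltrametricDist E] [ProperSpace E]
  [MeasurableSpace E] [BorelSpace E] {n : ℕ} {I : Type} [AddCommGroup I] [Module ℂ I]

/-- `rt` in a quotient -/
theorem rt_quo {τ : GL (Fin n) E →* Module.End ℂ I} {B : Submodule ℂ I} (hB : IsStab τ B)
    (g : GL (Fin n) E) (cs : List ℂ) :
    ∀ v, rt (quoRep τ B hB g) cs (B.mkQ v) = B.mkQ (rt (τ g) cs v) := by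
  induction cs with
  | nil => intro v; rfl
  | cons c cs ih =>
    intro v
    rw [rt_cons, rt_cons, ← ih, quoRep_mk, map_sub, map_smul]

theorem mkQ_mem_cvN {τ : GL (Fin n) E →* Module.End ℂ I} {B : Submodule ℂ I} (hB : IsStab τ B)
    {k : ℕ} {v : I} (hv : v ∈ cvN τ (Nk n k E) ⊤) :
    B.mkQ v ∈ cvN (quoRep τ B hB) (Nk n k E) ⊤ := by
  have h1 : cvN τ (Nk n k E) ⊤ ≤ (cvN (quoRep τ B hB) (Nk n k E) ⊤).comap B.mkQ := by
    refine Submodule.span_le.2 ?_
    rintro _ ⟨u, hu, x, -, rfl⟩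
    exact Submodule.subset_span ⟨u, hu, B.mkQ x, Submodule.mem_top, by
      rw [quoRep_mk, map_sub]⟩
  exact h1 hv

/-- A stable subspace `B` of an induced representation such that all exponents of the quotient
satisfy Casselman's criterion after a twist and are not symmetric is everything. -/
theorem eq_top_of_exponents {a b N : ℕ} (h : a + b = N) (ha : 0 < a) (hb : 0 < b) {W : Type}
    [AddCommGroup W] [Module ℂ W] {ρ : (GL (Fin a) E × GL (Fin b) E) →* Module.End ℂ W}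
    {χ : Eˣ → ℂ} {s t : ℝ} (hχ1 : ∀ z, ‖χ z‖ = absE z ^ s)
    (hχ : ∀ z w, ρ (Matrix.GeneralLinearGroup.scalar (Fin a) z,
      Matrix.GeneralLinearGroup.scalar (Fin b) z) w = χ z • w) (hst : s + N * t = 0)
    {B : Submodule ℂ (IndJ h ρ)} (hB : IsStab (indActJ h ρ) B) {ϖ : Eˣ} (hϖ : ‖(ϖ : E)‖ < 1)
    (hval : ∀ x : Eˣ, ∃ e : ℤ, ‖(x : E)‖ = ‖(ϖ : E)‖ ^ e) (L : ℕ → List ℂ)
    (hL : ∀ k, 0 < k → k < N → ∀ f : IndJ h ρ, ∃ f' ∈ B,
      rt (indActJ h ρ (dgl (zk N k ϖ))) (L k) f - f' ∈ cvN (indActJ h ρ) (Nk N k E) ⊤)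
    (hL2 : ∀ k, 0 < k → k < N → ∀ c ∈ L k, c ≠ 0 ∧
      ((absE ϖ ^ k) ^ t * ‖c‖) ^ 2 < absE ϖ ^ (k * (N - k)))
    (hne : ∀ k, 0 < k → k < N → ∀ c ∈ L k, ∀ c' ∈ L (N - k),
      (absE ϖ ^ k) ^ t * ‖c‖ ≠ (absE ϖ ^ (N - k)) ^ t * ‖c'‖) : B = ⊤ := by
  have hs := indJ_smooth h ρ
  have hqs : IsSmoothRep (quoRep (indActJ h ρ) B hB) := by
    intro v
    obtain ⟨x, rfl⟩ := B.mkQ_surjective v
    filter_upwards [hs x] with g hg
    rw [quoRep_mk, hg]
  have hqc : ∀ z v, quoRep (indActJ h ρ) B hB (Matrix.GeneralLinearGroup.scalar (Fin N) z) v =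
      χ z • v := by
    intro z v
    obtain ⟨x, rfl⟩ := B.mkQ_surjective v
    rw [quoRep_mk, indJ_unitCentral h ρ χ hχ, map_smul]
  have hcusp : IsCusp (quoRep (indActJ h ρ) B hB) := by
    refine isCusp_of_asym_twist hqs hχ1 hqc hst hϖ hval L ?_ hL2 hne
    intro k hk0 hkn v
    obtain ⟨x, rfl⟩ := B.mkQ_surjective v
    obtain ⟨f', hf', hx⟩ := hL k hk0 hkn x
    rw [rt_quo]
    have h2 : B.mkQ f' = 0 := by
      rw [Submodule.mkQ_apply, Submodule.Quotient.mk_eq_zero]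
      exact hf'
    have h3 := mkQ_mem_cvN hB hx
    rwa [map_sub, h2, sub_zero] at h3
  -- twist
  by_contra hne'
  have hB' : IsStab (twd t (indActJ h ρ)) B := by
    intro g v hv
    rw [twd_apply]
    exact B.smul_mem _ (hB g v hv)
  have hcen : UnitCentral (twd t (indActJ h ρ)) := by
    refine ⟨fun z => (((absE z ^ N) ^ t : ℝ) : ℂ) * χ z, fun z => ?_, fun z v => ?_⟩
    · rw [norm_mul, Complex.norm_real, hχ1, Real.norm_of_nonneg
        (Real.rpow_pos_of_pos (pow_pos (absE_pos z) N) t).le, ← Real.rpow_natCast,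
        ← Real.rpow_mul (absE_pos z).le, ← Real.rpow_add (absE_pos z)]
      have h2 : (N : ℝ) * t + s = 0 := by linarith
      rw [h2, Real.rpow_zero]
    · rw [twd_apply, ad_scalar, indJ_unitCentral h ρ χ hχ, smul_smul]
  have hquo : ∀ g, quoRep (twd t (indActJ h ρ)) B hB' g = twd t (quoRep (indActJ h ρ) B hB) g := by
    intro g
    apply LinearMap.ext
    intro v
    obtain ⟨x, rfl⟩ := B.mkQ_surjective v
    rw [quoRep_mk, twd_apply, twd_apply, quoRep_mk, map_smul]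
  have hquo' : quoRep (twd t (indActJ h ρ)) B hB' = twd t (quoRep (indActJ h ρ) B hB) :=
    MonoidHom.ext hquo
  obtain ⟨Ψ, h0, h1⟩ := exists_hom_of_cusp_quot (twd_smooth t hs) hcen hB' hne' (by
    intro k hk0 hkn
    rw [hquo', twd_cvN]
    exact hcusp k hk0 hkn)
  refine h0 (hom_indJ_eq_zero h ρ (hcusp a ha (by omega)) Ψ ?_)
  intro g v
  have h2 := h1 g v
  rw [hquo, twd_apply, twd_apply, map_smul] at h2
  have h3 : ((ad g ^ t : ℝ) : ℂ) ≠ 0 := by
    rw [Complex.ofReal_ne_zero]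
    exact (Real.rpow_pos_of_pos (ad_pos g) t).ne'
  exact smul_right_injective _ h3 h2

end quot

end SpW.L2
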