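import Pool.Agent.Work.MP_3615d2_al.Co.JacD
import Pool.Agent.Work.MP_3615d2_al.Co.L2Twist

/-!
MP_3615d2_al, block Co: the coinvariants of `Σ = IndJ (|det a|^s δ(a) ⊗ |det d|^t κ(d))` on
`GL_{3m}` for `N_m` and `N_{2m}`.
-/

open Filter Topology Matrix Polynomial
open scoped TensorProduct

set_option linter.unusedSectionVars false

namespace SpW

section sigE

variable {E : Type} [NontriviallyNormedField E] [IsUltrametricDist E] [ProperSpace E]
  [MeasurableSpace E] [BorelSpace E] {m : ℕ} (h : 2 * m + m = 3 * m)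
  {A V : Type} [AddCommGroup A] [Module ℂ A] [AddCommGroup V] [Module ℂ V]
  {δ : GL (Fin (2 * m)) E →* Module.End ℂ A} {κ : GL (Fin m) E →* Module.End ℂ V}

/-- The statement of the open stratum lemma (`eig_open`) for a fixed representation. -/
def EigO {a b N : ℕ} (h : a + b = N) {W : Type} [AddCommGroup W] [Module ℂ W]
    (ρ : (GL (Fin a) E × GL (Fin b) E) →* Module.End ℂ W) (w : Eˣ) : Prop :=
  ∀ (k : ℕ) (c : ℂ) (f : IndJ h ρ), b ≤ k → k < N →
    (∀ g, (f : GL (Fin N) E → W) g ≠ 0 → b ≤ rkJ h k g) →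
    (∀ v, ρ (dgl (fun i : Fin a => if i.1 < k - b then w else 1),
      Matrix.GeneralLinearGroup.scalar (Fin b) w) v - c • v ∈
        cvN ρ ((Nk a (k - b) E).prod ⊥) ⊤) →
    indActJ h ρ (dgl (fun i : Fin N => if i.1 < k then w else 1)) f -
      (((absE w ^ (b * (N - k)) : ℝ) : ℂ) * c) • f ∈ cvN (indActJ h ρ) (Nk N k E) ⊤

/-- the constants of `Σ` -/
noncomputable def sc1 (m : ℕ) (s : ℝ) (w : Eˣ) (cD : ℂ) : ℂ := ((absE w ^ (m * s) : ℝ) : ℂ) * cD

noncomputable def sc2 (m : ℕ) (t : ℝ) (w : Eˣ) (cK : ℂ) : ℂ :=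
  ((absE w ^ (2 * (m : ℝ) ^ 2 + m * t) : ℝ) : ℂ) * cK

noncomputable def sc3 (m : ℕ) (s t : ℝ) (w : Eˣ) (cD cK : ℂ) : ℂ :=
  ((absE w ^ ((m : ℝ) ^ 2 + m * s + m * t) : ℝ) : ℂ) * (cD * cK)

theorem ad_dgl_lt (n : ℕ) (w : Eˣ) {k : ℕ} (hk : k ≤ n) :
    ad (dgl (fun i : Fin n => if i.1 < k then w else 1) : GL (Fin n) E) = absE w ^ k :=
  L2.ad_dgl_zk w hk

/-- kill the middle strata by cuspidality of `κ` -/
theorem sig_mid (s t : ℝ) (hδ : IsSmoothRep δ) (hκ : IsSmoothRep κ) (hκc : IsCusp κ)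
    {k : ℕ} (hk : k ≤ 3 * m) (hm : 0 < m) (f : IndJ h (oten s t δ κ))
    (hf : ∀ g, (f : GL (Fin (3 * m)) E → A ⊗[ℂ] V) g ≠ 0 → 1 ≤ rkJ h k g) :
    ∃ f₁ : IndJ h (oten s t δ κ), f - f₁ ∈ cvN (indActJ h (oten s t δ κ)) (Nk (3 * m) k E) ⊤ ∧
      ∀ g, (f₁ : GL (Fin (3 * m)) E → A ⊗[ℂ] V) g ≠ 0 → m ≤ rkJ h k g := by
  obtain ⟨f₁, h1, h2⟩ := indJ_strata_kill h _ (oten_smooth hδ hκ s t) hk (j₀ := 1) (j₁ := m) hm
    (fun j r hj0 hj1 _ _ _ => Or.inr (cvN_oten_low_top s t δ (hκc j hj0 hj1))) f hf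
  exact ⟨f₁, h1, fun g hg => (h2 g hg).1⟩

/-- (J2) the coinvariants for `N_m` -/
theorem sigJ_m (hm : 0 < m) (s t : ℝ) (hδ : IsSmoothRep δ) (hκ : IsSmoothRep κ) (hκc : IsCusp κ)
    {w : Eˣ} {cD cK : ℂ}
    (hD2 : ∀ v, δ (dgl (fun i : Fin (2 * m) => if i.1 < m then w else 1)) v - cD • v ∈
      cvN δ (Nk (2 * m) m E) ⊤)
    (hK : ∀ v, κ (Matrix.GeneralLinearGroup.scalar (Fin m) w) v = cK • v)
    (hE : EigO h (oten s t δ κ) w) (f : IndJ h (oten s t δ κ)) :
    indActJ h (oten s t δ κ) (dgl (fun i : Fin (3 * m) => if i.1 < m then w else 1))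
      (indActJ h (oten s t δ κ) (dgl (fun i : Fin (3 * m) => if i.1 < m then w else 1)) f -
        sc1 m s w cD • f) -
        sc2 m t w cK • (indActJ h (oten s t δ κ)
          (dgl (fun i : Fin (3 * m) => if i.1 < m then w else 1)) f - sc1 m s w cD • f) ∈
      cvN (indActJ h (oten s t δ κ)) (Nk (3 * m) m E) ⊤ := by
  have hw : 0 < absE w := absE_pos w
  have hR := oten_smooth hδ hκ s t
  -- the closed stratum
  have hc : ∀ x, oten s t δ κ (dgl (fun i : Fin (2 * m) => if i.1 < m then w else 1), 1) x -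
      sc1 m s w cD • x ∈ cvN (oten s t δ κ) ((Nk (2 * m) m E).prod ⊥) ⊤ := by
    intro x
    have h1 := oten_eig_up s t (π₂ := κ) (q := (1 : GL (Fin m) E)) (c₂ := 1) hD2
      (fun v => by rw [map_one, Module.End.one_apply, one_smul]) x
    have h2 : ((ad (dgl (fun i : Fin (2 * m) => if i.1 < m then w else 1) : GL (Fin (2 * m)) E) ^ s *
        ad (1 : GL (Fin m) E) ^ t : ℝ) : ℂ) * (cD * 1) = sc1 m s w cD := by
      rw [ad_dgl_lt (2 * m) w (by omega), ad_one, Real.one_rpow, mul_one, mul_one, sc1,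
        ← Real.rpow_natCast, ← Real.rpow_mul hw.le]
    rwa [h2] at h1
  obtain ⟨f₀, h1, h2⟩ := closed_eig_up h hR (k := m) (by omega) w _ hc f
  obtain ⟨f₁, h3, h4⟩ := sig_mid h s t hδ hκ hκc (k := m) (by omega) hm f₀ h2
  -- the open stratum
  have h5 := hE m (((absE w ^ (m * t) : ℝ) : ℂ) * cK) f₁ le_rfl (by omega) h4 (by
    intro x
    have e1 : (dgl (fun i : Fin (2 * m) => if i.1 < m - m then w else 1) : GL (Fin (2 * m)) E) =
        1 := by
      have : (fun i : Fin (2 * m) => if i.1 < m - m then w else 1) = (1 : Fin (2 * m) → Eˣ) := by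
        funext i
        rw [if_neg (by omega)]
        rfl
      rw [this, map_one]
    rw [e1]
    have h6 := oten_eig_up s t (r := m - m) (p := (1 : GL (Fin (2 * m)) E)) (c₁ := 1)
      (π₁ := δ) (fun v => by
        rw [map_one, Module.End.one_apply, one_smul, sub_self]
        exact Submodule.zero_mem _) hK x
    have h7 : ((ad (1 : GL (Fin (2 * m)) E) ^ s *
        ad (Matrix.GeneralLinearGroup.scalar (Fin m) w) ^ t : ℝ) : ℂ) * (1 * cK) =
        ((absE w ^ (m * t) : ℝ) : ℂ) * cK := by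
      rw [ad_one, Real.one_rpow, one_mul, one_mul, ad_scalar, ← Real.rpow_natCast,
        ← Real.rpow_mul hw.le]
    rwa [h7] at h6)
  have h8 : ((absE w ^ (m * (3 * m - m)) : ℝ) : ℂ) * (((absE w ^ (m * t) : ℝ) : ℂ) * cK) =
      sc2 m t w cK := by
    have : m * (3 * m - m) = 2 * m ^ 2 := by
      have : 3 * m - m = 2 * m := by omega
      rw [this]
      ring
    rw [this, sc2, Real.rpow_add hw, Complex.ofReal_mul, mul_assoc, ← Real.rpow_natCast]
    congr 4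
    push_cast
    rfl
  rw [h8] at h5
  -- assembly
  set T := indActJ h (oten s t δ κ) (dgl (fun i : Fin (3 * m) => if i.1 < m then w else 1)) with hT
  have h9 : T f - sc1 m s w cD • f - f₁ ∈
      cvN (indActJ h (oten s t δ κ)) (Nk (3 * m) m E) ⊤ := by
    have : T f - sc1 m s w cD • f - f₁ = (T f - sc1 m s w cD • f - f₀) + (f₀ - f₁) := by abel
    rw [this]
    exact Submodule.add_mem _ h1 h3
  have h10 := cvN_zeta_stab h w h9
  rw [← hT] at h10
  have h11 : T (T f - sc1 m s w cD • f) - sc2 m t w cK • (T f - sc1 m s w cD • f) =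
      T (T f - sc1 m s w cD • f - f₁) - sc2 m t w cK • (T f - sc1 m s w cD • f - f₁) +
        (T f₁ - sc2 m t w cK • f₁) := by
    rw [map_sub T (T f - sc1 m s w cD • f) f₁, smul_sub (sc2 m t w cK) (T f - sc1 m s w cD • f) f₁]
    abel
  rw [h11]
  exact Submodule.add_mem _ (Submodule.sub_mem _ h10 (Submodule.smul_mem _ _ h9)) h5

/-- (J3) the coinvariants for `N_{2m}` modulo the evaluation at `1` -/
theorem sigJ_2m (hm : 0 < m) (s t : ℝ) (hδ : IsSmoothRep δ) (hκ : IsSmoothRep κ) (hκc : IsCusp κ)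
    {w : Eˣ} {cD cK : ℂ}
    (hD2 : ∀ v, δ (dgl (fun i : Fin (2 * m) => if i.1 < m then w else 1)) v - cD • v ∈
      cvN δ (Nk (2 * m) m E) ⊤)
    (hK : ∀ v, κ (Matrix.GeneralLinearGroup.scalar (Fin m) w) v = cK • v)
    (hE : EigO h (oten s t δ κ) w) (f : IndJ h (oten s t δ κ))
    (hf : evJ h (oten s t δ κ) f = 0) :
    indActJ h (oten s t δ κ) (dgl (fun i : Fin (3 * m) => if i.1 < 2 * m then w else 1)) f -
        sc3 m s t w cD cK • f ∈
      cvN (indActJ h (oten s t δ κ)) (Nk (3 * m) (2 * m) E) ⊤ := by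
  have hw : 0 < absE w := absE_pos w
  -- support
  have h1 : ∀ g, (f : GL (Fin (3 * m)) E → A ⊗[ℂ] V) g ≠ 0 → 1 ≤ rkJ h (2 * m) g := by
    intro g hg
    by_contra h0
    obtain ⟨p, q, y, rfl⟩ := exists_pelJ_of_rkJ h (show rkJ h (2 * m) g = 0 by omega)
    apply hg
    have h2 := f.2.1 p q y 1
    rw [mul_one] at h2
    rw [h2]
    have h3 : (f : GL (Fin (3 * m)) E → A ⊗[ℂ] V) 1 = 0 := hf
    rw [h3, map_zero]
  obtain ⟨f₁, h3, h4⟩ := sig_mid h s t hδ hκ hκc (k := 2 * m) (by omega) hm f h1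
  have hkm : 2 * m - m = m := by omega
  have h5 := hE (2 * m) (((absE w ^ (m * s + m * t) : ℝ) : ℂ) * (cD * cK)) f₁ (by omega) (by omega)
    h4 (by
    intro x
    rw [hkm]
    have h6 := oten_eig_up s t hD2 hK x
    have h7 : ((ad (dgl (fun i : Fin (2 * m) => if i.1 < m then w else 1) :
        GL (Fin (2 * m)) E) ^ s * ad (Matrix.GeneralLinearGroup.scalar (Fin m) w) ^ t : ℝ) : ℂ) *
          (cD * cK) = ((absE w ^ (m * s + m * t) : ℝ) : ℂ) * (cD * cK) := by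
      rw [ad_dgl_lt (2 * m) w (by omega), ad_scalar, ← Real.rpow_natCast, ← Real.rpow_mul hw.le,
        ← Real.rpow_mul hw.le, ← Real.rpow_add hw]
    rwa [h7] at h6)
  have h8 : ((absE w ^ (m * (3 * m - 2 * m)) : ℝ) : ℂ) *
      (((absE w ^ (m * s + m * t) : ℝ) : ℂ) * (cD * cK)) = sc3 m s t w cD cK := by
    have : m * (3 * m - 2 * m) = m ^ 2 := by
      have : 3 * m - 2 * m = m := by omega
      rw [this]
      ring
    rw [this, sc3, add_assoc, Real.rpow_add hw ((m : ℝ) ^ 2), Complex.ofReal_mul, mul_assoc,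
      ← Real.rpow_natCast]
    congr 4
    push_cast
    rfl
  rw [h8] at h5
  set T := indActJ h (oten s t δ κ) (dgl (fun i : Fin (3 * m) => if i.1 < 2 * m then w else 1))
    with hT
  have h10 := cvN_zeta_stab h w h3
  rw [← hT] at h10
  have h11 : T f - sc3 m s t w cD cK • f = (T (f - f₁) - sc3 m s t w cD cK • (f - f₁)) +
      (T f₁ - sc3 m s t w cD cK • f₁) := by
    rw [map_sub T f f₁, smul_sub (sc3 m s t w cD cK) f f₁]
    abel
  rw [h11]
  exact Submodule.add_mem _ (Submodule.sub_mem _ h10 (Submodule.smul_mem _ _ h3)) h5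

end sigE

end SpW
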