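import Pool.Agent.Work.MP_3615d2_al.Co.Eig
import Pool.Agent.Work.MP_3615d2_al.Co.JacE

/-!
MP_3615d2_al, (COMM): the open stratum lemma in the form used for `Σ`.
-/

namespace SpW

variable {E : Type} [NontriviallyNormedField E] [IsUltrametricDist E] [ProperSpace E]
  [MeasurableSpace E] [BorelSpace E] {a b N : ℕ} (h : a + b = N) {W : Type} [AddCommGroup W]
  [Module ℂ W]

/-- the open stratum lemma, for every smooth representation of the Levi subgroup -/
theorem eigO_of_open {ρ : (GL (Fin a) E × GL (Fin b) E) →* Module.End ℂ W} (hρ : IsSmoothRep ρ)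
    (w : Eˣ) : EigO h ρ w :=
  fun k c f hbk hkN hf hc => eigJ_open h hρ (by omega) hkN.le w c hc f hf

end SpW
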