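import Pool.Agent.Work.MP_3615d2_al.Co.IndAB
import Pool.Agent.Work.MP_3615d2_al.Adm

/-!
MP_3615d2_al, block Co: admissible representations (finite dimensional spaces of fixed vectors):
quotients, subrepresentations, tensor products and parabolic induction.
-/

open Filter Topology
open scoped TensorProduct

set_option linter.unusedSectionVars false

namespace SpW

section adm

variable {G : Type} [Group G] [TopologicalSpace G] [IsTopologicalGroup G]

/-- Admissible: the fixed vectors of every open subgroup are finite dimensional. -/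
def AdmRep {V : Type} [AddCommGroup V] [Module ℂ V] (π : G →* Module.End ℂ V) : Prop :=
  ∀ K : Subgroup G, IsOpen (K : Set G) → FiniteDimensional ℂ (fixK π K)

theorem fixK_mono {V : Type} [AddCommGroup V] [Module ℂ V] {π : G →* Module.End ℂ V}
    {K K' : Subgroup G} (h : K' ≤ K) : fixK π K ≤ fixK π K' := fun _ hv k hk => hv k (h hk)

/-- It is enough to have the compact open subgroups. -/
theorem AdmRep.of_compact {V : Type} [AddCommGroup V] [Module ℂ V] {π : G →* Module.End ℂ V}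
    (hG : ∀ U ∈ 𝓝 (1 : G), ∃ K : Subgroup G,
      IsOpen (K : Set G) ∧ IsCompact (K : Set G) ∧ (K : Set G) ⊆ U)
    (h : ∀ K : Subgroup G, IsOpen (K : Set G) → IsCompact (K : Set G) →
      FiniteDimensional ℂ (fixK π K)) : AdmRep π := by
  intro K hK
  obtain ⟨K', h1, h2, h3⟩ := hG _ (hK.mem_nhds K.one_mem)
  have h4 := h K' h1 h2
  exact Submodule.finiteDimensional_of_le (fixK_mono (π := π) (K := K) (K' := K') h3)

/-- Finite averages over a compact subgroup. -/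
theorem exists_avg (K K' : Subgroup G) (hK : IsCompact (K : Set G)) (hK' : IsOpen (K' : Set G)) :
    ∃ (ι : Type) (_ : Fintype ι) (t : ι → G), Nonempty ι ∧ (∀ i, t i ∈ K) ∧
      (∀ k ∈ K, ∃ i, (t i)⁻¹ * k ∈ K') ∧
      ∀ {V : Type} [AddCommGroup V] [Module ℂ V] (π : G →* Module.End ℂ V), ∀ v ∈ fixK π K',
        ∑ i, π (t i) v ∈ fixK π K := by
  have : CompactSpace K := isCompact_iff_compactSpace.1 hK
  have hop : IsOpen ((K'.subgroupOf K : Subgroup K) : Set K) :=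
    hK'.preimage continuous_subtype_val
  have : Finite (K ⧸ K'.subgroupOf K) := Subgroup.quotient_finite_of_isOpen _ hop
  have : Fintype (K ⧸ K'.subgroupOf K) := Fintype.ofFinite _
  refine ⟨K ⧸ K'.subgroupOf K, inferInstance, fun x => ((Quotient.out x : K) : G),
    ⟨QuotientGroup.mk 1⟩, fun x => (Quotient.out x : K).2, fun k hk => ?_, ?_⟩
  · refine ⟨QuotientGroup.mk ⟨k, hk⟩, ?_⟩
    have h1 : (QuotientGroup.mk (Quotient.out (QuotientGroup.mk (⟨k, hk⟩ : K) :
        K ⧸ K'.subgroupOf K)) : K ⧸ K'.subgroupOf K) = QuotientGroup.mk ⟨k, hk⟩ :=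
      Quotient.out_eq _
    have h2 := QuotientGroup.eq.1 h1
    exact h2
  · intro V _ _ π v hv
    have hF : ∀ k : K, π ((Quotient.out (QuotientGroup.mk k : K ⧸ K'.subgroupOf K) : K) : G) v =
        π (k : G) v := by
      intro k
      have h1 : (QuotientGroup.mk (Quotient.out (QuotientGroup.mk k :
          K ⧸ K'.subgroupOf K)) : K ⧸ K'.subgroupOf K) = QuotientGroup.mk k :=
        Quotient.out_eq _
      have h2 := QuotientGroup.eq.1 h1
      have h3 : π (((Quotient.out (QuotientGroup.mk k : K ⧸ K'.subgroupOf K) : K) : G)⁻¹ * k) v =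
        v := hv _ h2
      calc π ((Quotient.out (QuotientGroup.mk k : K ⧸ K'.subgroupOf K) : K) : G) v
          = π ((Quotient.out (QuotientGroup.mk k : K ⧸ K'.subgroupOf K) : K) : G)
            (π (((Quotient.out (QuotientGroup.mk k : K ⧸ K'.subgroupOf K) : K) : G)⁻¹ * k) v) := by
            rw [h3]
        _ = π (k : G) v := by
            rw [← Module.End.mul_apply, ← map_mul, mul_inv_cancel_left]
    intro k hk
    rw [map_sum]
    refine Fintype.sum_equiv (MulAction.toPerm (⟨k, hk⟩ : K)) _ _ fun x => ?_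
    obtain ⟨y, rfl⟩ := QuotientGroup.mk_surjective x
    show π k (π _ v) = π ((Quotient.out ((⟨k, hk⟩ : K) • (QuotientGroup.mk y :
      K ⧸ K'.subgroupOf K)) : K) : G) v
    rw [hF, MulAction.Quotient.smul_mk, smul_eq_mul, hF, Subgroup.coe_mul, map_mul]
    rfl

theorem AdmRep.sub {V V' : Type} [AddCommGroup V] [Module ℂ V] [AddCommGroup V'] [Module ℂ V']
    {π : G →* Module.End ℂ V} {π' : G →* Module.End ℂ V'} (h : AdmRep π) (j : V' →ₗ[ℂ] V)
    (hj : Function.Injective j) (hj2 : ∀ g v, j (π' g v) = π g (j v)) : AdmRep π' := by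
  intro K hK
  have h1 := h K hK
  have h2 : ∀ v : fixK π' K, j v ∈ fixK π K := fun v k hk => by
    rw [← hj2, v.2 k hk]
  exact FiniteDimensional.of_injective
    ((j.comp (fixK π' K).subtype).codRestrict (fixK π K) h2) fun x y hxy =>
      Subtype.ext (hj (congrArg Subtype.val hxy))

theorem fixK_quot {V V' : Type} [AddCommGroup V] [Module ℂ V] [AddCommGroup V'] [Module ℂ V']
    {π : G →* Module.End ℂ V} {π' : G →* Module.End ℂ V'} (hπ : IsSmoothRep π)
    (hG : ∀ U ∈ 𝓝 (1 : G), ∃ K : Subgroup G,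
      IsOpen (K : Set G) ∧ IsCompact (K : Set G) ∧ (K : Set G) ⊆ U) (j : V →ₗ[ℂ] V')
    (hj : Function.Surjective j) (hj2 : ∀ g v, j (π g v) = π' g (j v))
    (K : Subgroup G) (hK : IsCompact (K : Set G)) (v' : V') (hv' : v' ∈ fixK π' K) :
    ∃ v ∈ fixK π K, j v = v' := by
  obtain ⟨v, rfl⟩ := hj v'
  obtain ⟨K', h1, -, h3⟩ := hG _ (hπ v)
  obtain ⟨ι, _, t, hne, ht, -, h4⟩ := exists_avg K K' hK h1
  have h5 := h4 π v (fun k hk => h3 hk)
  refine ⟨((Fintype.card ι : ℂ))⁻¹ • ∑ i, π (t i) v, (fixK π K).smul_mem _ h5, ?_⟩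
  rw [map_smul, map_sum]
  have h6 : ∀ i, j (π (t i) v) = j v := fun i => by rw [hj2, hv' _ (ht i)]
  rw [Finset.sum_congr rfl fun i _ => h6 i, Finset.sum_const, Finset.card_univ,
    ← Nat.cast_smul_eq_nsmul ℂ, smul_smul, inv_mul_cancel₀ (by
      exact_mod_cast Fintype.card_ne_zero), one_smul]

theorem AdmRep.quot {V V' : Type} [AddCommGroup V] [Module ℂ V] [AddCommGroup V'] [Module ℂ V']
    {π : G →* Module.End ℂ V} {π' : G →* Module.End ℂ V'} (h : AdmRep π) (hπ : IsSmoothRep π)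
    (hG : ∀ U ∈ 𝓝 (1 : G), ∃ K : Subgroup G,
      IsOpen (K : Set G) ∧ IsCompact (K : Set G) ∧ (K : Set G) ⊆ U) (j : V →ₗ[ℂ] V')
    (hj : Function.Surjective j) (hj2 : ∀ g v, j (π g v) = π' g (j v)) : AdmRep π' := by
  refine AdmRep.of_compact hG fun K hK hKc => ?_
  have h1 := h K hK
  have h2 : ∀ v : fixK π K, j v ∈ fixK π' K := fun v k hk => by
    rw [← hj2, v.2 k hk]
  refine Module.Finite.of_surjective
    ((j.comp (fixK π K).subtype).codRestrict (fixK π' K) h2) fun y => ?_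
  obtain ⟨v, hv, h3⟩ := fixK_quot hπ hG j hj hj2 K hKc y y.2
  exact ⟨⟨v, hv⟩, Subtype.ext h3⟩

end adm

section tens

variable {G₁ G₂ : Type} [Group G₁] [TopologicalSpace G₁] [IsTopologicalGroup G₁]
  [Group G₂] [TopologicalSpace G₂] [IsTopologicalGroup G₂]
  {V₁ V₂ : Type} [AddCommGroup V₁] [Module ℂ V₁] [AddCommGroup V₂] [Module ℂ V₂]

/-- Tensor products of admissible representations are admissible. -/
theorem AdmRep.tensor {π₁ : G₁ →* Module.End ℂ V₁} {π₂ : G₂ →* Module.End ℂ V₂}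
    (h₁ : AdmRep π₁) (h₂ : AdmRep π₂) (hs₁ : IsSmoothRep π₁) (hs₂ : IsSmoothRep π₂)
    (hG₁ : ∀ U ∈ 𝓝 (1 : G₁), ∃ K : Subgroup G₁,
      IsOpen (K : Set G₁) ∧ IsCompact (K : Set G₁) ∧ (K : Set G₁) ⊆ U)
    (hG₂ : ∀ U ∈ 𝓝 (1 : G₂), ∃ K : Subgroup G₂,
      IsOpen (K : Set G₂) ∧ IsCompact (K : Set G₂) ∧ (K : Set G₂) ⊆ U)
    {π : (G₁ × G₂) →* Module.End ℂ (V₁ ⊗[ℂ] V₂)}
    (hπ : ∀ a d x y, π (a, d) (x ⊗ₜ[ℂ] y) = (π₁ a x) ⊗ₜ[ℂ] (π₂ d y)) : AdmRep π := by
  intro K hK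
  have hK1 : (K : Set (G₁ × G₂)) ∈ 𝓝 ((1 : G₁), (1 : G₂)) := hK.mem_nhds K.one_mem
  obtain ⟨U₁, hU₁, U₂, hU₂, hU⟩ := mem_nhds_prod_iff.1 hK1
  obtain ⟨K₁, hK₁o, hK₁c, hK₁⟩ := hG₁ U₁ hU₁
  obtain ⟨K₂, hK₂o, hK₂c, hK₂⟩ := hG₂ U₂ hU₂
  have f₁ := h₁ K₁ hK₁o
  have f₂ := h₂ K₂ hK₂o
  have hfin : FiniteDimensional ℂ
      (LinearMap.range (TensorProduct.map (fixK π₁ K₁).subtype (fixK π₂ K₂).subtype)) :=
    inferInstance
  refine Submodule.finiteDimensional_of_le (S₂ := LinearMap.range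
    (TensorProduct.map (fixK π₁ K₁).subtype (fixK π₂ K₂).subtype)) fun v hv => ?_
  -- a common level
  have hcom : ∀ v : V₁ ⊗[ℂ] V₂, ∃ (L₁ : Subgroup G₁) (L₂ : Subgroup G₂), IsOpen (L₁ : Set G₁) ∧
      IsOpen (L₂ : Set G₂) ∧ v ∈ LinearMap.range
        (TensorProduct.map (fixK π₁ L₁).subtype (fixK π₂ L₂).subtype) := by
    intro v
    induction v with
    | zero => exact ⟨K₁, K₂, hK₁o, hK₂o, Submodule.zero_mem _⟩
    | tmul x y =>
      obtain ⟨L₁, h3, -, h4⟩ := hG₁ _ (hs₁ x)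
      obtain ⟨L₂, h5, -, h6⟩ := hG₂ _ (hs₂ y)
      exact ⟨L₁, L₂, h3, h5, (⟨x, fun k hk => h4 hk⟩ : fixK π₁ L₁) ⊗ₜ[ℂ]
        (⟨y, fun k hk => h6 hk⟩ : fixK π₂ L₂), rfl⟩
    | add x y hx hy =>
      obtain ⟨L₁, L₂, h3, h4, a, ha⟩ := hx
      obtain ⟨M₁, M₂, h5, h6, b, hb⟩ := hy
      have e1 : ∀ {A : Submodule ℂ V₁} {B : Submodule ℂ V₂} {A' : Submodule ℂ V₁}
          {B' : Submodule ℂ V₂} (hA : A ≤ A') (hB : B ≤ B'),
          LinearMap.range (TensorProduct.map A.subtype B.subtype) ≤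
            LinearMap.range (TensorProduct.map A'.subtype B'.subtype) := by
        rintro A B A' B' hA hB _ ⟨z, rfl⟩
        refine ⟨TensorProduct.map (Submodule.inclusion hA) (Submodule.inclusion hB) z, ?_⟩
        rw [← LinearMap.comp_apply, ← TensorProduct.map_comp]
        rfl
      refine ⟨L₁ ⊓ M₁, L₂ ⊓ M₂, h3.inter h5, h4.inter h6, Submodule.add_mem _
        (e1 (fixK_mono inf_le_left) (fixK_mono inf_le_left) ⟨a, ha⟩)
        (e1 (fixK_mono inf_le_right) (fixK_mono inf_le_right) ⟨b, hb⟩)⟩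
  obtain ⟨L₁, L₂, hL₁, hL₂, z, hz⟩ := hcom v
  obtain ⟨ι, _, t, hne, ht, -, h4⟩ := exists_avg K₁ L₁ hK₁c hL₁
  obtain ⟨κ, _, s, hne', hs, -, h5⟩ := exists_avg K₂ L₂ hK₂c hL₂
  have key : ∀ z : (fixK π₁ L₁) ⊗[ℂ] (fixK π₂ L₂), ∑ i, ∑ j, π (t i, s j)
      (TensorProduct.map (fixK π₁ L₁).subtype (fixK π₂ L₂).subtype z) ∈ LinearMap.range
        (TensorProduct.map (fixK π₁ K₁).subtype (fixK π₂ K₂).subtype) := by
    intro z
    induction z with
    | zero =>
      simp only [map_zero, Finset.sum_const_zero]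
      exact Submodule.zero_mem _
    | tmul x y =>
      refine ⟨(⟨∑ i, π₁ (t i) x, h4 π₁ x x.2⟩ : fixK π₁ K₁) ⊗ₜ[ℂ]
        (⟨∑ j, π₂ (s j) y, h5 π₂ y y.2⟩ : fixK π₂ K₂), ?_⟩
      show (∑ i, π₁ (t i) x) ⊗ₜ[ℂ] (∑ j, π₂ (s j) y) = ∑ i, ∑ j, π (t i, s j) ((x : V₁) ⊗ₜ[ℂ] (y : V₂))
      rw [TensorProduct.sum_tmul]
      refine Finset.sum_congr rfl fun i _ => ?_
      rw [TensorProduct.tmul_sum]
      exact Finset.sum_congr rfl fun j _ => (hπ _ _ _ _).symm
    | add a b ha hb =>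
      have := Submodule.add_mem _ ha hb
      simp only [map_add, Finset.sum_add_distrib] at this ⊢
      exact this
  have h6 := key z
  rw [hz] at h6
  have h7 : ∀ i j, π (t i, s j) v = v := fun i j => hv _ (hU ⟨hK₁ (ht i), hK₂ (hs j)⟩)
  rw [Finset.sum_congr rfl fun i _ => Finset.sum_congr rfl fun j _ => h7 i j, Finset.sum_const,
    Finset.sum_const, Finset.card_univ, Finset.card_univ, ← Nat.cast_smul_eq_nsmul ℂ,
    ← Nat.cast_smul_eq_nsmul ℂ, smul_smul] at h6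
  have h8 : ((Fintype.card ι : ℂ) * (Fintype.card κ : ℂ)) ≠ 0 :=
    mul_ne_zero (by exact_mod_cast Fintype.card_ne_zero) (by exact_mod_cast Fintype.card_ne_zero)
  have h9 := Submodule.smul_mem _ ((Fintype.card ι : ℂ) * (Fintype.card κ : ℂ))⁻¹ h6
  rwa [smul_smul, inv_mul_cancel₀ h8, one_smul] at h9

end tens

section indj

variable {E : Type} [NontriviallyNormedField E] [IsUltrametricDist E] [ProperSpace E]
  {a b N : ℕ} (h : a + b = N) {W : Type} [AddCommGroup W] [Module ℂ W]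

omit [IsUltrametricDist E] [ProperSpace E] in
theorem continuous_pelJ_zero : Continuous fun r : GL (Fin a) E × GL (Fin b) E =>
    (pelJ h r.1 r.2 0 : GL (Fin N) E) := by
  have hv : ∀ n : ℕ, Continuous fun g : GL (Fin n) E => (g : Matrix (Fin n) (Fin n) E) :=
    fun n => Units.continuous_val
  have hi : ∀ n : ℕ, Continuous fun g : GL (Fin n) E =>
      ((g⁻¹ : GL (Fin n) E) : Matrix (Fin n) (Fin n) E) :=
    fun n => Units.continuous_val.comp continuous_inv
  rw [Units.continuous_iff]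
  constructor
  · show Continuous fun r : GL (Fin a) E × GL (Fin b) E =>
      bmJ h (r.1 : Matrix (Fin a) (Fin a) E) 0 0 (r.2 : Matrix (Fin b) (Fin b) E)
    exact (((hv a).comp continuous_fst).matrix_fromBlocks continuous_const continuous_const
      ((hv b).comp continuous_snd)).matrix_reindex _ _
  · have e : (fun r : GL (Fin a) E × GL (Fin b) E =>
        (((pelJ h r.1 r.2 0 : GL (Fin N) E)⁻¹ : GL (Fin N) E) : Matrix (Fin N) (Fin N) E)) =
        fun r => bmJ h ((r.1⁻¹ : GL (Fin a) E) : Matrix (Fin a) (Fin a) E) 0 0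
          ((r.2⁻¹ : GL (Fin b) E) : Matrix (Fin b) (Fin b) E) := by
      funext r
      rw [pelJ_inv, Matrix.mul_zero, Matrix.zero_mul, neg_zero]
      rfl
    rw [e]
    exact (((hi a).comp continuous_fst).matrix_fromBlocks continuous_const continuous_const
      ((hi b).comp continuous_snd)).matrix_reindex _ _

/-- Parabolic induction preserves admissibility. -/
theorem AdmRep.indJ {ρ : (GL (Fin a) E × GL (Fin b) E) →* Module.End ℂ W} (hρ : AdmRep ρ) :
    AdmRep (indActJ h ρ) := by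
  intro K hK
  obtain ⟨ι, _, t, hne, ht, hrep, -⟩ := exists_avg (glK (Fin N) E 1 zero_le_one le_rfl) K
    (glK_isCompact zero_lt_one le_rfl) hK
  -- the subgroups of the Levi subgroup
  let L : ι → Subgroup (GL (Fin a) E × GL (Fin b) E) := fun i =>
    { carrier := {r | (t i)⁻¹ * pelJ h r.1 r.2 0 * t i ∈ K}
      mul_mem' := by
        rintro r s hr hs
        have e : (t i)⁻¹ * pelJ h (r * s).1 (r * s).2 0 * t i =
            ((t i)⁻¹ * pelJ h r.1 r.2 0 * t i) * ((t i)⁻¹ * pelJ h s.1 s.2 0 * t i) := by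
          have e1 : pelJ h (r * s).1 (r * s).2 0 = pelJ h r.1 r.2 0 * pelJ h s.1 s.2 0 := by
            rw [pelJ_mul, Matrix.mul_zero, Matrix.zero_mul, add_zero]
            rfl
          rw [e1]
          group
        show _ ∈ K
        rw [e]
        exact K.mul_mem hr hs
      one_mem' := by
        show (t i)⁻¹ * pelJ h 1 1 0 * t i ∈ K
        rw [pelJ_one, mul_one, inv_mul_cancel]
        exact K.one_mem
      inv_mem' := by
        rintro r hr
        have e : (t i)⁻¹ * pelJ h (r⁻¹).1 (r⁻¹).2 0 * t i =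
            ((t i)⁻¹ * pelJ h r.1 r.2 0 * t i)⁻¹ := by
          have e1 : pelJ h (r⁻¹).1 (r⁻¹).2 0 = (pelJ h r.1 r.2 0)⁻¹ := by
            rw [pelJ_inv, Matrix.mul_zero, Matrix.zero_mul, neg_zero]
            rfl
          rw [e1]
          group
        show _ ∈ K
        rw [e]
        exact K.inv_mem hr }
  have hLo : ∀ i, IsOpen (L i : Set (GL (Fin a) E × GL (Fin b) E)) := by
    intro i
    have hc : Continuous fun r : GL (Fin a) E × GL (Fin b) E =>
        (t i)⁻¹ * pelJ h r.1 r.2 0 * t i := by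
      exact (continuous_const.mul (continuous_pelJ_zero h)).mul continuous_const
    exact hK.preimage hc
  have hfin : ∀ i, FiniteDimensional ℂ (fixK ρ (L i)) := fun i => hρ _ (hLo i)
  have hval : ∀ (f : fixK (indActJ h ρ) K) (i : ι),
      ((f : IndJ h ρ) : GL (Fin N) E → W) (t i) ∈ fixK ρ (L i) := by
    intro f i r hr
    have h1 : (t i)⁻¹ * pelJ h r.1 r.2 0 * t i ∈ K := hr
    have h2 := congrArg (fun φ : IndJ h ρ => (φ : GL (Fin N) E → W) (t i)) (f.2 _ h1)
    have h3 : ((f : IndJ h ρ) : GL (Fin N) E → W) (t i * ((t i)⁻¹ * pelJ h r.1 r.2 0 * t i)) =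
      ((f : IndJ h ρ) : GL (Fin N) E → W) (t i) := h2
    have h4 : t i * ((t i)⁻¹ * pelJ h r.1 r.2 0 * t i) = pelJ h r.1 r.2 0 * t i := by group
    rw [h4, (f : IndJ h ρ).2.1] at h3
    exact h3
  let Φ : fixK (indActJ h ρ) K →ₗ[ℂ] (∀ i, fixK ρ (L i)) :=
    { toFun := fun f i => ⟨_, hval f i⟩
      map_add' := fun f g => rfl
      map_smul' := fun c f => rfl }
  refine FiniteDimensional.of_injective Φ fun f f' hff => ?_
  apply Subtype.ext
  apply Subtype.ext
  funext g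
  obtain ⟨p, q, y, k, hk, rfl⟩ := iwasawaJ h g
  obtain ⟨i, hi⟩ := hrep k hk
  have hv : ∀ f : fixK (indActJ h ρ) K, ((f : IndJ h ρ) : GL (Fin N) E → W) k =
      ((f : IndJ h ρ) : GL (Fin N) E → W) (t i) := by
    intro f
    have h2 := congrArg (fun φ : IndJ h ρ => (φ : GL (Fin N) E → W) (t i)) (f.2 _ hi)
    have h3 : ((f : IndJ h ρ) : GL (Fin N) E → W) (t i * ((t i)⁻¹ * k)) =
      ((f : IndJ h ρ) : GL (Fin N) E → W) (t i) := h2
    rwa [mul_inv_cancel_left] at h3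
  rw [(f : IndJ h ρ).2.1, (f' : IndJ h ρ).2.1, hv, hv]
  have h5 := congrArg Subtype.val (congrFun hff i)
  have h6 : ((f : IndJ h ρ) : GL (Fin N) E → W) (t i) =
    ((f' : IndJ h ρ) : GL (Fin N) E → W) (t i) := h5
  rw [h6]

end indj

end SpW
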