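import Pool.Agent.Work.MP_3615d2_al.Red
import Pool.Agent.Work.MP_3615d2_al.Co.JacE
import Pool.Agent.Work.MP_3615d2_al.Co.SwapHP

/-!
MP_3615d2_al, block Co: the coinvariants of the kernel of an irreducible quotient of
`I = πν^{1/2} × πν^{-1/2}`, and the intertwining operator `κν × I → I × κν`.
-/

open Filter Topology Matrix Polynomial
open scoped TensorProduct

set_option linter.unusedSectionVars false

namespace SpW

section trans

variable {G : Type} [Group G] {A V : Type} [AddCommGroup A] [Module ℂ A] [AddCommGroup V]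
  [Module ℂ V]

/-- the relations of a subrepresentation given by an injective equivariant map -/
theorem mem_cvN_of_inj {δ : G →* Module.End ℂ A} {π : G →* Module.End ℂ V} {ι : A →ₗ[ℂ] V}
    (hι : Function.Injective ι) (hG : ∀ g a, ι (δ g a) = π g (ι a)) {N : Subgroup G}
    {K : Submodule ℂ V} (hK : ∀ v ∈ K, ∃ a, ι a = v) {a : A} (ha : ι a ∈ cvN π N K) :
    a ∈ cvN δ N ⊤ := by
  have h1 : cvN π N K ≤ (cvN δ N ⊤).map ι := by
    unfold cvN
    rw [Submodule.span_le]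
    rintro x ⟨u, hu, v, hv, rfl⟩
    obtain ⟨b, rfl⟩ := hK v hv
    refine ⟨δ u b - b, Submodule.subset_span ⟨u, hu, b, Submodule.mem_top, rfl⟩, ?_⟩
    rw [map_sub, hG]
  obtain ⟨b, hb, hba⟩ := h1 ha
  rwa [← hι hba]

end trans

section data

variable {E : Type} [NontriviallyNormedField E] [IsUltrametricDist E] [ProperSpace E]
  [MeasurableSpace E] [BorelSpace E] {m : ℕ} {V : Type} [AddCommGroup V] [Module ℂ V]

/-- the central element of the Levi subgroup of `GL_{2m}` -/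
theorem dgl_eq_pel_scalar (z : Eˣ) :
    (dgl (fun i : Fin (2 * m) => if i.1 < m then z else 1) : GL (Fin (2 * m)) E) =
      pel (Matrix.GeneralLinearGroup.scalar (Fin m) z) 1 0 := by
  rw [← pelJ_two, pelJ_scalar_eq_dgl]

/-- the action of the central element on the evaluation at `1` -/
theorem rho_zeta_one {π : GL (Fin m) E →* Module.End ℂ V} (s : ℝ) {z : Eˣ} {c : ℂ}
    (hc : ∀ v, π (Matrix.GeneralLinearGroup.scalar (Fin m) z) v = c • v) (x : V ⊗[ℂ] V) :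
    rho π s (Matrix.GeneralLinearGroup.scalar (Fin m) z, 1) x =
      (((absE z ^ (m * s) : ℝ) : ℂ) * c) • x := by
  rw [rho_eq_oten]
  induction x using TensorProduct.induction_on with
  | zero => rw [map_zero, smul_zero]
  | tmul x y =>
    rw [oten_tmul, hc, map_one, Module.End.one_apply, ad_one, Real.one_rpow, mul_one, ad_scalar,
      ← Real.rpow_natCast, ← Real.rpow_mul (absE_pos z).le, ← TensorProduct.smul_tmul', smul_smul]
  | add x y hx hy => rw [map_add, smul_add, hx, hy]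

/-- **(a)** the coinvariants of `D = ker q`, `D` given by an injective equivariant map -/
theorem dker_data (hm : 0 < m) (h2 : (2 : E) ≠ 0) (ψ : AddChar E Circle) (hψ : Continuous ψ)
    (hψ1 : ψ ≠ 1) {π : GL (Fin m) E →* Module.End ℂ V}
    (hπ : IsSmoothRep π) (hirr : IsIrrRep π) (hc : IsCusp π) (hu : UnitCentral π)
    {W₀ : Type} [AddCommGroup W₀] [Module ℂ W₀] {τ : GL (Fin (2 * m)) E →* Module.End ℂ W₀}
    (hτ : IsIrrRep τ) (q : Ind (rho π (((m : ℝ) + 1) / 2)) →ₗ[ℂ] W₀)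
    (hq : Function.Surjective q)
    (hqG : ∀ g f, q (indAct (rho π (((m : ℝ) + 1) / 2)) g f) = τ g (q f))
    {A : Type} [AddCommGroup A] [Module ℂ A] {δ : GL (Fin (2 * m)) E →* Module.End ℂ A}
    (ι : A →ₗ[ℂ] Ind (rho π (((m : ℝ) + 1) / 2))) (hι : Function.Injective ι)
    (hιG : ∀ g a, ι (δ g a) = indAct (rho π (((m : ℝ) + 1) / 2)) g (ι a))
    (hr : LinearMap.range ι = LinearMap.ker q) :
    IsSmoothRep δ ∧
    (∀ k, 0 < k → k < 2 * m → k ≠ m → cvN δ (Nk (2 * m) k E) ⊤ = ⊤) ∧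
    (∀ (w : Eˣ) (c : ℂ), (∀ v, π (Matrix.GeneralLinearGroup.scalar (Fin m) w) v = c • v) →
      ∀ a, δ (dgl (fun i : Fin (2 * m) => if i.1 < m then w else 1)) a -
        (((absE w ^ ((m : ℝ) * (((m : ℝ) + 1) / 2)) : ℝ) : ℂ) * c) • a ∈
          cvN δ (Nk (2 * m) m E) ⊤) ∧
    (∀ x, ∃ a, ev1 (rho π (((m : ℝ) + 1) / 2)) (ι a) = x) := by
  obtain ⟨e', -, -, -, h4⟩ := ker_quot_coinv hm h2 ψ hψ hψ1 hπ hirr hc hu
  obtain ⟨-, h5, h6, h7⟩ := h4 hτ q hq hqG
  have hK : ∀ v ∈ LinearMap.ker q, ∃ a, ι a = v := by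
    intro v hv
    rw [← hr] at hv
    exact hv
  have hqι : ∀ a, q (ι a) = 0 := by
    intro a
    have : ι a ∈ LinearMap.ker q := by
      rw [← hr]
      exact ⟨a, rfl⟩
    exact this
  refine ⟨?_, ?_, ?_, ?_⟩
  · intro a
    filter_upwards [ind_smooth (rho π (((m : ℝ) + 1) / 2)) (ι a)] with g hg
    apply hι
    rw [hιG, hg]
  · intro k hk0 hk hkm
    rw [eq_top_iff]
    intro a _
    exact mem_cvN_of_inj hι hιG hK (h7 k hk0 hk hkm (ι a) (hqι a))
  · intro w c hcw a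
    refine mem_cvN_of_inj hι hιG hK (h6 _ (hqι _) ?_)
    rw [map_sub, hιG, map_sub, dgl_eq_pel_scalar, ev1_pel, rho_zeta_one _ hcw, map_smul,
      map_smul, sub_self]
  · intro x
    obtain ⟨f, hf, hx⟩ := h5 x
    obtain ⟨a, rfl⟩ := hK f hf
    exact ⟨a, hx⟩

end data

section swapA

variable {E : Type} [NontriviallyNormedField E] [IsUltrametricDist E] [ProperSpace E]
  [MeasurableSpace E] [BorelSpace E] {m : ℕ} (h : m + 2 * m = 3 * m) (h' : 2 * m + m = 3 * m)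
  {V₁ W : Type} [AddCommGroup V₁] [Module ℂ V₁] [AddCommGroup W] [Module ℂ W]
  {κ : GL (Fin m) E →* Module.End ℂ V₁} {B : GL (Fin (2 * m)) E →* Module.End ℂ W}

theorem comm_oten (s t s' t' : ℝ) (hs : s' = m + t) (ht : t' = s - 2 * m)
    (r : GL (Fin (2 * m)) E × GL (Fin m) E) (w : V₁ ⊗[ℂ] W) :
    (TensorProduct.comm ℂ V₁ W) (swJ (oten s t κ B) r w) =
      oten s' t' B κ r (TensorProduct.comm ℂ V₁ W w) := by
  obtain ⟨q, p⟩ := r
  rw [swJ_apply, map_smul]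
  induction w using TensorProduct.induction_on with
  | zero => simp only [map_zero, smul_zero]
  | tmul x y =>
    rw [TensorProduct.comm_tmul, oten_tmul, oten_tmul, map_smul, TensorProduct.comm_tmul,
      smul_smul]
    congr 1
    rw [← Complex.ofReal_mul]
    congr 1
    rw [hs, ht, Real.rpow_add (ad_pos q), sub_eq_add_neg, Real.rpow_add (ad_pos p)]
    push_cast
    ring
  | add x y hx hy =>
    simp only [map_add, smul_add] at hx hy ⊢
    rw [hx, hy]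

/-- **(b)** the intertwining operator `κ × B → B × κ` in terms of the exponents -/
theorem exists_swap_abs (hm : 0 < m) (s t s' t' : ℝ) (hs : s' = m + t) (ht : t' = s - 2 * m)
    (hκ : IsSmoothRep κ) (hκc : IsCusp κ) (hB : IsSmoothRep B) {z : Eˣ} {cK cI c₁ c₂ : ℂ}
    (hcK : ∀ v, κ (Matrix.GeneralLinearGroup.scalar (Fin m) z) v = cK • v)
    (hcI : ∀ v, B (Matrix.GeneralLinearGroup.scalar (Fin (2 * m)) z) v = cI • v)
    (hB2 : ∀ y, B (dgl (fun i : Fin (2 * m) => if i.1 < m then z else 1))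
      (B (dgl (fun i : Fin (2 * m) => if i.1 < m then z else 1)) y - c₂ • y) -
        c₁ • (B (dgl (fun i : Fin (2 * m) => if i.1 < m then z else 1)) y - c₂ • y) ∈
          cvN B (Nk (2 * m) m E) ⊤)
    (hne₁ : ((absE z ^ (m * s + m * t) : ℝ) : ℂ) * cK * c₁ ≠
      ((absE z ^ (2 * (m : ℝ) ^ 2 + 2 * m * t) : ℝ) : ℂ) * cI)
    (hne₂ : ((absE z ^ (m * s + m * t) : ℝ) : ℂ) * cK * c₂ ≠
      ((absE z ^ (2 * (m : ℝ) ^ 2 + 2 * m * t) : ℝ) : ℂ) * cI) :
    ∃ M : IndJ h (oten s t κ B) →ₗ[ℂ] IndJ h' (oten s' t' B κ),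
      (∀ g f, M (indActJ h (oten s t κ B) g f) = indActJ h' (oten s' t' B κ) g (M f)) ∧
      (∀ (W₁ : Submodule ℂ (V₁ ⊗[ℂ] W)) (f : IndJ h (oten s t κ B)),
        (∀ g, (f : GL (Fin (3 * m)) E → V₁ ⊗[ℂ] W) g ∈ W₁) → ∀ g,
          ∃ x ∈ W₁, TensorProduct.comm ℂ V₁ W x =
            ((M f : IndJ h' (oten s' t' B κ)) : GL (Fin (3 * m)) E → W ⊗[ℂ] V₁) g) ∧
      (∀ x : V₁ ⊗[ℂ] W, ∃ f : IndJ h (oten s t κ B),
        ((M f : IndJ h' (oten s' t' B κ)) : GL (Fin (3 * m)) E → W ⊗[ℂ] V₁) 1 =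
          TensorProduct.comm ℂ V₁ W x ∧
        ∀ W₁ : Submodule ℂ (V₁ ⊗[ℂ] W), (∀ p q, ∀ w ∈ W₁, oten s t κ B (p, q) w ∈ W₁) → x ∈ W₁ →
          ∀ g, (f : GL (Fin (3 * m)) E → V₁ ⊗[ℂ] W) g ∈ W₁) := by
  have hz : 0 < absE z := absE_pos z
  have hR := oten_smooth hκ hB s t
  set γ : ℂ := ((absE z ^ (m * s + m * t) : ℝ) : ℂ) * cK with hγ
  have hkm : 2 * m - m = m := by omega
  -- the action of the central element of the Levi subgroup
  have hT : ∀ (x : V₁) (y : W), oten s t κ B (Matrix.GeneralLinearGroup.scalar (Fin m) z,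
      dgl (fun i : Fin (2 * m) => if i.1 < m then z else 1)) (x ⊗ₜ[ℂ] y) =
      x ⊗ₜ[ℂ] (γ • B (dgl (fun i : Fin (2 * m) => if i.1 < m then z else 1)) y) := by
    intro x y
    rw [oten_tmul, hcK, ad_scalar, ad_dgl_lt (2 * m) z (by omega), ← Real.rpow_natCast,
      ← Real.rpow_mul hz.le, ← Real.rpow_mul hz.le, ← Real.rpow_add hz,
      ← TensorProduct.smul_tmul', smul_smul, ← hγ, TensorProduct.tmul_smul]
  have hPw : ∀ w, aeval (oten s t κ B (Matrix.GeneralLinearGroup.scalar (Fin m) z,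
      dgl (fun i : Fin (2 * m) => if i.1 < 2 * m - m then z else 1)))
        ((X - C (γ * c₁)) * (X - C (γ * c₂)) : ℂ[X]) w ∈
          cvN (oten s t κ B) ((⊥ : Subgroup (GL (Fin m) E)).prod (Nk (2 * m) (2 * m - m) E)) ⊤ := by
    intro w
    rw [hkm]
    induction w using TensorProduct.induction_on with
    | zero =>
      rw [map_zero]
      exact Submodule.zero_mem _
    | tmul x y =>
      have h3 := Submodule.smul_mem _ (γ * γ) (cvN_oten_low s t (π₁ := κ) (hB2 y) x)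
      convert h3 using 1
      rw [map_mul, Module.End.mul_apply, map_sub, map_sub, aeval_X, aeval_C, aeval_C,
        LinearMap.sub_apply, LinearMap.sub_apply, hT, Module.algebraMap_end_apply,
        Module.algebraMap_end_apply, ← TensorProduct.tmul_smul, ← TensorProduct.tmul_sub, hT,
        ← TensorProduct.tmul_smul, ← TensorProduct.tmul_sub, ← TensorProduct.tmul_smul]
      congr 1
      simp only [map_sub, map_smul, smul_sub, smul_smul]
      ring_nf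
    | add x y hx hy =>
      rw [map_add]
      exact Submodule.add_mem _ hx hy
  have hP : ∀ f : IndJ h (oten s t κ B), ∃ f₀ ∈ cellSubJ h h' (oten s t κ B),
      aeval (indActJ h (oten s t κ B)
        (pelJ h' (Matrix.GeneralLinearGroup.scalar (Fin (2 * m)) z) 1 0))
        ((X - C (γ * c₁)) * (X - C (γ * c₂)) : ℂ[X]) f - f₀ ∈
          cvN (indActJ h (oten s t κ B)) (Nk (3 * m) (2 * m) E) ⊤ := fun f =>
    swap_hP h h' hR hm (by omega) (fun r hr0 hr => cvN_oten_up_top s t B (hκc r hr0 hr)) z _ hPw f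
  have hcB : ∀ w, oten s t κ B (1, Matrix.GeneralLinearGroup.scalar (Fin (2 * m)) z) w =
      (((absE z ^ (2 * m * t) : ℝ) : ℂ) * cI) • w := by
    intro w
    induction w using TensorProduct.induction_on with
    | zero => rw [map_zero, smul_zero]
    | tmul x y =>
      rw [oten_tmul, hcI, map_one, Module.End.one_apply, ad_one, Real.one_rpow, one_mul, ad_scalar,
        ← Real.rpow_natCast, ← Real.rpow_mul hz.le, TensorProduct.tmul_smul, smul_smul]
      push_cast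
      rfl
    | add x y hx hy => rw [map_add, smul_add, hx, hy]
  have hβ : ((X - C (γ * c₁)) * (X - C (γ * c₂)) : ℂ[X]).eval
      (((ad (Matrix.GeneralLinearGroup.scalar (Fin (2 * m)) z : GL (Fin (2 * m)) E) ^ (m : ℝ) : ℝ) :
        ℂ) * (((absE z ^ (2 * m * t) : ℝ) : ℂ) * cI)) ≠ 0 := by
    have h1 : ((ad (Matrix.GeneralLinearGroup.scalar (Fin (2 * m)) z : GL (Fin (2 * m)) E) ^
        (m : ℝ) : ℝ) : ℂ) * (((absE z ^ (2 * m * t) : ℝ) : ℂ) * cI) =
        ((absE z ^ (2 * (m : ℝ) ^ 2 + 2 * m * t) : ℝ) : ℂ) * cI := by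
      rw [ad_scalar, ← Real.rpow_natCast, ← Real.rpow_mul hz.le, ← mul_assoc,
        ← Complex.ofReal_mul, ← Real.rpow_add hz]
      congr 4
      push_cast
      ring
    rw [h1, eval_mul, eval_sub, eval_sub, eval_X, eval_C, eval_C]
    exact mul_ne_zero (sub_ne_zero.2 hne₁.symm) (sub_ne_zero.2 hne₂.symm)
  obtain ⟨M, hM1, -, hM3, hM4⟩ := exists_swapJ h h' hR (ρ' := swJ (oten s t κ B))
    (fun q p w => swJ_apply _ q p w) hcB hβ hP
  refine ⟨(mapJ h' (TensorProduct.comm ℂ V₁ W).toLinearMap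
    (comm_oten s t s' t' hs ht)).comp M, fun g f => ?_, fun W₁ f hf g => ?_, fun x => ?_⟩
  · rw [LinearMap.comp_apply, LinearMap.comp_apply, hM1, mapJ_act]
  · exact ⟨_, hM3 W₁ f hf g, rfl⟩
  · obtain ⟨f, -, h1, h2⟩ := hM4 x
    refine ⟨f, ?_, fun W₁ hW hx => h2 W₁ hW hx⟩
    rw [LinearMap.comp_apply, mapJ_apply, h1]
    rfl

end swapA

section swapI

variable {E : Type} [NontriviallyNormedField E] [IsUltrametricDist E] [ProperSpace E]
  [MeasurableSpace E] [BorelSpace E] {m : ℕ} (h : m + 2 * m = 3 * m) (h' : 2 * m + m = 3 * m)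
  {V V₁ : Type} [AddCommGroup V] [Module ℂ V] [AddCommGroup V₁] [Module ℂ V₁]

/-- the two exponents of `I = πν^{1/2} × πν^{-1/2}` -/
theorem indI_exponents (hm : 0 < m) (h2 : (2 : E) ≠ 0) (ψ : AddChar E Circle) (hψ : Continuous ψ)
    (hψ1 : ψ ≠ 1) {π : GL (Fin m) E →* Module.End ℂ V}
    (hπ : IsSmoothRep π) (hirr : IsIrrRep π) (hc : IsCusp π) (hu : UnitCentral π) {z : Eˣ} {c : ℂ}
    (hcz : ∀ v, π (Matrix.GeneralLinearGroup.scalar (Fin m) z) v = c • v)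
    (y : Ind (rho π (((m : ℝ) + 1) / 2))) :
    indAct (rho π (((m : ℝ) + 1) / 2))
      (dgl (fun i : Fin (2 * m) => if i.1 < m then z else 1))
      (indAct (rho π (((m : ℝ) + 1) / 2))
        (dgl (fun i : Fin (2 * m) => if i.1 < m then z else 1)) y -
          (((absE z ^ ((m : ℝ) * (((m : ℝ) + 1) / 2)) : ℝ) : ℂ) * c) • y) -
      (((absE z ^ ((m : ℝ) * (((m : ℝ) - 1) / 2)) : ℝ) : ℂ) * c) •
        (indAct (rho π (((m : ℝ) + 1) / 2))
          (dgl (fun i : Fin (2 * m) => if i.1 < m then z else 1)) y -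
            (((absE z ^ ((m : ℝ) * (((m : ℝ) + 1) / 2)) : ℝ) : ℂ) * c) • y) ∈
      cvN (indAct (rho π (((m : ℝ) + 1) / 2))) (Nk (2 * m) m E) ⊤ := by
  obtain ⟨e', h3, -, h4, -⟩ := ker_quot_coinv hm h2 ψ hψ hψ1 hπ hirr hc hu
  set I := indAct (rho π (((m : ℝ) + 1) / 2)) with hI
  set T := I (dgl (fun i : Fin (2 * m) => if i.1 < m then z else 1)) with hT
  have hev : ∀ f, ev1 (rho π (((m : ℝ) + 1) / 2)) (T f) =
      (((absE z ^ ((m : ℝ) * (((m : ℝ) + 1) / 2)) : ℝ) : ℂ) * c) • ev1 _ f := by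
    intro f
    rw [hT, dgl_eq_pel_scalar, hI, ev1_pel, rho_zeta_one _ hcz]
  have he' : ∀ f, e' (T f) =
      (((absE z ^ ((m : ℝ) * (((m : ℝ) - 1) / 2)) : ℝ) : ℂ) * c) • e' f := by
    intro f
    rw [hT, dgl_eq_pel_scalar, h3, rho_zeta_one _ hcz]
  refine h4 _ ?_ ?_
  · rw [map_sub (ev1 _), hev, map_smul (ev1 _), map_sub (ev1 _), hev, map_smul (ev1 _), sub_self,
      smul_zero, smul_zero, sub_zero]
  · rw [map_sub e', he', map_smul e', sub_self]

/-- **(b)** the intertwining operator `κν × I → I × κν` -/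
theorem exists_swapI (hm : 0 < m) (h2 : (2 : E) ≠ 0) (ψ : AddChar E Circle) (hψ : Continuous ψ)
    (hψ1 : ψ ≠ 1) {π : GL (Fin m) E →* Module.End ℂ V}
    (hπ : IsSmoothRep π) (hirr : IsIrrRep π) (hc : IsCusp π) (hu : UnitCentral π)
    {κ : GL (Fin m) E →* Module.End ℂ V₁} (hκ : IsSmoothRep κ) (hκc : IsCusp κ)
    (hκu : UnitCentral κ) :
    ∃ M : IndJ h (oten ((m : ℝ) + 1) (-((m : ℝ) / 2)) κ (indAct (rho π (((m : ℝ) + 1) / 2)))) →ₗ[ℂ]
        IndJ h' (oten ((m : ℝ) / 2) (-((m : ℝ) - 1)) (indAct (rho π (((m : ℝ) + 1) / 2))) κ),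
      (∀ g f, M (indActJ h (oten ((m : ℝ) + 1) (-((m : ℝ) / 2)) κ
        (indAct (rho π (((m : ℝ) + 1) / 2)))) g f) =
          indActJ h' (oten ((m : ℝ) / 2) (-((m : ℝ) - 1))
            (indAct (rho π (((m : ℝ) + 1) / 2))) κ) g (M f)) ∧
      (∀ (W₁ : Submodule ℂ (V₁ ⊗[ℂ] Ind (rho π (((m : ℝ) + 1) / 2))))
        (f : IndJ h (oten ((m : ℝ) + 1) (-((m : ℝ) / 2)) κ (indAct (rho π (((m : ℝ) + 1) / 2))))),
        (∀ g, (f : GL (Fin (3 * m)) E → V₁ ⊗[ℂ] Ind (rho π (((m : ℝ) + 1) / 2))) g ∈ W₁) → ∀ g,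
          ∃ x ∈ W₁, TensorProduct.comm ℂ V₁ _ x =
            ((M f : IndJ h' (oten ((m : ℝ) / 2) (-((m : ℝ) - 1))
              (indAct (rho π (((m : ℝ) + 1) / 2))) κ)) :
                GL (Fin (3 * m)) E → Ind (rho π (((m : ℝ) + 1) / 2)) ⊗[ℂ] V₁) g) ∧
      (∀ x : V₁ ⊗[ℂ] Ind (rho π (((m : ℝ) + 1) / 2)),
        ∃ f : IndJ h (oten ((m : ℝ) + 1) (-((m : ℝ) / 2)) κ (indAct (rho π (((m : ℝ) + 1) / 2)))),
        ((M f : IndJ h' (oten ((m : ℝ) / 2) (-((m : ℝ) - 1))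
          (indAct (rho π (((m : ℝ) + 1) / 2))) κ)) :
            GL (Fin (3 * m)) E → Ind (rho π (((m : ℝ) + 1) / 2)) ⊗[ℂ] V₁) 1 =
          TensorProduct.comm ℂ V₁ _ x ∧
        ∀ W₁ : Submodule ℂ (V₁ ⊗[ℂ] Ind (rho π (((m : ℝ) + 1) / 2))),
          (∀ p q, ∀ w ∈ W₁, oten ((m : ℝ) + 1) (-((m : ℝ) / 2)) κ
            (indAct (rho π (((m : ℝ) + 1) / 2))) (p, q) w ∈ W₁) → x ∈ W₁ →
          ∀ g, (f : GL (Fin (3 * m)) E → V₁ ⊗[ℂ] Ind (rho π (((m : ℝ) + 1) / 2))) g ∈ W₁) := by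
  have hmR : (0 : ℝ) < m := by exact_mod_cast hm
  obtain ⟨x, hx0, hx1⟩ := NormedField.exists_norm_lt_one E
  let z : Eˣ := Units.mk0 x (norm_pos_iff.1 hx0)
  have hz0 : 0 < absE z := absE_pos z
  have hz1 : absE z < 1 := by
    rw [absE_md]
    exact_mod_cast md_lt_one (show ‖(z : E)‖ < 1 from hx1)
  obtain ⟨χ, hχ1, hχ⟩ := hu
  obtain ⟨χκ, hκ1, hχκ⟩ := hκu
  obtain ⟨χI, hI1, hχI⟩ := rho_unitCentral (π := π) ⟨χ, hχ1, hχ⟩ (((m : ℝ) + 1) / 2)
  have hne : ∀ (x y : ℝ) (c c' c'' : ℂ), ‖c‖ = 1 → ‖c'‖ = 1 → ‖c''‖ = 1 → ∀ x' : ℝ,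
      x + x' ≠ y → ((absE z ^ x : ℝ) : ℂ) * c * (((absE z ^ x' : ℝ) : ℂ) * c') ≠
        ((absE z ^ y : ℝ) : ℂ) * c'' := by
    intro x y c c' c'' hc hc' hc'' x' hxy h0
    have h1 := congrArg norm h0
    rw [norm_mul, norm_mul, norm_mul, norm_mul, hc, hc', hc'', mul_one, mul_one, mul_one,
      Complex.norm_real, Complex.norm_real, Complex.norm_real,
      Real.norm_of_nonneg (Real.rpow_pos_of_pos hz0 x).le,
      Real.norm_of_nonneg (Real.rpow_pos_of_pos hz0 x').le,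
      Real.norm_of_nonneg (Real.rpow_pos_of_pos hz0 y).le, ← Real.rpow_add hz0] at h1
    rcases lt_or_gt_of_ne hxy with h2 | h2
    · exact absurd h1 (Real.rpow_lt_rpow_of_exponent_gt hz0 hz1 h2).ne'
    · exact absurd h1 (Real.rpow_lt_rpow_of_exponent_gt hz0 hz1 h2).ne
  exact exists_swap_abs h h' hm ((m : ℝ) + 1) (-((m : ℝ) / 2)) ((m : ℝ) / 2) (-((m : ℝ) - 1))
    (by ring) (by ring) hκ hκc (ind_smooth _) (z := z) (hχκ z)
    (fun v => ind_unitCentral _ χI hχI z v)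
    (indI_exponents hm h2 ψ hψ hψ1 hπ hirr hc ⟨χ, hχ1, hχ⟩ (hχ z))
    (hne _ _ _ _ _ (hκ1 z) (hχ1 z) (hI1 z) _ (by
      intro h0
      nlinarith))
    (hne _ _ _ _ _ (hκ1 z) (hχ1 z) (hI1 z) _ (by
      intro h0
      nlinarith))

end swapI

end SpW
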