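import Pool.Agent.Work.MP_3615d2_al.Co.L2Sum

/-!
MP_3615d2_al, (COMM) (note 6707): counting cosets and square summability of the matrix coefficients
of a smooth representation of `GL_n(E)` with given exponents.
-/

open Filter Topology
open scoped ComplexConjugate NNReal

set_option linter.unusedSectionVars false

namespace SpW.L2

section geom

/-- sums of products of geometric series -/
theorem sum_geom_le {n : ℕ} (y : Fin n → ℝ) (h0 : ∀ i, 0 ≤ y i) (h1 : ∀ i, y i < 1)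
    (P : Finset (Fin n → ℕ)) : ∑ p ∈ P, ∏ i, y i ^ p i ≤ ∏ i, (1 - y i)⁻¹ := by
  classical
  let N : ℕ := P.sup (fun p => Finset.univ.sup p) + 1
  have hP : P ⊆ Fintype.piFinset (fun _ : Fin n => Finset.range N) := by
    intro p hp
    rw [Fintype.mem_piFinset]
    intro i
    rw [Finset.mem_range, Nat.lt_succ_iff]
    exact (Finset.le_sup (f := p) (Finset.mem_univ i)).trans
      (Finset.le_sup (f := fun p : Fin n → ℕ => Finset.univ.sup p) hp)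
  calc ∑ p ∈ P, ∏ i, y i ^ p i
      ≤ ∑ p ∈ Fintype.piFinset (fun _ : Fin n => Finset.range N), ∏ i, y i ^ p i :=
        Finset.sum_le_sum_of_subset_of_nonneg hP fun p _ _ =>
          Finset.prod_nonneg fun i _ => pow_nonneg (h0 i) _
    _ = ∏ i, ∑ j ∈ Finset.range N, y i ^ j := by
        rw [Finset.prod_univ_sum]
    _ ≤ ∏ i, (1 - y i)⁻¹ := by
        refine Finset.prod_le_prod (fun i _ => Finset.sum_nonneg fun j _ => pow_nonneg (h0 i) _)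
          fun i _ => ?_
        rw [← tsum_geometric_of_lt_one (h0 i) (h1 i)]
        exact (summable_geometric_of_lt_one (h0 i) (h1 i)).sum_le_tsum _
          fun j _ => pow_nonneg (h0 i) _

end geom

section count

variable {E : Type} [NontriviallyNormedField E] [IsUltrametricDist E] [ProperSpace E]
  [MeasurableSpace E] [BorelSpace E] {n : ℕ}

/-- representatives of `GL_n(O)` modulo a congruence subgroup -/
theorem exists_reps_glK {ε : ℝ} (h0 : 0 < ε) (h1 : ε ≤ 1) : ∃ R : Finset (GL (Fin n) E),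
    ∀ k ∈ glK (Fin n) E 1 zero_le_one le_rfl, ∃ r ∈ R,
      r ∈ glK (Fin n) E 1 zero_le_one le_rfl ∧ r⁻¹ * k ∈ glK (Fin n) E ε h0.le h1 := by
  have hc : IsCompact (glK (Fin n) E 1 zero_le_one le_rfl : Set (GL (Fin n) E)) :=
    glK_isCompact one_pos le_rfl
  obtain ⟨R, hR, hcov⟩ := hc.elim_nhds_subcover
    (fun r => {k | r⁻¹ * k ∈ glK (Fin n) E ε h0.le h1}) (by
      intro r _
      have h2 : Tendsto (fun k : GL (Fin n) E => r⁻¹ * k) (𝓝 r) (𝓝 1) := by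
        have : Continuous (fun k : GL (Fin n) E => r⁻¹ * k) := by fun_prop
        simpa using this.tendsto r
      exact h2 ((glK_isOpen h0 h1).mem_nhds (one_mem _)))
  refine ⟨R, fun k hk => ?_⟩
  have h2 := hcov hk
  simp only [Set.mem_iUnion] at h2
  obtain ⟨r, hr, h3⟩ := h2
  exact ⟨r, hr, hR r hr, h3⟩

/-- the number of cosets modulo `K Z` in a Cartan cell -/
theorem card_cosets_le {ε : ℝ} (h0 : 0 < ε) (h1 : ε ≤ 1) : ∃ C : ℝ, 0 ≤ C ∧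
    ∀ (t : Fin n → Eˣ) (F : Finset (GL (Fin n) E ⧸ (glK (Fin n) E ε h0.le h1 ⊔ scalZ n E))),
      (∀ x ∈ F, ∃ z ∈ scalZ n E, ∃ k₁ ∈ glK (Fin n) E 1 zero_le_one le_rfl,
        ∃ k₂ ∈ glK (Fin n) E 1 zero_le_one le_rfl, x.out⁻¹ = z * (k₁ * dgl t * k₂)) →
      (F.card : ℝ) ≤ C * NN t⁻¹ := by
  classical
  obtain ⟨C, hC0, hC⟩ := Mo.card_cells_le (n := n) (E := E) h0 h1
  obtain ⟨R, hR⟩ := exists_reps_glK (n := n) (E := E) h0 h1
  set U := glK (Fin n) E ε h0.le h1 with hU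
  set H := U ⊔ scalZ n E with hH
  refine ⟨C * (R ×ˢ R).card, mul_nonneg hC0.le (Nat.cast_nonneg _), fun t F hF => ?_⟩
  have hF' : ∀ x : GL (Fin n) E ⧸ H, ∃ k₁ k₂ a b : GL (Fin n) E, x ∈ F →
      (∃ z ∈ scalZ n E, x.out⁻¹ = z * (k₁ * dgl t * k₂)) ∧ a ∈ R ∧ b ∈ R ∧
        a⁻¹ * k₂⁻¹ ∈ U ∧ b⁻¹ * k₁⁻¹ ∈ U ∧ b ∈ glK (Fin n) E 1 zero_le_one le_rfl := by
    intro x
    by_cases hx : x ∈ F
    · obtain ⟨z, hz, k₁, hk₁, k₂, hk₂, h⟩ := hF x hx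
      obtain ⟨a, ha, ha', ha''⟩ := hR k₂⁻¹ (inv_mem hk₂)
      obtain ⟨b, hb, hb', hb''⟩ := hR k₁⁻¹ (inv_mem hk₁)
      exact ⟨k₁, k₂, a, b, fun _ => ⟨⟨z, hz, h⟩, ha, hb, ha'', hb'', hb'⟩⟩
    · exact ⟨1, 1, 1, 1, fun h => absurd h hx⟩
  choose k₁ k₂ a b hk using hF'
  have hfib : ∀ y ∈ R ×ˢ R, (F.filter fun x => (a x, b x) = y).card ≤ ⌊C * NN t⁻¹⌋₊ := by
    intro y _
    rw [Nat.le_floor_iff (mul_nonneg hC0.le (NN_pos _).le)]
    set Fy := F.filter fun x => (a x, b x) = y with hFy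
    have hmem : ∀ x ∈ Fy, x ∈ F ∧ a x = y.1 ∧ b x = y.2 := by
      intro x hx
      rw [hFy, Finset.mem_filter] at hx
      refine ⟨hx.1, ?_, ?_⟩
      · rw [← hx.2]
      · rw [← hx.2]
    have hkey : ∀ x ∈ Fy, ∀ x' ∈ Fy,
        dgl t * (((a x)⁻¹ * (k₂ x)⁻¹)⁻¹ * ((a x')⁻¹ * (k₂ x')⁻¹)) * (dgl t)⁻¹ ∈ U → x = x' := by
      intro x hx x' hx' hw
      obtain ⟨hxF, hxa, hxb⟩ := hmem x hx
      obtain ⟨hxF', hxa', hxb'⟩ := hmem x' hx'
      obtain ⟨⟨z, hz, h2⟩, -, -, ha2, hb2, hb3⟩ := hk x hxF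
      obtain ⟨⟨z', hz', h2'⟩, -, -, ha2', hb2', -⟩ := hk x' hxF'
      rw [← Quotient.out_eq' x, ← Quotient.out_eq' x']
      refine QuotientGroup.eq.2 ?_
      have h3 : x'.out = (z' * (k₁ x' * dgl t * k₂ x'))⁻¹ := by rw [← h2', inv_inv]
      show x.out⁻¹ * x'.out ∈ H
      rw [h2, h3]
      have h4 : z * (k₁ x * dgl t * k₂ x) * (z' * (k₁ x' * dgl t * k₂ x'))⁻¹ =
          z * (((b x)⁻¹ * (k₁ x)⁻¹)⁻¹ * ((b x)⁻¹ * (dgl t * (((a x)⁻¹ * (k₂ x)⁻¹)⁻¹ *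
            ((a x')⁻¹ * (k₂ x')⁻¹)) * (dgl t)⁻¹) * b x) * ((b x')⁻¹ * (k₁ x')⁻¹)) * z'⁻¹ := by
        rw [hxa, hxa', hxb, hxb']
        group
      rw [h4]
      refine mul_mem (mul_mem ((le_sup_right : scalZ n E ≤ H) hz)
        ((le_sup_left : U ≤ H) ?_)) (inv_mem ((le_sup_right : scalZ n E ≤ H) hz'))
      exact mul_mem (mul_mem (inv_mem hb2) (glK_conj hb3 hw)) hb2'
    let φ : (GL (Fin n) E ⧸ H) → GL (Fin n) E := fun x => (a x)⁻¹ * (k₂ x)⁻¹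
    have hinj : Set.InjOn φ (Fy : Set (GL (Fin n) E ⧸ H)) := by
      intro x hx x' hx' hxx'
      apply hkey x hx x' hx'
      have h5 : (a x)⁻¹ * (k₂ x)⁻¹ = (a x')⁻¹ * (k₂ x')⁻¹ := hxx'
      rw [h5, inv_mul_cancel, mul_one, mul_inv_cancel]
      exact one_mem _
    rw [← Finset.card_image_of_injOn hinj]
    refine hC t⁻¹ _ ?_ ?_
    · intro k hk'
      obtain ⟨x, hx, rfl⟩ := Finset.mem_image.1 hk'
      exact (hk x (hmem x hx).1).2.2.2.1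
    · intro k hk' k' hk'' hw
      obtain ⟨x, hx, rfl⟩ := Finset.mem_image.1 hk'
      obtain ⟨x', hx', rfl⟩ := Finset.mem_image.1 hk''
      rw [map_inv, inv_inv] at hw
      rw [hkey x hx x' hx' hw]
  have h2 := Finset.card_le_mul_card_image_of_maps_to (s := F) (t := R ×ˢ R)
    (f := fun x => (a x, b x)) (fun x hx => by
      obtain ⟨-, ha, hb, -⟩ := hk x hx
      exact Finset.mem_product.2 ⟨ha, hb⟩) ⌊C * NN t⁻¹⌋₊ hfib
  calc (F.card : ℝ) ≤ ((⌊C * NN t⁻¹⌋₊ * (R ×ˢ R).card : ℕ) : ℝ) := by exact_mod_cast h2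
    _ = (⌊C * NN t⁻¹⌋₊ : ℝ) * (R ×ˢ R).card := by push_cast; ring
    _ ≤ (C * NN t⁻¹) * (R ×ˢ R).card := by
        refine mul_le_mul_of_nonneg_right (Nat.floor_le (mul_nonneg hC0.le (NN_pos _).le))
          (Nat.cast_nonneg _)
    _ = C * (R ×ˢ R).card * NN t⁻¹ := by ring

end count

end SpW.L2
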