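import Pool.Agent.Work.MP_3615d2_al.UnitB

/-!
MP_3615d2_al, (COMM) (note 6707): the invariant form of a representation whose matrix coefficients
are square summable over `G / H`; growth of sequences with given exponents.
-/

open Filter Topology
open scoped ComplexConjugate

namespace SpW.L2

section coset

variable {G : Type} [Group G]

theorem tsum_coset_mul_left {H : Subgroup G} {F : G → ℂ} (hF : RInv H F) (h : G) :
    ∑' x : G ⧸ H, F (h * x.out) = ∑' x : G ⧸ H, F x.out := by
  have h0 := (MulAction.toPerm h : Equiv.Perm (G ⧸ H)).tsum_eq (fun x => F x.out)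
  refine Eq.trans ?_ h0
  apply tsum_congr
  intro x
  have h1 : MulAction.toPerm h x = ((h * x.out : G) : G ⧸ H) := by
    conv_lhs => rw [← Quotient.out_eq' x]
    rfl
  show F (h * x.out) = F ((MulAction.toPerm h : Equiv.Perm (G ⧸ H)) x).out
  rw [h1]
  exact (hF.out (h * x.out)).symm

end coset

section form

variable {G : Type} [Group G] {V : Type} [AddCommGroup V] [Module ℂ V]

/-- The coefficients of `f` are square summable over `G / H` -/
structure IsL2 (H : Subgroup G) (π : G →* Module.End ℂ V) (f : V →ₗ[ℂ] ℂ) : Prop where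
  inv : ∀ a b, RInv H (fun g => f (π g⁻¹ a) * conj (f (π g⁻¹ b)))
  sum : ∀ a, Summable (fun x : G ⧸ H => ‖f (π x.out⁻¹ a)‖ ^ 2)

/-- The invariant form of a square summable functional -/
noncomputable def lform (H : Subgroup G) (π : G →* Module.End ℂ V) (f : V →ₗ[ℂ] ℂ) (a b : V) : ℂ :=
  ∑' x : G ⧸ H, f (π x.out⁻¹ a) * conj (f (π x.out⁻¹ b))

variable {H : Subgroup G} {π : G →* Module.End ℂ V} {f : V →ₗ[ℂ] ℂ}

theorem IsL2.summable (hf : IsL2 H π f) (a b : V) :
    Summable (fun x : G ⧸ H => f (π x.out⁻¹ a) * conj (f (π x.out⁻¹ b))) := by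
  refine Summable.of_norm_bounded ((hf.sum a).add (hf.sum b)) fun x => ?_
  rw [norm_mul, RCLike.norm_conj]
  nlinarith [sq_nonneg (‖f (π x.out⁻¹ a)‖ - ‖f (π x.out⁻¹ b)‖),
    sq_nonneg (‖f (π x.out⁻¹ a)‖), sq_nonneg (‖f (π x.out⁻¹ b)‖)]

theorem IsL2.add_left (hf : IsL2 H π f) (a a' b : V) :
    lform H π f (a + a') b = lform H π f a b + lform H π f a' b := by
  unfold lform
  rw [← (hf.summable a b).tsum_add (hf.summable a' b)]
  apply tsum_congr
  intro x
  rw [map_add, map_add, add_mul]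

theorem lform_smul_left (c : ℂ) (a b : V) :
    lform H π f (c • a) b = c * lform H π f a b := by
  unfold lform
  rw [← tsum_mul_left]
  apply tsum_congr
  intro x
  rw [map_smul, map_smul, smul_eq_mul, mul_assoc]

theorem lform_conj (a b : V) : conj (lform H π f a b) = lform H π f b a := by
  unfold lform
  rw [Complex.conj_tsum]
  apply tsum_congr
  intro x
  rw [map_mul, Complex.conj_conj, mul_comm]

theorem IsL2.map (hf : IsL2 H π f) (g : G) (a b : V) :
    lform H π f (π g a) (π g b) = lform H π f a b := by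
  have h1 := tsum_coset_mul_left (hf.inv a b) g⁻¹
  refine Eq.trans ?_ h1
  unfold lform
  apply tsum_congr
  intro x
  have h2 : ∀ v, π x.out⁻¹ (π g v) = π (g⁻¹ * x.out)⁻¹ v := by
    intro v
    rw [mul_inv_rev, inv_inv, map_mul, Module.End.mul_apply]
  rw [h2, h2]

/-- moving a group element to the other side -/
theorem IsL2.adj (hf : IsL2 H π f) (g : G) (a b : V) :
    lform H π f (π g a) b = lform H π f a (π g⁻¹ b) := by
  rw [← hf.map g⁻¹ (π g a) b, ← Module.End.mul_apply, ← map_mul, inv_mul_cancel, map_one,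
    Module.End.one_apply]

theorem lform_zero_left (b : V) : lform H π f 0 b = 0 := by
  have h := lform_smul_left (H := H) (π := π) (f := f) 0 (0 : V) b
  rwa [zero_smul, zero_mul] at h

/-- the form as a functional -/
noncomputable def IsL2.fl (hf : IsL2 H π f) (b : V) : V →ₗ[ℂ] ℂ where
  toFun a := lform H π f a b
  map_add' a a' := hf.add_left a a' b
  map_smul' c a := lform_smul_left c a b

theorem IsL2.fl_apply (hf : IsL2 H π f) (a b : V) : hf.fl b a = lform H π f a b := rfl

theorem IsL2.fl_mem_gDual [TopologicalSpace G] [IsTopologicalGroup G] (hf : IsL2 H π f)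
    (hπ : IsSmoothRep π) (b : V) : hf.fl b ∈ gDual π := by
  have h1 : ∀ᶠ g in 𝓝 (1 : G), π g b = b := hπ b
  have h2 : Tendsto (fun g : G => g⁻¹) (𝓝 1) (𝓝 1) := by
    have := (continuous_inv (G := G)).tendsto 1
    rwa [inv_one] at this
  show ∀ᶠ g in 𝓝 (1 : G), ∀ v, hf.fl b (π g v) = hf.fl b v
  filter_upwards [h2.eventually h1] with g hg v
  rw [hf.fl_apply, hf.fl_apply, hf.adj, hg]

theorem IsL2.self_ne_zero (hf : IsL2 H π f) {a : V} (ha : f a ≠ 0) : lform H π f a a ≠ 0 := by
  have h0 : lform H π f a a = ((∑' x : G ⧸ H, ‖f (π x.out⁻¹ a)‖ ^ 2 : ℝ) : ℂ) := by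
    rw [Complex.ofReal_tsum]
    unfold lform
    apply tsum_congr
    intro x
    rw [Complex.mul_conj, Complex.normSq_eq_norm_sq]
  rw [h0, Complex.ofReal_ne_zero]
  refine ((hf.sum a).tsum_pos (fun x => by positivity) (((1 : G) : G ⧸ H)) ?_).ne'
  have h1 := (hf.inv a a).out 1
  have h2 : f (π (((1 : G) : G ⧸ H)).out⁻¹ a) ≠ 0 := by
    intro h
    simp only [h, zero_mul] at h1
    rw [inv_one, map_one, Module.End.one_apply] at h1
    rcases mul_eq_zero.1 h1.symm with h3 | h3
    · exact ha h3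
    · exact ha ((map_eq_zero (starRingEnd ℂ)).1 h3)
  positivity

theorem lform_self_conj (a : V) : conj (lform H π f a a) = lform H π f a a := lform_conj a a

end form

section growth

variable {V : Type} [AddCommGroup V] [Module ℂ V]

/-- successive application of the operators `T - c` -/
def rt (T : Module.End ℂ V) : List ℂ → V → V
  | [], v => v
  | c :: cs, v => rt T cs (T v - c • v)

theorem rt_nil (T : Module.End ℂ V) (v : V) : rt T [] v = v := rfl

theorem rt_cons (T : Module.End ℂ V) (c : ℂ) (cs : List ℂ) (v : V) :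
    rt T (c :: cs) v = rt T cs (T v - c • v) := rfl

theorem rt_comm (T S : Module.End ℂ V) (h : ∀ v, S (T v) = T (S v)) (cs : List ℂ) :
    ∀ v, S (rt T cs v) = rt T cs (S v) := by
  induction cs with
  | nil => intro v; rfl
  | cons c cs ih =>
    intro v
    rw [rt_cons, rt_cons, ih, map_sub, map_smul, h]

/-- a sequence `λ(T^m v) = d^m h` -/
theorem rt_geom (T : Module.End ℂ V) (lam : V →ₗ[ℂ] ℂ) (d : ℂ) (cs : List ℂ) :
    ∀ (v : V) (h : ℂ), (∀ m : ℕ, lam ((T ^ m) v) = d ^ m * h) →
      ∀ m : ℕ, lam ((T ^ m) (rt T cs v)) = d ^ m * ((cs.map fun c => d - c).prod * h) := by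
  induction cs with
  | nil =>
    intro v h hv m
    rw [rt_nil, hv, List.map_nil, List.prod_nil, one_mul]
  | cons c cs ih =>
    intro v h hv m
    rw [rt_cons, ih (T v - c • v) ((d - c) * h) (fun k => by
      have h1 : (T ^ k) (T v) = (T ^ (k + 1)) v := by
        rw [pow_succ, Module.End.mul_apply]
      rw [map_sub, map_sub, map_smul, map_smul, h1, hv, hv, smul_eq_mul]
      ring), List.map_cons, List.prod_cons]
    ring

/-- Growth of sequences of functionals with given exponents -/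
theorem growth_aux {Q : Type} (T : Module.End ℂ V) (lam : Q → V →ₗ[ℂ] ℂ) (w : Q → ℝ)
    (hw : ∀ q, 0 ≤ w q) (A : Submodule ℂ V)
    (hbase : ∀ v, ∃ C, 0 ≤ C ∧ ∀ q, ‖lam q v‖ ≤ C * w q)
    (hA : ∀ v ∈ A, ∃ m₀ : ℕ, ∀ m, m₀ ≤ m → ∀ q, lam q ((T ^ m) v) = 0)
    {r : ℝ} (hr : 0 < r) (L : List ℂ) (hL : ∀ c ∈ L, ‖c‖ < r) :
    ∀ v, rt T L v ∈ A → ∃ C, 0 ≤ C ∧ ∀ (m : ℕ) q, ‖lam q ((T ^ m) v)‖ ≤ C * (r ^ m * w q) := by
  induction L with
  | nil =>
    intro v hv
    rw [rt_nil] at hv
    obtain ⟨m₀, hm₀⟩ := hA v hv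
    choose C hC0 hC using fun m : ℕ => hbase ((T ^ m) v)
    have hnn : ∀ m, 0 ≤ C m / r ^ m := fun m => div_nonneg (hC0 m) (pow_nonneg hr.le m)
    refine ⟨∑ m ∈ Finset.range m₀, C m / r ^ m, Finset.sum_nonneg fun m _ => hnn m, ?_⟩
    intro m q
    have hrm : 0 < r ^ m := pow_pos hr m
    by_cases h : m₀ ≤ m
    · rw [hm₀ m h q, norm_zero]
      exact mul_nonneg (Finset.sum_nonneg fun m _ => hnn m) (mul_nonneg hrm.le (hw q))
    · push Not at h
      refine (hC m q).trans ?_
      have h1 : C m / r ^ m ≤ ∑ m ∈ Finset.range m₀, C m / r ^ m :=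
        Finset.single_le_sum (f := fun m => C m / r ^ m) (fun m _ => hnn m)
          (Finset.mem_range.2 h)
      have h2 : C m * w q = C m / r ^ m * (r ^ m * w q) := by
        field_simp
      rw [h2]
      exact mul_le_mul_of_nonneg_right h1 (mul_nonneg hrm.le (hw q))
  | cons c cs ih =>
    intro v hv
    rw [rt_cons] at hv
    obtain ⟨C', hC'0, hC'⟩ := ih (fun x hx => hL x (List.mem_cons_of_mem _ hx)) _ hv
    obtain ⟨C₀, hC₀0, hC₀⟩ := hbase v
    have hc : ‖c‖ < r := hL c List.mem_cons_self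
    have hrc : 0 < r - ‖c‖ := sub_pos.2 hc
    refine ⟨max C₀ (C' / (r - ‖c‖)), le_max_of_le_left hC₀0, ?_⟩
    intro m
    induction m with
    | zero =>
      intro q
      rw [pow_zero, pow_zero, one_mul, Module.End.one_apply]
      exact (hC₀ q).trans (mul_le_mul_of_nonneg_right (le_max_left _ _) (hw q))
    | succ m ihm =>
      intro q
      have h1 : (T ^ (m + 1)) v = (T ^ m) (T v - c • v) + c • (T ^ m) v := by
        rw [pow_succ, Module.End.mul_apply, map_sub, map_smul]
        abel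
      rw [h1, map_add, map_smul, smul_eq_mul]
      have h2 : C' ≤ max C₀ (C' / (r - ‖c‖)) * (r - ‖c‖) := by
        rw [← div_le_iff₀ hrc]
        exact le_max_right _ _
      set M := max C₀ (C' / (r - ‖c‖)) with hM
      have hrm : 0 ≤ r ^ m * w q := mul_nonneg (pow_nonneg hr.le m) (hw q)
      calc ‖lam q ((T ^ m) (T v - c • v)) + c * lam q ((T ^ m) v)‖
          ≤ ‖lam q ((T ^ m) (T v - c • v))‖ + ‖c‖ * ‖lam q ((T ^ m) v)‖ := by
            refine (norm_add_le _ _).trans ?_
            rw [norm_mul]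
        _ ≤ C' * (r ^ m * w q) + ‖c‖ * (M * (r ^ m * w q)) := by
            gcongr
            · exact hC' m q
            · exact ihm q
        _ ≤ (M * (r - ‖c‖)) * (r ^ m * w q) + ‖c‖ * (M * (r ^ m * w q)) := by
            gcongr
        _ = M * (r ^ (m + 1) * w q) := by ring

end growth

end SpW.L2
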