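import Pool.Agent.Work.MP_3615d2_al.Co.L2Coset

/-!
MP_3615d2_al, (COMM) (note 6707): a smooth representation of `GL_n(E)` whose exponents satisfy
Casselman's criterion has square summable matrix coefficients.
-/

open Filter Topology
open scoped ComplexConjugate NNReal

set_option linter.unusedSectionVars false

namespace SpW.L2

section l2

variable {E : Type} [NontriviallyNormedField E] [IsUltrametricDist E] [ProperSpace E]
  [MeasurableSpace E] [BorelSpace E] {n : ℕ} {V : Type} [AddCommGroup V] [Module ℂ V]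

omit [IsUltrametricDist E] [ProperSpace E] [MeasurableSpace E] [BorelSpace E] in
theorem prodz_eq_filter (ϖ : Eˣ) (p : Fin n → ℕ) : (∏ i : Fin n, zk n i.1 ϖ ^ p i : Fin n → Eˣ) =
    ∏ i ∈ Finset.univ.filter (fun i : Fin n => 0 < i.1), zk n i.1 ϖ ^ p i := by
  refine (Finset.prod_subset (Finset.filter_subset _ _) fun i _ hi => ?_).symm
  have h1 : i.1 = 0 := by
    by_contra h
    exact hi (Finset.mem_filter.2 ⟨Finset.mem_univ _, Nat.pos_of_ne_zero h⟩)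
  have h2 : zk n i.1 ϖ = 1 := by
    funext j
    rw [h1]
    rfl
  rw [h2, one_pow]

/-- uniform bound of the matrix coefficients on the Cartan cells -/
theorem growth_unif {π : GL (Fin n) E →* Module.End ℂ V} (hπ : IsSmoothRep π) {ϖ : Eˣ}
    (hϖ : ‖(ϖ : E)‖ < 1) (L : ℕ → List ℂ) (r : ℕ → ℝ) (hr : ∀ k, 0 < r k)
    (hLr : ∀ k, 0 < k → k < n → ∀ c ∈ L k, ‖c‖ < r k)
    (hL : ∀ k, 0 < k → k < n → ∀ v, rt (π (dgl (zk n k ϖ))) (L k) v ∈ cvN π (Nk n k E) ⊤)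
    {ξ : V →ₗ[ℂ] ℂ} (hξ : ξ ∈ gDual π) (v : V) : ∃ C, 0 ≤ C ∧
      ∀ k₁ ∈ glK (Fin n) E 1 zero_le_one le_rfl, ∀ k₂ ∈ glK (Fin n) E 1 zero_le_one le_rfl,
        ∀ p : Fin n → ℕ, ‖ξ (π (k₁ * dgl (∏ i : Fin n, zk n i.1 ϖ ^ p i) * k₂) v)‖ ≤
          C * ∏ i ∈ Finset.univ.filter (fun i : Fin n => 0 < i.1), r i.1 ^ p i := by
  classical
  set K := glK (Fin n) E 1 zero_le_one le_rfl with hK
  have hKc : IsCompact (K : Set (GL (Fin n) E)) := glK_isCompact one_pos le_rfl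
  have h1 := orbit_finite hπ hKc v
  have h2 := orbit_finite_dual hKc hξ
  have h3 : ∀ (x : V) (η : V →ₗ[ℂ] ℂ), ∃ C, 0 ≤ C ∧ (η ∈ gDual π → ∀ p : Fin n → ℕ,
      ‖η (π (dgl (∏ i : Fin n, zk n i.1 ϖ ^ p i)) x)‖ ≤
        C * ∏ i ∈ Finset.univ.filter (fun i : Fin n => 0 < i.1), r i.1 ^ p i) := by
    intro x η
    by_cases hη : η ∈ gDual π
    · obtain ⟨C, hC0, hC⟩ := growth hϖ L r hr hLr hL hη
        (Finset.univ.filter (fun i : Fin n => 0 < i.1))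
        (fun i hi => (Finset.mem_filter.1 hi).2) x
      refine ⟨C, hC0, fun _ p => ?_⟩
      rw [prodz_eq_filter]
      exact hC p
    · exact ⟨0, le_rfl, fun h => absurd h hη⟩
  choose c hc0 hc using h3
  refine ⟨∑ x ∈ h1.toFinset, ∑ η ∈ h2.toFinset, c x η,
    Finset.sum_nonneg fun x _ => Finset.sum_nonneg fun η _ => hc0 x η, ?_⟩
  intro k₁ hk₁ k₂ hk₂ p
  have h4 := hc (π k₂ v) (ξ ∘ₗ π k₁) (gDual_comp hξ k₁) p
  rw [LinearMap.comp_apply, ← Module.End.mul_apply, ← Module.End.mul_apply, ← map_mul,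
    ← map_mul] at h4
  refine h4.trans ?_
  refine mul_le_mul_of_nonneg_right ?_ (Finset.prod_nonneg fun i _ => pow_nonneg (hr _).le _)
  have h5 : c (π k₂ v) (ξ ∘ₗ π k₁) ≤ ∑ η ∈ h2.toFinset, c (π k₂ v) η :=
    Finset.single_le_sum (f := fun η => c (π k₂ v) η) (fun η _ => hc0 _ η)
      (h2.mem_toFinset.2 ⟨k₁, hk₁, rfl⟩)
  refine h5.trans ?_
  exact Finset.single_le_sum (f := fun x => ∑ η ∈ h2.toFinset, c x η)
    (fun x _ => Finset.sum_nonneg fun η _ => hc0 x η) (h1.mem_toFinset.2 ⟨k₂, hk₂, rfl⟩)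

/-- a number above the exponents which still satisfies the criterion -/
theorem exists_radius (L : List ℂ) {B : ℝ} (hB : 0 < B) (h : ∀ c ∈ L, ‖c‖ ^ 2 < B) :
    ∃ r : ℝ, 0 < r ∧ (∀ c ∈ L, ‖c‖ < r) ∧ r ^ 2 < B := by
  classical
  have hs : 0 < Real.sqrt B := Real.sqrt_pos.2 hB
  have h1 : ∀ᶠ r in 𝓝[<] (Real.sqrt B), ∀ c ∈ L.toFinset, ‖c‖ < r := by
    refine (Filter.eventually_all_finset _).2 fun c hc => ?_
    have h2 : ‖c‖ < Real.sqrt B := by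
      rw [Real.lt_sqrt (norm_nonneg _)]
      exact h c (List.mem_toFinset.1 hc)
    filter_upwards [Ioo_mem_nhdsLT h2] with r hr
    exact hr.1
  have h3 : ∀ᶠ r in 𝓝[<] (Real.sqrt B), 0 < r ∧ r < Real.sqrt B := by
    filter_upwards [Ioo_mem_nhdsLT hs] with r hr
    exact hr
  obtain ⟨r, hr1, hr2, hr3⟩ := (h1.and h3).exists
  refine ⟨r, hr2, fun c hc => hr1 c (List.mem_toFinset.2 hc), ?_⟩
  rwa [Real.lt_sqrt hr2.le] at hr3

/-- **Casselman's criterion**, sufficient direction, for arbitrary smooth representations of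
`GL_n(E)`: the exponents of all Jacquet modules are given by the lists `L k`. -/
theorem isL2_of_exponents {π : GL (Fin n) E →* Module.End ℂ V} (hπ : IsSmoothRep π)
    (χ : Eˣ → ℂ) (hχ : ∀ z, ‖χ z‖ = 1)
    (hc : ∀ z v, π (Matrix.GeneralLinearGroup.scalar (Fin n) z) v = χ z • v)
    {ϖ : Eˣ} (hϖ : ‖(ϖ : E)‖ < 1) (hval : ∀ x : Eˣ, ∃ e : ℤ, ‖(x : E)‖ = ‖(ϖ : E)‖ ^ e)
    (L : ℕ → List ℂ)
    (hL : ∀ k, 0 < k → k < n → ∀ v, rt (π (dgl (zk n k ϖ))) (L k) v ∈ cvN π (Nk n k E) ⊤)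
    (hL2 : ∀ k, 0 < k → k < n → ∀ c ∈ L k, ‖c‖ ^ 2 < absE ϖ ^ (k * (n - k)))
    {ε : ℝ} (h0 : 0 < ε) (h1 : ε ≤ 1) {ξ : V →ₗ[ℂ] ℂ}
    (hξ : ∀ u ∈ glK (Fin n) E ε h0.le h1, ∀ v, ξ (π u v) = ξ v) :
    IsL2 (glK (Fin n) E ε h0.le h1 ⊔ scalZ n E) π ξ := by
  classical
  have hξd : ξ ∈ gDual π := by
    show ∀ᶠ g in 𝓝 (1 : GL (Fin n) E), ∀ v, ξ (π g v) = ξ v
    filter_upwards [(glK_isOpen h0 h1).mem_nhds (one_mem _)] with g hg v
    exact hξ g hg v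
  set U := glK (Fin n) E ε h0.le h1 with hU
  have mulinv : ∀ (g h : GL (Fin n) E) (v : V), π (g * h)⁻¹ v = π h⁻¹ (π g⁻¹ v) := by
    intro g h v
    rw [mul_inv_rev, map_mul, Module.End.mul_apply]
  have hχ0 : ∀ z, χ z ≠ 0 := by
    intro z h
    have := hχ z
    rw [h, norm_zero] at this
    exact zero_ne_one this
  have hcn : ∀ z ∈ scalZ n E, ∃ a : ℂ, ‖a‖ = 1 ∧ ∀ v, π z v = a • v := by
    rintro _ ⟨w, rfl⟩
    exact ⟨χ w, hχ w, hc w⟩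
  refine ⟨fun a b => ?_, fun v => ?_⟩
  · apply RInv.of_sup
    · intro g k hk
      have h2 : ∀ v, ξ (π k⁻¹ v) = ξ v := fun v => hξ _ (inv_mem hk) v
      simp only [mulinv, h2]
    · intro g z hz
      obtain ⟨c, hc1, hc2⟩ := hcn z⁻¹ (inv_mem hz)
      simp only [mulinv, hc2, map_smul, smul_eq_mul, map_mul]
      have h2 : c * conj c = 1 := by
        rw [Complex.mul_conj, Complex.normSq_eq_norm_sq, hc1]
        simp
      calc c * ξ (π g⁻¹ a) * (conj c * conj (ξ (π g⁻¹ b)))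
          = (c * conj c) * (ξ (π g⁻¹ a) * conj (ξ (π g⁻¹ b))) := by ring
        _ = _ := by rw [h2, one_mul]
  -- the radii
  have hab : 0 < absE ϖ := absE_pos ϖ
  have hrad : ∀ k, ∃ r : ℝ, 0 < r ∧ (0 < k → k < n → (∀ c ∈ L k, ‖c‖ < r) ∧
      r ^ 2 < absE ϖ ^ (k * (n - k))) := by
    intro k
    by_cases hk : 0 < k ∧ k < n
    · obtain ⟨r, hr0, hr1, hr2⟩ := exists_radius (L k) (pow_pos hab (k * (n - k)))
        (hL2 k hk.1 hk.2)
      exact ⟨r, hr0, fun _ _ => ⟨hr1, hr2⟩⟩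
    · exact ⟨1, one_pos, fun h h' => absurd ⟨h, h'⟩ hk⟩
  choose r hr0 hr using hrad
  obtain ⟨C₂, hC₂0, hC₂⟩ := growth_unif hπ hϖ L r hr0 (fun k h h' => (hr k h h').1) hL hξd v
  obtain ⟨C₁, hC₁0, hC₁⟩ := card_cosets_le (n := n) (E := E) h0 h1
  -- the data of a coset
  have hdat : ∀ x : GL (Fin n) E ⧸ (U ⊔ scalZ n E), ∃ p : Fin n → ℕ,
      (∃ z ∈ scalZ n E, ∃ k₁ ∈ glK (Fin n) E 1 zero_le_one le_rfl,
        ∃ k₂ ∈ glK (Fin n) E 1 zero_le_one le_rfl,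
          x.out⁻¹ = z * (k₁ * dgl (∏ i : Fin n, zk n i.1 ϖ ^ p i) * k₂)) := by
    intro x
    obtain ⟨z, hz, k₁, hk₁, k₂, hk₂, p, h⟩ := exists_cartan_zk hϖ hval x.out⁻¹
    exact ⟨p, z, hz, k₁, hk₁, k₂, hk₂, h⟩
  have hdat' : ∀ x : GL (Fin n) E ⧸ (U ⊔ scalZ n E), ∃ p : Fin n → ℕ, (∀ i, i.1 = 0 → p i = 0) ∧
      (∃ z ∈ scalZ n E, ∃ k₁ ∈ glK (Fin n) E 1 zero_le_one le_rfl,
        ∃ k₂ ∈ glK (Fin n) E 1 zero_le_one le_rfl,
          x.out⁻¹ = z * (k₁ * dgl (∏ i : Fin n, zk n i.1 ϖ ^ p i) * k₂)) := by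
    intro x
    obtain ⟨p, z, hz, k₁, hk₁, k₂, hk₂, h⟩ := hdat x
    refine ⟨fun i => if i.1 = 0 then 0 else p i, fun i hi => if_pos hi, z, hz, k₁, hk₁, k₂, hk₂, ?_⟩
    rw [h, prodz_eq_filter, prodz_eq_filter]
    congr 4
    refine Finset.prod_congr rfl fun i hi => ?_
    rw [if_neg (Finset.mem_filter.1 hi).2.ne']
  choose p hp0 hp using hdat'
  have hfx : ∀ x, ‖ξ (π x.out⁻¹ v)‖ ^ 2 ≤ C₂ ^ 2 *
      ∏ i ∈ Finset.univ.filter (fun i : Fin n => 0 < i.1), (r i.1 ^ 2) ^ p x i := by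
    intro x
    obtain ⟨z, hz, k₁, hk₁, k₂, hk₂, h⟩ := hp x
    obtain ⟨c, hc1, hc2⟩ := hcn z hz
    have h2 := hC₂ k₁ hk₁ k₂ hk₂ (p x)
    have h3 : ‖ξ (π x.out⁻¹ v)‖ =
        ‖ξ (π (k₁ * dgl (∏ i : Fin n, zk n i.1 ϖ ^ p x i) * k₂) v)‖ := by
      rw [h, map_mul, Module.End.mul_apply, hc2, map_smul, smul_eq_mul, norm_mul, hc1, one_mul]
    rw [h3]
    refine (pow_le_pow_left₀ (norm_nonneg _) h2 2).trans (le_of_eq ?_)
    rw [mul_pow, ← Finset.prod_pow]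
    congr 1
    refine Finset.prod_congr rfl fun i _ => ?_
    rw [← pow_mul, ← pow_mul, mul_comm]
  -- the weights
  let y : Fin n → ℝ := fun i => if i.1 = 0 then 0 else r i.1 ^ 2 * (absE ϖ ^ (i.1 * (n - i.1)))⁻¹
  have hy0 : ∀ i, 0 ≤ y i := by
    intro i
    show 0 ≤ if i.1 = 0 then 0 else r i.1 ^ 2 * (absE ϖ ^ (i.1 * (n - i.1)))⁻¹
    split_ifs
    · exact le_rfl
    · positivity
  have hy1 : ∀ i, y i < 1 := by
    intro i
    show (if i.1 = 0 then 0 else r i.1 ^ 2 * (absE ϖ ^ (i.1 * (n - i.1)))⁻¹) < 1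
    split_ifs with hi
    · exact one_pos
    · have h2 := (hr i.1 (Nat.pos_of_ne_zero hi) i.2).2
      rw [← div_eq_mul_inv, div_lt_one (pow_pos hab _)]
      exact h2
  have hNN : ∀ q : Fin n → ℕ, NN (∏ i : Fin n, zk n i.1 ϖ ^ q i)⁻¹ ≤
      ∏ i ∈ Finset.univ.filter (fun i : Fin n => 0 < i.1),
        ((absE ϖ ^ (i.1 * (n - i.1)))⁻¹) ^ q i := by
    intro q
    rw [prodz_eq_filter, ← Finset.prod_inv_distrib]
    refine (NN_prod_le _ _).trans ?_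
    refine Finset.prod_le_prod (fun i _ => (NN_pos _).le) fun i _ => ?_
    rw [← inv_pow]
    refine (NN_pow_le _ _).trans (le_of_eq ?_)
    rw [NN_inv_zk hϖ i.2.le]
  refine summable_of_sum_le (c := C₁ * C₂ ^ 2 * ∏ i, (1 - y i)⁻¹) (fun x => sq_nonneg _)
    fun F => ?_
  have h2 : ∑ x ∈ F, ‖ξ (π x.out⁻¹ v)‖ ^ 2 =
      ∑ q ∈ F.image p, ∑ x ∈ F.filter (fun x => p x = q), ‖ξ (π x.out⁻¹ v)‖ ^ 2 :=
    (Finset.sum_fiberwise_of_maps_to (fun x hx => Finset.mem_image_of_mem p hx) _).symm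
  rw [h2]
  have h3 : ∀ q ∈ F.image p, ∑ x ∈ F.filter (fun x => p x = q), ‖ξ (π x.out⁻¹ v)‖ ^ 2 ≤
      (C₁ * C₂ ^ 2) * ∏ i, y i ^ q i := by
    intro q hq
    obtain ⟨x₀, hx₀, rfl⟩ := Finset.mem_image.1 hq
    have h4 : ∀ x ∈ F.filter (fun x => p x = p x₀), ‖ξ (π x.out⁻¹ v)‖ ^ 2 ≤ C₂ ^ 2 *
        ∏ i ∈ Finset.univ.filter (fun i : Fin n => 0 < i.1), (r i.1 ^ 2) ^ p x₀ i := by
      intro x hx
      have h5 := hfx x
      rw [(Finset.mem_filter.1 hx).2] at h5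
      exact h5
    refine (Finset.sum_le_card_nsmul _ _ _ h4).trans ?_
    rw [nsmul_eq_mul]
    have h5 : ((F.filter (fun x => p x = p x₀)).card : ℝ) ≤
        C₁ * ∏ i ∈ Finset.univ.filter (fun i : Fin n => 0 < i.1),
          ((absE ϖ ^ (i.1 * (n - i.1)))⁻¹) ^ p x₀ i := by
      refine (hC₁ (∏ i : Fin n, zk n i.1 ϖ ^ p x₀ i) _ ?_).trans
        (mul_le_mul_of_nonneg_left (hNN _) hC₁0)
      intro x hx
      have h6 := hp x
      rw [(Finset.mem_filter.1 hx).2] at h6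
      exact h6
    have h6 : ∏ i : Fin n, y i ^ p x₀ i =
        ∏ i ∈ Finset.univ.filter (fun i : Fin n => 0 < i.1), y i ^ p x₀ i := by
      refine (Finset.prod_subset (Finset.filter_subset _ _) fun i _ hi => ?_).symm
      have h7 : i.1 = 0 := by
        by_contra h
        exact hi (Finset.mem_filter.2 ⟨Finset.mem_univ _, Nat.pos_of_ne_zero h⟩)
      rw [hp0 x₀ i h7, pow_zero]
    have h7 : ∏ i ∈ Finset.univ.filter (fun i : Fin n => 0 < i.1), y i ^ p x₀ i =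
        (∏ i ∈ Finset.univ.filter (fun i : Fin n => 0 < i.1), (r i.1 ^ 2) ^ p x₀ i) *
        ∏ i ∈ Finset.univ.filter (fun i : Fin n => 0 < i.1),
          ((absE ϖ ^ (i.1 * (n - i.1)))⁻¹) ^ p x₀ i := by
      rw [← Finset.prod_mul_distrib]
      refine Finset.prod_congr rfl fun i hi => ?_
      have h8 : y i = r i.1 ^ 2 * (absE ϖ ^ (i.1 * (n - i.1)))⁻¹ :=
        if_neg (Finset.mem_filter.1 hi).2.ne'
      rw [h8, mul_pow]
    rw [h6, h7]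
    have hnn : 0 ≤ ∏ i ∈ Finset.univ.filter (fun i : Fin n => 0 < i.1), (r i.1 ^ 2) ^ p x₀ i :=
      Finset.prod_nonneg fun i _ => pow_nonneg (sq_nonneg _) _
    calc ((F.filter (fun x => p x = p x₀)).card : ℝ) * (C₂ ^ 2 *
          ∏ i ∈ Finset.univ.filter (fun i : Fin n => 0 < i.1), (r i.1 ^ 2) ^ p x₀ i)
        ≤ (C₁ * ∏ i ∈ Finset.univ.filter (fun i : Fin n => 0 < i.1),
          ((absE ϖ ^ (i.1 * (n - i.1)))⁻¹) ^ p x₀ i) * (C₂ ^ 2 *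
          ∏ i ∈ Finset.univ.filter (fun i : Fin n => 0 < i.1), (r i.1 ^ 2) ^ p x₀ i) :=
          mul_le_mul_of_nonneg_right h5 (mul_nonneg (sq_nonneg _) hnn)
      _ = _ := by ring
  refine (Finset.sum_le_sum h3).trans ?_
  rw [← Finset.mul_sum]
  exact mul_le_mul_of_nonneg_left (sum_geom_le y hy0 hy1 _)
    (mul_nonneg hC₁0 (sq_nonneg _))

end l2

end SpW.L2
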