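import Pool.Agent.Work.MP_3615d2_al.Co.L2Int
import Pool.Agent.Work.MP_3615d2_al.Adm

/-!
MP_3615d2_al, (COMM) (notes 6706, 6707): a smooth representation of `GL_n(E)` with unitary central
character, whose exponents satisfy Casselman's criterion and are not symmetric under
`k ↦ n - k`, has no exponents at all.
-/

open Filter Topology
open scoped ComplexConjugate NNReal

set_option linter.unusedSectionVars false

namespace SpW.L2

section iwahori

variable {E : Type} [NontriviallyNormedField E] [IsUltrametricDist E] {n : ℕ}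

/-- the upper right block of `g` is zero -/
def LowB (n k : ℕ) (g : GL (Fin n) E) : Prop :=
  ∀ i j : Fin n, i.1 < k → k ≤ j.1 → (g : Matrix (Fin n) (Fin n) E) i j = 0

/-- Iwahori factorisation of a congruence subgroup -/
theorem iwahori_fact {ε : ℝ} (h0 : 0 < ε) (h1 : ε < 1) (k : ℕ) {g : GL (Fin n) E}
    (hg : g ∈ glK (Fin n) E ε h0.le h1.le) : ∃ u ∈ Nk n k E, ∃ b : GL (Fin n) E, LowB n k b ∧
      u ∈ glK (Fin n) E ε h0.le h1.le ∧ b ∈ glK (Fin n) E ε h0.le h1.le ∧ g = u * b := by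
  classical
  -- the lower right block
  set Y : Matrix (Fin n) (Fin n) E := fun i j =>
    if k ≤ i.1 ∧ k ≤ j.1 then ((g : Matrix (Fin n) (Fin n) E) - 1) i j else 0 with hY
  have hYb : ∀ i j, ‖Y i j‖ ≤ ε := by
    intro i j
    rw [hY]
    dsimp only
    split_ifs
    · exact hg.1 i j
    · rw [norm_zero]
      exact h0.le
  obtain ⟨a, ha, hav⟩ := Mo.exists_glK_of_small h0.le h1 hYb
  -- the upper right block
  set B : Matrix (Fin n) (Fin n) E := fun i j =>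
    if i.1 < k ∧ k ≤ j.1 then ((g : Matrix (Fin n) (Fin n) E) - 1) i j else 0 with hB
  have hBb : ∀ i j, ‖B i j‖ ≤ ε := by
    intro i j
    rw [hB]
    dsimp only
    split_ifs
    · exact hg.1 i j
    · rw [norm_zero]
      exact h0.le
  set X : Matrix (Fin n) (Fin n) E := B * ((a⁻¹ : GL (Fin n) E) : Matrix (Fin n) (Fin n) E) with hX
  have hXb : ∀ i j, ‖X i j‖ ≤ ε := by
    intro i j
    have := mul_entry_le B ((a⁻¹ : GL (Fin n) E) : Matrix (Fin n) (Fin n) E) h0.le zero_le_one hBb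
      (glK_entry_inv ha) i j
    rwa [mul_one] at this
  have hXa : X * (1 + Y) = B := by
    rw [← hav, hX, mul_assoc, Units.inv_mul, mul_one]
  have hX0 : ∀ i j : Fin n, ¬ (i.1 < k ∧ k ≤ j.1) → X i j = 0 := by
    intro i j hij
    by_cases hi : i.1 < k
    · -- the column `j < k`
      have hj : j.1 < k := by
        by_contra h
        exact hij ⟨hi, not_lt.1 h⟩
      have h2 : (X * (1 + Y)) i j = B i j := by rw [hXa]
      have h3 : (X * (1 + Y)) i j = X i j := by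
        rw [mul_add, mul_one, Matrix.add_apply, Matrix.mul_apply, Finset.sum_eq_zero, add_zero]
        intro l _
        have : Y l j = 0 := if_neg (fun h => absurd hj (not_lt.2 h.2))
        rw [this, mul_zero]
      have h4 : B i j = 0 := if_neg (fun h => absurd hj (not_lt.2 h.2))
      rw [← h3, h2, h4]
    · rw [hX, Matrix.mul_apply]
      apply Finset.sum_eq_zero
      intro l _
      have : B i l = 0 := if_neg (fun h => hi h.1)
      rw [this, zero_mul]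
  obtain ⟨u, hu, huv⟩ := Mo.exists_glK_of_small h0.le h1 hXb
  have huN : u ∈ Nk n k E := by
    intro i j hij
    rw [huv, Matrix.add_apply, hX0 i j hij, add_zero]
  have hXX : X * X = 0 := by
    ext i j
    rw [Matrix.mul_apply, Matrix.zero_apply]
    apply Finset.sum_eq_zero
    intro l _
    by_cases hl : l.1 < k
    · rw [hX0 i l (by omega), zero_mul]
    · rw [hX0 l j (by omega), mul_zero]
  have hinv : ((u⁻¹ : GL (Fin n) E) : Matrix (Fin n) (Fin n) E) = 1 - X := by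
    refine Units.inv_eq_of_mul_eq_one_left ?_
    rw [huv, sub_mul, one_mul, mul_add, mul_one, hXX, add_zero]
    abel
  refine ⟨u, huN, u⁻¹ * g, ?_, hu, mul_mem (inv_mem hu) hg, by rw [mul_inv_cancel_left]⟩
  intro i j hi hj
  rw [Units.val_mul, hinv, sub_mul, one_mul, Matrix.sub_apply, sub_eq_zero]
  have hij : i ≠ j := by
    intro h
    rw [h] at hi
    omega
  have h2 : B i j = (g : Matrix (Fin n) (Fin n) E) i j := by
    rw [hB]
    dsimp only
    rw [if_pos ⟨hi, hj⟩, Matrix.sub_apply, Matrix.one_apply_ne hij, sub_zero]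
  rw [← h2, ← hXa, Matrix.mul_apply, Matrix.mul_apply]
  apply Finset.sum_congr rfl
  intro l _
  by_cases hl : l.1 < k
  · rw [hX0 i l (by omega), zero_mul, zero_mul]
  · have h3 : (1 + Y) l j = (g : Matrix (Fin n) (Fin n) E) l j := by
      rw [Matrix.add_apply, hY]
      dsimp only
      rw [if_pos ⟨not_lt.1 hl, hj⟩, Matrix.sub_apply]
      abel
    rw [h3]

theorem LowB.mul {k : ℕ} {a b : GL (Fin n) E} (ha : LowB n k a) (hb : LowB n k b) :
    LowB n k (a * b) := by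
  intro i j hi hj
  rw [Units.val_mul, Matrix.mul_apply]
  apply Finset.sum_eq_zero
  intro l _
  by_cases hl : l.1 < k
  · rw [hb l j hl hj, mul_zero]
  · rw [ha i l hi (not_lt.1 hl), zero_mul]

theorem LowB.inv {ε : ℝ} (h0 : 0 < ε) (h1 : ε < 1) {k : ℕ} {b : GL (Fin n) E} (hb : LowB n k b)
    (hbK : b ∈ glK (Fin n) E ε h0.le h1.le) : LowB n k b⁻¹ := by
  obtain ⟨u, hu, b', hb', -, -, h⟩ := iwahori_fact h0 h1 k (inv_mem hbK)
  have h2 : b' * b = u⁻¹ := by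
    rw [eq_inv_iff_mul_eq_one, mul_assoc]
    have : b * u = b'⁻¹ := by
      rw [eq_inv_iff_mul_eq_one, mul_assoc, ← h, mul_inv_cancel]
    rw [this, mul_inv_cancel]
  have h3 : u⁻¹ = 1 := by
    apply Units.ext
    ext i j
    by_cases hij : i.1 < k ∧ k ≤ j.1
    · rw [← h2, (hb'.mul hb) i j hij.1 hij.2, Units.val_one, Matrix.one_apply_ne]
      intro h
      rw [h] at hij
      omega
    · rw [inv_mem hu i j hij, Units.val_one]
  have h4 : u = 1 := by rw [← inv_inv u, h3, inv_one]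
  rw [h, h4, one_mul]
  exact hb'

theorem zk_pow_val {ϖ : Eˣ} (k m : ℕ) (i : Fin n) : ((((zk n k ϖ) ^ m) i : Eˣ) : E) =
    if i.1 < k then (ϖ : E) ^ m else 1 := by
  rw [Pi.pow_apply, Units.val_pow_eq_pow_val]
  unfold zk
  split_ifs
  · rfl
  · rw [Units.val_one, one_pow]

/-- conjugation by `z^{-m}` shrinks the lower triangular part -/
theorem conj_inv_lowB {ε : ℝ} {h0 : 0 ≤ ε} {h1 : ε ≤ 1} {ϖ : Eˣ} (hϖ : ‖(ϖ : E)‖ < 1) {k : ℕ}
    (m : ℕ) {b : GL (Fin n) E} (hbL : LowB n k b) (hbL' : LowB n k b⁻¹)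
    (hb : b ∈ glK (Fin n) E ε h0 h1) :
    (dgl (zk n k ϖ ^ m))⁻¹ * b * dgl (zk n k ϖ ^ m) ∈ glK (Fin n) E ε h0 h1 := by
  have hm : ‖(ϖ : E) ^ m‖ ≤ 1 := by
    rw [norm_pow]
    exact pow_le_one₀ (norm_nonneg _) hϖ.le
  have h00 : (ϖ : E) ^ m ≠ 0 := pow_ne_zero _ ϖ.ne_zero
  have key : ∀ b : GL (Fin n) E, LowB n k b →
      (∀ i j, ‖((b : Matrix (Fin n) (Fin n) E) - 1) i j‖ ≤ ε) →
      ∀ i j, ‖((((dgl (zk n k ϖ ^ m))⁻¹ * b * dgl (zk n k ϖ ^ m) : GL (Fin n) E) :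
        Matrix (Fin n) (Fin n) E) - 1) i j‖ ≤ ε := by
    intro b hbL hb i j
    have h2 := conj_entry (zk n k ϖ ^ m)⁻¹ b i j
    rw [map_inv, inv_inv] at h2
    rw [h2, Pi.inv_apply, Pi.inv_apply, Units.val_inv_eq_inv_val, Units.val_inv_eq_inv_val,
      inv_inv, zk_pow_val, zk_pow_val]
    by_cases hi : i.1 < k
    · by_cases hj : j.1 < k
      · rw [if_pos hi, if_pos hj, mul_comm, ← mul_assoc, mul_inv_cancel₀ h00, one_mul]
        exact hb i j
      · have hij : i ≠ j := by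
          intro h
          rw [h] at hi
          exact hj hi
        rw [Matrix.sub_apply, hbL i j hi (not_lt.1 hj), Matrix.one_apply_ne hij, sub_zero,
          mul_zero, zero_mul, norm_zero]
        exact h0
    · rw [if_neg hi, inv_one, one_mul]
      split_ifs with hj
      · rw [norm_mul]
        exact (mul_le_of_le_one_right (norm_nonneg _) hm).trans (hb i j)
      · rw [mul_one]
        exact hb i j
  refine ⟨key b hbL hb.1, ?_⟩
  have h2 : ((dgl (zk n k ϖ ^ m))⁻¹ * b * dgl (zk n k ϖ ^ m))⁻¹ =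
      (dgl (zk n k ϖ ^ m))⁻¹ * b⁻¹ * dgl (zk n k ϖ ^ m) := by group
  rw [h2]
  exact key b⁻¹ hbL' hb.2

/-- conjugation by `z` shrinks the unipotent radical -/
theorem conj_Nk_mem {ε : ℝ} {h0 : 0 ≤ ε} {h1 : ε ≤ 1} {ϖ : Eˣ} (hϖ : ‖(ϖ : E)‖ < 1) {k : ℕ}
    {u : GL (Fin n) E} (huN : u ∈ Nk n k E) (hu : u ∈ glK (Fin n) E ε h0 h1) :
    dgl (zk n k ϖ) * u * (dgl (zk n k ϖ))⁻¹ ∈ glK (Fin n) E ε h0 h1 := by
  have key : ∀ u : GL (Fin n) E, u ∈ Nk n k E →
      (∀ i j, ‖((u : Matrix (Fin n) (Fin n) E) - 1) i j‖ ≤ ε) →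
      ∀ i j, ‖(((dgl (zk n k ϖ) * u * (dgl (zk n k ϖ))⁻¹ : GL (Fin n) E) :
        Matrix (Fin n) (Fin n) E) - 1) i j‖ ≤ ε := by
    intro u huN hu i j
    rw [conj_entry]
    by_cases hij : i.1 < k ∧ k ≤ j.1
    · have h2 : ((zk n k ϖ i : Eˣ) : E) = ϖ := by
        unfold zk
        rw [if_pos hij.1]
      have h3 : ((zk n k ϖ j : Eˣ) : E) = 1 := by
        unfold zk
        rw [if_neg (not_lt.2 hij.2), Units.val_one]
      rw [h2, h3, inv_one, mul_one, norm_mul]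
      exact (mul_le_of_le_one_left (norm_nonneg _) hϖ.le).trans (hu i j)
    · rw [Matrix.sub_apply, huN i j hij, sub_self, mul_zero, zero_mul, norm_zero]
      exact h0
  refine ⟨key u huN hu.1, ?_⟩
  have h2 : (dgl (zk n k ϖ) * u * (dgl (zk n k ϖ))⁻¹)⁻¹ =
      dgl (zk n k ϖ) * u⁻¹ * (dgl (zk n k ϖ))⁻¹ := by group
  rw [h2]
  exact key u⁻¹ (inv_mem huN) hu.2

end iwahori

section avg

variable {G : Type} [Group G] [TopologicalSpace G] [IsTopologicalGroup G]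
  {V : Type} [AddCommGroup V] [Module ℂ V]

/-- the average as a finite average over the orbit -/
theorem avg_orbit {π : G →* Module.End ℂ V} (hπ : IsSmoothRep π) {K : Subgroup G}
    (hK : IsCompact (K : Set G)) {e : V →ₗ[ℂ] V} (he1 : ∀ k ∈ K, ∀ v, e (π k v) = e v)
    (he3 : ∀ v ∈ fixK π K, e v = v) (x : V) :
    ∃ O : Finset V, 0 < O.card ∧ (∀ y ∈ O, ∃ k ∈ K, y = π k x) ∧
      ∑ y ∈ O, y = (O.card : ℂ) • e x := by
  classical
  have h1 := orbit_finite hπ hK x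
  refine ⟨h1.toFinset, ?_, ?_, ?_⟩
  · rw [Finset.card_pos]
    exact ⟨x, h1.mem_toFinset.2 ⟨1, K.one_mem, by rw [map_one, Module.End.one_apply]⟩⟩
  · intro y hy
    exact h1.mem_toFinset.1 hy
  · have h2 : ∑ y ∈ h1.toFinset, y ∈ fixK π K := by
      intro k hk
      rw [map_sum]
      refine Finset.sum_bij (fun y _ => π k y) ?_ ?_ ?_ ?_
      · intro y hy
        obtain ⟨l, hl, rfl⟩ := h1.mem_toFinset.1 hy
        refine h1.mem_toFinset.2 ⟨k * l, K.mul_mem hk hl, ?_⟩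
        rw [map_mul, Module.End.mul_apply]
      · intro y _ y' _ h
        have h3 := congrArg (π k⁻¹) h
        rwa [← Module.End.mul_apply, ← Module.End.mul_apply, ← map_mul, inv_mul_cancel, map_one,
          Module.End.one_apply, Module.End.one_apply] at h3
      · intro y hy
        obtain ⟨l, hl, rfl⟩ := h1.mem_toFinset.1 hy
        refine ⟨π (k⁻¹ * l) x, h1.mem_toFinset.2 ⟨k⁻¹ * l, K.mul_mem (K.inv_mem hk) hl, rfl⟩, ?_⟩
        rw [← Module.End.mul_apply, ← map_mul, mul_inv_cancel_left]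
      · intro y _
        rfl
    have h3 := he3 _ h2
    rw [map_sum] at h3
    have h4 : ∀ y ∈ h1.toFinset, e y = e x := by
      intro y hy
      obtain ⟨l, hl, rfl⟩ := h1.mem_toFinset.1 hy
      exact he1 l hl x
    rw [← h3, Finset.sum_congr rfl h4, Finset.sum_const, ← Nat.cast_smul_eq_nsmul ℂ]

theorem IsL2.avg_left {π : G →* Module.End ℂ V} (hπ : IsSmoothRep π) {K H : Subgroup G}
    (hK : IsCompact (K : Set G)) {e : V →ₗ[ℂ] V} (he1 : ∀ k ∈ K, ∀ v, e (π k v) = e v)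
    (he3 : ∀ v ∈ fixK π K, e v = v) {f : V →ₗ[ℂ] ℂ} (hf : IsL2 H π f) (x w : V)
    (hw : w ∈ fixK π K) : lform H π f (e x) w = lform H π f x w := by
  obtain ⟨O, hO, hO1, hO2⟩ := avg_orbit hπ hK he1 he3 x
  have h1 : hf.fl w (∑ y ∈ O, y) = (O.card : ℂ) * hf.fl w (e x) := by
    rw [hO2, map_smul, smul_eq_mul]
  have h2 : hf.fl w (∑ y ∈ O, y) = (O.card : ℂ) * hf.fl w x := by
    rw [map_sum]
    have h3 : ∀ y ∈ O, hf.fl w y = hf.fl w x := by
      intro y hy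
      obtain ⟨k, hk, rfl⟩ := hO1 y hy
      rw [hf.fl_apply, hf.fl_apply, hf.adj, hw _ (K.inv_mem hk)]
    rw [Finset.sum_congr rfl h3, Finset.sum_const, nsmul_eq_mul]
  have h3 : (O.card : ℂ) ≠ 0 := by exact_mod_cast hO.ne'
  exact mul_left_cancel₀ h3 (h1.symm.trans h2)

end avg

section jac

variable {E : Type} [NontriviallyNormedField E] [IsUltrametricDist E] [ProperSpace E] {n : ℕ}
  {V : Type} [AddCommGroup V] [Module ℂ V]

/-- `z` stabilises `V(N_k)` -/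
theorem cvN_map_zk {π : GL (Fin n) E →* Module.End ℂ V} {k : ℕ} (t : Fin n → Eˣ) {x : V}
    (hx : x ∈ cvN π (Nk n k E) ⊤) : π (dgl t) x ∈ cvN π (Nk n k E) ⊤ := by
  induction hx using Submodule.span_induction with
  | mem x hx =>
    obtain ⟨u, hu, v, -, rfl⟩ := hx
    refine Submodule.subset_span ⟨dgl t * u * (dgl t)⁻¹, ?_, π (dgl t) v, Submodule.mem_top, ?_⟩
    · intro i j hij
      have h2 := conj_entry t u i j
      rw [Matrix.sub_apply, Matrix.sub_apply, hu i j hij, sub_self, mul_zero, zero_mul,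
        sub_eq_zero] at h2
      exact h2
    · rw [← Module.End.mul_apply, ← map_mul, inv_mul_cancel_right, map_mul,
        Module.End.mul_apply, map_sub]
  | zero => rw [map_zero]; exact Submodule.zero_mem _
  | add x y _ _ hx hy => rw [map_add]; exact Submodule.add_mem _ hx hy
  | smul c x _ hx => rw [map_smul]; exact Submodule.smul_mem _ _ hx

variable {π : GL (Fin n) E →* Module.End ℂ V} {ε : ℝ} {k : ℕ} {ϖ : Eˣ}

/-- Data: the averaging operator of a congruence subgroup -/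
structure AvData (π : GL (Fin n) E →* Module.End ℂ V) (ε : ℝ) (h0 : 0 < ε) (h1 : ε < 1)
    (e : V →ₗ[ℂ] V) : Prop where
  inv : ∀ u ∈ glK (Fin n) E ε h0.le h1.le, ∀ v, e (π u v) = e v
  fix : ∀ v, e v ∈ fixK π (glK (Fin n) E ε h0.le h1.le)
  idem : ∀ v ∈ fixK π (glK (Fin n) E ε h0.le h1.le), e v = v

theorem exists_avData (hπ : IsSmoothRep π) (h0 : 0 < ε) (h1 : ε < 1) :
    ∃ e, AvData π ε h0 h1 e := by
  obtain ⟨e, h2, h3, h4⟩ := exists_avK hπ (glK (Fin n) E ε h0.le h1.le)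
    (glK_isCompact h0 h1.le)
  exact ⟨e, h2, h3, h4⟩

/-- `x` is fixed by the lower triangular part of the congruence subgroup -/
def LFix (π : GL (Fin n) E →* Module.End ℂ V) (k : ℕ) (ε : ℝ) (h0 : 0 < ε) (h1 : ε < 1) (x : V) :
    Prop :=
  ∀ b ∈ glK (Fin n) E ε h0.le h1.le, LowB n k b → π b x = x

theorem LFix.zk {h0 : 0 < ε} {h1 : ε < 1} (hϖ : ‖(ϖ : E)‖ < 1) {v : V}
    (hv : v ∈ fixK π (glK (Fin n) E ε h0.le h1.le)) (m : ℕ) :
    LFix π k ε h0 h1 ((π (dgl (zk n k ϖ)) ^ m) v) := by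
  intro b hb hbL
  have h2 : (π (dgl (SpW.L2.zk n k ϖ)) ^ m) v = π (dgl (SpW.L2.zk n k ϖ ^ m)) v := by
    rw [map_pow, map_pow]
  rw [h2]
  have h3 := hv _ (conj_inv_lowB hϖ m hbL (hbL.inv h0 h1 hb) hb)
  have h4 : b * dgl (SpW.L2.zk n k ϖ ^ m) =
      dgl (SpW.L2.zk n k ϖ ^ m) * ((dgl (SpW.L2.zk n k ϖ ^ m))⁻¹ * b * dgl (SpW.L2.zk n k ϖ ^ m)) := by
    group
  rw [← Module.End.mul_apply, ← map_mul, h4, map_mul, Module.End.mul_apply, h3]

/-- the average of a vector fixed by the lower triangular part -/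
theorem AvData.avg {h0 : 0 < ε} {h1 : ε < 1} {e : V →ₗ[ℂ] V} (he : AvData π ε h0 h1 e)
    (hπ : IsSmoothRep π) {x : V} (hx : LFix π k ε h0 h1 x) :
    ∃ O : Finset V, 0 < O.card ∧
      (∀ y ∈ O, ∃ u ∈ glK (Fin n) E ε h0.le h1.le, u ∈ Nk n k E ∧ y = π u x) ∧
      ∑ y ∈ O, y = (O.card : ℂ) • e x := by
  obtain ⟨O, hO, hO1, hO2⟩ := avg_orbit hπ (glK_isCompact h0 h1.le) he.inv he.idem x
  refine ⟨O, hO, fun y hy => ?_, hO2⟩
  obtain ⟨g, hg, rfl⟩ := hO1 y hy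
  obtain ⟨u, hu, b, hb, huK, hbK, rfl⟩ := iwahori_fact h0 h1 k hg
  refine ⟨u, huK, hu, ?_⟩
  rw [map_mul, Module.End.mul_apply, hx b hbK hb]

theorem AvData.sub_mem {h0 : 0 < ε} {h1 : ε < 1} {e : V →ₗ[ℂ] V} (he : AvData π ε h0 h1 e)
    (hπ : IsSmoothRep π) {x : V} (hx : LFix π k ε h0 h1 x) :
    e x - x ∈ cvN π (Nk n k E) ⊤ := by
  obtain ⟨O, hO, hO1, hO2⟩ := he.avg hπ hx
  have h2 : (O.card : ℂ) ≠ 0 := by exact_mod_cast hO.ne'
  have h3 : (O.card : ℂ) • (e x - x) ∈ cvN π (Nk n k E) ⊤ := by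
    rw [smul_sub, ← hO2, Nat.cast_smul_eq_nsmul ℂ, ← Finset.sum_const, ← Finset.sum_sub_distrib]
    refine Submodule.sum_mem _ fun y hy => ?_
    obtain ⟨u, -, hu, rfl⟩ := hO1 y hy
    exact Submodule.subset_span ⟨u, hu, x, Submodule.mem_top, rfl⟩
  have h4 := Submodule.smul_mem _ ((O.card : ℂ)⁻¹) h3
  rwa [smul_smul, inv_mul_cancel₀ h2, one_smul] at h4

theorem AvData.zk_avg {h0 : 0 < ε} {h1 : ε < 1} {e : V →ₗ[ℂ] V} (he : AvData π ε h0 h1 e)
    (hπ : IsSmoothRep π) (hϖ : ‖(ϖ : E)‖ < 1) {x : V} (hx : LFix π k ε h0 h1 x) :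
    e (π (dgl (zk n k ϖ)) (e x)) = e (π (dgl (zk n k ϖ)) x) := by
  obtain ⟨O, hO, hO1, hO2⟩ := he.avg hπ hx
  have h2 : (O.card : ℂ) ≠ 0 := by exact_mod_cast hO.ne'
  have h3 : (O.card : ℂ) • e (π (dgl (zk n k ϖ)) (e x)) =
      (O.card : ℂ) • e (π (dgl (zk n k ϖ)) x) := by
    rw [← map_smul, ← map_smul, ← hO2, map_sum, map_sum]
    have h4 : ∀ y ∈ O, e (π (dgl (zk n k ϖ)) y) = e (π (dgl (zk n k ϖ)) x) := by
      intro y hy
      obtain ⟨u, huK, hu, rfl⟩ := hO1 y hy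
      have h5 : π (dgl (zk n k ϖ)) (π u x) =
          π (dgl (zk n k ϖ) * u * (dgl (zk n k ϖ))⁻¹) (π (dgl (zk n k ϖ)) x) := by
        rw [← Module.End.mul_apply, ← map_mul, ← Module.End.mul_apply, ← map_mul,
          inv_mul_cancel_right]
      rw [h5]
      exact he.inv _ (conj_Nk_mem hϖ hu huK) _
    rw [Finset.sum_congr rfl h4, Finset.sum_const, ← Nat.cast_smul_eq_nsmul ℂ]
  exact smul_right_injective V h2 h3

/-- `T = e z` -/
noncomputable def Tz (π : GL (Fin n) E →* Module.End ℂ V) (k : ℕ) (ϖ : Eˣ) (e : V →ₗ[ℂ] V) :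
    Module.End ℂ V := e ∘ₗ π (dgl (zk n k ϖ))

theorem Tz_apply (e : V →ₗ[ℂ] V) (x : V) : Tz π k ϖ e x = e (π (dgl (zk n k ϖ)) x) := rfl

theorem AvData.pow {h0 : 0 < ε} {h1 : ε < 1} {e : V →ₗ[ℂ] V} (he : AvData π ε h0 h1 e)
    (hπ : IsSmoothRep π) (hϖ : ‖(ϖ : E)‖ < 1) {v : V}
    (hv : v ∈ fixK π (glK (Fin n) E ε h0.le h1.le)) (m : ℕ) :
    (Tz π k ϖ e ^ m) v = e ((π (dgl (zk n k ϖ)) ^ m) v) := by
  induction m with
  | zero =>
    rw [pow_zero, pow_zero, Module.End.one_apply, he.idem v hv]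
  | succ m ih =>
    rw [pow_succ', pow_succ', Module.End.mul_apply, Module.End.mul_apply, ih, Tz_apply,
      he.zk_avg hπ hϖ (LFix.zk hϖ hv m)]

theorem AvData.pow_mem {h0 : 0 < ε} {h1 : ε < 1} {e : V →ₗ[ℂ] V} (he : AvData π ε h0 h1 e)
    (hπ : IsSmoothRep π) (hϖ : ‖(ϖ : E)‖ < 1) {v : V}
    (hv : v ∈ fixK π (glK (Fin n) E ε h0.le h1.le)) (m : ℕ) :
    (Tz π k ϖ e ^ m) v ∈ fixK π (glK (Fin n) E ε h0.le h1.le) := by
  rw [he.pow hπ hϖ hv]
  exact he.fix _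

/-- if `T^m v = 0` then `v` is in `V(N_k)` -/
theorem AvData.mem_of_pow_eq_zero {h0 : 0 < ε} {h1 : ε < 1} {e : V →ₗ[ℂ] V}
    (he : AvData π ε h0 h1 e) (hπ : IsSmoothRep π) (hϖ : ‖(ϖ : E)‖ < 1) {v : V}
    (hv : v ∈ fixK π (glK (Fin n) E ε h0.le h1.le)) {m : ℕ} (h : (Tz π k ϖ e ^ m) v = 0) :
    v ∈ cvN π (Nk n k E) ⊤ := by
  rw [he.pow hπ hϖ hv] at h
  have h2 := he.sub_mem hπ (LFix.zk (k := k) hϖ hv m)
  rw [h, zero_sub, Submodule.neg_mem_iff] at h2
  have h3 : (π (dgl (zk n k ϖ)) ^ m) v = π (dgl (zk n k ϖ ^ m)) v := by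
    rw [map_pow, map_pow]
  rw [h3] at h2
  have h4 := cvN_map_zk (zk n k ϖ ^ m)⁻¹ h2
  rwa [← Module.End.mul_apply, ← map_mul, ← map_mul, inv_mul_cancel, map_one, map_one,
    Module.End.one_apply] at h4

/-- vectors of `V(N_k)` are killed by the powers of `T` -/
theorem AvData.eventually_zero {h0 : 0 < ε} {h1 : ε < 1} {e : V →ₗ[ℂ] V}
    (he : AvData π ε h0 h1 e) (hϖ : ‖(ϖ : E)‖ < 1) {x : V}
    (hx : x ∈ cvN π (Nk n k E) ⊤) : ∀ᶠ m : ℕ in atTop, e ((π (dgl (zk n k ϖ)) ^ m) x) = 0 := by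
  induction hx using Submodule.span_induction with
  | mem x hx =>
    obtain ⟨u, hu, v, -, rfl⟩ := hx
    obtain ⟨c, hc, hc0⟩ := ((conj_small hu ((glK_isOpen h0 h1.le).mem_nhds
      (one_mem _))).and (self_mem_nhdsWithin : Set.Ioi (0 : ℝ) ∈ 𝓝[>] (0 : ℝ))).exists
    have hc0 : 0 < c := hc0
    have h2 := (tendsto_pow_atTop_nhds_zero_of_lt_one (norm_nonneg (ϖ : E)) hϖ).eventually
      (gt_mem_nhds hc0)
    filter_upwards [h2] with m hm
    have h3 : dgl (zk n k ϖ ^ m) * u * (dgl (zk n k ϖ ^ m))⁻¹ ∈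
        glK (Fin n) E ε h0.le h1.le := by
      apply hc
      intro i j hi hj
      rw [zk_pow_val, zk_pow_val, if_pos hi, if_neg (not_lt.2 hj), norm_one, mul_one, norm_pow]
      exact hm.le
    have h4 : ∀ w, (π (dgl (zk n k ϖ)) ^ m) w = π (dgl (zk n k ϖ ^ m)) w := by
      intro w
      rw [map_pow, map_pow]
    rw [map_sub, map_sub, h4, h4, sub_eq_zero]
    have h5 : π (dgl (zk n k ϖ ^ m)) (π u v) =
        π (dgl (zk n k ϖ ^ m) * u * (dgl (zk n k ϖ ^ m))⁻¹) (π (dgl (zk n k ϖ ^ m)) v) := by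
      rw [← Module.End.mul_apply, ← map_mul, ← Module.End.mul_apply, ← map_mul,
        inv_mul_cancel_right]
    rw [h5]
    exact he.inv _ h3 _
  | zero => exact Filter.Eventually.of_forall fun m => by simp
  | add x y _ _ hx hy =>
    filter_upwards [hx, hy] with m h2 h3
    rw [map_add, map_add, h2, h3, add_zero]
  | smul a x _ hx =>
    filter_upwards [hx] with m h2
    rw [map_smul, map_smul, h2, smul_zero]

/-- `rt` for `T` and `z` agree modulo `V(N_k)` -/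
theorem AvData.rt_mem {h0 : 0 < ε} {h1 : ε < 1} {e : V →ₗ[ℂ] V} (he : AvData π ε h0 h1 e)
    (hπ : IsSmoothRep π) (hϖ : ‖(ϖ : E)‖ < 1) (L : List ℂ) :
    ∀ a ∈ fixK π (glK (Fin n) E ε h0.le h1.le), ∀ b, a - b ∈ cvN π (Nk n k E) ⊤ →
      rt (Tz π k ϖ e) L a ∈ fixK π (glK (Fin n) E ε h0.le h1.le) ∧
        rt (Tz π k ϖ e) L a - rt (π (dgl (zk n k ϖ))) L b ∈ cvN π (Nk n k E) ⊤ := by
  induction L with
  | nil => exact fun a ha b hab => ⟨ha, hab⟩
  | cons c cs ih =>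
    intro a ha b hab
    rw [rt_cons, rt_cons]
    refine ih _ ?_ _ ?_
    · exact Submodule.sub_mem _ (he.fix _) (Submodule.smul_mem _ _ ha)
    · have h2 : Tz π k ϖ e a - π (dgl (zk n k ϖ)) a ∈ cvN π (Nk n k E) ⊤ := by
        have h3 := he.sub_mem hπ (LFix.zk (k := k) hϖ ha 1)
        rwa [pow_one] at h3
      have h3 : Tz π k ϖ e a - c • a - (π (dgl (zk n k ϖ)) b - c • b) =
          (Tz π k ϖ e a - π (dgl (zk n k ϖ)) a) + π (dgl (zk n k ϖ)) (a - b) - c • (a - b) := by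
        rw [map_sub, smul_sub]
        abel
      rw [h3]
      exact Submodule.sub_mem _ (Submodule.add_mem _ h2 (cvN_map_zk _ hab))
        (Submodule.smul_mem _ _ hab)

/-- an eigenvector from a vanishing product -/
theorem exists_eigen (T : Module.End ℂ V) (W : Submodule ℂ V) (hTW : ∀ v ∈ W, T v ∈ W)
    (L : List ℂ) : ∀ v ∈ W, v ≠ 0 → rt T L v = 0 → ∃ c ∈ L, ∃ w ∈ W, w ≠ 0 ∧ T w = c • w := by
  induction L with
  | nil => exact fun v _ hv h => absurd h hv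
  | cons c cs ih =>
    intro v hv hv0 h
    rw [rt_cons] at h
    by_cases h2 : T v - c • v = 0
    · exact ⟨c, List.mem_cons_self, v, hv, hv0, sub_eq_zero.1 h2⟩
    · obtain ⟨c', hc', w, hw, hw0, hTw⟩ := ih _ (Submodule.sub_mem _ (hTW v hv)
        (Submodule.smul_mem _ _ hv)) h2 h
      exact ⟨c', List.mem_cons_of_mem _ hc', w, hw, hw0, hTw⟩

/-- an eigenvector of the Hecke operator, if `V(N_k) ≠ V` -/
theorem exists_hecke_eigen (hπ : IsSmoothRep π) (hϖ : ‖(ϖ : E)‖ < 1) {L : List ℂ}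
    (hL : ∀ v, rt (π (dgl (zk n k ϖ))) L v ∈ cvN π (Nk n k E) ⊤)
    (hne : cvN π (Nk n k E) ⊤ ≠ ⊤) : ∃ (ε : ℝ) (h0 : 0 < ε) (h1 : ε < 1) (e : V →ₗ[ℂ] V),
      AvData π ε h0 h1 e ∧ ∃ c ∈ L, ∃ w ∈ fixK π (glK (Fin n) E ε h0.le h1.le), w ≠ 0 ∧
        Tz π k ϖ e w = c • w := by
  obtain ⟨v, -, hv⟩ := SetLike.exists_of_lt (lt_top_iff_ne_top.2 hne)
  obtain ⟨ε', h0', h1', hε⟩ := exists_ball_gl (hπ v)
  have h0 : 0 < min ε' (1 / 2) := lt_min h0' (by norm_num)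
  have h1 : min ε' (1 / 2) < 1 := lt_of_le_of_lt (min_le_right _ _) (by norm_num)
  obtain ⟨e, he⟩ := exists_avData hπ h0 h1
  have hvK : v ∈ fixK π (glK (Fin n) E (min ε' (1 / 2)) h0.le h1.le) := by
    intro g hg
    exact hε g (fun i j => (hg.1 i j).trans (min_le_left _ _))
      (fun i j => (hg.2 i j).trans (min_le_left _ _))
  refine ⟨min ε' (1 / 2), h0, h1, e, he, ?_⟩
  obtain ⟨h2, h3⟩ := he.rt_mem (k := k) hπ hϖ L v hvK v (by rw [sub_self]; exact zero_mem _)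
  have h4 : rt (Tz π k ϖ e) L v ∈ cvN π (Nk n k E) ⊤ := by
    have := Submodule.add_mem _ h3 (hL v)
    rwa [sub_add_cancel] at this
  obtain ⟨m, hm⟩ := (he.eventually_zero hϖ h4).exists
  rw [← he.pow hπ hϖ h2, rt_comm (Tz π k ϖ e) (Tz π k ϖ e ^ m) (fun x => by
    rw [← Module.End.mul_apply, ← Module.End.mul_apply, ← pow_succ, ← pow_succ'])] at hm
  refine exists_eigen (Tz π k ϖ e) _ (fun x _ => he.fix _) L ((Tz π k ϖ e ^ m) v)
    (he.pow_mem hπ hϖ hvK m) ?_ hm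
  intro h
  exact hv (he.mem_of_pow_eq_zero hπ hϖ hvK h)

end jac

section rev

variable {E : Type} [NontriviallyNormedField E] [IsUltrametricDist E] {n : ℕ}

omit [IsUltrametricDist E] in
theorem revM_mul : ((1 : Matrix (Fin n) (Fin n) E).submatrix Fin.rev id) *
    ((1 : Matrix (Fin n) (Fin n) E).submatrix Fin.rev id) = 1 := by
  ext i j
  rw [Matrix.mul_apply, Finset.sum_eq_single (Fin.rev i)]
  · rw [Matrix.submatrix_apply, Matrix.submatrix_apply, id, id, Matrix.one_apply_eq, one_mul,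
      Fin.rev_rev]
  · intro l _ hl
    rw [Matrix.submatrix_apply, id, Matrix.one_apply_ne (Ne.symm hl), zero_mul]
  · intro h
    exact absurd (Finset.mem_univ _) h

theorem scalZ_central' (a : Eˣ) (g : GL (Fin n) E) :
    Commute (Matrix.GeneralLinearGroup.scalar (R := E) (Fin n) a) g :=
  scalZ_central _ ⟨a, rfl⟩ g

/-- the permutation matrix of `i ↦ n - 1 - i` -/
def revG (n : ℕ) (E : Type) [NontriviallyNormedField E] : GL (Fin n) E where
  val := (1 : Matrix (Fin n) (Fin n) E).submatrix Fin.rev id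
  inv := (1 : Matrix (Fin n) (Fin n) E).submatrix Fin.rev id
  val_inv := revM_mul
  inv_val := revM_mul

theorem revG_val : ((revG n E : GL (Fin n) E) : Matrix (Fin n) (Fin n) E) =
    (1 : Matrix (Fin n) (Fin n) E).submatrix Fin.rev id := rfl

theorem revG_inv : (revG n E)⁻¹ = revG n E := by
  apply Units.ext
  rfl

theorem revG_mem : revG n E ∈ glK (Fin n) E 1 zero_le_one le_rfl := by
  apply mem_glK_one
  · intro i j
    rw [revG_val, Matrix.submatrix_apply]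
    exact norm_one_entry_le _ _
  · intro i j
    rw [revG_inv, revG_val, Matrix.submatrix_apply]
    exact norm_one_entry_le _ _

theorem revG_conj (t : Fin n → Eˣ) : revG n E * dgl t * (revG n E)⁻¹ =
    dgl (fun i => t (Fin.rev i)) := by
  rw [mul_inv_eq_iff_eq_mul]
  apply Units.ext
  rw [Units.val_mul, Units.val_mul, dgl_val, dgl_val, revG_val]
  ext i j
  rw [Matrix.mul_diagonal, Matrix.diagonal_mul, Matrix.submatrix_apply, id]
  by_cases h : Fin.rev i = j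
  · rw [h, Matrix.one_apply_eq, mul_comm]
  · rw [Matrix.one_apply_ne h, zero_mul, mul_zero]

theorem zk_rev (ϖ : Eˣ) {k : ℕ} (hk : k ≤ n) :
    dgl (fun i => zk n (n - k) ϖ (Fin.rev i)) =
      Matrix.GeneralLinearGroup.scalar (R := E) (Fin n) ϖ * (dgl (zk n k ϖ))⁻¹ := by
  have hz' : Matrix.GeneralLinearGroup.scalar (R := E) (Fin n) ϖ = dgl (fun _ => ϖ) := by
    apply Units.ext
    rw [dgl_val]
    rfl
  rw [hz', ← map_inv, ← map_mul]
  congr 1
  funext i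
  rw [Pi.mul_apply, Pi.inv_apply]
  have h1 : (Fin.rev i).1 = n - (i.1 + 1) := Fin.val_rev i
  have h2 := i.2
  unfold zk
  rw [h1]
  by_cases hi : i.1 < k
  · rw [if_pos hi, if_neg (by omega), mul_inv_cancel]
  · rw [if_neg hi, if_pos (by omega), inv_one, mul_one]

/-- existence of a uniformiser -/
theorem exists_uniformiser [ProperSpace E] : ∃ ϖ : Eˣ, ‖(ϖ : E)‖ < 1 ∧
    ∀ x : Eˣ, ∃ e : ℤ, ‖(x : E)‖ = ‖(ϖ : E)‖ ^ e := by
  obtain ⟨π, hπ, h⟩ := Pool.Agent.LocNorm.exists_unif E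
  have hπ0 : π ≠ 0 := by
    rintro rfl
    rw [norm_zero] at hπ
    linarith
  refine ⟨(Units.mk0 π hπ0)⁻¹, ?_, fun x => ?_⟩
  · rw [Units.val_inv_eq_inv_val, norm_inv]
    exact inv_lt_one_of_one_lt₀ hπ
  · obtain ⟨e, he⟩ := h x x.ne_zero
    refine ⟨-e, ?_⟩
    rw [Units.val_inv_eq_inv_val, norm_inv, inv_zpow, zpow_neg, inv_inv]
    exact he

end rev

section main

variable {E : Type} [NontriviallyNormedField E] [IsUltrametricDist E] [ProperSpace E]
  [MeasurableSpace E] [BorelSpace E] {n : ℕ} {V : Type} [AddCommGroup V] [Module ℂ V]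

/-- **The `L²` lemma.** A smooth representation of `GL_n(E)` with unitary central character, whose
exponents (the lists `L k`, for the Jacquet modules along `N_k`) satisfy Casselman's criterion:
if no exponent for `k` has the absolute value of an exponent for `n - k`, then there are no
exponents for `k`. -/
theorem coinv_eq_top_of_asym {π : GL (Fin n) E →* Module.End ℂ V} (hπ : IsSmoothRep π)
    (hc : UnitCentral π) {ϖ : Eˣ} (hϖ : ‖(ϖ : E)‖ < 1)
    (hval : ∀ x : Eˣ, ∃ e : ℤ, ‖(x : E)‖ = ‖(ϖ : E)‖ ^ e) (L : ℕ → List ℂ)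
    (hL : ∀ k, 0 < k → k < n → ∀ v, rt (π (dgl (zk n k ϖ))) (L k) v ∈ cvN π (Nk n k E) ⊤)
    (hL2 : ∀ k, 0 < k → k < n → ∀ c ∈ L k, ‖c‖ ^ 2 < absE ϖ ^ (k * (n - k)))
    {k : ℕ} (hk0 : 0 < k) (hkn : k < n) (hL0 : ∀ c ∈ L k, c ≠ 0)
    (hne : ∀ c ∈ L k, ∀ c' ∈ L (n - k), ‖c‖ ≠ ‖c'‖) : cvN π (Nk n k E) ⊤ = ⊤ := by
  by_contra hcon
  obtain ⟨χ, hχ, hχc⟩ := hc
  obtain ⟨ε, h0, h1, e, he, c, hcL, w, hw, hw0, hTw⟩ :=
    exists_hecke_eigen hπ hϖ (hL k hk0 hkn) hcon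
  have hc0 : c ≠ 0 := hL0 c hcL
  obtain ⟨l, hl⟩ : ∃ l : V →ₗ[ℂ] ℂ, l w ≠ 0 := by
    by_contra h
    push Not at h
    exact hw0 ((Module.forall_dual_apply_eq_zero_iff ℂ w).1 h)
  set ξ : V →ₗ[ℂ] ℂ := l ∘ₗ e with hξdef
  have hξw : ξ w ≠ 0 := by
    rw [hξdef, LinearMap.comp_apply, he.idem w hw]
    exact hl
  have hf : IsL2 (glK (Fin n) E ε h0.le h1.le ⊔ scalZ n E) π ξ :=
    isL2_of_exponents hπ χ hχ hχc hϖ hval L hL hL2 h0 h1.le (fun u hu v => by
      rw [hξdef, LinearMap.comp_apply, LinearMap.comp_apply, he.inv u hu])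
  set H := glK (Fin n) E ε h0.le h1.le ⊔ scalZ n E with hH
  set h := lform H π ξ w w with hh
  have hh0 : h ≠ 0 := hf.self_ne_zero hξw
  have hhc : conj h = h := lform_self_conj w
  have hzp : ∀ (j m : ℕ) (x : V), (π (dgl (zk n j ϖ)) ^ m) x = π (dgl (zk n j ϖ ^ m)) x := by
    intro j m x
    rw [map_pow, map_pow]
  -- the sequence along `z_k`
  have hA : ∀ m : ℕ, lform H π ξ (π (dgl (zk n k ϖ ^ m)) w) w = c ^ m * h := by
    intro m
    have h2 : (Tz π k ϖ e ^ m) w = c ^ m • w := by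
      induction m with
      | zero => rw [pow_zero, pow_zero, Module.End.one_apply, one_smul]
      | succ m ih => rw [pow_succ, Module.End.mul_apply, hTw, map_smul, ih, smul_smul, pow_succ,
          mul_comm]
    have h3 := he.pow (k := k) hπ hϖ hw m
    rw [h2] at h3
    rw [← hzp, ← hf.avg_left hπ (glK_isCompact h0 h1.le) he.inv he.idem _ _ hw, ← h3,
      lform_smul_left]
  -- the sequence along `z_{n-k}`
  set v₂ : V := π (revG n E)⁻¹ w with hv₂
  set d : ℂ := χ ϖ * conj c with hd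
  have hscal : ∀ (m : ℕ) (x : V),
      π (Matrix.GeneralLinearGroup.scalar (R := E) (Fin n) ϖ ^ m) x = χ ϖ ^ m • x := by
    intro m
    induction m with
    | zero => intro x; rw [pow_zero, pow_zero, map_one, Module.End.one_apply, one_smul]
    | succ m ih =>
      intro x
      rw [pow_succ, map_mul, Module.End.mul_apply, hχc, map_smul, ih, smul_smul, pow_succ,
        mul_comm]
  have hB : ∀ m : ℕ, hf.fl v₂ ((π (dgl (zk n (n - k) ϖ)) ^ m) v₂) = d ^ m * h := by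
    intro m
    rw [hf.fl_apply, hzp, hv₂]
    rw [← hf.map (revG n E), ← Module.End.mul_apply, ← map_mul, ← Module.End.mul_apply,
      ← map_mul, ← Module.End.mul_apply, ← map_mul, mul_inv_cancel, map_one, Module.End.one_apply]
    have h2 : revG n E * dgl (zk n (n - k) ϖ ^ m) * (revG n E)⁻¹ =
        Matrix.GeneralLinearGroup.scalar (R := E) (Fin n) ϖ ^ m * (dgl (zk n k ϖ ^ m))⁻¹ := by
      have h3 : revG n E * dgl (zk n (n - k) ϖ ^ m) * (revG n E)⁻¹ =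
          (revG n E * dgl (zk n (n - k) ϖ) * (revG n E)⁻¹) ^ m := by
        rw [conj_pow, map_pow]
      rw [h3, revG_conj, zk_rev ϖ hkn.le, (scalZ_central' ϖ _).mul_pow, map_pow, inv_pow]
    rw [h2, map_mul, Module.End.mul_apply, hscal, lform_smul_left, hf.adj, inv_inv,
      ← lform_conj, hA, map_mul, hhc, map_pow, hd, mul_pow]
    ring
  -- the recurrence along `z_{n-k}`
  have hy := hL (n - k) (Nat.sub_pos_of_lt hkn) (Nat.sub_lt (hk0.trans hkn) hk0) v₂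
  have hgeo := rt_geom (π (dgl (zk n (n - k) ϖ))) (hf.fl v₂) d (L (n - k)) v₂ h hB
  rw [cvN_top_eq] at hy
  obtain ⟨a, ha0, ha⟩ := ((self_mem_nhdsWithin : Set.Ioi (0 : ℝ) ∈ 𝓝[>] (0 : ℝ)) |>
    Filter.Eventually.and <| coeff_zero (hf.fl_mem_gDual hπ v₂) hy).exists
  have ha0 : 0 < a := ha0
  obtain ⟨m, hm⟩ := exists_pow_lt_of_lt_one ha0 hϖ
  have h2 := ha (zk n (n - k) ϖ ^ m) (fun i j hi hj => by
    rw [zk_pow_val, zk_pow_val, if_pos hi, if_neg (not_lt.2 hj), norm_one, mul_one, norm_pow]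
    exact hm.le)
  rw [← hzp, hgeo] at h2
  have hd0 : d ≠ 0 := by
    rw [hd]
    refine mul_ne_zero ?_ ?_
    · intro h3
      have := hχ ϖ
      rw [h3, norm_zero] at this
      exact zero_ne_one this
    · intro h3
      exact hc0 ((map_eq_zero (starRingEnd ℂ)).1 h3)
  have h3 : ((L (n - k)).map fun c' => d - c').prod = 0 := by
    rcases mul_eq_zero.1 h2 with h4 | h4
    · exact absurd h4 (pow_ne_zero _ hd0)
    · rcases mul_eq_zero.1 h4 with h5 | h5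
      · exact h5
      · exact absurd h5 hh0
  rw [List.prod_eq_zero_iff, List.mem_map] at h3
  obtain ⟨c', hc', h4⟩ := h3
  rw [sub_eq_zero] at h4
  refine hne c hcL c' hc' ?_
  rw [← h4, hd, norm_mul, hχ, one_mul, RCLike.norm_conj]

/-- The `L²` lemma for all radicals: the representation has no coinvariants at all. -/
theorem isCusp_of_asym {π : GL (Fin n) E →* Module.End ℂ V} (hπ : IsSmoothRep π)
    (hc : UnitCentral π) {ϖ : Eˣ} (hϖ : ‖(ϖ : E)‖ < 1)
    (hval : ∀ x : Eˣ, ∃ e : ℤ, ‖(x : E)‖ = ‖(ϖ : E)‖ ^ e) (L : ℕ → List ℂ)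
    (hL : ∀ k, 0 < k → k < n → ∀ v, rt (π (dgl (zk n k ϖ))) (L k) v ∈ cvN π (Nk n k E) ⊤)
    (hL2 : ∀ k, 0 < k → k < n → ∀ c ∈ L k, c ≠ 0 ∧ ‖c‖ ^ 2 < absE ϖ ^ (k * (n - k)))
    (hne : ∀ k, 0 < k → k < n → ∀ c ∈ L k, ∀ c' ∈ L (n - k), ‖c‖ ≠ ‖c'‖) : IsCusp π :=
  fun k hk0 hkn => coinv_eq_top_of_asym hπ hc hϖ hval L hL
    (fun j hj hj' c hcj => (hL2 j hj hj' c hcj).2) hk0 hkn
    (fun c hcj => (hL2 k hk0 hkn c hcj).1) (hne k hk0 hkn)

end main

end SpW.L2
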