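import Pool.Agent.Work.MP_3615d2_al.Co.L2Form
import Pool.Agent.Work.MP_3615d2_al.Mo.CartVol
import Pool.Agent.Work.MP_3615d2_al.SubquoB
import Pool.Agent.Work.MP_3615d2_al.LocVal
import Pool.Agent.Work.MP_3615d2_al.BPSec

/-!
MP_3615d2_al, (COMM) (note 6707): growth of the matrix coefficients of a smooth representation of
`GL_n(E)` whose exponents are given, counting of cosets, square summability.
-/

open Filter Topology
open scoped ComplexConjugate NNReal

set_option linter.unusedSectionVars false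

namespace SpW.L2

section zk

variable {E : Type} [NontriviallyNormedField E] {n : ℕ}

/-- `diag(x 1_k, 1_{n-k})` -/
def zk (n k : ℕ) (x : Eˣ) : Fin n → Eˣ := fun i => if i.1 < k then x else 1

theorem cvN_top_eq {V : Type} [AddCommGroup V] [Module ℂ V] {G : Type} [Group G]
    (π : G →* Module.End ℂ V) (N : Subgroup G) :
    cvN π N ⊤ = Submodule.span ℂ {x | ∃ u ∈ N, ∃ w, x = π u w - w} := by
  unfold cvN
  congr 1
  ext x
  simp

theorem zk_norm_mono {ϖ : Eˣ} (hϖ : ‖(ϖ : E)‖ < 1) (k : ℕ) {i j : Fin n} (hij : i ≤ j) :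
    ‖((zk n k ϖ i : Eˣ) : E)‖ ≤ ‖((zk n k ϖ j : Eˣ) : E)‖ := by
  unfold zk
  have h : i.1 ≤ j.1 := hij
  split_ifs with h1 h2 h2
  · exact le_rfl
  · rw [Units.val_one, norm_one]
    exact hϖ.le
  · omega
  · exact le_rfl

theorem prodz_apply (ϖ : Eˣ) (I : Finset (Fin n)) (p : Fin n → ℕ) (i : Fin n) :
    (((∏ a ∈ I, zk n a.1 ϖ ^ p a : Fin n → Eˣ) i : Eˣ) : E) =
      ∏ a ∈ I, ((zk n a.1 ϖ i : Eˣ) : E) ^ p a := by
  rw [Finset.prod_apply, Units.coe_prod]
  apply Finset.prod_congr rfl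
  intro a _
  rw [Pi.pow_apply, Units.val_pow_eq_pow_val]

theorem prodz_norm_mono {ϖ : Eˣ} (hϖ : ‖(ϖ : E)‖ < 1) (I : Finset (Fin n)) (p : Fin n → ℕ)
    {i j : Fin n} (hij : i ≤ j) :
    ‖(((∏ a ∈ I, zk n a.1 ϖ ^ p a : Fin n → Eˣ) i : Eˣ) : E)‖ ≤
      ‖(((∏ a ∈ I, zk n a.1 ϖ ^ p a : Fin n → Eˣ) j : Eˣ) : E)‖ := by
  rw [prodz_apply, prodz_apply, norm_prod, norm_prod]
  refine Finset.prod_le_prod (fun a _ => norm_nonneg _) fun a _ => ?_
  rw [norm_pow, norm_pow]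
  exact pow_le_pow_left₀ (norm_nonneg _) (zk_norm_mono hϖ a.1 hij) _

end zk

section growth

variable {E : Type} [NontriviallyNormedField E] [IsUltrametricDist E] {n : ℕ}
  {V : Type} [AddCommGroup V] [Module ℂ V]

/-- **Growth of matrix coefficients** along the positive chamber. -/
theorem growth {π : GL (Fin n) E →* Module.End ℂ V} {ϖ : Eˣ} (hϖ : ‖(ϖ : E)‖ < 1)
    (L : ℕ → List ℂ) (r : ℕ → ℝ) (hr : ∀ k, 0 < r k)
    (hLr : ∀ k, 0 < k → k < n → ∀ c ∈ L k, ‖c‖ < r k)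
    (hL : ∀ k, 0 < k → k < n → ∀ v, rt (π (dgl (zk n k ϖ))) (L k) v ∈ cvN π (Nk n k E) ⊤)
    {ξ : V →ₗ[ℂ] ℂ} (hξ : ξ ∈ gDual π) (I : Finset (Fin n)) :
    (∀ i ∈ I, 0 < i.1) → ∀ v, ∃ C, 0 ≤ C ∧ ∀ p : Fin n → ℕ,
      ‖ξ (π (dgl (∏ i ∈ I, zk n i.1 ϖ ^ p i)) v)‖ ≤ C * ∏ i ∈ I, r i.1 ^ p i := by
  classical
  induction I using Finset.induction_on with
  | empty =>
    intro _ v
    refine ⟨‖ξ v‖, norm_nonneg _, fun p => ?_⟩
    rw [Finset.prod_empty, Finset.prod_empty, map_one, map_one, Module.End.one_apply, mul_one]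
  | insert a I ha ih =>
    intro hI v
    have ha0 : 0 < a.1 := hI a (Finset.mem_insert_self _ _)
    obtain ⟨C, hC0, hC⟩ := growth_aux (Q := Fin n → ℕ) (π (dgl (zk n a.1 ϖ)))
      (fun q => ξ ∘ₗ π (dgl (∏ i ∈ I, zk n i.1 ϖ ^ q i))) (fun q => ∏ i ∈ I, r i.1 ^ q i)
      (fun q => Finset.prod_nonneg fun i _ => pow_nonneg (hr _).le _) (cvN π (Nk n a.1 E) ⊤)
      (ih fun i hi => hI i (Finset.mem_insert_of_mem hi)) (by
        intro x hx
        rw [cvN_top_eq] at hx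
        obtain ⟨c, hc0, hc⟩ := ((self_mem_nhdsWithin : Set.Ioi (0 : ℝ) ∈ 𝓝[>] (0 : ℝ)) |>
          Filter.Eventually.and <| coeff_zero hξ hx).exists
        have hc0 : 0 < c := hc0
        obtain ⟨m₀, hm₀⟩ := exists_pow_lt_of_lt_one hc0 hϖ
        refine ⟨m₀, fun m hm q => ?_⟩
        have h1 : (π (dgl (zk n a.1 ϖ)) ^ m) x = π (dgl (zk n a.1 ϖ ^ m)) x := by
          rw [map_pow, map_pow]
        rw [LinearMap.comp_apply, h1, ← Module.End.mul_apply, ← map_mul, ← map_mul]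
        apply hc
        intro i j hi hj
        rw [Pi.mul_apply, Pi.mul_apply, Units.val_mul, Units.val_mul, norm_mul, norm_mul]
        have hij : i ≤ j := by
          rw [Fin.le_def]
          omega
        have h2 := prodz_norm_mono hϖ I q hij
        have h3 : ‖(((zk n a.1 ϖ ^ m) i : Eˣ) : E)‖ ≤ c := by
          rw [Pi.pow_apply, Units.val_pow_eq_pow_val, norm_pow]
          have h4 : zk n a.1 ϖ i = ϖ := if_pos hi
          rw [h4]
          exact (pow_le_pow_of_le_one (norm_nonneg _) hϖ.le hm).trans hm₀.le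
        have h4 : ‖(((zk n a.1 ϖ ^ m) j : Eˣ) : E)‖ = 1 := by
          rw [Pi.pow_apply, Units.val_pow_eq_pow_val, norm_pow]
          have h4 : zk n a.1 ϖ j = 1 := if_neg (by omega)
          rw [h4, Units.val_one, norm_one, one_pow]
        rw [h4, mul_one, mul_comm c]
        exact mul_le_mul h2 h3 (norm_nonneg _) (norm_nonneg _))
      (hr a.1) (L a.1) (hLr a.1 ha0 a.2) v (hL a.1 ha0 a.2 v)
    refine ⟨C, hC0, fun p => ?_⟩
    have h1 := hC (p a) p
    rw [LinearMap.comp_apply] at h1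
    have h2 : (π (dgl (zk n a.1 ϖ)) ^ p a) v = π (dgl (zk n a.1 ϖ ^ p a)) v := by
      rw [map_pow, map_pow]
    rw [h2, ← Module.End.mul_apply, ← map_mul, ← map_mul] at h1
    rw [Finset.prod_insert ha, Finset.prod_insert ha, mul_comm (zk n a.1 ϖ ^ p a)]
    exact h1

end growth

section count

variable {E : Type} [NontriviallyNormedField E] [IsUltrametricDist E] [ProperSpace E]
  [MeasurableSpace E] [BorelSpace E] {n : ℕ}

/-- the bound for the number of cosets in a Cartan cell -/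
noncomputable def NN (t : Fin n → Eˣ) : ℝ := ∏ i, ∏ j, max 1 ((md ((t j : E) / t i) : ℝ≥0) : ℝ)

theorem NN_pos (t : Fin n → Eˣ) : 0 < NN t :=
  Finset.prod_pos fun _ _ => Finset.prod_pos fun _ _ => lt_max_of_lt_left one_pos

theorem NN_one : NN (1 : Fin n → Eˣ) = 1 := by
  unfold NN
  refine Finset.prod_eq_one fun i _ => Finset.prod_eq_one fun j _ => ?_
  simp [md_one]

theorem NN_mul_le (t s : Fin n → Eˣ) : NN (t * s) ≤ NN t * NN s := by
  unfold NN
  rw [← Finset.prod_mul_distrib]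
  refine Finset.prod_le_prod (fun i _ => Finset.prod_nonneg fun j _ =>
    zero_le_one.trans (le_max_left _ _)) fun i _ => ?_
  rw [← Finset.prod_mul_distrib]
  refine Finset.prod_le_prod (fun j _ => zero_le_one.trans (le_max_left _ _)) fun j _ => ?_
  have h1 : (((t * s) j : Eˣ) : E) / ((t * s) i : Eˣ) = (t j : E) / t i * ((s j : E) / s i) := by
    rw [Pi.mul_apply, Pi.mul_apply, Units.val_mul, Units.val_mul, mul_div_mul_comm]
  rw [h1, md_mul, NNReal.coe_mul]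
  refine max_le ?_ ?_
  · exact one_le_mul_of_one_le_of_one_le (le_max_left _ _) (le_max_left _ _)
  · exact mul_le_mul (le_max_right _ _) (le_max_right _ _) (NNReal.coe_nonneg _)
      (zero_le_one.trans (le_max_left _ _))

theorem NN_pow_le (t : Fin n → Eˣ) (m : ℕ) : NN (t ^ m) ≤ NN t ^ m := by
  induction m with
  | zero => rw [pow_zero, pow_zero, NN_one]
  | succ m ih =>
    rw [pow_succ, pow_succ]
    exact (NN_mul_le _ _).trans (mul_le_mul_of_nonneg_right ih (NN_pos t).le)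

theorem NN_prod_le (I : Finset (Fin n)) (f : Fin n → Fin n → Eˣ) :
    NN (∏ i ∈ I, f i) ≤ ∏ i ∈ I, NN (f i) := by
  classical
  induction I using Finset.induction_on with
  | empty => rw [Finset.prod_empty, Finset.prod_empty, NN_one]
  | insert a I ha ih =>
    rw [Finset.prod_insert ha, Finset.prod_insert ha]
    exact (NN_mul_le _ _).trans (mul_le_mul_of_nonneg_left ih (NN_pos _).le)

theorem NN_inv_zk {ϖ : Eˣ} (hϖ : ‖(ϖ : E)‖ < 1) {k : ℕ} (hk : k ≤ n) :
    NN (zk n k ϖ)⁻¹ = (absE ϖ ^ (k * (n - k)))⁻¹ := by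
  have h0 : 0 < ((md (ϖ : E) : ℝ≥0) : ℝ) := NNReal.coe_pos.2 (md_pos ϖ.ne_zero)
  have h1 : ((md (ϖ : E) : ℝ≥0) : ℝ) ≤ 1 := by exact_mod_cast md_le_one hϖ.le
  have hD : (1 : ℝ) ≤ ((md (ϖ : E) : ℝ≥0) : ℝ)⁻¹ := (one_le_inv₀ h0).2 h1
  unfold NN
  have key : ∀ i j : Fin n, max 1 ((md ((((zk n k ϖ)⁻¹ j : Eˣ) : E) / ((zk n k ϖ)⁻¹ i : Eˣ)) : ℝ≥0) :
      ℝ) = if k ≤ i.1 then (if j.1 < k then ((md (ϖ : E) : ℝ≥0) : ℝ)⁻¹ else 1) else 1 := by
    intro i j
    have hz : ∀ l : Fin n, (((zk n k ϖ)⁻¹ l : Eˣ) : E) = if l.1 < k then (ϖ : E)⁻¹ else 1 := by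
      intro l
      rw [Pi.inv_apply, Units.val_inv_eq_inv_val]
      unfold zk
      split_ifs
      · rfl
      · rw [Units.val_one, inv_one]
    rw [hz, hz]
    by_cases hi : k ≤ i.1
    · rw [if_pos hi, if_neg (not_lt.2 hi), div_one]
      by_cases hj : j.1 < k
      · rw [if_pos hj, if_pos hj, md_inv, NNReal.coe_inv]
        exact max_eq_right hD
      · rw [if_neg hj, if_neg hj, md_one, NNReal.coe_one, max_self]
    · rw [if_neg hi, if_pos (not_le.1 hi)]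
      by_cases hj : j.1 < k
      · rw [if_pos hj, div_self (inv_ne_zero ϖ.ne_zero), md_one, NNReal.coe_one, max_self]
      · rw [if_neg hj, one_div, inv_inv]
        exact max_eq_left h1
  have hcj : (Finset.univ.filter fun j : Fin n => j.1 < k).card = k := by
    rw [Fin.card_filter_val_lt, min_eq_right hk]
  have hci : (Finset.univ.filter fun i : Fin n => k ≤ i.1).card = n - k := by
    have h2 := Finset.card_filter_add_card_filter_not (s := (Finset.univ : Finset (Fin n)))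
      (fun j : Fin n => j.1 < k)
    rw [hcj, Finset.card_univ, Fintype.card_fin] at h2
    have h3 : (Finset.univ.filter fun i : Fin n => ¬ i.1 < k) =
        Finset.univ.filter fun i : Fin n => k ≤ i.1 := by
      ext i
      simp
    rw [h3] at h2
    omega
  simp only [key]
  have h3 : ∀ i : Fin n, (∏ j : Fin n, if k ≤ i.1 then
      (if j.1 < k then ((md (ϖ : E) : ℝ≥0) : ℝ)⁻¹ else 1) else 1) =
      if k ≤ i.1 then (((md (ϖ : E) : ℝ≥0) : ℝ)⁻¹) ^ k else 1 := by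
    intro i
    split_ifs
    · rw [Finset.prod_ite, Finset.prod_const, Finset.prod_const_one, mul_one, hcj]
    · rw [Finset.prod_const_one]
  simp only [h3]
  rw [Finset.prod_ite, Finset.prod_const, Finset.prod_const_one, mul_one, hci, ← pow_mul, absE_md,
    inv_pow]

end count

section decomp

variable {E : Type} [NontriviallyNormedField E] [IsUltrametricDist E] {n : ℕ}

theorem telescope (D : ℕ → ℤ) (i m : ℕ) :
    ∑ a ∈ Finset.range m, (if i < a then D (a - 1) - D a else 0) =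
      if i < m then D i - D (m - 1) else 0 := by
  induction m with
  | zero => simp
  | succ m ih =>
    rw [Finset.sum_range_succ, ih]
    rcases lt_trichotomy i m with h | h | h
    · rw [if_pos h, if_pos h, if_pos (by omega), Nat.add_sub_cancel]
      ring
    · subst h
      rw [if_neg (lt_irrefl _), if_neg (lt_irrefl _), if_pos (Nat.lt_succ_self _),
        Nat.add_sub_cancel]
      ring
    · rw [if_neg (by omega), if_neg (by omega), if_neg (by omega), add_zero]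

/-- Cartan decomposition with powers of `diag(ϖ 1_k, 1)` -/
theorem exists_cartan_zk {ϖ : Eˣ} (hϖ : ‖(ϖ : E)‖ < 1)
    (hval : ∀ x : Eˣ, ∃ e : ℤ, ‖(x : E)‖ = ‖(ϖ : E)‖ ^ e) (g : GL (Fin n) E) :
    ∃ z ∈ scalZ n E, ∃ k₁ ∈ glK (Fin n) E 1 zero_le_one le_rfl,
      ∃ k₂ ∈ glK (Fin n) E 1 zero_le_one le_rfl, ∃ p : Fin n → ℕ,
        g = z * (k₁ * dgl (∏ i : Fin n, zk n i.1 ϖ ^ p i) * k₂) := by
  obtain ⟨k₁, hk₁, k₂, hk₂, t, ht, rfl⟩ := cartan g
  rcases Nat.eq_zero_or_pos n with hn | hn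
  · subst hn
    refine ⟨1, one_mem _, k₁, hk₁, k₂, hk₂, fun _ => 0, ?_⟩
    apply Units.ext
    exact Subsingleton.elim _ _
  have hϖ0 : 0 < ‖(ϖ : E)‖ := norm_pos_iff.2 ϖ.ne_zero
  choose e he using fun i => hval (t i)
  have hanti : ∀ i j : Fin n, i ≤ j → e j ≤ e i := by
    intro i j hij
    have h1 : ‖(t i : E)‖ ≤ ‖(t j : E)‖ := ht hij
    rw [he, he] at h1
    exact (zpow_le_zpow_iff_right_of_lt_one₀ hϖ0 hϖ).1 h1
  let D : ℕ → ℤ := fun j => if h : j < n then e ⟨j, h⟩ else 0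
  have hD : ∀ i : Fin n, D i.1 = e i := by
    intro i
    simp [D]
  let p : Fin n → ℕ := fun a => (D (a.1 - 1) - D a.1).toNat
  have hp : ∀ a : Fin n, ((p a : ℕ) : ℤ) = D (a.1 - 1) - D a.1 := by
    intro a
    apply Int.toNat_of_nonneg
    have h1 : D (a.1 - 1) = e ⟨a.1 - 1, by omega⟩ := hD ⟨a.1 - 1, by omega⟩
    rw [h1, hD a]
    have h2 := hanti ⟨a.1 - 1, by omega⟩ a (by
      rw [Fin.le_def]
      show a.1 - 1 ≤ a.1
      omega)
    omega
  let q : Eˣ := ϖ ^ (D (n - 1))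
  have hnorm : ∀ i : Fin n, ‖(((∏ a : Fin n, zk n a.1 ϖ ^ p a : Fin n → Eˣ) i : Eˣ) : E)‖ =
      ‖(ϖ : E)‖ ^ (D i.1 - D (n - 1)) := by
    intro i
    rw [prodz_apply, norm_prod]
    have h1 : ∀ a : Fin n, ‖((zk n a.1 ϖ i : Eˣ) : E) ^ p a‖ =
        ‖(ϖ : E)‖ ^ (if i.1 < a.1 then p a else 0) := by
      intro a
      unfold zk
      split_ifs
      · rw [norm_pow]
      · rw [Units.val_one, one_pow, norm_one, pow_zero]
    simp only [h1]
    rw [Finset.prod_pow_eq_pow_sum, ← zpow_natCast]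
    congr 1
    rw [Nat.cast_sum]
    have h2 : ∀ a : Fin n, (((if i.1 < a.1 then p a else 0 : ℕ)) : ℤ) =
        (fun a : ℕ => if i.1 < a then D (a - 1) - D a else 0) a.1 := by
      intro a
      show _ = if i.1 < a.1 then D (a.1 - 1) - D a.1 else 0
      split_ifs
      · exact hp a
      · rfl
    simp only [h2]
    rw [Fin.sum_univ_eq_sum_range (fun a : ℕ => if i.1 < a then D (a - 1) - D a else 0) n,
      telescope, if_pos i.2]
  let u : Fin n → Eˣ := fun i => t i * (q * (∏ a : Fin n, zk n a.1 ϖ ^ p a : Fin n → Eˣ) i)⁻¹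
  have hu : ∀ i, ‖((u i : Eˣ) : E)‖ = 1 := by
    intro i
    have h0 : ‖(q : E)‖ = ‖(ϖ : E)‖ ^ (D (n - 1)) := by
      show ‖((ϖ ^ (D (n - 1)) : Eˣ) : E)‖ = _
      rw [Units.val_zpow_eq_zpow_val, norm_zpow]
    show ‖((t i * (q * (∏ a : Fin n, zk n a.1 ϖ ^ p a : Fin n → Eˣ) i)⁻¹ : Eˣ) : E)‖ = 1
    rw [Units.val_mul, Units.val_inv_eq_inv_val, norm_mul, norm_inv, Units.val_mul, norm_mul,
      hnorm, h0, ← zpow_add₀ hϖ0.ne', he i, hD i, add_sub_cancel,
      mul_inv_cancel₀ (zpow_ne_zero _ hϖ0.ne')]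
  have hu' : ∀ i, ‖(((u i)⁻¹ : Eˣ) : E)‖ = 1 := by
    intro i
    rw [Units.val_inv_eq_inv_val, norm_inv, hu, inv_one]
  have huK : dgl u ∈ glK (Fin n) E 1 zero_le_one le_rfl := by
    apply mem_glK_one
    · intro i j
      rw [dgl_val]
      by_cases hij : i = j
      · subst hij
        rw [Matrix.diagonal_apply_eq, hu]
      · rw [Matrix.diagonal_apply_ne _ hij, norm_zero]
        exact zero_le_one
    · intro i j
      rw [dgl_inv_val]
      by_cases hij : i = j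
      · subst hij
        rw [Matrix.diagonal_apply_eq, hu']
      · rw [Matrix.diagonal_apply_ne _ hij, norm_zero]
        exact zero_le_one
  refine ⟨Matrix.GeneralLinearGroup.scalar (R := E) (Fin n) q, ⟨q, rfl⟩, k₁, hk₁,
    dgl u * k₂, mul_mem huK hk₂, p, ?_⟩
  have hz' : Matrix.GeneralLinearGroup.scalar (R := E) (Fin n) q = dgl (fun _ => q) := by
    apply Units.ext
    rw [dgl_val]
    rfl
  have h1 : dgl t = dgl (fun _ => q) * dgl (∏ a : Fin n, zk n a.1 ϖ ^ p a) * dgl u := by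
    rw [← map_mul, ← map_mul]
    congr 1
    funext i
    rw [Pi.mul_apply, Pi.mul_apply]
    show t i = q * (∏ a : Fin n, zk n a.1 ϖ ^ p a : Fin n → Eˣ) i *
      (t i * (q * (∏ a : Fin n, zk n a.1 ϖ ^ p a : Fin n → Eˣ) i)⁻¹)
    rw [mul_comm (t i), mul_inv_cancel_left]
  have hz : dgl (fun _ : Fin n => q) ∈ scalZ n E := ⟨q, hz'⟩
  rw [hz', h1]
  simp only [mul_assoc]
  rw [← mul_assoc k₁ (dgl fun _ => q), ← scalZ_central _ hz k₁]
  simp only [mul_assoc]

/-- `glK ε` is normalised by `GL_n(O)` -/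
theorem glK_conj {ε : ℝ} {h0 : 0 ≤ ε} {h1 : ε ≤ 1} {b w : GL (Fin n) E}
    (hb : b ∈ glK (Fin n) E 1 zero_le_one le_rfl) (hw : w ∈ glK (Fin n) E ε h0 h1) :
    b⁻¹ * w * b ∈ glK (Fin n) E ε h0 h1 := by
  have key : ∀ w : GL (Fin n) E, (∀ i j, ‖((w : Matrix (Fin n) (Fin n) E) - 1) i j‖ ≤ ε) →
      ∀ i j, ‖(((b⁻¹ * w * b : GL (Fin n) E) : Matrix (Fin n) (Fin n) E) - 1) i j‖ ≤ ε := by
    intro w hw i j
    have h2 : ((b⁻¹ * w * b : GL (Fin n) E) : Matrix (Fin n) (Fin n) E) - 1 =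
        ((b⁻¹ : GL (Fin n) E) : Matrix (Fin n) (Fin n) E) *
          ((w : Matrix (Fin n) (Fin n) E) - 1) * (b : Matrix (Fin n) (Fin n) E) := by
      rw [Units.val_mul, Units.val_mul, mul_sub, sub_mul, mul_one, Units.inv_mul]
    rw [h2]
    have h3 := mul_entry_le _ _ zero_le_one h0 (glK_entry_inv hb) hw
    have h4 := mul_entry_le _ _ (by rwa [one_mul]) zero_le_one h3 (glK_entry hb) i j
    rwa [one_mul, mul_one] at h4
  refine ⟨key w hw.1, ?_⟩
  have h2 : (b⁻¹ * w * b)⁻¹ = b⁻¹ * w⁻¹ * b := by group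
  rw [h2]
  exact key w⁻¹ hw.2

end decomp

end SpW.L2
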