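import Pool.Agent.Work.MP_3615d2_al.Co.IndAB
import Pool.Agent.Work.MP_3615d2_al.Loc

/-!
MP_3615d2_al, induced representations `IndJ`: the rank strata for the subgroups `N_k`, the local
data at a point, and the induction on the strata with a condition on the values.
-/

open Filter Topology Matrix

set_option linter.unusedSectionVars false

namespace SpW

/-! ### one stratum, with a condition on the values -/

section one

variable {G W : Type} [Group G] [TopologicalSpace G] [IsTopologicalGroup G] [AddCommGroup W]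
  [Module ℂ W] {P : Subgroup G} {τ : P →* Module.End ℂ W}

/-- local data for one vector at one point: the vector is a combination of relations, uniformly on
the stratum near the point -/
def LocAt (τ : P →* Module.End ℂ W) (N : Set G) (R : G → ℕ) (w : W) (g₀ : G) : Prop :=
  ∃ O ∈ 𝓝 g₀, ∃ C : Subgroup G, IsCompact (C : Set G) ∧
    (C : Set G) ⊆ N ∧ ∃ F : Set W, F.Finite ∧ ∀ g ∈ O, R g = R g₀ →
      w ∈ Submodule.span ℂ (rel τ (C : Set G) F g)

/-- one stratum, where the values of the given function have local data -/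
theorem strata_value (hG : ∀ U ∈ 𝓝 (1 : G), ∃ K : Subgroup G, IsOpen (K : Set G) ∧
      (K : Set G) ⊆ U) (hτ : ∀ w, ∀ᶠ p in 𝓝 (1 : P), τ p w = w) {D₀ : Set G} (hD₀ : IsCompact D₀)
    (hPD : ∀ g, ∃ p : P, ∃ d ∈ D₀, g = p * d) {R : G → ℕ} (hRP : ∀ (p : P) g, R (p * g) = R g)
    (hR : ∀ j, IsOpen {g | j ≤ R g}) {N : Set G} (hN1 : (1 : G) ∈ N)
    (hN : ∀ C C' : Subgroup G, IsCompact (C : Set G) → IsCompact (C' : Set G) →
      (C : Set G) ⊆ N → (C' : Set G) ⊆ N →
      ∃ C'' : Subgroup G, IsCompact (C'' : Set G) ∧ (C'' : Set G) ⊆ N ∧ C ≤ C'' ∧ C' ≤ C'')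
    {j : ℕ} {f : G → W} (hf : f ∈ indS P τ) (hL : ∀ g, R g = j → LocAt τ N R (f g) g)
    (hfj : ∀ g, f g ≠ 0 → j ≤ R g) :
    ∃ f' ∈ indS P τ, f - f' ∈ coi N (indS P τ) ∧ ∀ g, f' g ≠ 0 → j + 1 ≤ R g ∧ f g ≠ 0 := by
  obtain ⟨hfE, K₀, hK₀, hfK₀⟩ := id hf
  have hloc : ∀ g, ∀ᶠ x in 𝓝 g, f x = f g := by
    intro g
    have h1 : {x | g⁻¹ * x ∈ K₀} ∈ 𝓝 g := by
      apply (hK₀.preimage (by fun_prop : Continuous fun x => g⁻¹ * x)).mem_nhds
      show g⁻¹ * g ∈ K₀
      rw [inv_mul_cancel]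
      exact K₀.one_mem
    filter_upwards [h1] with x hx
    have h2 := hfK₀ g _ hx
    rwa [mul_inv_cancel_left] at h2
  set D : Set G := D₀ ∩ ({g | f g ≠ 0} ∩ {g | R g ≤ j}) with hDdef
  have hD : IsCompact D := by
    apply hD₀.inter_right
    apply IsClosed.inter
    · rw [← isOpen_compl_iff, isOpen_iff_mem_nhds]
      intro g hg
      have hg' : f g = 0 := by
        by_contra h
        exact hg h
      filter_upwards [hloc g] with x hx hx'
      exact hx' (hx.trans hg')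
    · have : {g | R g ≤ j} = {g | j + 1 ≤ R g}ᶜ := by
        ext g
        simp [not_le, Nat.lt_succ_iff]
      rw [this]
      exact (hR _).isClosed_compl
  have hDj : ∀ g ∈ D, R g = j := fun g hg => le_antisymm hg.2.2 (hfj g hg.2.1)
  have h1 : ∀ g ∈ D, ∃ O ∈ 𝓝 g, ∃ C : Subgroup G, IsCompact (C : Set G) ∧
      (C : Set G) ⊆ N ∧ ∃ F : Set W, F.Finite ∧ ∀ x ∈ O, f x = f g ∧ (R x = j →
        f g ∈ Submodule.span ℂ (rel τ (C : Set G) F x)) := by
    intro g hg
    obtain ⟨O, hO, C, hC, hCN, F, hF, h⟩ := hL g (hDj g hg)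
    refine ⟨O ∩ {x | f x = f g}, inter_mem hO (hloc g), C, hC, hCN, F, hF,
      fun x hx => ⟨hx.2, fun hx' => h x hx.1 ?_⟩⟩
    rw [hx', hDj g hg]
  choose! O hO C hC hCN F hF h2 using h1
  obtain ⟨t, ht, htD⟩ := hD.elim_nhds_subcover O hO
  obtain ⟨C', hC', hC'N, hC't⟩ := exists_sup_finset (N := N) (C₁ := ⊥) (by simp)
    (by simpa using hN1) hN t C (fun g hg => hC g (ht g hg)) (fun g hg => hCN g (ht g hg))
  have hF' : (⋃ g ∈ t, F g).Finite := t.finite_toSet.biUnion fun g hg => hF g (ht g hg)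
  obtain ⟨K, hKo, hfK, hcoi⟩ := indicator_mem_coi_compact hG hτ hD hC' hF' hf (by
    intro x hx
    have h3 := htD hx
    simp only [Set.mem_iUnion] at h3
    obtain ⟨g, hg, hxg⟩ := h3
    obtain ⟨h4, h5⟩ := h2 g (ht g hg) x hxg
    rw [h4]
    exact Submodule.span_mono (rel_mono (hC't g hg) (Set.subset_biUnion_of_mem (u := F) hg) x)
      (h5 (hDj x hx)))
  refine ⟨f - Set.indicator (dco P K D) f, ?_, ?_, ?_⟩
  · refine ⟨?_, K, hKo, ?_⟩
    · intro p g
      have h3 : (p : G) * g ∈ dco P K D ↔ g ∈ dco P K D := by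
        constructor
        · rintro ⟨p', hp', d, hd, k, hk, e⟩
          refine ⟨(p : G)⁻¹ * p', P.mul_mem (P.inv_mem p.2) hp', d, hd, k, hk, ?_⟩
          rw [mul_assoc, mul_assoc, ← mul_assoc p', ← e]
          group
        · rintro ⟨p', hp', d, hd, k, hk, rfl⟩
          refine ⟨p * p', P.mul_mem p.2 hp', d, hd, k, hk, ?_⟩
          group
      rw [Pi.sub_apply, Pi.sub_apply, map_sub, hfE p g]
      congr 1
      by_cases hg : g ∈ dco P K D
      · rw [Set.indicator_of_mem hg, Set.indicator_of_mem (h3.2 hg), hfE p g]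
      · rw [Set.indicator_of_notMem hg, Set.indicator_of_notMem (fun h => hg (h3.1 h)), map_zero]
    · intro g k hk
      have h3 : g * k ∈ dco P K D ↔ g ∈ dco P K D := by
        constructor
        · rintro ⟨p', hp', d, hd, k', hk', e⟩
          refine ⟨p', hp', d, hd, k' * k⁻¹, K.mul_mem hk' (K.inv_mem hk), ?_⟩
          rw [← mul_assoc, ← e]
          group
        · rintro ⟨p', hp', d, hd, k', hk', rfl⟩
          exact ⟨p', hp', d, hd, k' * k, K.mul_mem hk' hk, by group⟩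
      rw [Pi.sub_apply, Pi.sub_apply, hfK g k hk]
      congr 1
      by_cases hg : g ∈ dco P K D
      · rw [Set.indicator_of_mem hg, Set.indicator_of_mem (h3.2 hg), hfK g k hk]
      · rw [Set.indicator_of_notMem hg, Set.indicator_of_notMem (fun h => hg (h3.1 h))]
  · rw [sub_sub_cancel]
    exact coi_mono hC'N _ hcoi
  · intro g hg
    have h3 : g ∉ dco P K D := by
      intro h
      apply hg
      rw [Pi.sub_apply, Set.indicator_of_mem h, sub_self]
    have h4 : f g ≠ 0 := by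
      rw [Pi.sub_apply, Set.indicator_of_notMem h3, sub_zero] at hg
      exact hg
    refine ⟨?_, h4⟩
    rcases Nat.lt_or_ge j (R g) with h5 | h5
    · exact h5
    · exfalso
      apply h3
      obtain ⟨p, d, hd, rfl⟩ := hPD g
      refine ⟨p, p.2, d, ⟨hd, ?_, ?_⟩, 1, K.one_mem, by group⟩
      · intro h6
        apply h4
        rw [hfE p d, h6, map_zero]
      · rw [hRP] at h5
        exact h5

omit [TopologicalSpace G] [IsTopologicalGroup G] in
/-- translation of the relations by an element of `P` -/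
theorem rel_mul_left {N : Set G} (p : P) (g : G) {w : W}
    (hw : w ∈ Submodule.span ℂ (rel τ N Set.univ g)) :
    τ p w ∈ Submodule.span ℂ (rel τ N Set.univ (p * g)) := by
  have h1 : τ p w ∈ (Submodule.span ℂ (rel τ N Set.univ g)).map (τ p) :=
    Submodule.mem_map_of_mem hw
  rw [Submodule.map_span] at h1
  refine Submodule.span_mono ?_ h1
  rintro _ ⟨_, ⟨v, -, q, c, hc, hq, rfl⟩, rfl⟩
  refine ⟨τ p v, Set.mem_univ _, p * q * p⁻¹, c, hc, ?_, ?_⟩
  · rw [Subgroup.coe_mul, Subgroup.coe_mul, Subgroup.coe_inv, hq]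
    group
  · rw [map_sub, ← Module.End.mul_apply, ← Module.End.mul_apply, ← map_mul, ← map_mul]
    congr 3
    group

end one

/-! ### the rank function -/

section rank

variable {E : Type} [NontriviallyNormedField E] {a b N : ℕ} (h : a + b = N)

/-- the lower rows of the first `k` columns -/
def lowKJ (k : ℕ) (g : Matrix (Fin N) (Fin N) E) : Matrix (Fin b) {j : Fin N // j.1 < k} E :=
  fun i j => g (sJ h (Sum.inr i)) j.1

/-- the rank of the lower rows of the first `k` columns -/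
noncomputable def rkJ (k : ℕ) (g : GL (Fin N) E) : ℕ :=
  (lowKJ h k (g : Matrix (Fin N) (Fin N) E)).rank

theorem continuous_lowKJ (k : ℕ) :
    Continuous fun g : GL (Fin N) E => lowKJ h k (g : Matrix (Fin N) (Fin N) E) := by
  apply continuous_matrix
  intro i j
  exact continuous_gl_entry _ _

theorem isOpen_rkJ (k j : ℕ) : IsOpen {g : GL (Fin N) E | j ≤ rkJ h k g} := by
  rw [isOpen_iff_mem_nhds]
  intro g hg
  have h0 := eventually_rank_ge (continuous_lowKJ (E := E) h k) g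
  filter_upwards [h0] with x hx
  exact le_trans hg hx

theorem lowKJ_pelJ_mul (k : ℕ) (p : GL (Fin a) E) (q : GL (Fin b) E) (y : Matrix (Fin a) (Fin b) E)
    (g : GL (Fin N) E) :
    lowKJ h k ((pelJ h p q y * g : GL (Fin N) E) : Matrix (Fin N) (Fin N) E) =
      (q : Matrix (Fin b) (Fin b) E) * lowKJ h k (g : Matrix (Fin N) (Fin N) E) := by
  ext i j
  rw [Units.val_mul]
  show (bmJ h (p : Matrix (Fin a) (Fin a) E) y 0 (q : Matrix (Fin b) (Fin b) E) *
    (g : Matrix (Fin N) (Fin N) E)) (sJ h (Sum.inr i)) j.1 = _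
  rw [Matrix.mul_apply, Matrix.mul_apply, ← (sJ h).sum_comp, Fintype.sum_sum_type]
  simp [bmJ, lowKJ]

theorem rkJ_pelJ_mul (k : ℕ) (p : GL (Fin a) E) (q : GL (Fin b) E) (y : Matrix (Fin a) (Fin b) E)
    (g : GL (Fin N) E) : rkJ h k (pelJ h p q y * g) = rkJ h k g := by
  rw [rkJ, lowKJ_pelJ_mul, rkJ]
  have hd : IsUnit (q : Matrix (Fin b) (Fin b) E).det :=
    (Matrix.isUnit_iff_isUnit_det _).1 (Units.isUnit q)
  exact Matrix.rank_mul_eq_right_of_isUnit_det _ _ hd

theorem rkJ_le (k : ℕ) (g : GL (Fin N) E) : rkJ h k g ≤ b := by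
  have := Matrix.rank_le_card_height (lowKJ h k (g : Matrix (Fin N) (Fin N) E))
  rwa [Fintype.card_fin] at this

/-- The rank of the block as the rank of a square matrix. -/
theorem rank_blkJ (k : ℕ) (g : Matrix (Fin N) (Fin N) E) :
    ((1 - prj E {i : Fin N | i.1 < a}) * g * prj E {i : Fin N | i.1 < k}).rank =
      (lowKJ h k g).rank := by
  set M := (1 - prj E {i : Fin N | i.1 < a}) * g * prj E {i : Fin N | i.1 < k} with hM
  have hMa : ∀ i j, M i j = if ¬ i.1 < a ∧ j.1 < k then g i j else 0 := by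
    intro i j
    rw [hM, blk_apply]
    rfl
  apply le_antisymm
  · let R : Matrix (Fin N) (Fin b) E := fun l i => if l = sJ h (Sum.inr i) then 1 else 0
    let T : Matrix {j : Fin N // j.1 < k} (Fin N) E :=
      fun j l => if l = j.1 then 1 else 0
    have h1 : M = R * lowKJ h k g * T := by
      ext x y
      rw [hMa, Matrix.mul_assoc, Matrix.mul_apply]
      by_cases hab : ¬ x.1 < a ∧ y.1 < k
      · rw [if_pos hab]
        have ha : x = sJ h (Sum.inr ⟨x.1 - a, by omega⟩) := by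
          apply Fin.ext
          rw [sJ_inr]
          show x.1 = a + (x.1 - a)
          omega
        rw [Finset.sum_eq_single (⟨x.1 - a, by omega⟩ : Fin b)]
        · show g x y = (if x = sJ h (Sum.inr ⟨x.1 - a, by omega⟩) then (1 : E) else 0) *
            (lowKJ h k g * T) _ y
          rw [if_pos ha, one_mul, Matrix.mul_apply,
            Finset.sum_eq_single (⟨y, hab.2⟩ : {j : Fin N // j.1 < k})]
          · show g x y = g (sJ h (Sum.inr ⟨x.1 - a, by omega⟩)) y * (if y = y then 1 else 0)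
            rw [if_pos rfl, mul_one, ← ha]
          · intro z _ hz
            show _ * (if y = z.1 then (1 : E) else 0) = 0
            rw [if_neg (fun h => hz (Subtype.ext h.symm)), mul_zero]
          · intro h
            exact absurd (Finset.mem_univ _) h
        · intro i _ hi
          show (if x = sJ h (Sum.inr i) then (1 : E) else 0) * _ = 0
          rw [if_neg, zero_mul]
          intro h0
          apply hi
          apply Fin.ext
          have := congrArg Fin.val h0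
          rw [sJ_inr] at this
          show i.1 = x.1 - a
          omega
        · intro h
          exact absurd (Finset.mem_univ _) h
      · rw [if_neg hab]
        symm
        apply Finset.sum_eq_zero
        intro i _
        show (if x = sJ h (Sum.inr i) then (1 : E) else 0) * _ = 0
        by_cases ha : x = sJ h (Sum.inr i)
        · rw [if_pos ha, one_mul, Matrix.mul_apply]
          apply Finset.sum_eq_zero
          intro z _
          show _ * (if y = z.1 then (1 : E) else 0) = 0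
          rw [if_neg, mul_zero]
          intro hb
          apply hab
          refine ⟨?_, ?_⟩
          · rw [ha, sJ_inr]
            omega
          · rw [hb]
            exact z.2
        · rw [if_neg ha, zero_mul]
    rw [h1]
    exact (Matrix.rank_mul_le_left _ _).trans (Matrix.rank_mul_le_right _ _)
  · let R : Matrix (Fin b) (Fin N) E := fun i l => if l = sJ h (Sum.inr i) then 1 else 0
    let T : Matrix (Fin N) {j : Fin N // j.1 < k} E :=
      fun l j => if l = j.1 then 1 else 0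
    have h1 : lowKJ h k g = R * M * T := by
      ext x y
      rw [Matrix.mul_assoc, Matrix.mul_apply, Finset.sum_eq_single (sJ h (Sum.inr x))]
      · show g (sJ h (Sum.inr x)) y.1 = (if _ = _ then (1 : E) else 0) * (M * T) _ y
        rw [if_pos rfl, one_mul, Matrix.mul_apply, Finset.sum_eq_single y.1]
        · show g (sJ h (Sum.inr x)) y.1 = M _ _ * (if y.1 = y.1 then 1 else 0)
          rw [if_pos rfl, mul_one, hMa, if_pos]
          refine ⟨?_, y.2⟩
          rw [sJ_inr]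
          omega
        · intro z _ hz
          show _ * (if z = y.1 then (1 : E) else 0) = 0
          rw [if_neg hz, mul_zero]
        · intro h
          exact absurd (Finset.mem_univ _) h
      · intro l _ hl
        show (if l = sJ h (Sum.inr x) then (1 : E) else 0) * _ = 0
        rw [if_neg hl, zero_mul]
      · intro h
        exact absurd (Finset.mem_univ _) h
    rw [h1]
    exact (Matrix.rank_mul_le_left _ _).trans (Matrix.rank_mul_le_right _ _)

theorem mem_PSJ_of_blk {p : GL (Fin N) E}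
    (hp : (1 - prj E {i : Fin N | i.1 < a}) * (p : Matrix (Fin N) (Fin N) E) *
      prj E {i : Fin N | i.1 < a} = 0) : p ∈ PSJ h E := by
  apply (exists_pelJ_iff h p).2
  ext i j
  have h0 := congrFun (congrFun hp (sJ h (Sum.inr i))) (sJ h (Sum.inl j))
  rw [blk_apply, if_pos] at h0
  · exact h0
  · refine ⟨?_, ?_⟩
    · show ¬ (sJ h (Sum.inr i)).1 < a
      rw [sJ_inr]
      omega
    · show (sJ h (Sum.inl j)).1 < a
      rw [sJ_inl]
      exact j.2

/-- The local data of a vector from the relation at one point. -/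
theorem locAt_of_mem [IsUltrametricDist E] [ProperSpace E] {W : Type} [AddCommGroup W]
    [Module ℂ W] {ρ : (GL (Fin a) E × GL (Fin b) E) →* Module.End ℂ W} (hρ : IsSmoothRep ρ)
    {k : ℕ} (w : W) (g₀ : GL (Fin N) E)
    (hpt : w ∈ Submodule.span ℂ (rel (tauJ h ρ) (Nk N k E : Set (GL (Fin N) E))
        Set.univ g₀)) :
    LocAt (tauJ h ρ) (Nk N k E : Set (GL (Fin N) E)) (rkJ h k) w g₀ := by
  classical
  obtain ⟨T, hT, hwT⟩ := Submodule.mem_span_finite_of_mem_span hpt
  -- the data of the elements of `T`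
  have hdata : ∀ t : T, ∃ (w' : W) (q : PSJ h E) (c : GL (Fin N) E),
      c ∈ Nk N k E ∧ (q : GL (Fin N) E) = g₀ * c * g₀⁻¹ ∧
        (t : W) = tauJ h ρ q w' - w' := by
    intro t
    obtain ⟨w', -, q, c, hc, hq, ht⟩ := hT t.2
    exact ⟨w', q, c, hc, hq, ht⟩
  choose wt qt ct hct hqt htt using hdata
  -- a bound for the entries of the `ct`
  obtain ⟨r, hr0, hr⟩ : ∃ r : ℝ, 0 ≤ r ∧ ∀ t : T, ∀ i j,
      ‖((ct t : Matrix (Fin N) (Fin N) E) - 1) i j‖ < r := by
    refine ⟨1 + ∑ t : T, ∑ i, ∑ j, ‖((ct t : Matrix (Fin N) (Fin N) E) - 1) i j‖,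
      by positivity, ?_⟩
    intro t i j
    have h1 : ‖((ct t : Matrix (Fin N) (Fin N) E) - 1) i j‖ ≤
        ∑ j, ‖((ct t : Matrix (Fin N) (Fin N) E) - 1) i j‖ :=
      Finset.single_le_sum (f := fun j => ‖((ct t : Matrix (Fin N) (Fin N) E) - 1) i j‖)
        (fun _ _ => norm_nonneg _) (Finset.mem_univ j)
    have h2 : ∑ j, ‖((ct t : Matrix (Fin N) (Fin N) E) - 1) i j‖ ≤
        ∑ i, ∑ j, ‖((ct t : Matrix (Fin N) (Fin N) E) - 1) i j‖ :=
      Finset.single_le_sum
        (f := fun i => ∑ j, ‖((ct t : Matrix (Fin N) (Fin N) E) - 1) i j‖)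
        (fun _ _ => Finset.sum_nonneg fun _ _ => norm_nonneg _) (Finset.mem_univ i)
    have h3 : ∑ i, ∑ j, ‖((ct t : Matrix (Fin N) (Fin N) E) - 1) i j‖ ≤
        ∑ t : T, ∑ i, ∑ j, ‖((ct t : Matrix (Fin N) (Fin N) E) - 1) i j‖ :=
      Finset.single_le_sum
        (f := fun t : T => ∑ i, ∑ j, ‖((ct t : Matrix (Fin N) (Fin N) E) - 1) i j‖)
        (fun _ _ => Finset.sum_nonneg fun _ _ => Finset.sum_nonneg fun _ _ => norm_nonneg _)
        (Finset.mem_univ t)
    linarith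
  -- the neighbourhood of `1`
  have hΩ1 : ∀ t : T, ∀ᶠ q : GL (Fin N) E in 𝓝 1, ∀ i j,
      ‖(((q⁻¹ * ct t * q : GL (Fin N) E) : Matrix (Fin N) (Fin N) E) - 1) i j‖
        < r := by
    intro t
    rw [Filter.eventually_all]
    intro i
    rw [Filter.eventually_all]
    intro j
    have hc : Continuous fun q : GL (Fin N) E =>
        ‖(((q⁻¹ * ct t * q : GL (Fin N) E) : Matrix (Fin N) (Fin N) E) - 1) i j‖ := by
      have h1 : Continuous fun q : GL (Fin N) E => q⁻¹ * ct t * q := by fun_prop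
      exact (((continuous_gl_entry i j).comp h1).sub continuous_const).norm
    refine (hc.tendsto 1).eventually_lt_const ?_
    have h2 : (1 : GL (Fin N) E)⁻¹ * ct t * 1 = ct t := by group
    rw [h2]
    exact hr t i j
  -- vectors fixed
  have hfix : ∀ v : W, ∃ Ω ∈ 𝓝 (1 : GL (Fin N) E), ∀ p : PSJ h E,
      (p : GL (Fin N) E) ∈ Ω → tauJ h ρ p v = v := by
    intro v
    obtain ⟨O, hO, hO'⟩ := (mem_nhds_subtype (PSJ h E : Set (GL (Fin N) E)) (1 : PSJ h E) _).1
      (tauJ_smooth hρ v)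
    exact ⟨O, hO, fun p hp => hO' hp⟩
  choose Ωf hΩf hΩf' using hfix
  have hΩ : ((⋂ t : T, Ωf (wt t)) ∩ Ωf w ∩ {q | ∀ t : T, ∀ i j,
      ‖(((q⁻¹ * ct t * q : GL (Fin N) E) : Matrix (Fin N) (Fin N) E) - 1) i j‖
        < r}) ∈ 𝓝 (1 : GL (Fin N) E) := by
    refine Filter.inter_mem (Filter.inter_mem ?_ (hΩf w)) ?_
    · exact Filter.iInter_mem.2 fun t => hΩf (wt t)
    · exact Filter.eventually_all.2 hΩ1
  have hLA := la_top (prj E {i : Fin N | i.1 < a}) (prj E {i : Fin N | i.1 < k})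
    (prj_idem _) (prj_idem _) g₀ hΩ
  refine ⟨_, hLA, NkB N k E r hr0, NkB_isCompact hr0, NkB_subset, Set.range wt,
    Set.finite_range wt, ?_⟩
  intro g hg hgj
  obtain ⟨p, q, hp, hq, hpe, hqf, hgpq⟩ := hg (by
    rw [rank_blkJ h, rank_blkJ h]
    exact le_of_eq hgj)
  have hpP : p ∈ PSJ h E := mem_PSJ_of_blk h hpe
  have hpfix : ∀ v, p ∈ Ωf v → tauJ h ρ ⟨p, hpP⟩ v = v := fun v hv => hΩf' v ⟨p, hpP⟩ hv
  have hwfix : tauJ h ρ ⟨p, hpP⟩ w = w := hpfix w hp.1.2
  rw [← hwfix]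
  have h1 : tauJ h ρ ⟨p, hpP⟩ w ∈ (Submodule.span ℂ (T : Set W)).map (tauJ h ρ ⟨p, hpP⟩) :=
    Submodule.mem_map_of_mem hwT
  rw [Submodule.map_span] at h1
  refine Submodule.span_mono ?_ h1
  rintro _ ⟨t, ht, rfl⟩
  have h2 := htt ⟨t, ht⟩
  have hcN : q⁻¹ * ct ⟨t, ht⟩ * q ∈ NkB N k E r hr0 := by
    refine ⟨conj_mem_Nk (hct ⟨t, ht⟩) hqf, fun i j => ?_⟩
    exact le_of_lt (hq.2 ⟨t, ht⟩ i j)
  refine ⟨wt ⟨t, ht⟩, ⟨⟨t, ht⟩, rfl⟩, ⟨p, hpP⟩ * qt ⟨t, ht⟩ * (⟨p, hpP⟩ : PSJ h E)⁻¹,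
    q⁻¹ * ct ⟨t, ht⟩ * q, hcN, ?_, ?_⟩
  · rw [Subgroup.coe_mul, Subgroup.coe_mul, Subgroup.coe_inv, hqt, hgpq]
    group
  · have h3 : tauJ h ρ ⟨p, hpP⟩ (wt ⟨t, ht⟩) = wt ⟨t, ht⟩ :=
      hpfix _ (Set.mem_iInter.1 hp.1.1 ⟨t, ht⟩)
    have h4 : tauJ h ρ (⟨p, hpP⟩ * qt ⟨t, ht⟩ * (⟨p, hpP⟩ : PSJ h E)⁻¹) (wt ⟨t, ht⟩) =
        tauJ h ρ ⟨p, hpP⟩ (tauJ h ρ (qt ⟨t, ht⟩) (wt ⟨t, ht⟩)) := by
      conv_lhs => rw [← h3]
      rw [← Module.End.mul_apply, ← Module.End.mul_apply, ← map_mul, ← map_mul,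
        inv_mul_cancel_right]
    have h5 : (t : W) = tauJ h ρ (qt ⟨t, ht⟩) (wt ⟨t, ht⟩) - wt ⟨t, ht⟩ := h2
    rw [h4]
    refine (congrArg (tauJ h ρ ⟨p, hpP⟩) h5).trans ?_
    rw [map_sub, h3]

end rank

/-! ### the induction on the strata -/

section strata

variable {E : Type} [NontriviallyNormedField E] [IsUltrametricDist E] [ProperSpace E]
  {a b N : ℕ} (h : a + b = N) {W : Type} [AddCommGroup W] [Module ℂ W]

/-- **one stratum with a condition on the values**: a function of `IndJ` supported on the ranks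
`≥ j` with values in the span of the relations at the points of rank `j` is, up to coinvariants, a
function supported on the ranks `≥ j + 1`. -/
theorem strataJ_value (ρ : (GL (Fin a) E × GL (Fin b) E) →* Module.End ℂ W)
    (hρ : IsSmoothRep ρ) {k j : ℕ} (f : IndJ h ρ)
    (hf : ∀ g, (f : GL (Fin N) E → W) g ≠ 0 → j ≤ rkJ h k g)
    (hv : ∀ g, rkJ h k g = j → (f : GL (Fin N) E → W) g ∈ Submodule.span ℂ
      (rel (tauJ h ρ) (Nk N k E : Set (GL (Fin N) E)) Set.univ g)) :
    ∃ f₀ : IndJ h ρ, f - f₀ ∈ cvN (indActJ h ρ) (Nk N k E) ⊤ ∧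
      ∀ g, (f₀ : GL (Fin N) E → W) g ≠ 0 →
        j + 1 ≤ rkJ h k g ∧ (f : GL (Fin N) E → W) g ≠ 0 := by
  have h1 : (f : GL (Fin N) E → W) ∈ indS (PSJ h E) (tauJ h ρ) := by
    rw [indS_eq_IndJ]
    exact f.2
  have hG : ∀ U ∈ 𝓝 (1 : GL (Fin N) E), ∃ K : Subgroup (GL (Fin N) E),
      IsOpen (K : Set (GL (Fin N) E)) ∧ (K : Set (GL (Fin N) E)) ⊆ U := by
    intro U hU
    obtain ⟨K, hK, -, hKU⟩ := gl_basis U hU
    exact ⟨K, hK, hKU⟩
  obtain ⟨f', hf', h2, h3⟩ := strata_value hG (tauJ_smooth (h := h) hρ)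
    (D₀ := ((glK (Fin N) E 1 zero_le_one le_rfl : Subgroup (GL (Fin N) E)) :
      Set (GL (Fin N) E))) (glK_isCompact one_pos le_rfl)
    (by
      intro g
      obtain ⟨p, q, y, k', hk', h0⟩ := iwasawaJ h g
      exact ⟨⟨pelJ h p q y, ⟨p, q, y, rfl⟩⟩, k', hk', h0⟩)
    (R := rkJ h k) (by
      rintro ⟨_, p, q, y, rfl⟩ g
      exact rkJ_pelJ_mul h k p q y g)
    (isOpen_rkJ h k) (N := ((Nk N k E : Subgroup (GL (Fin N) E)) : Set (GL (Fin N) E)))
    (one_mem _) Nk_directed h1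
    (fun g hg => locAt_of_mem h hρ _ g (hv g hg)) hf
  obtain ⟨h4, h5⟩ := mem_cvN_of_coiJ h h2
  have h6 : f' ∈ IndJ h ρ := by
    rw [← indS_eq_IndJ]
    exact hf'
  exact ⟨⟨f', h6⟩, h5, fun g hg => h3 g hg⟩

/-- several strata, all of whose points kill every vector -/
theorem strataJ_kill (ρ : (GL (Fin a) E × GL (Fin b) E) →* Module.End ℂ W)
    (hρ : IsSmoothRep ρ) {k j₀ j₁ : ℕ} (hj : j₀ ≤ j₁)
    (hL : ∀ j, j₀ ≤ j → j < j₁ → ∀ (w : W) (g : GL (Fin N) E), rkJ h k g = j →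
      w ∈ Submodule.span ℂ (rel (tauJ h ρ) (Nk N k E : Set (GL (Fin N) E)) Set.univ g))
    (f : IndJ h ρ) (hf : ∀ g, (f : GL (Fin N) E → W) g ≠ 0 → j₀ ≤ rkJ h k g) :
    ∃ f₀ : IndJ h ρ, f - f₀ ∈ cvN (indActJ h ρ) (Nk N k E) ⊤ ∧
      ∀ g, (f₀ : GL (Fin N) E → W) g ≠ 0 →
        j₁ ≤ rkJ h k g ∧ (f : GL (Fin N) E → W) g ≠ 0 := by
  induction j₁, hj using Nat.le_induction with
  | base => exact ⟨f, by rw [sub_self]; exact Submodule.zero_mem _, fun g hg => ⟨hf g hg, hg⟩⟩
  | succ j₁ hj ih =>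
    obtain ⟨f₁, h1, h2⟩ := ih fun j hj0 hj1 => hL j hj0 (Nat.lt_succ_of_lt hj1)
    obtain ⟨f₂, h3, h4⟩ := strataJ_value h ρ hρ (k := k) (j := j₁) f₁
      (fun g hg => (h2 g hg).1) (fun g hg => hL j₁ hj (Nat.lt_succ_self _) _ g hg)
    refine ⟨f₂, ?_, fun g hg => ⟨(h4 g hg).1, (h2 g (h4 g hg).2).2⟩⟩
    have : f - f₂ = (f - f₁) + (f₁ - f₂) := by abel
    rw [this]
    exact Submodule.add_mem _ h1 h3

end strata

end SpW
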