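import Pool.Agent.Work.MP_3615d2_al.Co.StratB

/-!
MP_3615d2_al, induced representations `IndJ`: the closed stratum `P Q_k` of the `N_k`-strata, and
polynomials of the central element `diag(z 1_k, 1_{N-k})`.
-/

open Filter Topology Matrix Polynomial

set_option linter.unusedSectionVars false

namespace SpW

section poly

variable {V W : Type} [AddCommGroup V] [Module ℂ V] [AddCommGroup W] [Module ℂ W]

/-- polynomials of two operators related by a linear map, up to a stable subspace -/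
theorem aeval_map_sub_mem {T : Module.End ℂ V} {S : Module.End ℂ W} (ev : V →ₗ[ℂ] W)
    {C : Submodule ℂ W} (hS : ∀ w ∈ C, S w ∈ C) (h : ∀ v, ev (T v) - S (ev v) ∈ C) (p : ℂ[X])
    (v : V) : ev (aeval T p v) - aeval S p (ev v) ∈ C := by
  induction p using Polynomial.induction_on' with
  | add p q hp hq =>
    rw [map_add, map_add, LinearMap.add_apply, LinearMap.add_apply, map_add, add_sub_add_comm]
    exact C.add_mem hp hq
  | monomial n c =>
    rw [aeval_monomial, aeval_monomial, Module.End.mul_apply, Module.End.mul_apply,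
      Module.algebraMap_end_apply, Module.algebraMap_end_apply, map_smul, ← smul_sub]
    refine C.smul_mem c ?_
    induction n with
    | zero => simp
    | succ n ih =>
      rw [pow_succ', pow_succ', Module.End.mul_apply, Module.End.mul_apply]
      have h1 := C.add_mem (h ((T ^ n) v)) (hS _ ih)
      rwa [map_sub, sub_add_sub_cancel] at h1

end poly

section mat

variable {E : Type} [Field E] {N k : ℕ}

/-- `diag(z 1_k, 1_{N-k})`, as a matrix. -/
theorem dgl_zeta_val (z : Eˣ) : ((dgl (fun i : Fin N => if i.1 < k then z else 1) : GL (Fin N) E) :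
    Matrix (Fin N) (Fin N) E) = 1 + ((z : E) - 1) • prj E {i : Fin N | i.1 < k} := by
  rw [dgl_val, prj, ← Matrix.diagonal_one, ← Matrix.diagonal_smul, Matrix.diagonal_add]
  congr 1
  funext i
  by_cases h : i.1 < k <;> simp [h]

theorem dgl_zeta_inv_val (z : Eˣ) : (((dgl (fun i : Fin N => if i.1 < k then z else 1) :
    GL (Fin N) E)⁻¹ : GL (Fin N) E) : Matrix (Fin N) (Fin N) E) =
      1 + (((z⁻¹ : Eˣ) : E) - 1) • prj E {i : Fin N | i.1 < k} := by
  rw [dgl_inv_val, prj, ← Matrix.diagonal_one, ← Matrix.diagonal_smul, Matrix.diagonal_add]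
  congr 1
  funext i
  by_cases h : i.1 < k <;> simp [h]

/-- the commutator of the central element and an element of `Q_k` is in `N_k` -/
theorem zeta_conj_mem {q : GL (Fin N) E} (z : Eˣ)
    (hq : (1 - prj E {i : Fin N | i.1 < k}) * (q : Matrix (Fin N) (Fin N) E) *
      prj E {i : Fin N | i.1 < k} = 0) :
    q * dgl (fun i : Fin N => if i.1 < k then z else 1) * q⁻¹ *
      (dgl (fun i : Fin N => if i.1 < k then z else 1))⁻¹ ∈ Nk N k E := by
  set f : Matrix (Fin N) (Fin N) E := prj E {i : Fin N | i.1 < k} with hf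
  have hq' := blk_inv_zero (E := E) {i : Fin N | i.1 < k} hq
  rw [← hf] at hq'
  have hff : f * f = f := prj_idem _
  have hqf : f * ((q : Matrix (Fin N) (Fin N) E) * f) = (q : Matrix (Fin N) (Fin N) E) * f := by
    rw [sub_mul, one_mul, sub_mul, sub_eq_zero] at hq
    rw [← mul_assoc]
    exact hq.symm
  have hqf' : f * (((q⁻¹ : GL (Fin N) E) : Matrix (Fin N) (Fin N) E) * f) =
      ((q⁻¹ : GL (Fin N) E) : Matrix (Fin N) (Fin N) E) * f := by
    rw [sub_mul, one_mul, sub_mul, sub_eq_zero] at hq'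
    rw [← mul_assoc]
    exact hq'.symm
  have hone : (q : Matrix (Fin N) (Fin N) E) *
      ((q⁻¹ : GL (Fin N) E) : Matrix (Fin N) (Fin N) E) = 1 := by
    rw [← Units.val_mul, mul_inv_cancel, Units.val_one]
  set π : Matrix (Fin N) (Fin N) E := (q : Matrix (Fin N) (Fin N) E) * f *
    ((q⁻¹ : GL (Fin N) E) : Matrix (Fin N) (Fin N) E) with hπ
  have hπf : π * f = f := by
    have : π * f = (q : Matrix (Fin N) (Fin N) E) *
        (f * (((q⁻¹ : GL (Fin N) E) : Matrix (Fin N) (Fin N) E) * f)) := by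
      rw [hπ]
      simp only [mul_assoc]
    rw [this, hqf', ← mul_assoc, hone, one_mul]
  have hfπ : f * π = π := by
    have : f * π = f * ((q : Matrix (Fin N) (Fin N) E) * f) *
        ((q⁻¹ : GL (Fin N) E) : Matrix (Fin N) (Fin N) E) := by
      rw [hπ]
      simp only [mul_assoc]
    rw [this, hqf]
  have hz : ((z⁻¹ : Eˣ) : E) * (z : E) = 1 := by
    rw [← Units.val_mul, inv_mul_cancel, Units.val_one]
  have hval : ((q * dgl (fun i : Fin N => if i.1 < k then z else 1) * q⁻¹ *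
      (dgl (fun i : Fin N => if i.1 < k then z else 1))⁻¹ : GL (Fin N) E) :
        Matrix (Fin N) (Fin N) E) = 1 + ((z : E) - 1) • (π - f) := by
    rw [Units.val_mul, Units.val_mul, Units.val_mul, dgl_zeta_val, dgl_zeta_inv_val, ← hf]
    have h1 : (q : Matrix (Fin N) (Fin N) E) * (1 + ((z : E) - 1) • f) *
        ((q⁻¹ : GL (Fin N) E) : Matrix (Fin N) (Fin N) E) = 1 + ((z : E) - 1) • π := by
      rw [mul_add, add_mul, mul_one, hone, hπ, Matrix.mul_smul, Matrix.smul_mul]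
    rw [h1, add_mul, one_mul, mul_add, mul_one, Matrix.smul_mul, Matrix.mul_smul, hπf, smul_smul,
      smul_sub]
    have h2 : (((z⁻¹ : Eˣ) : E) - 1) + ((z : E) - 1) * (((z⁻¹ : Eˣ) : E) - 1) = -((z : E) - 1) := by
      have h3 : (z : E) * ((z⁻¹ : Eˣ) : E) = 1 := by
        rw [← Units.val_mul, mul_inv_cancel, Units.val_one]
      linear_combination h3
    have h4 : (((z⁻¹ : Eˣ) : E) - 1) • f + (((z : E) - 1) * (((z⁻¹ : Eˣ) : E) - 1)) • f =
        -(((z : E) - 1) • f) := by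
      rw [← add_smul, h2, neg_smul]
    have h5 : 1 + (((z⁻¹ : Eˣ) : E) - 1) • f + (((z : E) - 1) • π +
        (((z : E) - 1) * (((z⁻¹ : Eˣ) : E) - 1)) • f) =
        1 + ((z : E) - 1) • π + ((((z⁻¹ : Eˣ) : E) - 1) • f +
          (((z : E) - 1) * (((z⁻¹ : Eˣ) : E) - 1)) • f) := by abel
    rw [h5, h4]
    abel
  intro i j hij
  rw [hval, Matrix.add_apply]
  have h0 : (((z : E) - 1) • (π - f)) i j = 0 := by
    set M := ((z : E) - 1) • (π - f) with hM
    have hM1 : f * M = M := by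
      rw [hM, Matrix.mul_smul, mul_sub, hfπ, hff]
    have hM2 : M * f = 0 := by
      rw [hM, Matrix.smul_mul, sub_mul, hπf, hff, sub_self, smul_zero]
    by_cases hi : i.1 < k
    · have hj : j.1 < k := by
        by_contra hj
        exact hij ⟨hi, by omega⟩
      have := congrFun (congrFun hM2 i) j
      rw [hf, mul_prj_apply] at this
      simpa [hj] using this
    · rw [← hM1, hf, prj_mul_apply]
      simp [hi]
  rw [h0, add_zero]

end mat

section closed

variable {E : Type} [NontriviallyNormedField E] {a b N : ℕ} (h : a + b = N)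
  {W : Type} [AddCommGroup W] [Module ℂ W]

/-- `N_k` is contained in every standard parabolic subgroup -/
theorem Nk_le_PSJ (k : ℕ) {n : GL (Fin N) E} (hn : n ∈ Nk N k E) : n ∈ PSJ h E := by
  apply (exists_pelJ_iff h n).2
  ext i j
  show (n : Matrix (Fin N) (Fin N) E) (sJ h (Sum.inr i)) (sJ h (Sum.inl j)) = 0
  rw [hn _ _ (by
    rw [sJ_inl, sJ_inr]
    have := j.2
    omega), Matrix.one_apply_ne]
  intro h0
  have := (sJ h).injective h0
  simp at this

theorem dgl_mem_PSJ (t : Fin N → Eˣ) : (dgl t : GL (Fin N) E) ∈ PSJ h E := by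
  apply (exists_pelJ_iff h (dgl t)).2
  ext i j
  show ((dgl t : GL (Fin N) E) : Matrix (Fin N) (Fin N) E) (sJ h (Sum.inr i))
    (sJ h (Sum.inl j)) = 0
  rw [dgl_val, Matrix.diagonal_apply_ne]
  intro h0
  have := (sJ h).injective h0
  simp at this

/-- the diagonal elements in block form -/
theorem dgl_eq_pelJ (t : Fin N → Eˣ) : (dgl t : GL (Fin N) E) =
    pelJ h (dgl fun i => t (sJ h (Sum.inl i))) (dgl fun i => t (sJ h (Sum.inr i))) 0 := by
  apply Units.ext
  ext i j
  obtain ⟨i, rfl⟩ := (sJ h).surjective i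
  obtain ⟨j, rfl⟩ := (sJ h).surjective j
  rw [pelJ_val, bmJ_apply, dgl_val, Matrix.diagonal_apply]
  have hs : (sJ h i = sJ h j) ↔ i = j := (sJ h).apply_eq_iff_eq
  rcases i with i | i <;> rcases j with j | j <;>
    simp [dgl_val, Matrix.diagonal_apply]

/-- values of the polynomials of the central element at the points of `P Q_k` -/
theorem closed_value {ρ : (GL (Fin a) E × GL (Fin b) E) →* Module.End ℂ W} {k : ℕ} (z : Eˣ)
    (P : ℂ[X])
    (hP : ∀ w, aeval (tauJ h ρ ⟨dgl (fun i : Fin N => if i.1 < k then z else 1),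
      dgl_mem_PSJ h _⟩) P w ∈ Submodule.span ℂ
        (rel (tauJ h ρ) (Nk N k E : Set (GL (Fin N) E)) Set.univ 1))
    (f : IndJ h ρ) (p : PSJ h E) {q : GL (Fin N) E}
    (hq : (1 - prj E {i : Fin N | i.1 < k}) * (q : Matrix (Fin N) (Fin N) E) *
      prj E {i : Fin N | i.1 < k} = 0) :
    ((aeval (indActJ h ρ (dgl (fun i : Fin N => if i.1 < k then z else 1))) P f : IndJ h ρ) :
      GL (Fin N) E → W) (p * q) ∈ Submodule.span ℂ
        (rel (tauJ h ρ) (Nk N k E : Set (GL (Fin N) E)) Set.univ (p * q)) := by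
  set ζ : GL (Fin N) E := dgl (fun i : Fin N => if i.1 < k then z else 1) with hζ
  set C := Submodule.span ℂ (rel (tauJ h ρ) (Nk N k E : Set (GL (Fin N) E)) Set.univ 1) with hC
  set S := tauJ h ρ ⟨ζ, dgl_mem_PSJ h _⟩ with hS
  -- the relations at `q`
  have hCq : C ≤ Submodule.span ℂ
      (rel (tauJ h ρ) (Nk N k E : Set (GL (Fin N) E)) Set.univ q) := by
    refine Submodule.span_mono ?_
    rintro _ ⟨w, -, p', c, hc, hp', rfl⟩
    refine ⟨w, Set.mem_univ _, p', q⁻¹ * c * q, conj_mem_Nk hc hq, ?_, rfl⟩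
    rw [hp']
    group
  have hSC : ∀ w ∈ C, S w ∈ C := by
    intro w hw
    have h1 := rel_mul_left (τ := tauJ h ρ) (⟨ζ, dgl_mem_PSJ h _⟩ : PSJ h E) 1 hw
    rw [← hS] at h1
    refine Submodule.span_mono ?_ h1
    rintro _ ⟨w, -, p', c, hc, hp', rfl⟩
    refine ⟨w, Set.mem_univ _, p', ζ * c * ζ⁻¹, ?_, ?_, rfl⟩
    · have h2 : (1 - prj E {i : Fin N | i.1 < k}) *
          ((ζ⁻¹ : GL (Fin N) E) : Matrix (Fin N) (Fin N) E) *
            prj E {i : Fin N | i.1 < k} = 0 := by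
        rw [hζ, dgl_zeta_inv_val, mul_add, mul_one, add_mul, sub_mul, one_mul, Matrix.mul_smul,
          Matrix.smul_mul, sub_mul, one_mul, prj_idem]
        simp
      have h3 := conj_mem_Nk (E := E) hc h2
      rwa [inv_inv] at h3
    · rw [hp']
      show ζ * 1 * c * (ζ * 1)⁻¹ = 1 * (ζ * c * ζ⁻¹) * 1⁻¹
      group
  -- the evaluation at `q`
  let ev : IndJ h ρ →ₗ[ℂ] W :=
    { toFun := fun f => (f : GL (Fin N) E → W) q
      map_add' := fun _ _ => rfl
      map_smul' := fun _ _ => rfl }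
  have hev : ∀ f : IndJ h ρ, ev (indActJ h ρ ζ f) - S (ev f) ∈ C := by
    intro f
    have hn := zeta_conj_mem (k := k) z hq
    rw [← hζ] at hn
    set n : GL (Fin N) E := q * ζ * q⁻¹ * ζ⁻¹ with hn'
    have e1 : q * ζ = n * (ζ * q) := by
      rw [hn']
      group
    have h2 : ((⟨f, f.2⟩ : IndJ h ρ) : GL (Fin N) E → W) ∈ indE (PSJ h E) (tauJ h ρ) :=
      mem_indE_tauJ.2 f.2.1
    have e2 : ev (indActJ h ρ ζ f) = tauJ h ρ ⟨n, Nk_le_PSJ h k hn⟩ (S (ev f)) := by
      show (f : GL (Fin N) E → W) (q * ζ) = _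
      rw [e1]
      have h3 := h2 ⟨n, Nk_le_PSJ h k hn⟩ (ζ * q)
      have h4 := h2 ⟨ζ, dgl_mem_PSJ h _⟩ q
      refine h3.trans ?_
      rw [h4]
      rfl
    rw [e2]
    refine Submodule.subset_span ⟨S (ev f), Set.mem_univ _, ⟨n, Nk_le_PSJ h k hn⟩, n, hn, ?_, rfl⟩
    show n = 1 * n * 1⁻¹
    group
  have h1 := aeval_map_sub_mem (T := indActJ h ρ ζ) ev hSC hev P f
  have h2 : ev (aeval (indActJ h ρ ζ) P f) ∈ C := by
    have h3 := C.add_mem h1 (hP (ev f))
    rwa [sub_add_cancel] at h3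
  have h3 := rel_mul_left (τ := tauJ h ρ) p q (hCq h2)
  have h4 : ((aeval (indActJ h ρ ζ) P f : IndJ h ρ) : GL (Fin N) E → W) (p * q) =
      tauJ h ρ p (ev (aeval (indActJ h ρ ζ) P f)) :=
    mem_indE_tauJ.2 (aeval (indActJ h ρ ζ) P f).2.1 p q
  rw [h4]
  exact h3

/-- the stratum `Y ⊆ g R_k` (`a ≤ k`) is in `P Q_k` -/
theorem exists_closed_low {k j : ℕ} (hj : a + j = k) {g : GL (Fin N) E}
    (hg : rkJ h k g = j) : ∃ (p : PSJ h E) (q : GL (Fin N) E),
      (1 - prj E {i : Fin N | i.1 < k}) * (q : Matrix (Fin N) (Fin N) E) *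
        prj E {i : Fin N | i.1 < k} = 0 ∧ g = p * q := by
  classical
  obtain ⟨u, hh⟩ := exists_gl_map (LinearMap.range
    (lowKJ h k (g : Matrix (Fin N) (Fin N) E)).mulVecLin)
  have hfin : Module.finrank E (LinearMap.range
      (lowKJ h k (g : Matrix (Fin N) (Fin N) E)).mulVecLin) = j := hg
  rw [hfin] at hh
  refine ⟨⟨pelJ h 1 u 0, ⟨1, u, 0, rfl⟩⟩, pelJ h 1 u⁻¹ 0 * g, ?_, ?_⟩
  · have h1 : lowKJ h k ((pelJ h 1 u⁻¹ 0 * g : GL (Fin N) E) : Matrix (Fin N) (Fin N) E) =
        ((u⁻¹ : GL (Fin b) E) : Matrix (Fin b) (Fin b) E) *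
          lowKJ h k (g : Matrix (Fin N) (Fin N) E) := lowKJ_pelJ_mul h k _ _ _ _
    ext x y
    rw [blk_apply, Matrix.zero_apply]
    split_ifs with hxy
    · obtain ⟨hx, hy⟩ := hxy
      have hx' : ¬ x.1 < k := hx
      have hy' : y.1 < k := hy
      have ex : x = sJ h (Sum.inr ⟨x.1 - a, by omega⟩) := by
        apply Fin.ext
        rw [sJ_inr]
        show x.1 = a + (x.1 - a)
        omega
      have h2 : ((pelJ h 1 u⁻¹ 0 * g : GL (Fin N) E) : Matrix (Fin N) (Fin N) E) x y =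
          lowKJ h k ((pelJ h 1 u⁻¹ 0 * g : GL (Fin N) E) : Matrix (Fin N) (Fin N) E)
            ⟨x.1 - a, by omega⟩ ⟨y, hy'⟩ := by
        show _ = ((pelJ h 1 u⁻¹ 0 * g : GL (Fin N) E) : Matrix (Fin N) (Fin N) E)
          (sJ h (Sum.inr ⟨x.1 - a, by omega⟩)) y
        rw [← ex]
      rw [h2, h1]
      -- the column `y` of `lowKJ` is in the range
      have h3 := (hh (((u⁻¹ : GL (Fin b) E) : Matrix (Fin b) (Fin b) E).mulVec
        ((lowKJ h k (g : Matrix (Fin N) (Fin N) E)).mulVec (Pi.single ⟨y, hy'⟩ 1)))).1 (by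
          rw [Matrix.mulVec_mulVec, ← Units.val_mul, mul_inv_cancel, Units.val_one,
            Matrix.one_mulVec]
          exact ⟨_, rfl⟩) ⟨x.1 - a, by omega⟩ (by
            show j ≤ x.1 - a
            omega)
      rw [Matrix.mulVec_mulVec, Matrix.mulVec_single_one] at h3
      exact h3
    · rfl
  · show g = pelJ h 1 u 0 * (pelJ h 1 u⁻¹ 0 * g)
    rw [← mul_assoc, pelJ_mul, mul_inv_cancel, one_mul, Matrix.mul_zero, Matrix.zero_mul,
      add_zero, pelJ_one, one_mul]

/-- the stratum `g R_k ⊆ Y` (`k ≤ a`) is in `P Q_k` -/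
theorem exists_closed_up {k : ℕ} (hk : k ≤ N) {g : GL (Fin N) E}
    (hg : rkJ h k g = 0) : ∃ (p : PSJ h E) (q : GL (Fin N) E),
      (1 - prj E {i : Fin N | i.1 < k}) * (q : Matrix (Fin N) (Fin N) E) *
        prj E {i : Fin N | i.1 < k} = 0 ∧ g = p * q := by
  classical
  obtain ⟨u, hh⟩ := exists_gl_map (spAJ h k g)
  have hfr := finrank_spAJ h hk g
  have hfr' : Module.finrank E (spAJ h k g) = k := by omega
  rw [hfr'] at hh
  -- the lower block vanishes
  have h0 : Module.finrank E (LinearMap.range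
      (lowKJ h k (g : Matrix (Fin N) (Fin N) E)).mulVecLin) = 0 := hg
  rw [Submodule.finrank_eq_zero, LinearMap.range_eq_bot] at h0
  have hlow : ∀ x, (lowKJ h k (g : Matrix (Fin N) (Fin N) E)).mulVec x = 0 := fun x =>
    LinearMap.congr_fun h0 x
  refine ⟨⟨pelJ h u 1 0, ⟨u, 1, 0, rfl⟩⟩, pelJ h u⁻¹ 1 0 * g, ?_, ?_⟩
  · ext x y
    rw [blk_apply, Matrix.zero_apply]
    split_ifs with hxy
    · obtain ⟨hx, hy⟩ := hxy
      have hx' : ¬ x.1 < k := hx
      have hy' : y.1 < k := hy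
      obtain ⟨x, rfl⟩ := (sJ h).surjective x
      have e : ((pelJ h u⁻¹ 1 0 * g : GL (Fin N) E) : Matrix (Fin N) (Fin N) E) =
          bmJ h ((u⁻¹ : GL (Fin a) E) : Matrix (Fin a) (Fin a) E) 0 0 1 *
            (g : Matrix (Fin N) (Fin N) E) := rfl
      rw [e]
      rcases x with x | x
      · have h1 := congrFun (congrFun (upRwJ_bmJ_mul h
          ((u⁻¹ : GL (Fin a) E) : Matrix (Fin a) (Fin a) E) 0 0 1
            (g : Matrix (Fin N) (Fin N) E)) x) y
        rw [Matrix.zero_mul, add_zero] at h1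
        refine h1.trans ?_
        have h3 := (hh (((u⁻¹ : GL (Fin a) E) : Matrix (Fin a) (Fin a) E).mulVec
          ((upKJ h k (g : Matrix (Fin N) (Fin N) E)).mulVec (Pi.single ⟨y, hy'⟩ 1)))).1 (by
            rw [Matrix.mulVec_mulVec, ← Units.val_mul, mul_inv_cancel, Units.val_one,
              Matrix.one_mulVec]
            exact ⟨Pi.single ⟨y, hy'⟩ 1, hlow _, rfl⟩) x (by
              rw [sJ_inl] at hx'
              omega)
        rw [Matrix.mulVec_mulVec, Matrix.mulVec_single_one] at h3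
        exact h3
      · have h1 := congrFun (congrFun (loRwJ_bmJ_mul h
          ((u⁻¹ : GL (Fin a) E) : Matrix (Fin a) (Fin a) E) 0 0 1
            (g : Matrix (Fin N) (Fin N) E)) x) y
        rw [Matrix.zero_mul, zero_add, Matrix.one_mul] at h1
        refine h1.trans ?_
        have h3 := congrFun (hlow (Pi.single ⟨y, hy'⟩ 1)) x
        rw [Matrix.mulVec_single_one] at h3
        exact h3
    · rfl
  · show g = pelJ h u 1 0 * (pelJ h u⁻¹ 1 0 * g)
    rw [← mul_assoc, pelJ_mul, mul_inv_cancel, one_mul, Matrix.mul_zero, Matrix.zero_mul,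
      add_zero, pelJ_one, one_mul]

/-- the relations at `1` contain the coinvariants of the upper block (`k ≤ a`) -/
theorem cvN_le_rel_up {ρ : (GL (Fin a) E × GL (Fin b) E) →* Module.End ℂ W} {k : ℕ}
    {w : W} (hw : w ∈ cvN ρ ((Nk a k E).prod ⊥) ⊤) :
    w ∈ Submodule.span ℂ (rel (tauJ h ρ) (Nk N k E : Set (GL (Fin N) E)) Set.univ 1) := by
  refine Submodule.span_mono ?_ hw
  rintro _ ⟨⟨u, u'⟩, ⟨hu, hu'⟩, v, -, rfl⟩
  have hu'1 : u' = 1 := hu'
  subst hu'1
  have hu0 : u ∈ Nk a k E := hu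
  refine ⟨v, Set.mem_univ _, ⟨pelJ h u 1 0, ⟨u, 1, 0, rfl⟩⟩, pelJ h u 1 0, ?_, ?_, ?_⟩
  · intro i j hij
    obtain ⟨i, rfl⟩ := (sJ h).surjective i
    obtain ⟨j, rfl⟩ := (sJ h).surjective j
    rw [pelJ_val, bmJ_apply]
    have hs : (sJ h i = sJ h j) ↔ i = j := (sJ h).apply_eq_iff_eq
    rcases i with i | i <;> rcases j with j | j
    · rw [Matrix.fromBlocks_apply₁₁, hu0 i j (by rwa [sJ_inl, sJ_inl] at hij), Matrix.one_apply,
        Matrix.one_apply]
      simp
    · rw [Matrix.fromBlocks_apply₁₂]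
      simp
    · rw [Matrix.fromBlocks_apply₂₁]
      simp
    · rw [Matrix.fromBlocks_apply₂₂, Units.val_one, Matrix.one_apply, Matrix.one_apply]
      simp
  · group
  · rw [tauJ_pelJ ρ _ rfl]

/-- the relations at `1` contain the coinvariants of the lower block (`a ≤ k`) -/
theorem cvN_le_rel_low {ρ : (GL (Fin a) E × GL (Fin b) E) →* Module.End ℂ W} {k j : ℕ}
    (hj : a + j = k) {w : W}
    (hw : w ∈ cvN ρ ((⊥ : Subgroup (GL (Fin a) E)).prod (Nk b j E)) ⊤) :
    w ∈ Submodule.span ℂ (rel (tauJ h ρ) (Nk N k E : Set (GL (Fin N) E)) Set.univ 1) := by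
  refine Submodule.span_mono ?_ hw
  rintro _ ⟨⟨u, u'⟩, ⟨hu, hu'⟩, v, -, rfl⟩
  have hu1 : u = 1 := hu
  subst hu1
  have hu0 : u' ∈ Nk b j E := hu'
  refine ⟨v, Set.mem_univ _, ⟨pelJ h 1 u' 0, ⟨1, u', 0, rfl⟩⟩, pelJ h 1 u' 0, ?_, ?_, ?_⟩
  · intro x y hxy
    obtain ⟨x, rfl⟩ := (sJ h).surjective x
    obtain ⟨y, rfl⟩ := (sJ h).surjective y
    rw [pelJ_val, bmJ_apply]
    have hs : (sJ h x = sJ h y) ↔ x = y := (sJ h).apply_eq_iff_eq
    rcases x with x | x <;> rcases y with y | y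
    · rw [Matrix.fromBlocks_apply₁₁, Units.val_one, Matrix.one_apply, Matrix.one_apply]
      simp
    · rw [Matrix.fromBlocks_apply₁₂]
      simp
    · rw [Matrix.fromBlocks_apply₂₁]
      simp
    · rw [Matrix.fromBlocks_apply₂₂, hu0 x y (by
        rw [sJ_inr, sJ_inr] at hxy
        omega), Matrix.one_apply, Matrix.one_apply]
      simp
  · group
  · rw [tauJ_pelJ ρ _ rfl]

end closed

end SpW
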